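import Pool.Agent.Lib.MP_62a5ad_mp.RI.Spec

/-!
# MP_62a5ad, RI/Add: one more algebraically independent element
-/

set_option autoImplicit false

namespace Pool.Agent.MP62a5ad.RI

namespace addAux

/-- The evaluation at `Fin.cons b y` in terms of `finSuccEquiv`. -/
theorem aeval_cons {L R : Type} [Field L] [CommRing R] [Algebra L R] {r : ℕ} (y : Fin r → R)
    (b : R) (f : MvPolynomial (Fin (r + 1)) L) :
    MvPolynomial.aeval (Fin.cons b y : Fin (r + 1) → R) f =
      Polynomial.eval₂ (MvPolynomial.aeval y : MvPolynomial (Fin r) L →ₐ[L] R).toRingHom b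
        (MvPolynomial.finSuccEquiv L r f) := by
  induction f using MvPolynomial.induction_on with
  | C a =>
    have h : MvPolynomial.finSuccEquiv L r (MvPolynomial.C a)
        = Polynomial.C (MvPolynomial.C a) := by
      simp [MvPolynomial.finSuccEquiv_apply]
    rw [h, Polynomial.eval₂_C]
    simp
  | add p q hp hq => rw [map_add, map_add, Polynomial.eval₂_add, hp, hq]
  | mul_X p i hp =>
    rw [map_mul, map_mul, Polynomial.eval₂_mul, hp, MvPolynomial.aeval_X]
    congr 1
    refine Fin.cases ?_ (fun j => ?_) i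
    · rw [MvPolynomial.finSuccEquiv_X_zero, Polynomial.eval₂_X, Fin.cons_zero]
    · rw [MvPolynomial.finSuccEquiv_X_succ, Polynomial.eval₂_C, Fin.cons_succ]
      simp

/-- The key step, by induction on the degree. -/
theorem eval_ne {L R S : Type} [Field L] [CommRing R] [IsDomain R] [CommRing S]
    [Algebra L R] [Algebra L S] (φ : R →ₐ[L] S) {r : ℕ} (y : Fin r → R) (b : R)
    (h : AlgebraicIndependent L (fun i => φ (y i))) (hb : b ≠ 0) (hφ : φ b = 0) :
    ∀ (N : ℕ) (P : Polynomial (MvPolynomial (Fin r) L)), P.natDegree ≤ N → P ≠ 0 →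
      Polynomial.eval₂ (MvPolynomial.aeval y : MvPolynomial (Fin r) L →ₐ[L] R).toRingHom b P ≠ 0 := by
  have key : ∀ P : Polynomial (MvPolynomial (Fin r) L), P.coeff 0 ≠ 0 →
      Polynomial.eval₂ (MvPolynomial.aeval y : MvPolynomial (Fin r) L →ₐ[L] R).toRingHom b P
        ≠ 0 := by
    intro P hP h0
    apply hP
    have h1 : φ (Polynomial.eval₂
        (MvPolynomial.aeval y : MvPolynomial (Fin r) L →ₐ[L] R).toRingHom b P) = 0 := by
      rw [h0, map_zero]
    have h2 : φ.toRingHom (Polynomial.eval₂
        (MvPolynomial.aeval y : MvPolynomial (Fin r) L →ₐ[L] R).toRingHom b P) = 0 := h1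
    rw [Polynomial.hom_eval₂] at h2
    have h3 : φ.toRingHom b = 0 := hφ
    rw [h3, Polynomial.eval₂_at_zero] at h2
    have h4 : MvPolynomial.aeval (fun i => φ (y i)) (P.coeff 0) = 0 := by
      rw [← h2]
      have h5 : (MvPolynomial.aeval (fun i => φ (y i)) : MvPolynomial (Fin r) L →ₐ[L] S)
          = φ.comp (MvPolynomial.aeval y) := by
        apply MvPolynomial.algHom_ext
        intro i
        simp
      rw [h5]
      rfl
    exact (algebraicIndependent_iff.mp h) _ h4
  intro N
  induction N with
  | zero =>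
    intro P hP hP0
    apply key
    intro h0
    apply hP0
    rw [Polynomial.eq_C_of_natDegree_le_zero hP, h0, Polynomial.C_0]
  | succ N ih =>
    intro P hP hP0
    by_cases hc : P.coeff 0 = 0
    · have h1 := Polynomial.divX_mul_X_add P
      rw [hc, Polynomial.C_0, add_zero] at h1
      have hq : P.divX ≠ 0 := by
        intro h2
        apply hP0
        rw [← h1, h2, zero_mul]
      have hd : P.divX.natDegree ≤ N := by
        rw [Polynomial.natDegree_divX_eq_natDegree_tsub_one]
        omega
      have h3 := ih P.divX hd hq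
      rw [← h1, Polynomial.eval₂_mul_X]
      exact mul_ne_zero h3 hb
    · exact key P hc

end addAux

theorem add : S_Add := by
  intro L R S _ _ _ _ _ _ φ r y b h hb hφ
  rw [algebraicIndependent_iff]
  intro f hf
  by_contra hne
  rw [addAux.aeval_cons] at hf
  refine addAux.eval_ne φ y b h hb hφ _ (MvPolynomial.finSuccEquiv L r f) le_rfl ?_ hf
  intro h0
  apply hne
  exact (MvPolynomial.finSuccEquiv L r).injective (by rw [h0, map_zero])

end Pool.Agent.MP62a5ad.RI
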