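import Pool.Agent.Lib.MP_62a5ad_mp.RI.Spec

/-!
# MP_62a5ad, RI: the coordinates of a polygon are algebraic over the field of its image
-/

set_option autoImplicit false

namespace Pool.Agent.MP62a5ad.RI

open Matrix

namespace algAux

theorem ev_mem {n : ℕ} {L K : Type} [Field L] [Field K] [Algebra L K] (E : IntermediateField L K)
    (f : PR n L) (w : Pg n K) (hw : ∀ k i, w k i ∈ E) : ev f w ∈ E := by
  unfold ev
  induction f using MvPolynomial.induction_on with
  | C a => rw [MvPolynomial.aeval_C]; exact E.algebraMap_mem a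
  | add p q hp hq => rw [map_add]; exact E.add_mem hp hq
  | mul_X p x hp => rw [map_mul, MvPolynomial.aeval_X]; exact E.mul_mem hp (hw x.1 x.2)

theorem alg_of_mem {L K : Type} [Field L] [Field K] [Algebra L K] (E : IntermediateField L K)
    {x : K} (hx : x ∈ E) : IsAlgebraic E x :=
  isAlgebraic_algebraMap (⟨x, hx⟩ : E)

theorem alg_of_zpow {L K : Type} [Field L] [Field K] [Algebra L K] (E : IntermediateField L K)
    {x : K} (m : ℤ) (hm : m ≠ 0) (hx : x ^ m ∈ E) : IsAlgebraic E x := by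
  have h : x ^ m.natAbs ∈ E := by
    rcases Int.natAbs_eq m with h1 | h1
    · rw [h1, zpow_natCast] at hx
      exact hx
    · rw [h1, _root_.zpow_neg, zpow_natCast] at hx
      have := E.inv_mem hx
      rwa [inv_inv] at this
  exact IsAlgebraic.of_pow (Int.natAbs_pos.mpr hm) (alg_of_mem E h)

end algAux

open algAux in
theorem alg : S_Alg := by
  intro n _ L K _ _ _ d v hreg
  set y : Pg n K := fwd (d.up K) v with hy
  set s : Pg n K := bwd (d.up K) y with hs
  set E := fld L y with hE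
  have hyE : ∀ k i, y k i ∈ E := fun k i =>
    IntermediateField.subset_adjoin L _ ⟨(k, i), rfl⟩
  have hsE : ∀ k i, s k i ∈ E := by
    intro k i
    have h1 := congrFun (congrFun (Gg_pt d y) k) i
    rw [hs, ← h1]
    exact ev_mem E _ y hyE
  have hv0 : ∀ k, v k ≠ 0 := by
    intro k hk
    apply hreg k
    have h1 : y k = 0 := by
      show X5 (v k) _ _ _ = 0
      rw [hk]
      exact X5_zero1 _ _ _
    show X5 (y k) _ _ _ = 0
    rw [h1]
    exact X5_zero1 _ _ _
  have hy0 : ∀ k, y k ≠ 0 := by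
    intro k hk
    apply hreg k
    show X5 (y k) _ _ _ = 0
    rw [hk]
    exact X5_zero1 _ _ _
  have hb : ∀ k, ∃ j, s k j ≠ 0 := by
    intro k
    by_contra h
    push Not at h
    exact hreg k (funext h)
  choose b hb using hb
  have hpar : ∀ k j, s k (b k) * v k j = s k j * v k (b k) := fun k j =>
    bwd_fwd_par (d.up K) v k (b k) j
  let x : Fin n → K := fun k => v k (b k)
  have hx0 : ∀ k, x k ≠ 0 := by
    intro k hk
    apply hv0 k
    funext j
    have h1 := hpar k j
    rw [show v k (b k) = 0 from hk, mul_zero] at h1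
    exact (mul_eq_zero.mp h1).resolve_left (hb k)
  let r : Pg n K := fun k j => s k j / s k (b k)
  have hrE : ∀ k j, r k j ∈ E := fun k j => E.div_mem (hsE k j) (hsE k (b k))
  have hvr : ∀ k j, v k j = x k * r k j := by
    intro k j
    show v k j = v k (b k) * (s k j / s k (b k))
    rw [mul_div_assoc', eq_div_iff (hb k), mul_comm, hpar k j, mul_comm]
  have hvsc : v = sc x r := by
    funext k j
    exact hvr k j
  have ht : ∀ k, ∃ t ∈ E, t ≠ 0 ∧ x (k + 1) = t * x k ^ (-3 : ℤ) := by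
    intro k
    obtain ⟨i, hi⟩ : ∃ i, y k i ≠ 0 := by
      by_contra h
      push Not at h
      exact hy0 k (funext h)
    have h1 : y k i = x k ^ 3 * x (k + 1) * fwd (d.up K) r k i := by
      rw [hy, hvsc, fwd_sc]
      rfl
    have h2 : fwd (d.up K) r k i ∈ E := by
      have h3 := congrFun (congrFun (Fg_pt d r) k) i
      rw [← h3]
      exact ev_mem E _ r hrE
    have h3 : fwd (d.up K) r k i ≠ 0 := by
      intro h
      rw [h, mul_zero] at h1
      exact hi h1
    refine ⟨y k i / fwd (d.up K) r k i, E.div_mem (hyE k i) h2, div_ne_zero hi h3, ?_⟩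
    rw [h1, mul_div_cancel_right₀ _ h3, mul_assoc, mul_comm (x (k + 1)), ← mul_assoc]
    have h4 : x k ^ 3 * x k ^ (-3 : ℤ) = 1 := by
      rw [← zpow_natCast (x k) 3]
      rw [_root_.zpow_neg]
      exact mul_inv_cancel₀ (zpow_ne_zero 3 (hx0 k))
    rw [h4, one_mul]
  have hind : ∀ (k : Fin n) (j : ℕ), ∃ τ ∈ E, τ ≠ 0 ∧ x (k + j • (1 : Fin n)) = τ * x k ^ ((-3 : ℤ) ^ j) := by
    intro k j
    induction j with
    | zero =>
      refine ⟨1, E.one_mem, one_ne_zero, ?_⟩
      rw [zero_nsmul, add_zero, pow_zero, zpow_one, one_mul]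
    | succ j ih =>
      obtain ⟨τ, hτ, hτ0, hτx⟩ := ih
      obtain ⟨t, htE, ht0, htx⟩ := ht (k + j • (1 : Fin n))
      refine ⟨t * τ ^ (-3 : ℤ), E.mul_mem htE ?_, mul_ne_zero ht0 (zpow_ne_zero _ hτ0), ?_⟩
      · rw [_root_.zpow_neg]
        exact E.inv_mem (E.pow_mem hτ 3)
      rw [succ_nsmul, ← add_assoc, htx, hτx, mul_zpow, ← _root_.zpow_mul, ← pow_succ, mul_assoc]
  have hxalg : ∀ k, IsAlgebraic E (x k) := by
    intro k
    obtain ⟨τ, hτ, hτ0, hτx⟩ := hind k n
    have hn1 : n • (1 : Fin n) = 0 := by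
      have h1 := card_nsmul_eq_zero (x := (1 : Fin n))
      rwa [Fintype.card_fin] at h1
    rw [hn1, add_zero] at hτx
    refine alg_of_zpow E (1 - (-3 : ℤ) ^ n) ?_ ?_
    · intro h
      have h1 : (-3 : ℤ) ^ n = 1 := by linarith
      have h2 : ((-3 : ℤ) ^ n).natAbs = 1 := by rw [h1]; rfl
      rw [Int.natAbs_pow] at h2
      have h3 : (3 : ℕ) ^ n = 1 := h2
      have h4 : n ≠ 0 := NeZero.ne n
      have h5 := (Nat.pow_eq_one.mp h3)
      omega
    · have h1 : x k ^ (1 - (-3 : ℤ) ^ n) = τ := by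
        rw [zpow_sub₀ (hx0 k), zpow_one, div_eq_iff (zpow_ne_zero _ (hx0 k))]
        exact hτx
      rw [h1]
      exact hτ
  intro k i
  rw [hvr k i]
  exact (hxalg k).mul (alg_of_mem E (hrE k i))

end Pool.Agent.MP62a5ad.RI
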