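import Pool.Agent.Lib.MP_62a5ad_mp.RI.Spec3

/-!
# MP_62a5ad: explicit certificates with a marker for `n = 4`
-/

set_option autoImplicit false
set_option maxRecDepth 100000

namespace Pool.Agent.MP62a5ad.RI

open Matrix

namespace base4Aux

/-- The orbit, `n = 4`, twist `0`. -/
def tb40 : List (Fin 4 → V5 (ZMod 9)) := [
  ![![1, 0, 0, 0, 0], ![1, 8, 1, 3, 4], ![1, 4, 3, 3, 0], ![5, 0, 3, 1, 7]],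
  ![![0, 0, 0, 5, 3], ![2, 4, 0, 0, 5], ![4, 8, 4, 8, 2], ![0, 8, 2, 7, 2]],
  ![![0, 0, 8, 0, 0], ![0, 4, 7, 5, 4], ![6, 0, 2, 8, 6], ![1, 7, 5, 0, 3]],
  ![![4, 0, 0, 0, 0], ![0, 1, 4, 8, 0], ![1, 7, 5, 1, 5], ![2, 7, 0, 1, 7]],
  ![![0, 0, 0, 0, 8], ![5, 4, 0, 4, 7], ![8, 6, 6, 0, 2], ![0, 3, 1, 7, 5]],
  ![![0, 0, 4, 0, 0], ![8, 0, 0, 1, 4], ![1, 5, 1, 7, 5], ![1, 7, 2, 7, 0]],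
  ![![0, 8, 0, 0, 0], ![4, 7, 5, 4, 0], ![0, 2, 8, 6, 6], ![7, 5, 0, 3, 1]],
  ![![0, 0, 0, 0, 4], ![1, 4, 8, 0, 0], ![7, 5, 1, 5, 1], ![7, 0, 1, 7, 2]],
  ![![0, 0, 0, 8, 0], ![4, 0, 4, 7, 5], ![6, 6, 0, 2, 8], ![3, 1, 7, 5, 0]],
  ![![0, 4, 0, 0, 0], ![0, 0, 1, 4, 8], ![5, 1, 7, 5, 1], ![7, 2, 7, 0, 1]],
  ![![8, 0, 0, 0, 0], ![7, 5, 4, 0, 4], ![2, 8, 6, 6, 0], ![5, 0, 3, 1, 7]],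
  ![![0, 0, 0, 4, 0], ![4, 8, 0, 0, 1], ![5, 1, 5, 1, 7], ![0, 1, 7, 2, 7]],
  ![![0, 0, 8, 0, 0], ![0, 4, 7, 5, 4], ![6, 0, 2, 8, 6], ![1, 7, 5, 0, 3]]]

/-- The sequence of the orbit. -/
def Ab40 (m : ℕ) : Fin 4 → V5 (ZMod 9) := tb40.getD m 0

/-- The links at the marker. -/
def lb40 : List (V5 (ZMod 9)) := [
  ![1, 2, 7, 0, 7],
  ![3, 2, 2, 1, 0],
  ![5, 1, 8, 0, 8],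
  ![3, 2, 2, 1, 0],
  ![5, 1, 8, 0, 8],
  ![3, 2, 2, 1, 0],
  ![5, 1, 8, 0, 8],
  ![3, 2, 2, 1, 0],
  ![5, 1, 8, 0, 8],
  ![3, 2, 2, 1, 0],
  ![5, 1, 8, 0, 8],
  ![3, 2, 2, 1, 0]]

/-- The inverses at the marker. -/
def ib40 : List (V5 (ZMod 9)) := [
  ![5, 7, 5, 7, 8],
  ![3, 7, 4, 0, 3],
  ![7, 8, 4, 7, 8],
  ![5, 0, 6, 6, 2],
  ![4, 7, 8, 7, 8],
  ![6, 6, 2, 5, 0],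
  ![8, 7, 8, 4, 7],
  ![2, 5, 0, 6, 6],
  ![8, 4, 7, 8, 7],
  ![0, 6, 6, 2, 5],
  ![7, 8, 7, 8, 4],
  ![6, 2, 5, 0, 6]]

theorem cb40 (hF : S_FinM) : CertM 0 4 0 := by
  refine hF 0 4 0 Ab40 (fun m => lb40.getD m 0) (fun m => ib40.getD m 0) 2 10
    (by norm_num) (by norm_num) (by norm_num) ?_ ?_ ?_ ?_ ?_
  · decide
  · decide
  · decide
  · exact ⟨2, 8, 7, by decide⟩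
  · decide

/-- The orbit, `n = 4`, twist `1`. -/
def tb41 : List (Fin 4 → V5 (ZMod 9)) := [
  ![![1, 0, 0, 0, 0], ![1, 5, 1, 4, 0], ![7, 3, 6, 2, 2], ![2, 8, 6, 0, 4]],
  ![![0, 0, 0, 0, 4], ![2, 4, 0, 8, 6], ![3, 7, 7, 2, 1], ![8, 0, 2, 7, 2]],
  ![![0, 0, 1, 0, 0], ![4, 6, 7, 2, 1], ![5, 5, 4, 3, 6], ![0, 5, 7, 1, 3]],
  ![![3, 4, 0, 0, 0], ![8, 6, 2, 4, 0], ![7, 8, 6, 2, 2], ![2, 7, 1, 0, 7]],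
  ![![0, 0, 0, 0, 1], ![7, 8, 5, 3, 2], ![3, 6, 5, 5, 4], ![8, 6, 0, 4, 2]],
  ![![0, 0, 6, 5, 0], ![5, 0, 1, 3, 7], ![7, 7, 2, 1, 3], ![0, 2, 7, 2, 8]],
  ![![0, 1, 0, 0, 0], ![3, 2, 7, 8, 5], ![5, 4, 3, 6, 5], ![4, 2, 8, 6, 0]],
  ![![5, 0, 0, 0, 6], ![3, 7, 5, 0, 1], ![1, 3, 7, 7, 2], ![2, 8, 0, 2, 7]],
  ![![0, 0, 0, 1, 0], ![8, 5, 3, 2, 7], ![6, 5, 5, 4, 3], ![6, 0, 4, 2, 8]],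
  ![![0, 6, 5, 0, 0], ![0, 1, 3, 7, 5], ![7, 2, 1, 3, 7], ![2, 7, 2, 8, 0]],
  ![![1, 0, 0, 0, 0], ![2, 7, 8, 5, 3], ![4, 3, 6, 5, 5], ![2, 8, 6, 0, 4]],
  ![![0, 0, 0, 6, 5], ![7, 5, 0, 1, 3], ![3, 7, 7, 2, 1], ![8, 0, 2, 7, 2]],
  ![![0, 0, 1, 0, 0], ![5, 3, 2, 7, 8], ![5, 5, 4, 3, 6], ![0, 4, 2, 8, 6]],
  ![![6, 5, 0, 0, 0], ![1, 3, 7, 5, 0], ![2, 1, 3, 7, 7], ![7, 2, 8, 0, 2]],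
  ![![0, 0, 0, 0, 1], ![7, 8, 5, 3, 2], ![3, 6, 5, 5, 4], ![8, 6, 0, 4, 2]]]

/-- The sequence of the orbit. -/
def Ab41 (m : ℕ) : Fin 4 → V5 (ZMod 9) := tb41.getD m 0

/-- The links at the marker. -/
def lb41 : List (V5 (ZMod 9)) := [
  ![1, 1, 7, 1, 0],
  ![5, 8, 8, 0, 2],
  ![5, 5, 8, 5, 0],
  ![5, 8, 8, 0, 2],
  ![4, 4, 1, 4, 0],
  ![5, 8, 8, 0, 2],
  ![4, 4, 1, 4, 0],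
  ![5, 8, 8, 0, 2],
  ![4, 4, 1, 4, 0],
  ![5, 8, 8, 0, 2],
  ![4, 4, 1, 4, 0],
  ![5, 8, 8, 0, 2],
  ![4, 4, 1, 4, 0],
  ![5, 8, 8, 0, 2]]

/-- The inverses at the marker. -/
def ib41 : List (V5 (ZMod 9)) := [
  ![7, 5, 4, 4, 3],
  ![3, 4, 5, 5, 6],
  ![7, 7, 3, 1, 2],
  ![4, 4, 3, 6, 5],
  ![3, 1, 2, 7, 7],
  ![6, 3, 4, 5, 5],
  ![2, 7, 7, 3, 1],
  ![4, 5, 5, 6, 3],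
  ![7, 3, 1, 2, 7],
  ![5, 6, 3, 4, 5],
  ![1, 2, 7, 7, 3],
  ![3, 4, 5, 5, 6],
  ![7, 7, 3, 1, 2],
  ![5, 5, 6, 3, 4]]

theorem cb41 (hF : S_FinM) : CertM 1 4 1 := by
  refine hF 1 4 1 Ab41 (fun m => lb41.getD m 0) (fun m => ib41.getD m 0) 4 10
    (by norm_num) (by norm_num) (by norm_num) ?_ ?_ ?_ ?_ ?_
  · decide
  · decide
  · decide
  · exact ⟨4, 8, 2, by decide⟩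
  · decide

/-- The orbit, `n = 4`, twist `2`. -/
def tb42 : List (Fin 4 → V5 (ZMod 9)) := [
  ![![1, 0, 0, 0, 0], ![1, 5, 1, 0, 4], ![7, 7, 3, 0, 8], ![4, 7, 2, 0, 6]],
  ![![0, 0, 0, 5, 0], ![3, 8, 0, 7, 5], ![8, 3, 8, 7, 2], ![7, 2, 0, 2, 5]],
  ![![0, 0, 1, 0, 0], ![3, 4, 1, 8, 4], ![0, 4, 8, 8, 6], ![0, 6, 4, 7, 2]],
  ![![5, 3, 0, 0, 0], ![2, 4, 6, 1, 0], ![2, 7, 1, 6, 1], ![2, 5, 7, 2, 0]],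
  ![![0, 0, 0, 0, 8], ![8, 4, 3, 4, 1], ![1, 3, 0, 5, 1], ![7, 2, 0, 6, 4]],
  ![![0, 0, 4, 6, 0], ![8, 0, 7, 5, 3], ![3, 8, 7, 2, 8], ![7, 0, 7, 4, 2]],
  ![![0, 8, 0, 0, 0], ![4, 1, 8, 4, 3], ![5, 1, 1, 3, 0], ![6, 4, 7, 2, 0]],
  ![![6, 0, 0, 0, 4], ![5, 3, 8, 0, 7], ![2, 8, 3, 8, 7], ![4, 2, 7, 0, 7]],
  ![![0, 0, 0, 8, 0], ![4, 3, 4, 1, 8], ![3, 0, 5, 1, 1], ![2, 0, 6, 4, 7]],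
  ![![0, 4, 6, 0, 0], ![0, 7, 5, 3, 8], ![8, 7, 2, 8, 3], ![0, 7, 4, 2, 7]],
  ![![8, 0, 0, 0, 0], ![1, 8, 4, 3, 4], ![1, 1, 3, 0, 5], ![4, 7, 2, 0, 6]],
  ![![0, 0, 0, 4, 6], ![3, 8, 0, 7, 5], ![8, 3, 8, 7, 2], ![2, 7, 0, 7, 4]],
  ![![0, 0, 8, 0, 0], ![3, 4, 1, 8, 4], ![0, 5, 1, 1, 3], ![0, 6, 4, 7, 2]],
  ![![4, 6, 0, 0, 0], ![7, 5, 3, 8, 0], ![7, 2, 8, 3, 8], ![7, 4, 2, 7, 0]],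
  ![![0, 0, 0, 0, 8], ![8, 4, 3, 4, 1], ![1, 3, 0, 5, 1], ![7, 2, 0, 6, 4]]]

/-- The sequence of the orbit. -/
def Ab42 (m : ℕ) : Fin 4 → V5 (ZMod 9) := tb42.getD m 0

/-- The links at the marker. -/
def lb42 : List (V5 (ZMod 9)) := [
  ![1, 7, 7, 0, 7],
  ![1, 1, 7, 7, 0],
  ![2, 5, 5, 0, 5],
  ![8, 8, 2, 2, 0],
  ![7, 4, 4, 0, 4],
  ![8, 8, 2, 2, 0],
  ![7, 4, 4, 0, 4],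
  ![8, 8, 2, 2, 0],
  ![7, 4, 4, 0, 4],
  ![8, 8, 2, 2, 0],
  ![7, 4, 4, 0, 4],
  ![8, 8, 2, 2, 0],
  ![7, 4, 4, 0, 4],
  ![8, 8, 2, 2, 0]]

/-- The inverses at the marker. -/
def ib42 : List (V5 (ZMod 9)) := [
  ![1, 5, 3, 5, 8],
  ![3, 1, 1, 5, 0],
  ![6, 1, 7, 2, 1],
  ![8, 4, 0, 6, 8],
  ![2, 7, 8, 3, 8],
  ![0, 3, 1, 1, 5],
  ![8, 3, 8, 2, 7],
  ![1, 1, 5, 0, 3],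
  ![8, 2, 7, 8, 3],
  ![5, 0, 3, 1, 1],
  ![7, 8, 3, 8, 2],
  ![3, 1, 1, 5, 0],
  ![3, 8, 2, 7, 8],
  ![1, 5, 0, 3, 1]]

theorem cb42 (hF : S_FinM) : CertM 0 4 2 := by
  refine hF 0 4 2 Ab42 (fun m => lb42.getD m 0) (fun m => ib42.getD m 0) 4 10
    (by norm_num) (by norm_num) (by norm_num) ?_ ?_ ?_ ?_ ?_
  · decide
  · decide
  · decide
  · exact ⟨2, 8, 4, by decide⟩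
  · decide

/-- The orbit, `n = 4`, twist `3`. -/
def tb43 : List (Fin 4 → V5 (ZMod 9)) := [
  ![![1, 0, 0, 0, 0], ![1, 2, 7, 6, 1], ![7, 1, 0, 2, 0], ![6, 2, 8, 4, 0]],
  ![![0, 0, 0, 8, 6], ![1, 2, 0, 0, 4], ![2, 4, 2, 0, 3], ![4, 8, 4, 0, 4]],
  ![![0, 0, 1, 0, 0], ![3, 1, 7, 8, 1], ![2, 0, 7, 1, 0], ![4, 0, 6, 2, 8]],
  ![![8, 3, 0, 0, 0], ![0, 1, 7, 5, 0], ![0, 3, 2, 4, 2], ![0, 4, 4, 8, 4]],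
  ![![0, 0, 0, 0, 1], ![8, 1, 3, 1, 7], ![1, 0, 2, 0, 7], ![2, 8, 4, 0, 6]],
  ![![0, 0, 8, 3, 0], ![5, 0, 0, 1, 7], ![4, 2, 0, 3, 2], ![8, 4, 0, 4, 4]],
  ![![0, 1, 0, 0, 0], ![1, 7, 8, 1, 3], ![0, 7, 1, 0, 2], ![0, 6, 2, 8, 4]],
  ![![3, 0, 0, 0, 8], ![1, 7, 5, 0, 0], ![3, 2, 4, 2, 0], ![4, 4, 8, 4, 0]],
  ![![0, 0, 0, 1, 0], ![1, 3, 1, 7, 8], ![0, 2, 0, 7, 1], ![8, 4, 0, 6, 2]],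
  ![![0, 8, 3, 0, 0], ![0, 0, 1, 7, 5], ![2, 0, 3, 2, 4], ![4, 0, 4, 4, 8]],
  ![![1, 0, 0, 0, 0], ![7, 8, 1, 3, 1], ![7, 1, 0, 2, 0], ![6, 2, 8, 4, 0]],
  ![![0, 0, 0, 8, 3], ![7, 5, 0, 0, 1], ![2, 4, 2, 0, 3], ![4, 8, 4, 0, 4]],
  ![![0, 0, 1, 0, 0], ![3, 1, 7, 8, 1], ![2, 0, 7, 1, 0], ![4, 0, 6, 2, 8]]]

/-- The sequence of the orbit. -/
def Ab43 (m : ℕ) : Fin 4 → V5 (ZMod 9) := tb43.getD m 0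

/-- The links at the marker. -/
def lb43 : List (V5 (ZMod 9)) := [
  ![1, 4, 2, 0, 4],
  ![1, 2, 0, 7, 0],
  ![1, 4, 2, 0, 4],
  ![1, 2, 0, 7, 0],
  ![1, 4, 2, 0, 4],
  ![1, 2, 0, 7, 0],
  ![1, 4, 2, 0, 4],
  ![1, 2, 0, 7, 0],
  ![1, 4, 2, 0, 4],
  ![1, 2, 0, 7, 0],
  ![1, 4, 2, 0, 4],
  ![1, 2, 0, 7, 0]]

/-- The inverses at the marker. -/
def ib43 : List (V5 (ZMod 9)) := [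
  ![0, 1, 2, 1, 6],
  ![0, 5, 8, 0, 1],
  ![2, 1, 6, 0, 1],
  ![8, 0, 1, 0, 5],
  ![6, 0, 1, 2, 1],
  ![1, 0, 5, 8, 0],
  ![1, 2, 1, 6, 0],
  ![5, 8, 0, 1, 0],
  ![1, 6, 0, 1, 2],
  ![0, 1, 0, 5, 8],
  ![0, 1, 2, 1, 6],
  ![0, 5, 8, 0, 1]]

theorem cb43 (hF : S_FinM) : CertM 0 4 3 := by
  refine hF 0 4 3 Ab43 (fun m => lb43.getD m 0) (fun m => ib43.getD m 0) 2 10
    (by norm_num) (by norm_num) (by norm_num) ?_ ?_ ?_ ?_ ?_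
  · decide
  · decide
  · decide
  · exact ⟨2, 5, 1, by decide⟩
  · decide

/-- The orbit, `n = 4`, twist `4`. -/
def tb44 : List (Fin 4 → V5 (ZMod 9)) := [
  ![![1, 0, 0, 0, 0], ![1, 5, 7, 0, 1], ![6, 2, 5, 2, 8], ![0, 3, 8, 5, 4]],
  ![![0, 0, 0, 8, 0], ![1, 8, 0, 0, 4], ![4, 7, 4, 3, 1], ![7, 4, 2, 7, 0]],
  ![![0, 0, 1, 0, 0], ![3, 1, 4, 8, 4], ![7, 1, 3, 7, 4], ![5, 4, 0, 3, 8]],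
  ![![8, 3, 0, 0, 0], ![0, 2, 5, 4, 0], ![6, 8, 5, 2, 5], ![7, 0, 7, 4, 2]],
  ![![0, 0, 0, 0, 8], ![8, 4, 3, 1, 4], ![2, 5, 2, 8, 6], ![3, 8, 5, 4, 0]],
  ![![0, 0, 1, 6, 0], ![5, 0, 0, 7, 4], ![7, 4, 3, 1, 4], ![5, 7, 2, 0, 2]],
  ![![0, 8, 0, 0, 0], ![1, 4, 8, 4, 3], ![8, 6, 2, 5, 2], ![4, 0, 3, 8, 5]],
  ![![6, 0, 0, 0, 1], ![7, 4, 5, 0, 0], ![1, 4, 7, 4, 3], ![0, 2, 5, 7, 2]],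
  ![![0, 0, 0, 8, 0], ![4, 3, 1, 4, 8], ![5, 2, 8, 6, 2], ![8, 5, 4, 0, 3]],
  ![![0, 1, 6, 0, 0], ![0, 0, 7, 4, 5], ![4, 3, 1, 4, 7], ![7, 2, 0, 2, 5]],
  ![![8, 0, 0, 0, 0], ![4, 8, 4, 3, 1], ![6, 2, 5, 2, 8], ![0, 3, 8, 5, 4]],
  ![![0, 0, 0, 1, 6], ![4, 5, 0, 0, 7], ![4, 7, 4, 3, 1], ![2, 5, 7, 2, 0]],
  ![![0, 0, 8, 0, 0], ![3, 1, 4, 8, 4], ![2, 8, 6, 2, 5], ![5, 4, 0, 3, 8]],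
  ![![1, 6, 0, 0, 0], ![0, 7, 4, 5, 0], ![3, 1, 4, 7, 4], ![2, 0, 2, 5, 7]],
  ![![0, 0, 0, 0, 8], ![8, 4, 3, 1, 4], ![2, 5, 2, 8, 6], ![3, 8, 5, 4, 0]]]

/-- The sequence of the orbit. -/
def Ab44 (m : ℕ) : Fin 4 → V5 (ZMod 9) := tb44.getD m 0

/-- The links at the marker. -/
def lb44 : List (V5 (ZMod 9)) := [
  ![1, 4, 6, 0, 2],
  ![4, 8, 4, 4, 0],
  ![8, 5, 3, 0, 7],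
  ![5, 1, 5, 5, 0],
  ![1, 4, 6, 0, 2],
  ![5, 1, 5, 5, 0],
  ![1, 4, 6, 0, 2],
  ![5, 1, 5, 5, 0],
  ![1, 4, 6, 0, 2],
  ![5, 1, 5, 5, 0],
  ![1, 4, 6, 0, 2],
  ![5, 1, 5, 5, 0],
  ![1, 4, 6, 0, 2],
  ![5, 1, 5, 5, 0]]

/-- The inverses at the marker. -/
def ib44 : List (V5 (ZMod 9)) := [
  ![6, 8, 5, 8, 2],
  ![1, 4, 3, 7, 4],
  ![4, 1, 7, 3, 1],
  ![6, 2, 5, 8, 5],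
  ![2, 6, 8, 5, 8],
  ![4, 1, 4, 3, 7],
  ![8, 5, 8, 2, 6],
  ![4, 3, 7, 4, 1],
  ![8, 2, 6, 8, 5],
  ![7, 4, 1, 4, 3],
  ![6, 8, 5, 8, 2],
  ![1, 4, 3, 7, 4],
  ![5, 8, 2, 6, 8],
  ![3, 7, 4, 1, 4]]

theorem cb44 (hF : S_FinM) : CertM 0 4 4 := by
  refine hF 0 4 4 Ab44 (fun m => lb44.getD m 0) (fun m => ib44.getD m 0) 4 10
    (by norm_num) (by norm_num) (by norm_num) ?_ ?_ ?_ ?_ ?_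
  · decide
  · decide
  · decide
  · exact ⟨2, 5, 4, by decide⟩
  · decide

end base4Aux

theorem base4 (hF : S_FinM) : ∀ r : ℕ, r < 5 → ∃ ε, CertM ε 4 r := by
  intro r hr
  interval_cases r
  · exact ⟨_, base4Aux.cb40 hF⟩
  · exact ⟨_, base4Aux.cb41 hF⟩
  · exact ⟨_, base4Aux.cb42 hF⟩
  · exact ⟨_, base4Aux.cb43 hF⟩
  · exact ⟨_, base4Aux.cb44 hF⟩

end Pool.Agent.MP62a5ad.RI
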