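import Pool.Agent.Lib.MP_62a5ad_mp.RI.Spec3

/-!
# MP_62a5ad: explicit certificates with a marker for `n = 5`
-/

set_option autoImplicit false
set_option maxRecDepth 100000

namespace Pool.Agent.MP62a5ad.RI

open Matrix

namespace base5Aux

/-- The orbit, `n = 5`, twist `0`. -/
def tb50 : List (Fin 5 → V5 (ZMod 9)) := [
  ![![1, 0, 0, 0, 0], ![1, 5, 1, 4, 0], ![7, 7, 8, 8, 1], ![7, 8, 4, 2, 1], ![4, 6, 0, 8, 4]],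
  ![![0, 0, 0, 0, 4], ![5, 0, 0, 1, 2], ![2, 6, 3, 5, 6], ![0, 0, 0, 5, 8], ![0, 4, 8, 1, 1]],
  ![![0, 0, 8, 0, 0], ![2, 3, 2, 1, 8], ![7, 2, 5, 5, 7], ![7, 8, 2, 1, 5], ![1, 5, 5, 3, 0]],
  ![![3, 7, 0, 0, 0], ![4, 8, 2, 0, 0], ![5, 6, 2, 6, 3], ![5, 8, 0, 0, 0], ![1, 1, 0, 4, 8]],
  ![![0, 0, 0, 0, 2], ![1, 8, 2, 3, 2], ![5, 7, 7, 2, 5], ![1, 5, 7, 8, 2], ![3, 0, 4, 2, 2]],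
  ![![0, 0, 3, 7, 0], ![0, 0, 4, 8, 2], ![6, 3, 5, 6, 2], ![0, 0, 2, 5, 0], ![1, 2, 7, 7, 0]],
  ![![0, 2, 0, 0, 0], ![3, 2, 1, 8, 2], ![8, 2, 2, 1, 1], ![2, 5, 7, 8, 4], ![2, 2, 3, 0, 4]],
  ![![7, 0, 0, 0, 3], ![5, 8, 0, 0, 7], ![6, 5, 6, 3, 8], ![5, 0, 0, 0, 2], ![7, 0, 1, 2, 7]],
  ![![0, 0, 0, 8, 0], ![2, 5, 3, 5, 7], ![1, 1, 8, 2, 2], ![8, 4, 2, 5, 7], ![0, 4, 2, 2, 3]],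
  ![![0, 3, 4, 0, 0], ![0, 7, 5, 8, 0], ![3, 8, 6, 5, 6], ![0, 2, 5, 0, 0], ![8, 1, 1, 0, 4]],
  ![![8, 0, 0, 0, 0], ![5, 7, 2, 5, 3], ![2, 2, 1, 1, 8], ![2, 1, 5, 7, 8], ![5, 3, 0, 1, 5]],
  ![![0, 0, 0, 3, 4], ![8, 0, 0, 7, 5], ![2, 6, 3, 5, 6], ![0, 0, 0, 5, 8], ![0, 4, 8, 1, 1]],
  ![![0, 0, 8, 0, 0], ![2, 3, 2, 1, 8], ![7, 2, 5, 5, 7], ![7, 8, 2, 1, 5], ![1, 5, 5, 3, 0]]]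

/-- The sequence of the orbit. -/
def Ab50 (m : ℕ) : Fin 5 → V5 (ZMod 9) := tb50.getD m 0

/-- The links at the marker. -/
def lb50 : List (V5 (ZMod 9)) := [
  ![3, 1, 2, 4, 0],
  ![1, 3, 2, 0, 4],
  ![3, 4, 8, 7, 0],
  ![1, 3, 2, 0, 4],
  ![3, 4, 8, 7, 0],
  ![4, 3, 8, 0, 7],
  ![3, 7, 5, 1, 0],
  ![7, 3, 5, 0, 1],
  ![3, 7, 5, 1, 0],
  ![7, 3, 5, 0, 1],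
  ![3, 1, 2, 4, 0],
  ![1, 3, 2, 0, 4]]

/-- The inverses at the marker. -/
def ib50 : List (V5 (ZMod 9)) := [
  ![6, 2, 3, 6, 8],
  ![1, 1, 4, 5, 5],
  ![6, 3, 4, 3, 1],
  ![4, 5, 5, 1, 1],
  ![4, 3, 1, 6, 3],
  ![5, 1, 1, 4, 5],
  ![7, 6, 3, 1, 3],
  ![4, 7, 2, 2, 4],
  ![3, 1, 3, 7, 6],
  ![2, 2, 4, 4, 7],
  ![3, 7, 6, 3, 1],
  ![1, 1, 4, 5, 5]]

theorem cb50 (hF : S_FinM) : CertM 1 5 0 := by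
  refine hF 1 5 0 Ab50 (fun m => lb50.getD m 0) (fun m => ib50.getD m 0) 2 10
    (by norm_num) (by norm_num) (by norm_num) ?_ ?_ ?_ ?_ ?_
  · decide
  · decide
  · decide
  · exact ⟨4, 8, 2, by decide⟩
  · decide

/-- The orbit, `n = 5`, twist `1`. -/
def tb51 : List (Fin 5 → V5 (ZMod 9)) := [
  ![![1, 0, 0, 0, 0], ![1, 5, 1, 4, 0], ![5, 6, 7, 8, 6], ![7, 1, 2, 7, 2], ![4, 4, 6, 0, 8]],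
  ![![0, 0, 0, 0, 4], ![1, 0, 0, 2, 4], ![4, 4, 0, 5, 7], ![5, 0, 0, 6, 2], ![1, 0, 4, 8, 1]],
  ![![0, 0, 7, 0, 0], ![5, 3, 5, 7, 2], ![2, 6, 8, 6, 4], ![2, 7, 2, 8, 7], ![0, 1, 5, 5, 3]],
  ![![6, 5, 0, 0, 0], ![7, 5, 8, 0, 0], ![4, 2, 5, 5, 0], ![6, 2, 5, 0, 0], ![7, 2, 2, 0, 8]],
  ![![0, 0, 0, 0, 1], ![7, 2, 5, 3, 5], ![3, 5, 7, 3, 1], ![7, 5, 4, 5, 4], ![5, 3, 0, 1, 5]],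
  ![![0, 0, 6, 5, 0], ![0, 0, 2, 4, 1], ![8, 0, 1, 5, 8], ![0, 0, 3, 7, 4], ![0, 5, 1, 8, 8]],
  ![![0, 8, 0, 0, 0], ![6, 1, 5, 4, 1], ![6, 8, 6, 4, 2], ![7, 2, 8, 7, 2], ![1, 5, 5, 3, 0]],
  ![![8, 0, 0, 0, 6], ![4, 1, 0, 0, 2], ![2, 5, 5, 0, 4], ![2, 5, 0, 0, 6], ![1, 1, 0, 4, 8]],
  ![![0, 0, 0, 8, 0], ![7, 4, 6, 4, 2], ![5, 7, 3, 1, 3], ![7, 2, 7, 2, 8], ![6, 0, 2, 1, 1]],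
  ![![0, 6, 5, 0, 0], ![0, 7, 5, 8, 0], ![0, 5, 7, 4, 4], ![0, 3, 4, 1, 0], ![5, 1, 8, 8, 0]],
  ![![1, 0, 0, 0, 0], ![4, 2, 7, 4, 6], ![7, 3, 8, 4, 3], ![2, 8, 7, 2, 7], ![5, 5, 3, 0, 1]],
  ![![0, 0, 0, 3, 4], ![2, 0, 0, 4, 8], ![4, 4, 0, 5, 7], ![5, 0, 0, 6, 2], ![8, 0, 5, 1, 8]],
  ![![0, 0, 2, 0, 0], ![4, 6, 4, 2, 7], ![2, 6, 8, 6, 4], ![7, 2, 7, 1, 2], ![0, 8, 4, 4, 6]],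
  ![![6, 5, 0, 0, 0], ![2, 4, 1, 0, 0], ![5, 7, 4, 4, 0], ![6, 2, 5, 0, 0], ![7, 2, 2, 0, 8]],
  ![![0, 0, 0, 0, 8], ![7, 2, 5, 3, 5], ![6, 4, 2, 6, 8], ![7, 5, 4, 5, 4], ![5, 3, 0, 1, 5]],
  ![![0, 0, 3, 4, 0], ![0, 0, 7, 5, 8], ![1, 0, 8, 4, 1], ![0, 0, 3, 7, 4], ![0, 4, 8, 1, 1]],
  ![![0, 8, 0, 0, 0], ![6, 1, 5, 4, 1], ![3, 1, 3, 5, 7], ![2, 7, 1, 2, 7], ![1, 5, 5, 3, 0]],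
  ![![8, 0, 0, 0, 6], ![5, 8, 0, 0, 7], ![2, 5, 5, 0, 4], ![7, 4, 0, 0, 3], ![1, 1, 0, 4, 8]],
  ![![0, 0, 0, 1, 0], ![2, 5, 3, 5, 7], ![4, 2, 6, 8, 6], ![2, 7, 2, 7, 1], ![6, 0, 2, 1, 1]],
  ![![0, 6, 5, 0, 0], ![0, 7, 5, 8, 0], ![0, 5, 7, 4, 4], ![0, 6, 5, 8, 0], ![4, 8, 1, 1, 0]],
  ![![1, 0, 0, 0, 0], ![4, 2, 7, 4, 6], ![2, 6, 1, 5, 6], ![2, 8, 7, 2, 7], ![4, 4, 6, 0, 8]],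
  ![![0, 0, 0, 3, 4], ![7, 0, 0, 5, 1], ![5, 5, 0, 4, 2], ![4, 0, 0, 3, 7], ![1, 0, 4, 8, 1]],
  ![![0, 0, 7, 0, 0], ![4, 6, 4, 2, 7], ![2, 6, 8, 6, 4], ![7, 2, 7, 1, 2], ![0, 1, 5, 5, 3]],
  ![![3, 4, 0, 0, 0], ![2, 4, 1, 0, 0], ![5, 7, 4, 4, 0], ![3, 7, 4, 0, 0], ![7, 2, 2, 0, 8]],
  ![![0, 0, 0, 0, 1], ![7, 2, 5, 3, 5], ![3, 5, 7, 3, 1], ![2, 4, 5, 4, 5], ![4, 6, 0, 8, 4]],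
  ![![0, 0, 6, 5, 0], ![0, 0, 2, 4, 1], ![1, 0, 8, 4, 1], ![0, 0, 3, 7, 4], ![0, 4, 8, 1, 1]],
  ![![0, 8, 0, 0, 0], ![3, 8, 4, 5, 8], ![3, 1, 3, 5, 7], ![2, 7, 1, 2, 7], ![8, 4, 4, 6, 0]],
  ![![1, 0, 0, 0, 3], ![4, 1, 0, 0, 2], ![2, 5, 5, 0, 4], ![2, 5, 0, 0, 6], ![8, 8, 0, 5, 1]],
  ![![0, 0, 0, 1, 0], ![7, 4, 6, 4, 2], ![5, 7, 3, 1, 3], ![2, 7, 2, 7, 1], ![6, 0, 2, 1, 1]],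
  ![![0, 3, 4, 0, 0], ![0, 7, 5, 8, 0], ![0, 4, 2, 5, 5], ![0, 6, 5, 8, 0], ![4, 8, 1, 1, 0]],
  ![![8, 0, 0, 0, 0], ![5, 7, 2, 5, 3], ![7, 3, 8, 4, 3], ![2, 8, 7, 2, 7], ![5, 5, 3, 0, 1]],
  ![![0, 0, 0, 3, 4], ![7, 0, 0, 5, 1], ![4, 4, 0, 5, 7], ![5, 0, 0, 6, 2], ![1, 0, 4, 8, 1]],
  ![![0, 0, 7, 0, 0], ![5, 3, 5, 7, 2], ![2, 6, 8, 6, 4], ![2, 7, 2, 8, 7], ![0, 1, 5, 5, 3]]]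

/-- The sequence of the orbit. -/
def Ab51 (m : ℕ) : Fin 5 → V5 (ZMod 9) := tb51.getD m 0

/-- The links at the marker. -/
def lb51 : List (V5 (ZMod 9)) := [
  ![6, 1, 5, 0, 8],
  ![5, 4, 4, 7, 0],
  ![3, 5, 7, 0, 4],
  ![4, 5, 5, 2, 0],
  ![3, 8, 4, 0, 1],
  ![2, 7, 7, 1, 0],
  ![3, 5, 7, 0, 4],
  ![4, 5, 5, 2, 0],
  ![6, 4, 2, 0, 5],
  ![1, 8, 8, 5, 0],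
  ![6, 7, 8, 0, 2],
  ![5, 4, 4, 7, 0],
  ![6, 4, 2, 0, 5],
  ![5, 4, 4, 7, 0],
  ![6, 1, 5, 0, 8],
  ![7, 2, 2, 8, 0],
  ![3, 5, 7, 0, 4],
  ![5, 4, 4, 7, 0],
  ![6, 4, 2, 0, 5],
  ![8, 1, 1, 4, 0],
  ![3, 2, 1, 0, 7],
  ![5, 4, 4, 7, 0],
  ![6, 4, 2, 0, 5],
  ![4, 5, 5, 2, 0],
  ![6, 1, 5, 0, 8],
  ![7, 2, 2, 8, 0],
  ![3, 5, 7, 0, 4],
  ![4, 5, 5, 2, 0],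
  ![3, 5, 7, 0, 4],
  ![1, 8, 8, 5, 0],
  ![6, 7, 8, 0, 2],
  ![5, 4, 4, 7, 0]]

/-- The inverses at the marker. -/
def ib51 : List (V5 (ZMod 9)) := [
  ![5, 0, 4, 4, 7],
  ![7, 6, 5, 6, 8],
  ![7, 7, 1, 2, 0],
  ![4, 3, 1, 2, 3],
  ![8, 7, 0, 2, 2],
  ![4, 8, 3, 7, 3],
  ![0, 7, 7, 1, 2],
  ![3, 4, 3, 1, 2],
  ![2, 8, 7, 0, 2],
  ![6, 8, 7, 6, 5],
  ![1, 0, 8, 8, 5],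
  ![7, 6, 5, 6, 8],
  ![7, 7, 1, 2, 0],
  ![5, 6, 8, 7, 6],
  ![1, 2, 0, 7, 7],
  ![5, 1, 6, 2, 6],
  ![0, 2, 2, 8, 7],
  ![3, 4, 3, 1, 2],
  ![7, 1, 2, 0, 7],
  ![6, 8, 7, 6, 5],
  ![8, 0, 1, 1, 4],
  ![2, 3, 4, 3, 1],
  ![7, 7, 1, 2, 0],
  ![5, 6, 8, 7, 6],
  ![8, 7, 0, 2, 2],
  ![5, 1, 6, 2, 6],
  ![0, 2, 2, 8, 7],
  ![3, 4, 3, 1, 2],
  ![2, 8, 7, 0, 2],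
  ![3, 1, 2, 3, 4],
  ![1, 0, 8, 8, 5],
  ![7, 6, 5, 6, 8]]

theorem cb51 (hF : S_FinM) : CertM 0 5 1 := by
  refine hF 0 5 1 Ab51 (fun m => lb51.getD m 0) (fun m => ib51.getD m 0) 2 30
    (by norm_num) (by norm_num) (by norm_num) ?_ ?_ ?_ ?_ ?_
  · decide
  · decide
  · decide
  · exact ⟨4, 8, 2, by decide⟩
  · decide

/-- The orbit, `n = 5`, twist `2`. -/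
def tb52 : List (Fin 5 → V5 (ZMod 9)) := [
  ![![1, 0, 0, 0, 0], ![1, 5, 1, 4, 0], ![7, 2, 1, 2, 4], ![0, 1, 1, 4, 2], ![7, 5, 8, 6, 0]],
  ![![0, 0, 0, 0, 4], ![1, 0, 0, 2, 4], ![0, 3, 6, 2, 5], ![6, 8, 7, 1, 4], ![5, 5, 0, 5, 1]],
  ![![0, 0, 7, 0, 0], ![5, 3, 5, 7, 2], ![2, 4, 7, 2, 1], ![5, 7, 0, 8, 8], ![3, 0, 2, 4, 1]],
  ![![6, 5, 0, 0, 0], ![1, 2, 5, 0, 0], ![7, 4, 0, 6, 3], ![1, 4, 6, 8, 7], ![1, 2, 1, 1, 0]],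
  ![![0, 0, 0, 0, 4], ![7, 2, 5, 3, 5], ![7, 8, 7, 5, 2], ![7, 7, 1, 5, 0], ![4, 1, 3, 0, 2]],
  ![![0, 0, 6, 5, 0], ![0, 0, 8, 7, 4], ![6, 3, 4, 1, 0], ![1, 2, 8, 5, 3], ![7, 0, 7, 5, 7]],
  ![![0, 5, 0, 0, 0], ![6, 1, 5, 4, 1], ![4, 7, 2, 1, 2], ![1, 0, 5, 5, 2], ![0, 2, 4, 1, 3]],
  ![![8, 0, 0, 0, 6], ![7, 4, 0, 0, 8], ![7, 0, 6, 3, 1], ![4, 6, 8, 7, 1], ![4, 2, 2, 0, 2]],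
  ![![0, 0, 0, 5, 0], ![1, 7, 6, 7, 8], ![8, 7, 5, 2, 7], ![5, 2, 1, 0, 5], ![2, 6, 0, 4, 8]],
  ![![0, 6, 2, 0, 0], ![0, 1, 2, 5, 0], ![6, 8, 2, 0, 3], ![5, 2, 8, 3, 7], ![0, 7, 5, 7, 7]],
  ![![4, 0, 0, 0, 0], ![7, 8, 1, 7, 6], ![5, 4, 2, 4, 8], ![0, 5, 5, 2, 1], ![8, 7, 4, 3, 0]],
  ![![0, 0, 0, 3, 7], ![8, 0, 0, 7, 5], ![0, 3, 6, 8, 2], ![6, 5, 1, 4, 7], ![7, 7, 0, 7, 5]],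
  ![![0, 0, 8, 0, 0], ![7, 6, 7, 8, 1], ![8, 7, 1, 8, 4], ![7, 8, 0, 4, 4], ![6, 0, 1, 2, 5]],
  ![![6, 2, 0, 0, 0], ![5, 1, 7, 0, 0], ![8, 2, 0, 3, 6], ![4, 7, 6, 5, 1], ![4, 8, 4, 4, 0]],
  ![![0, 0, 0, 0, 2], ![1, 8, 2, 3, 2], ![8, 4, 8, 7, 1], ![1, 1, 4, 2, 0], ![7, 4, 3, 0, 8]],
  ![![0, 0, 3, 7, 0], ![0, 0, 4, 8, 2], ![3, 6, 2, 5, 0], ![4, 8, 5, 2, 3], ![8, 0, 8, 7, 8]],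
  ![![0, 2, 0, 0, 0], ![6, 4, 2, 7, 4], ![2, 8, 1, 5, 1], ![5, 0, 7, 7, 1], ![0, 8, 7, 4, 3]],
  ![![5, 0, 0, 0, 6], ![8, 2, 0, 0, 4], ![1, 0, 6, 3, 4], ![2, 3, 4, 8, 5], ![7, 8, 8, 0, 8]],
  ![![0, 0, 0, 7, 0], ![5, 8, 3, 8, 4], ![4, 8, 7, 1, 8], ![7, 1, 5, 0, 7], ![8, 6, 0, 7, 5]],
  ![![0, 6, 8, 0, 0], ![0, 4, 8, 2, 0], ![6, 5, 8, 0, 3], ![7, 1, 4, 6, 8], ![0, 8, 7, 8, 8]],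
  ![![7, 0, 0, 0, 0], ![1, 5, 4, 1, 6], ![7, 2, 1, 2, 4], ![0, 2, 2, 8, 4], ![4, 8, 2, 6, 0]],
  ![![0, 0, 0, 3, 1], ![4, 0, 0, 8, 7], ![0, 6, 3, 4, 1], ![3, 7, 5, 2, 8], ![8, 8, 0, 8, 7]],
  ![![0, 0, 4, 0, 0], ![1, 6, 1, 5, 4], ![5, 1, 4, 5, 7], ![1, 5, 0, 7, 7], ![3, 0, 5, 1, 7]],
  ![![3, 1, 0, 0, 0], ![2, 4, 1, 0, 0], ![5, 8, 0, 3, 6], ![2, 8, 3, 7, 5], ![7, 5, 7, 7, 0]],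
  ![![0, 0, 0, 0, 1], ![4, 5, 8, 3, 8], ![4, 2, 4, 8, 5], ![5, 5, 2, 1, 0], ![8, 2, 6, 0, 4]],
  ![![0, 0, 6, 8, 0], ![0, 0, 2, 4, 1], ![3, 6, 8, 2, 0], ![7, 5, 2, 8, 3], ![5, 0, 5, 1, 5]],
  ![![0, 8, 0, 0, 0], ![3, 2, 1, 8, 2], ![8, 5, 4, 2, 4], ![2, 0, 1, 1, 4], ![0, 4, 8, 2, 6]],
  ![![7, 0, 0, 0, 3], ![4, 1, 0, 0, 2], ![4, 0, 6, 3, 7], ![1, 6, 2, 4, 7], ![8, 4, 4, 0, 4]],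
  ![![0, 0, 0, 1, 0], ![7, 4, 6, 4, 2], ![2, 4, 8, 5, 4], ![1, 4, 2, 0, 1], ![5, 6, 0, 1, 2]],
  ![![0, 3, 4, 0, 0], ![0, 7, 5, 8, 0], ![3, 7, 4, 0, 6], ![1, 4, 7, 6, 5], ![0, 5, 1, 5, 5]],
  ![![8, 0, 0, 0, 0], ![5, 7, 2, 5, 3], ![8, 1, 5, 1, 2], ![0, 8, 8, 5, 7], ![2, 4, 1, 3, 0]],
  ![![0, 0, 0, 3, 4], ![7, 0, 0, 5, 1], ![0, 3, 6, 2, 5], ![6, 8, 7, 1, 4], ![5, 5, 0, 5, 1]],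
  ![![0, 0, 7, 0, 0], ![5, 3, 5, 7, 2], ![2, 4, 7, 2, 1], ![5, 7, 0, 8, 8], ![3, 0, 2, 4, 1]]]

/-- The sequence of the orbit. -/
def Ab52 (m : ℕ) : Fin 5 → V5 (ZMod 9) := tb52.getD m 0

/-- The links at the marker. -/
def lb52 : List (V5 (ZMod 9)) := [
  ![1, 5, 1, 7, 0],
  ![3, 5, 1, 0, 5],
  ![8, 4, 8, 2, 0],
  ![6, 4, 8, 0, 4],
  ![2, 1, 2, 5, 0],
  ![3, 2, 4, 0, 2],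
  ![5, 7, 5, 8, 0],
  ![6, 1, 2, 0, 1],
  ![4, 2, 4, 1, 0],
  ![6, 7, 5, 0, 7],
  ![7, 8, 7, 4, 0],
  ![3, 5, 1, 0, 5],
  ![1, 5, 1, 7, 0],
  ![3, 5, 1, 0, 5],
  ![7, 8, 7, 4, 0],
  ![6, 7, 5, 0, 7],
  ![5, 7, 5, 8, 0],
  ![3, 8, 7, 0, 8],
  ![4, 2, 4, 1, 0],
  ![3, 2, 4, 0, 2],
  ![2, 1, 2, 5, 0],
  ![3, 5, 1, 0, 5],
  ![1, 5, 1, 7, 0],
  ![6, 4, 8, 0, 4],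
  ![7, 8, 7, 4, 0],
  ![6, 7, 5, 0, 7],
  ![5, 7, 5, 8, 0],
  ![6, 1, 2, 0, 1],
  ![5, 7, 5, 8, 0],
  ![6, 7, 5, 0, 7],
  ![7, 8, 7, 4, 0],
  ![3, 5, 1, 0, 5]]

/-- The inverses at the marker. -/
def ib52 : List (V5 (ZMod 9)) := [
  ![8, 5, 6, 3, 0],
  ![5, 4, 1, 5, 7],
  ![6, 3, 0, 8, 5],
  ![8, 4, 2, 4, 5],
  ![0, 1, 4, 3, 6],
  ![8, 7, 2, 5, 7],
  ![5, 6, 3, 0, 8],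
  ![8, 2, 1, 5, 1],
  ![6, 0, 1, 4, 3],
  ![8, 4, 8, 1, 7],
  ![4, 7, 3, 6, 0],
  ![8, 1, 7, 8, 4],
  ![6, 3, 0, 2, 8],
  ![7, 8, 4, 8, 1],
  ![0, 2, 8, 6, 3],
  ![7, 5, 4, 1, 5],
  ![1, 3, 6, 0, 7],
  ![2, 5, 7, 8, 7],
  ![3, 0, 2, 8, 6],
  ![2, 1, 2, 7, 4],
  ![8, 5, 6, 3, 0],
  ![7, 2, 5, 7, 8],
  ![6, 3, 0, 5, 2],
  ![4, 2, 1, 2, 7],
  ![0, 4, 7, 3, 6],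
  ![4, 8, 1, 7, 8],
  ![7, 3, 6, 0, 4],
  ![5, 8, 4, 2, 4],
  ![6, 0, 4, 7, 3],
  ![4, 2, 4, 5, 8],
  ![7, 1, 3, 6, 0],
  ![5, 4, 1, 5, 7]]

theorem cb52 (hF : S_FinM) : CertM 1 5 2 := by
  refine hF 1 5 2 Ab52 (fun m => lb52.getD m 0) (fun m => ib52.getD m 0) 2 30
    (by norm_num) (by norm_num) (by norm_num) ?_ ?_ ?_ ?_ ?_
  · decide
  · decide
  · decide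
  · exact ⟨4, 8, 2, by decide⟩
  · decide

/-- The orbit, `n = 5`, twist `3`. -/
def tb53 : List (Fin 5 → V5 (ZMod 9)) := [
  ![![1, 0, 0, 0, 0], ![1, 5, 7, 0, 1], ![6, 3, 7, 8, 8], ![8, 5, 0, 1, 6], ![6, 7, 1, 8, 0]],
  ![![0, 0, 0, 8, 0], ![6, 2, 0, 4, 2], ![0, 1, 8, 7, 7], ![8, 1, 2, 3, 6], ![5, 7, 2, 0, 2]],
  ![![0, 0, 7, 0, 0], ![3, 7, 7, 2, 7], ![2, 2, 6, 3, 4], ![4, 6, 5, 2, 0], ![5, 0, 6, 1, 4]],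
  ![![2, 3, 0, 0, 0], ![4, 2, 6, 2, 0], ![1, 1, 0, 4, 5], ![3, 6, 5, 4, 8], ![0, 5, 8, 4, 5]],
  ![![0, 0, 0, 0, 7], ![8, 1, 3, 1, 1], ![3, 7, 8, 8, 6], ![5, 0, 1, 6, 8], ![7, 1, 8, 0, 6]],
  ![![0, 0, 8, 3, 0], ![8, 0, 7, 8, 6], ![1, 8, 7, 7, 0], ![1, 2, 3, 6, 8], ![4, 5, 0, 5, 8]],
  ![![0, 1, 0, 0, 0], ![7, 7, 2, 7, 3], ![2, 6, 3, 4, 2], ![6, 8, 5, 0, 1], ![0, 6, 1, 4, 5]],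
  ![![3, 0, 0, 0, 2], ![2, 6, 2, 0, 4], ![7, 0, 1, 8, 7], ![6, 5, 4, 8, 3], ![2, 5, 7, 2, 0]],
  ![![0, 0, 0, 7, 0], ![7, 3, 7, 7, 2], ![7, 8, 8, 6, 3], ![0, 4, 6, 5, 2], ![1, 8, 0, 6, 7]],
  ![![0, 2, 3, 0, 0], ![0, 7, 8, 6, 8], ![5, 1, 1, 0, 4], ![2, 3, 6, 8, 1], ![5, 0, 5, 8, 4]],
  ![![1, 0, 0, 0, 0], ![1, 8, 1, 3, 1], ![6, 3, 4, 2, 2], ![8, 5, 0, 1, 6], ![6, 7, 1, 8, 0]],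
  ![![0, 0, 0, 8, 3], ![6, 2, 0, 4, 2], ![0, 1, 8, 7, 7], ![8, 1, 2, 3, 6], ![5, 7, 2, 0, 2]],
  ![![0, 0, 7, 0, 0], ![3, 7, 7, 2, 7], ![2, 2, 6, 3, 4], ![4, 6, 5, 2, 0], ![5, 0, 6, 1, 4]]]

/-- The sequence of the orbit. -/
def Ab53 (m : ℕ) : Fin 5 → V5 (ZMod 9) := tb53.getD m 0

/-- The links at the marker. -/
def lb53 : List (V5 (ZMod 9)) := [
  ![1, 2, 6, 4, 0],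
  ![5, 8, 4, 0, 5],
  ![7, 5, 6, 1, 0],
  ![5, 8, 4, 0, 5],
  ![1, 2, 6, 4, 0],
  ![5, 8, 4, 0, 5],
  ![4, 8, 6, 7, 0],
  ![2, 5, 7, 0, 2],
  ![4, 8, 6, 7, 0],
  ![8, 2, 1, 0, 8],
  ![4, 8, 6, 7, 0],
  ![5, 8, 4, 0, 5]]

/-- The inverses at the marker. -/
def ib53 : List (V5 (ZMod 9)) := [
  ![1, 1, 5, 4, 0],
  ![3, 6, 5, 5, 1],
  ![2, 7, 0, 4, 4],
  ![8, 8, 7, 3, 6],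
  ![0, 1, 1, 5, 4],
  ![1, 3, 6, 5, 5],
  ![4, 2, 7, 0, 4],
  ![6, 5, 5, 1, 3],
  ![4, 0, 1, 1, 5],
  ![8, 7, 3, 6, 8],
  ![4, 4, 2, 7, 0],
  ![3, 6, 5, 5, 1]]

theorem cb53 (hF : S_FinM) : CertM 1 5 3 := by
  refine hF 1 5 3 Ab53 (fun m => lb53.getD m 0) (fun m => ib53.getD m 0) 2 10
    (by norm_num) (by norm_num) (by norm_num) ?_ ?_ ?_ ?_ ?_
  · decide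
  · decide
  · decide
  · exact ⟨2, 5, 4, by decide⟩
  · decide

/-- The orbit, `n = 5`, twist `4`. -/
def tb54 : List (Fin 5 → V5 (ZMod 9)) := [
  ![![1, 0, 0, 0, 0], ![1, 5, 1, 4, 0], ![5, 6, 7, 3, 4], ![1, 3, 3, 0, 7], ![3, 0, 8, 7, 4]],
  ![![0, 0, 0, 0, 4], ![8, 0, 0, 7, 5], ![1, 6, 8, 8, 8], ![8, 7, 8, 7, 4], ![4, 8, 4, 4, 0]],
  ![![0, 0, 2, 0, 0], ![2, 3, 2, 1, 8], ![3, 1, 8, 6, 4], ![0, 4, 7, 3, 3], ![5, 8, 6, 0, 7]],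
  ![![3, 7, 0, 0, 0], ![8, 7, 4, 0, 0], ![2, 2, 7, 6, 2], ![5, 8, 7, 5, 7], ![1, 0, 1, 2, 1]],
  ![![0, 0, 0, 0, 4], ![2, 7, 4, 6, 4], ![3, 8, 6, 2, 7], ![6, 6, 0, 8, 5], ![0, 1, 2, 5, 6]],
  ![![0, 0, 3, 4, 0], ![0, 0, 2, 4, 1], ![6, 5, 5, 5, 4], ![7, 8, 7, 4, 8], ![4, 2, 2, 0, 2]],
  ![![0, 1, 0, 0, 0], ![6, 1, 5, 4, 1], ![1, 8, 6, 4, 3], ![2, 8, 6, 6, 0], ![1, 3, 0, 2, 4]],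
  ![![1, 0, 0, 0, 3], ![2, 5, 0, 0, 1], ![1, 8, 3, 1, 1], ![8, 7, 5, 7, 5], ![0, 4, 8, 4, 4]],
  ![![0, 0, 0, 5, 0], ![1, 7, 6, 7, 8], ![1, 3, 7, 2, 6], ![6, 0, 5, 2, 6], ![4, 8, 2, 6, 0]],
  ![![0, 6, 2, 0, 0], ![0, 7, 5, 8, 0], ![7, 7, 7, 2, 3], ![5, 1, 7, 5, 1], ![7, 7, 0, 7, 5]],
  ![![1, 0, 0, 0, 0], ![4, 2, 7, 4, 6], ![4, 3, 2, 6, 5], ![1, 3, 3, 0, 7], ![3, 0, 8, 7, 4]],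
  ![![0, 0, 0, 3, 4], ![7, 0, 0, 5, 1], ![8, 3, 1, 1, 1], ![8, 7, 8, 7, 4], ![4, 8, 4, 4, 0]],
  ![![0, 0, 7, 0, 0], ![2, 3, 2, 1, 8], ![6, 8, 1, 3, 5], ![0, 4, 7, 3, 3], ![5, 8, 6, 0, 7]],
  ![![6, 2, 0, 0, 0], ![1, 2, 5, 0, 0], ![7, 7, 2, 3, 7], ![5, 8, 7, 5, 7], ![8, 0, 8, 7, 8]],
  ![![0, 0, 0, 0, 4], ![2, 7, 4, 6, 4], ![6, 1, 3, 7, 2], ![3, 3, 0, 1, 4], ![0, 1, 2, 5, 6]],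
  ![![0, 0, 3, 4, 0], ![0, 0, 7, 5, 8], ![6, 5, 5, 5, 4], ![2, 1, 2, 5, 1], ![4, 2, 2, 0, 2]],
  ![![0, 8, 0, 0, 0], ![3, 8, 4, 5, 8], ![8, 1, 3, 5, 6], ![7, 1, 3, 3, 0], ![1, 3, 0, 2, 4]],
  ![![1, 0, 0, 0, 3], ![2, 5, 0, 0, 1], ![1, 8, 3, 1, 1], ![1, 2, 4, 2, 4], ![0, 5, 1, 5, 5]],
  ![![0, 0, 0, 5, 0], ![1, 7, 6, 7, 8], ![8, 6, 2, 7, 3], ![6, 0, 5, 2, 6], ![5, 1, 7, 3, 0]],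
  ![![0, 6, 2, 0, 0], ![0, 2, 4, 1, 0], ![2, 2, 2, 7, 6], ![4, 8, 2, 4, 8], ![2, 2, 0, 2, 4]],
  ![![8, 0, 0, 0, 0], ![4, 2, 7, 4, 6], ![4, 3, 2, 6, 5], ![1, 3, 3, 0, 7], ![6, 0, 1, 2, 5]],
  ![![0, 0, 0, 6, 5], ![7, 0, 0, 5, 1], ![8, 3, 1, 1, 1], ![1, 2, 1, 2, 5], ![4, 8, 4, 4, 0]],
  ![![0, 0, 2, 0, 0], ![2, 3, 2, 1, 8], ![3, 1, 8, 6, 4], ![0, 5, 2, 6, 6], ![4, 1, 3, 0, 2]],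
  ![![3, 7, 0, 0, 0], ![8, 7, 4, 0, 0], ![7, 7, 2, 3, 7], ![5, 8, 7, 5, 7], ![8, 0, 8, 7, 8]],
  ![![0, 0, 0, 0, 4], ![7, 2, 5, 3, 5], ![6, 1, 3, 7, 2], ![3, 3, 0, 1, 4], ![0, 8, 7, 4, 3]],
  ![![0, 0, 6, 5, 0], ![0, 0, 2, 4, 1], ![6, 5, 5, 5, 4], ![7, 8, 7, 4, 8], ![5, 7, 7, 0, 7]],
  ![![0, 8, 0, 0, 0], ![6, 1, 5, 4, 1], ![1, 8, 6, 4, 3], ![7, 1, 3, 3, 0], ![1, 3, 0, 2, 4]],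
  ![![8, 0, 0, 0, 6], ![2, 5, 0, 0, 1], ![8, 1, 6, 8, 8], ![1, 2, 4, 2, 4], ![0, 5, 1, 5, 5]],
  ![![0, 0, 0, 4, 0], ![8, 2, 3, 2, 1], ![1, 3, 7, 2, 6], ![6, 0, 5, 2, 6], ![4, 8, 2, 6, 0]],
  ![![0, 6, 2, 0, 0], ![0, 2, 4, 1, 0], ![7, 7, 7, 2, 3], ![5, 1, 7, 5, 1], ![2, 2, 0, 2, 4]],
  ![![8, 0, 0, 0, 0], ![5, 7, 2, 5, 3], ![4, 3, 2, 6, 5], ![8, 6, 6, 0, 2], ![6, 0, 1, 2, 5]],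
  ![![0, 0, 0, 3, 4], ![2, 0, 0, 4, 8], ![1, 6, 8, 8, 8], ![8, 7, 8, 7, 4], ![4, 8, 4, 4, 0]],
  ![![0, 0, 2, 0, 0], ![2, 3, 2, 1, 8], ![3, 1, 8, 6, 4], ![0, 4, 7, 3, 3], ![5, 8, 6, 0, 7]]]

/-- The sequence of the orbit. -/
def Ab54 (m : ℕ) : Fin 5 → V5 (ZMod 9) := tb54.getD m 0

/-- The links at the marker. -/
def lb54 : List (V5 (ZMod 9)) := [
  ![1, 8, 7, 0, 4],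
  ![6, 7, 4, 5, 0],
  ![1, 8, 7, 0, 4],
  ![3, 2, 5, 4, 0],
  ![1, 8, 7, 0, 4],
  ![6, 4, 1, 8, 0],
  ![5, 4, 8, 0, 2],
  ![6, 4, 1, 8, 0],
  ![5, 4, 8, 0, 2],
  ![3, 5, 8, 1, 0],
  ![8, 1, 2, 0, 5],
  ![3, 2, 5, 4, 0],
  ![8, 1, 2, 0, 5],
  ![6, 7, 4, 5, 0],
  ![1, 8, 7, 0, 4],
  ![3, 5, 8, 1, 0],
  ![5, 4, 8, 0, 2],
  ![3, 5, 8, 1, 0],
  ![4, 5, 1, 0, 7],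
  ![3, 5, 8, 1, 0],
  ![8, 1, 2, 0, 5],
  ![6, 7, 4, 5, 0],
  ![8, 1, 2, 0, 5],
  ![6, 7, 4, 5, 0],
  ![1, 8, 7, 0, 4],
  ![6, 4, 1, 8, 0],
  ![4, 5, 1, 0, 7],
  ![6, 4, 1, 8, 0],
  ![5, 4, 8, 0, 2],
  ![3, 5, 8, 1, 0],
  ![1, 8, 7, 0, 4],
  ![6, 7, 4, 5, 0]]

/-- The inverses at the marker. -/
def ib54 : List (V5 (ZMod 9)) := [
  ![8, 8, 6, 1, 8],
  ![7, 6, 5, 4, 3],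
  ![6, 4, 5, 5, 5],
  ![2, 7, 3, 1, 6],
  ![7, 7, 7, 3, 2],
  ![3, 4, 6, 8, 1],
  ![5, 6, 4, 5, 5],
  ![3, 4, 5, 6, 2],
  ![7, 2, 2, 2, 6],
  ![2, 6, 8, 3, 7],
  ![1, 1, 3, 8, 1],
  ![2, 3, 4, 5, 6],
  ![3, 5, 4, 4, 4],
  ![7, 2, 6, 8, 3],
  ![2, 2, 2, 6, 7],
  ![3, 4, 6, 8, 1],
  ![4, 3, 5, 4, 4],
  ![3, 4, 5, 6, 2],
  ![2, 7, 7, 7, 3],
  ![7, 3, 1, 6, 2],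
  ![1, 1, 3, 8, 1],
  ![2, 3, 4, 5, 6],
  ![6, 4, 5, 5, 5],
  ![7, 2, 6, 8, 3],
  ![2, 2, 2, 6, 7],
  ![3, 4, 6, 8, 1],
  ![5, 6, 4, 5, 5],
  ![6, 5, 4, 3, 7],
  ![7, 2, 2, 2, 6],
  ![2, 6, 8, 3, 7],
  ![1, 1, 3, 8, 1],
  ![7, 6, 5, 4, 3]]

theorem cb54 (hF : S_FinM) : CertM 0 5 4 := by
  refine hF 0 5 4 Ab54 (fun m => lb54.getD m 0) (fun m => ib54.getD m 0) 2 30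
    (by norm_num) (by norm_num) (by norm_num) ?_ ?_ ?_ ?_ ?_
  · decide
  · decide
  · decide
  · exact ⟨4, 8, 2, by decide⟩
  · decide

end base5Aux

theorem base5 (hF : S_FinM) : ∀ r : ℕ, r < 5 → ∃ ε, CertM ε 5 r := by
  intro r hr
  interval_cases r
  · exact ⟨_, base5Aux.cb50 hF⟩
  · exact ⟨_, base5Aux.cb51 hF⟩
  · exact ⟨_, base5Aux.cb52 hF⟩
  · exact ⟨_, base5Aux.cb53 hF⟩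
  · exact ⟨_, base5Aux.cb54 hF⟩

end Pool.Agent.MP62a5ad.RI
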