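import Pool.Agent.Lib.MP_62a5ad_mp.RI.Spec3

/-!
# MP_62a5ad: explicit certificates of the second kind, data of the insertion
-/

set_option autoImplicit false
set_option maxRecDepth 100000

namespace Pool.Agent.MP62a5ad.RI

open Matrix

namespace baseZAux

theorem z0 (hF : S_FinZM) : CertZM 3 0 := by
  refine hF 3 0 ![![1, 6, 4, 6, 0], ![2, 2, 2, 0, 1], ![2, 2, 0, 1, 2]]
    ![![3, 8, 3, 6, 4], ![0, 2, 0, 4, 5], ![4, 6, 2, 1, 3]] (by norm_num) ?_ ?_ ?_ ?_ ?_ ?_ ?_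
  · exact ⟨1, 2, 2, by decide⟩
  · decide
  · exact ⟨![0, 0, 1, 0, 0], by decide⟩
  · decide
  · decide
  · decide
  · decide

theorem z1 (hF : S_FinZM) : CertZM 3 1 := by
  refine hF 3 1 ![![1, 6, 4, 6, 0], ![2, 2, 2, 0, 1], ![2, 2, 0, 1, 2]]
    ![![7, 1, 5, 8, 5], ![0, 2, 0, 4, 5], ![4, 6, 2, 1, 3]] (by norm_num) ?_ ?_ ?_ ?_ ?_ ?_ ?_
  · exact ⟨1, 2, 2, by decide⟩
  · decide
  · exact ⟨![0, 0, 1, 0, 0], by decide⟩
  · decide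
  · decide
  · decide
  · decide

theorem z2 (hF : S_FinZM) : CertZM 3 2 := by
  refine hF 3 2 ![![1, 6, 4, 6, 0], ![2, 2, 2, 0, 1], ![2, 2, 0, 1, 2]]
    ![![5, 4, 7, 7, 2], ![0, 2, 0, 4, 5], ![4, 6, 2, 1, 3]] (by norm_num) ?_ ?_ ?_ ?_ ?_ ?_ ?_
  · exact ⟨1, 2, 2, by decide⟩
  · decide
  · exact ⟨![0, 0, 1, 0, 0], by decide⟩
  · decide
  · decide
  · decide
  · decide

theorem z3 (hF : S_FinZM) : CertZM 3 3 := by
  refine hF 3 3 ![![1, 0, 2, 1, 2], ![1, 0, 0, 1, 0], ![0, 0, 1, 0, 1]]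
    ![![0, 6, 7, 7, 3], ![8, 8, 8, 1, 1], ![8, 8, 1, 1, 8]] (by norm_num) ?_ ?_ ?_ ?_ ?_ ?_ ?_
  · exact ⟨1, 2, 0, by decide⟩
  · decide
  · exact ⟨![1, 0, 0, 0, 1], by decide⟩
  · decide
  · decide
  · decide
  · decide

theorem z4 (hF : S_FinZM) : CertZM 3 4 := by
  refine hF 3 4 ![![4, 2, 2, 3, 1], ![1, 0, 2, 0, 1], ![0, 2, 0, 1, 1]]
    ![![2, 6, 4, 3, 8], ![5, 6, 2, 6, 0], ![3, 3, 8, 4, 8]] (by norm_num) ?_ ?_ ?_ ?_ ?_ ?_ ?_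
  · exact ⟨0, 1, 2, by decide⟩
  · decide
  · exact ⟨![0, 0, 0, 0, 1], by decide⟩
  · decide
  · decide
  · decide
  · decide

end baseZAux

theorem baseZ (hF : S_FinZM) : ∀ r : ℕ, r < 5 → CertZM 3 r := by
  intro r hr
  interval_cases r
  · exact baseZAux.z0 hF
  · exact baseZAux.z1 hF
  · exact baseZAux.z2 hF
  · exact baseZAux.z3 hF
  · exact baseZAux.z4 hF

theorem dat : S_Dat := by
  unfold S_Dat PE
  decide

end Pool.Agent.MP62a5ad.RI
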