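import Pool.Agent.Lib.MP_62a5ad_mp.RI.Cert3
import Pool.Agent.Lib.MP_62a5ad_mp.RI.Base4
import Pool.Agent.Lib.MP_62a5ad_mp.RI.Base5
import Pool.Agent.Lib.MP_62a5ad_mp.RI.BaseZ

/-!
# MP_62a5ad: certificates for all `n ≥ 3`
-/

set_option autoImplicit false

namespace Pool.Agent.MP62a5ad.RI

open Matrix

namespace allCAux

theorem perM (ε : ZMod 2) (n s t : ℕ) (h : (s : ZMod 5) = (t : ZMod 5)) (hs : CertM ε n s) :
    CertM ε n t := by
  unfold CertM at hs ⊢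
  rw [h] at hs
  exact hs

theorem perZM (n s t : ℕ) (h : (s : ZMod 5) = (t : ZMod 5)) (hs : CertZM n s) :
    CertZM n t := by
  unfold CertZM at hs ⊢
  rw [h] at hs
  exact hs

theorem redM (n : ℕ) (h : ∀ r : ℕ, r < 5 → ∃ ε, CertM ε n r) (s : ℕ) : ∃ ε, CertM ε n s := by
  obtain ⟨ε, hε⟩ := h (s % 5) (Nat.mod_lt _ (by norm_num))
  exact ⟨ε, perM ε n _ _ (ZMod.natCast_mod s 5) hε⟩

theorem redZM (n : ℕ) (h : ∀ r : ℕ, r < 5 → CertZM n r) (s : ℕ) : CertZM n s :=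
  perZM n _ _ (ZMod.natCast_mod s 5) (h (s % 5) (Nat.mod_lt _ (by norm_num)))

theorem allM (hI : S_Ins) (h4 : ∀ s, ∃ ε, CertM ε 4 s) (h5 : ∀ s, ∃ ε, CertM ε 5 s) :
    ∀ n : ℕ, 4 ≤ n → ∀ s, ∃ ε, CertM ε n s := by
  intro n
  induction n using Nat.strong_induction_on with
  | _ n ih =>
    intro hn s
    by_cases h6 : n < 6
    · interval_cases n
      · exact h4 s
      · exact h5 s
    · obtain ⟨k, rfl⟩ : ∃ k, n = k + 2 := ⟨n - 2, by omega⟩
      obtain ⟨ε, hε⟩ := ih k (by omega) (by omega) (s + 3)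
      refine ⟨ε, perM ε (k + 2) (s + 3 + 2) s ?_ (hI ε k (s + 3) (by omega) hε)⟩
      push_cast
      have : (3 : ZMod 5) + 2 = 0 := by decide
      rw [add_assoc, this, add_zero]

theorem allZM (hI : S_InsZ) (h3 : ∀ s, CertZM 3 s) : ∀ n : ℕ, 3 ≤ n → ∀ s, CertZM n s := by
  intro n hn
  induction n, hn using Nat.le_induction with
  | base => exact h3
  | succ n hn ih =>
    intro s
    refine perZM (n + 1) (s + 1 + 4) s ?_ (hI n (s + 1) hn (ih (s + 1)))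
    push_cast
    have : (1 : ZMod 5) + 4 = 0 := by decide
    rw [add_assoc, this, add_zero]

theorem ofM (ε : ZMod 2) (n s : ℕ) (h : CertM ε n s) : Cert n s := by
  obtain ⟨u, h1, h2, h3, _⟩ := h
  exact ⟨u, h1, h2, h3⟩

theorem ofZM (n s : ℕ) (h : CertZM n s) : CertZ n s := by
  obtain ⟨u, x, h1, h2, h3, h4, h5, h6, h7, _⟩ := h
  exact ⟨u, x, h1, h2, h3, h4, h5, h6, h7⟩

end allCAux

/-- Certificates exist for all `n ≥ 3` and all twists. -/
theorem allC (h1 : S_FinC) (h2 : S_FinZ) (h3 : S_FinM) (h4 : S_FinZM) (h5 : S_Ins) (h6 : S_InsZ)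
    (n s : ℕ) (hn : 3 ≤ n) : Cert n s ∧ CertZ n s := by
  refine ⟨?_, allCAux.ofZM n s (allCAux.allZM h6 (allCAux.redZM 3 (baseZ h4)) n hn s)⟩
  rcases Nat.lt_or_ge n 4 with h | h
  · have : n = 3 := by omega
    subst this
    exact (cert3 h1 h2 s).1
  · obtain ⟨ε, hε⟩ := allCAux.allM h5 (allCAux.redM 4 (base4 h3)) (allCAux.redM 5 (base5 h3)) n h s
    exact allCAux.ofM ε n s hε

end Pool.Agent.MP62a5ad.RI
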