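import Pool.Agent.Lib.MP_62a5ad_mp.RI.Defs

/-!
# MP_62a5ad: the cross product, functoriality (proved toolkit)
-/

set_option autoImplicit false

namespace Pool.Agent.MP62a5ad.RI

open Matrix

section Cross

variable {R : Type} [CommRing R]

theorem X5_0 (a b c d : V5 R) : X5 a b c d 0 = lap a b c d 1 2 3 4 := rfl
theorem X5_1 (a b c d : V5 R) : X5 a b c d 1 = -lap a b c d 0 2 3 4 := rfl
theorem X5_2 (a b c d : V5 R) : X5 a b c d 2 = lap a b c d 0 1 3 4 := rfl
theorem X5_3 (a b c d : V5 R) : X5 a b c d 3 = -lap a b c d 0 1 2 4 := rfl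
theorem X5_4 (a b c d : V5 R) : X5 a b c d 4 = lap a b c d 0 1 2 3 := rfl

theorem dot5 (a b : V5 R) :
    a ⬝ᵥ b = a 0 * b 0 + a 1 * b 1 + a 2 * b 2 + a 3 * b 3 + a 4 * b 4 := by
  simp [dotProduct, Fin.sum_univ_succ]; ring

/-- Extensionality for vectors with five coordinates. -/
theorem V5_ext {a b : V5 R} (h0 : a 0 = b 0) (h1 : a 1 = b 1) (h2 : a 2 = b 2) (h3 : a 3 = b 3)
    (h4 : a 4 = b 4) : a = b := by
  funext i; fin_cases i <;> assumption

/-- The cross product is orthogonal to its arguments. -/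
theorem X5_dot1 (a b c d : V5 R) : X5 a b c d ⬝ᵥ a = 0 := by
  rw [dot5, X5_0, X5_1, X5_2, X5_3, X5_4]; simp only [lap, mn]; ring

theorem X5_dot2 (a b c d : V5 R) : X5 a b c d ⬝ᵥ b = 0 := by
  rw [dot5, X5_0, X5_1, X5_2, X5_3, X5_4]; simp only [lap, mn]; ring

theorem X5_dot3 (a b c d : V5 R) : X5 a b c d ⬝ᵥ c = 0 := by
  rw [dot5, X5_0, X5_1, X5_2, X5_3, X5_4]; simp only [lap, mn]; ring

theorem X5_dot4 (a b c d : V5 R) : X5 a b c d ⬝ᵥ d = 0 := by
  rw [dot5, X5_0, X5_1, X5_2, X5_3, X5_4]; simp only [lap, mn]; ring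

/-- The `3 × 3` minor of the rows `a b c` and the columns `x y z`. -/
def m3 (a b c : V5 R) (x y z : Fin 5) : R :=
  a x * mn b c y z - a y * mn b c x z + a z * mn b c x y

/-- A vector which is orthogonal to `a b c d` is parallel to the cross product. -/
theorem X5_par (a b c d w : V5 R) (ha : w ⬝ᵥ a = 0) (hb : w ⬝ᵥ b = 0) (hc : w ⬝ᵥ c = 0)
    (hd : w ⬝ᵥ d = 0) (i j : Fin 5) : X5 a b c d i * w j = X5 a b c d j * w i := by
  rw [dot5] at ha hb hc hd
  have key : ∀ i j : Fin 5, i < j → X5 a b c d i * w j = X5 a b c d j * w i := by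
    intro i j hij
    fin_cases i <;> fin_cases j <;> first
      | exact absurd hij (by decide)
      | skip
    · show X5 a b c d 0 * w 1 = X5 a b c d 1 * w 0
      rw [X5_0, X5_1]
      linear_combination (norm := (simp only [lap, mn, m3]; ring)) (m3 b c d 2 3 4) * ha - (m3 a c d 2 3 4) * hb
        + (m3 a b d 2 3 4) * hc - (m3 a b c 2 3 4) * hd
    · show X5 a b c d 0 * w 2 = X5 a b c d 2 * w 0
      rw [X5_0, X5_2]
      linear_combination (norm := (simp only [lap, mn, m3]; ring)) -(m3 b c d 1 3 4) * ha + (m3 a c d 1 3 4) * hb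
        - (m3 a b d 1 3 4) * hc + (m3 a b c 1 3 4) * hd
    · show X5 a b c d 0 * w 3 = X5 a b c d 3 * w 0
      rw [X5_0, X5_3]
      linear_combination (norm := (simp only [lap, mn, m3]; ring)) (m3 b c d 1 2 4) * ha - (m3 a c d 1 2 4) * hb
        + (m3 a b d 1 2 4) * hc - (m3 a b c 1 2 4) * hd
    · show X5 a b c d 0 * w 4 = X5 a b c d 4 * w 0
      rw [X5_0, X5_4]
      linear_combination (norm := (simp only [lap, mn, m3]; ring)) -(m3 b c d 1 2 3) * ha + (m3 a c d 1 2 3) * hb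
        - (m3 a b d 1 2 3) * hc + (m3 a b c 1 2 3) * hd
    · show X5 a b c d 1 * w 2 = X5 a b c d 2 * w 1
      rw [X5_1, X5_2]
      linear_combination (norm := (simp only [lap, mn, m3]; ring)) (m3 b c d 0 3 4) * ha - (m3 a c d 0 3 4) * hb
        + (m3 a b d 0 3 4) * hc - (m3 a b c 0 3 4) * hd
    · show X5 a b c d 1 * w 3 = X5 a b c d 3 * w 1
      rw [X5_1, X5_3]
      linear_combination (norm := (simp only [lap, mn, m3]; ring)) -(m3 b c d 0 2 4) * ha + (m3 a c d 0 2 4) * hb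
        - (m3 a b d 0 2 4) * hc + (m3 a b c 0 2 4) * hd
    · show X5 a b c d 1 * w 4 = X5 a b c d 4 * w 1
      rw [X5_1, X5_4]
      linear_combination (norm := (simp only [lap, mn, m3]; ring)) (m3 b c d 0 2 3) * ha - (m3 a c d 0 2 3) * hb
        + (m3 a b d 0 2 3) * hc - (m3 a b c 0 2 3) * hd
    · show X5 a b c d 2 * w 3 = X5 a b c d 3 * w 2
      rw [X5_2, X5_3]
      linear_combination (norm := (simp only [lap, mn, m3]; ring)) (m3 b c d 0 1 4) * ha - (m3 a c d 0 1 4) * hb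
        + (m3 a b d 0 1 4) * hc - (m3 a b c 0 1 4) * hd
    · show X5 a b c d 2 * w 4 = X5 a b c d 4 * w 2
      rw [X5_2, X5_4]
      linear_combination (norm := (simp only [lap, mn, m3]; ring)) -(m3 b c d 0 1 3) * ha + (m3 a c d 0 1 3) * hb
        - (m3 a b d 0 1 3) * hc + (m3 a b c 0 1 3) * hd
    · show X5 a b c d 3 * w 4 = X5 a b c d 4 * w 3
      rw [X5_3, X5_4]
      linear_combination (norm := (simp only [lap, mn, m3]; ring)) (m3 b c d 0 1 2) * ha - (m3 a c d 0 1 2) * hb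
        + (m3 a b d 0 1 2) * hc - (m3 a b c 0 1 2) * hd
  rcases lt_trichotomy i j with h | h | h
  · exact key i j h
  · rw [h]
  · exact (key j i h).symm

/-- The cross product is multilinear. -/
theorem X5_smul (r s t u : R) (a b c d : V5 R) :
    X5 (r • a) (s • b) (t • c) (u • d) = (r * s * t * u) • X5 a b c d := by
  refine V5_ext ?_ ?_ ?_ ?_ ?_ <;>
    simp only [X5_0, X5_1, X5_2, X5_3, X5_4, lap, mn, Pi.smul_apply, smul_eq_mul] <;> ring

/-- The cross product vanishes if the second argument is in the span of the other three. -/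
theorem X5_dep2 (r s t : R) (a c d : V5 R) : X5 a (r • a + s • c + t • d) c d = 0 := by
  refine V5_ext ?_ ?_ ?_ ?_ ?_ <;>
    simp only [X5_0, X5_1, X5_2, X5_3, X5_4, lap, mn, Pi.smul_apply, Pi.add_apply, smul_eq_mul,
      Pi.zero_apply] <;> ring

theorem X5_zero1 (b c d : V5 R) : X5 0 b c d = 0 := by
  refine V5_ext ?_ ?_ ?_ ?_ ?_ <;>
    simp only [X5_0, X5_1, X5_2, X5_3, X5_4, lap, mn, Pi.zero_apply] <;> ring

theorem X5_zero2 (a c d : V5 R) : X5 a 0 c d = 0 := by
  refine V5_ext ?_ ?_ ?_ ?_ ?_ <;>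
    simp only [X5_0, X5_1, X5_2, X5_3, X5_4, lap, mn, Pi.zero_apply] <;> ring

/-- Functoriality of the cross product. -/
theorem X5_map {S : Type} [CommRing S] (φ : R →+* S) (a b c d : V5 R) :
    (fun i => φ (X5 a b c d i)) = X5 (fun i => φ (a i)) (fun i => φ (b i)) (fun i => φ (c i))
      (fun i => φ (d i)) := by
  refine V5_ext ?_ ?_ ?_ ?_ ?_ <;>
    simp only [X5_0, X5_1, X5_2, X5_3, X5_4, lap, mn, map_add, map_sub, map_mul, map_neg]

/-- The cross product as a determinant. -/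
theorem X5_det (w a b c d : V5 R) : w ⬝ᵥ X5 a b c d = Matrix.det (Matrix.of ![w, a, b, c, d]) := by
  rw [dot5, X5_0, X5_1, X5_2, X5_3, X5_4]
  simp only [lap, mn]
  rw [Matrix.det_succ_row_zero]
  simp [Fin.sum_univ_succ, Matrix.det_succ_row_zero, Fin.succAbove, Matrix.submatrix]
  ring

theorem X5_adj (w a b c d : V5 R) (i : Fin 5) :
    X5 a b c d i = (Matrix.of ![w, a, b, c, d]).adjugate i 0 := by
  rw [Matrix.adjugate_apply]
  have h := X5_det (Pi.single i 1) a b c d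
  rw [single_one_dotProduct] at h
  rw [h]
  congr 1
  ext j l
  refine Fin.cases ?_ (fun j => ?_) j
  · simp [Matrix.updateRow_apply]
  · simp [Matrix.updateRow_apply, Fin.succ_ne_zero]

/-- The cross product of the images under a matrix. -/
theorem X5_mulVec (M : Matrix (Fin 5) (Fin 5) R) (a b c d : V5 R) :
    X5 (M *ᵥ a) (M *ᵥ b) (M *ᵥ c) (M *ᵥ d) = M.adjugateᵀ *ᵥ X5 a b c d := by
  funext i
  rw [X5_adj (M *ᵥ 0)]
  have h : Matrix.of ![M *ᵥ 0, M *ᵥ a, M *ᵥ b, M *ᵥ c, M *ᵥ d]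
      = Matrix.of ![0, a, b, c, d] * Mᵀ := by
    ext j l
    rw [Matrix.mul_apply]
    fin_cases j <;> simp [Matrix.mulVec, dotProduct, mul_comm]
  rw [h, Matrix.adjugate_mul_distrib, Matrix.mul_apply, Matrix.adjugate_transpose]
  simp only [Matrix.mulVec, dotProduct]
  refine Finset.sum_congr rfl fun j _ => ?_
  rw [X5_adj 0]

end Cross

section Points

variable {n : ℕ} [NeZero n]

theorem map_mulVec' {R S : Type} [CommRing R] [CommRing S] (φ : R →+* S)
    (M : Matrix (Fin 5) (Fin 5) R) (v : V5 R) :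
    (fun i => φ ((M *ᵥ v) i)) = (M.map φ) *ᵥ (fun i => φ (v i)) := by
  funext i
  simp [Matrix.mulVec, dotProduct, map_sum, map_mul]

/-- Functoriality of the half step. -/
theorem fwd_map {R S : Type} [CommRing R] [CommRing S] (φ : R →+* S) (d : Dat n R) (v : Pg n R) :
    (fun k i => φ (fwd d v k i)) = fwd (d.map φ) (fun k i => φ (v k i)) := by
  funext k
  show (fun i => φ (X5 _ _ _ _ i)) = X5 _ _ _ _
  rw [X5_map, map_mulVec', map_mulVec', map_mulVec', map_mulVec']
  rfl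

theorem bwd_map {R S : Type} [CommRing R] [CommRing S] (φ : R →+* S) (d : Dat n R) (v : Pg n R) :
    (fun k i => φ (bwd d v k i)) = bwd (d.map φ) (fun k i => φ (v k i)) := by
  funext k
  show (fun i => φ (X5 _ _ _ _ i)) = X5 _ _ _ _
  rw [X5_map, map_mulVec', map_mulVec', map_mulVec', map_mulVec']
  rfl

variable {L : Type} [CommRing L]

omit [NeZero n] in
/-- Changing the algebra. -/
theorem up_map {R S : Type} [CommRing R] [CommRing S] [Algebra L R] [Algebra L S] (φ : R →ₐ[L] S)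
    (d : Dat n L) : (d.up R).map (φ : R →+* S) = d.up S := by
  simp only [Dat.up, Dat.map, Matrix.map_map]
  congr 1
  · ext i j; simp
  · funext k; ext i j; simp

/-- Functoriality over an algebra. -/
theorem fwd_up {R S : Type} [CommRing R] [CommRing S] [Algebra L R] [Algebra L S] (φ : R →ₐ[L] S)
    (d : Dat n L) (v : Pg n R) :
    (fun k i => φ (fwd (d.up R) v k i)) = fwd (d.up S) (fun k i => φ (v k i)) := by
  have h := fwd_map (φ : R →+* S) (d.up R) v
  rw [up_map] at h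
  exact h

theorem bwd_up {R S : Type} [CommRing R] [CommRing S] [Algebra L R] [Algebra L S] (φ : R →ₐ[L] S)
    (d : Dat n L) (v : Pg n R) :
    (fun k i => φ (bwd (d.up R) v k i)) = bwd (d.up S) (fun k i => φ (v k i)) := by
  have h := bwd_map (φ : R →+* S) (d.up R) v
  rw [up_map] at h
  exact h

omit [NeZero n] in
/-- Functoriality of the evaluation. -/
theorem ev_map {R S : Type} [CommRing R] [CommRing S] [Algebra L R] [Algebra L S] (φ : R →ₐ[L] S)
    (f : PR n L) (v : Pg n R) : φ (ev f v) = ev f (fun k i => φ (v k i)) := by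
  simp only [ev, MvPolynomial.aeval_def, MvPolynomial.eval₂_eq', map_sum, map_mul, map_prod,
    map_pow, AlgHom.commutes]

omit [NeZero n] in
/-- Evaluation at the generic polygon. -/
theorem ev_gen (f : PR n L) : ev f (gen n L) = f := by
  simp only [ev, gen]
  exact MvPolynomial.aeval_X_left_apply f

omit [NeZero n] in
theorem ev_mul {R : Type} [CommRing R] [Algebra L R] (f g : PR n L) (v : Pg n R) :
    ev (f * g) v = ev f v * ev g v := by
  simp [ev]

omit [NeZero n] in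
theorem ev_X {R : Type} [CommRing R] [Algebra L R] (k : Fin n) (i : Fin 5) (v : Pg n R) :
    ev (gen n L k i) v = v k i := by
  simp [ev, gen]

omit [NeZero n] in
/-- Evaluation of a composition. -/
theorem ev_comp {R : Type} [CommRing R] [Algebra L R] (f : PR n L) (g : Pg n (PR n L))
    (v : Pg n R) : ev (ev f g) v = ev f (fun k i => ev (g k i) v) :=
  ev_map (MvPolynomial.aeval (fun x : Fin n × Fin 5 => v x.1 x.2)) f g

/-- The polynomial half step evaluates to the half step. -/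
theorem Fg_pt {R : Type} [CommRing R] [Algebra L R] (d : Dat n L) (v : Pg n R) :
    (fun k i => ev (Fg d k i) v) = fwd (d.up R) v := by
  have h := fwd_up (MvPolynomial.aeval (R := L) (fun x : Fin n × Fin 5 => v x.1 x.2)) d (gen n L)
  have h2 : (fun k i => (MvPolynomial.aeval (R := L) (fun x : Fin n × Fin 5 => v x.1 x.2))
      (gen n L k i)) = v := by
    funext k i; exact ev_X k i v
  rw [h2] at h
  exact h

theorem Gg_pt {R : Type} [CommRing R] [Algebra L R] (d : Dat n L) (v : Pg n R) :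
    (fun k i => ev (Gg d k i) v) = bwd (d.up R) v := by
  have h := bwd_up (MvPolynomial.aeval (R := L) (fun x : Fin n × Fin 5 => v x.1 x.2)) d (gen n L)
  have h2 : (fun k i => (MvPolynomial.aeval (R := L) (fun x : Fin n × Fin 5 => v x.1 x.2))
      (gen n L k i)) = v := by
    funext k i; exact ev_X k i v
  rw [h2] at h
  exact h

/-- `ev (P ∘ fwd) v = ev P (fwd v)`. -/
theorem ev_Fg {R : Type} [CommRing R] [Algebra L R] (d : Dat n L) (f : PR n L) (v : Pg n R) :
    ev (ev f (Fg d)) v = ev f (fwd (d.up R) v) := by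
  rw [ev_comp, Fg_pt]

theorem ev_Gg {R : Type} [CommRing R] [Algebra L R] (d : Dat n L) (f : PR n L) (v : Pg n R) :
    ev (ev f (Gg d)) v = ev f (bwd (d.up R) v) := by
  rw [ev_comp, Gg_pt]

/-- The relation `bwd (fwd v) k = Λ k v k` at points. -/
theorem lam_pt {R : Type} [CommRing R] [Algebra L R] (d : Dat n L) (Λ : Fin n → PR n L)
    (h : IsLam d Λ) (v : Pg n R) (k : Fin n) :
    bwd (d.up R) (fwd (d.up R) v) k = ev (Λ k) v • v k := by
  have h1 := bwd_up (MvPolynomial.aeval (R := L) (fun x : Fin n × Fin 5 => v x.1 x.2)) d (Fg d)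
  have h2 : (fun k i => (MvPolynomial.aeval (R := L) (fun x : Fin n × Fin 5 => v x.1 x.2))
      (Fg d k i)) = fwd (d.up R) v := Fg_pt d v
  rw [h2] at h1
  rw [← h1]
  funext i
  show (MvPolynomial.aeval (R := L) (fun x : Fin n × Fin 5 => v x.1 x.2))
    (bwd (d.up (PR n L)) (Fg d) k i) = _
  rw [h k]
  show (MvPolynomial.aeval (R := L) (fun x : Fin n × Fin 5 => v x.1 x.2))
    (Λ k * gen n L k i) = ev (Λ k) v * v k i
  rw [map_mul]
  congr 1
  exact ev_X k i v

theorem lam_pt' {R : Type} [CommRing R] [Algebra L R] (d : Dat n L) (Λ' : Fin n → PR n L)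
    (h : IsLam' d Λ') (w : Pg n R) (k : Fin n) :
    fwd (d.up R) (bwd (d.up R) w) k = ev (Λ' k) w • w k := by
  have h1 := fwd_up (MvPolynomial.aeval (R := L) (fun x : Fin n × Fin 5 => w x.1 x.2)) d (Gg d)
  have h2 : (fun k i => (MvPolynomial.aeval (R := L) (fun x : Fin n × Fin 5 => w x.1 x.2))
      (Gg d k i)) = bwd (d.up R) w := Gg_pt d w
  rw [h2] at h1
  rw [← h1]
  funext i
  show (MvPolynomial.aeval (R := L) (fun x : Fin n × Fin 5 => w x.1 x.2))
    (fwd (d.up (PR n L)) (Gg d) k i) = _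
  rw [h k]
  show (MvPolynomial.aeval (R := L) (fun x : Fin n × Fin 5 => w x.1 x.2))
    (Λ' k * gen n L k i) = ev (Λ' k) w * w k i
  rw [map_mul]
  congr 1
  exact ev_X k i w

end Points

section Scale

variable {n : ℕ} [NeZero n] {R : Type} [CommRing R]

/-- The half step and scaling. -/
theorem fwd_sc (d : Dat n R) (c : Fin n → R) (v : Pg n R) :
    fwd d (sc c v) = sc (fun k => c k ^ 3 * c (k + 1)) (fwd d v) := by
  funext k
  have h : ∀ j, sc c v j = c j • v j := fun j => rfl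
  show X5 (sc c v k) (d.B k *ᵥ sc c v (k + 1)) (d.M *ᵥ sc c v k) (d.M *ᵥ (d.M *ᵥ sc c v k))
    = (c k ^ 3 * c (k + 1)) • fwd d v k
  rw [h, h, Matrix.mulVec_smul, Matrix.mulVec_smul, Matrix.mulVec_smul, X5_smul]
  show (c k * c (k + 1) * c k * c k) • fwd d v k = _
  congr 1
  ring

theorem bwd_sc (d : Dat n R) (c : Fin n → R) (v : Pg n R) :
    bwd d (sc c v) = sc (fun k => c k ^ 3 * c (k - 1)) (bwd d v) := by
  funext k
  have h : ∀ j, sc c v j = c j • v j := fun j => rfl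
  show X5 (sc c v k) ((d.B (k - 1))ᵀ *ᵥ sc c v (k - 1)) (d.Mᵀ *ᵥ sc c v k)
    (d.Mᵀ *ᵥ (d.Mᵀ *ᵥ sc c v k)) = (c k ^ 3 * c (k - 1)) • bwd d v k
  rw [h, h, Matrix.mulVec_smul, Matrix.mulVec_smul, Matrix.mulVec_smul, X5_smul]
  show (c k * c (k - 1) * c k * c k) • bwd d v k = _
  congr 1
  ring

/-- `⟪w, A v⟫ = ⟪Aᵀ w, v⟫`. -/
theorem dot_mulVec' (A : Matrix (Fin 5) (Fin 5) R) (w v : V5 R) : w ⬝ᵥ (A *ᵥ v) = (Aᵀ *ᵥ w) ⬝ᵥ v := by
  rw [Matrix.mulVec_transpose, Matrix.dotProduct_mulVec]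

/-- The vectors `bwd (fwd v) k` and `v k` are parallel. -/
theorem bwd_fwd_par (d : Dat n R) (v : Pg n R) (k : Fin n) (i j : Fin 5) :
    bwd d (fwd d v) k i * v k j = bwd d (fwd d v) k j * v k i := by
  have e : k - 1 + 1 = k := sub_add_cancel k 1
  refine X5_par _ _ _ _ _ ?_ ?_ ?_ ?_ i j
  · rw [dotProduct_comm]; exact X5_dot1 ..
  · rw [dotProduct_comm, ← dot_mulVec']
    have h := X5_dot2 (v (k - 1)) (d.B (k - 1) *ᵥ v (k - 1 + 1)) (d.M *ᵥ v (k - 1))
      (d.M *ᵥ (d.M *ᵥ v (k - 1)))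
    rw [e] at h
    have h2 : fwd d v (k - 1) = X5 (v (k - 1)) (d.B (k - 1) *ᵥ v k) (d.M *ᵥ v (k - 1))
      (d.M *ᵥ (d.M *ᵥ v (k - 1))) := by
      show X5 _ (d.B (k - 1) *ᵥ v (k - 1 + 1)) _ _ = _
      rw [e]
    rw [h2]; exact h
  · rw [dotProduct_comm, ← dot_mulVec']; exact X5_dot3 ..
  · rw [dotProduct_comm, ← dot_mulVec', ← dot_mulVec']; exact X5_dot4 ..

/-- The vectors `fwd (bwd w) k` and `w k` are parallel. -/
theorem fwd_bwd_par (d : Dat n R) (w : Pg n R) (k : Fin n) (i j : Fin 5) :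
    fwd d (bwd d w) k i * w k j = fwd d (bwd d w) k j * w k i := by
  have e : k + 1 - 1 = k := add_sub_cancel_right k 1
  refine X5_par _ _ _ _ _ ?_ ?_ ?_ ?_ i j
  · rw [dotProduct_comm]; exact X5_dot1 ..
  · rw [dot_mulVec', dotProduct_comm]
    have h2 : bwd d w (k + 1) = X5 (w (k + 1)) ((d.B k)ᵀ *ᵥ w k) (d.Mᵀ *ᵥ w (k + 1))
      (d.Mᵀ *ᵥ (d.Mᵀ *ᵥ w (k + 1))) := by
      show X5 _ ((d.B (k + 1 - 1))ᵀ *ᵥ w (k + 1 - 1)) _ _ = _
      rw [e]
    rw [h2]; exact X5_dot2 ..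
  · rw [dot_mulVec', dotProduct_comm]; exact X5_dot3 ..
  · rw [dot_mulVec', dot_mulVec', dotProduct_comm]; exact X5_dot4 ..

end Scale

end Pool.Agent.MP62a5ad.RI
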