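import Pool.Agent.Lib.MP_62a5ad_mp.RI.Spec2

/-!
# MP_62a5ad: the theorem for matrices congruent to the cyclic shift (module C9)
-/

set_option autoImplicit false

namespace Pool.Agent.MP62a5ad.RI

open Matrix

theorem c9 (h1 : S_Lam) (h2 : S_Irr2) (h3 : S_Dia) (h4 : S_Sep) (h5 : S_RegZ) (h6 : S_NzZ)
    (h7 : S_UpK) (h8 : S_Fix) : S_C9 := by
  intro n _ c K _ _ M N hn hC hZ hM hN p q hI
  haveI : Infinite K := CharZero.infinite K
  set MK := M.map (Int.cast : ℤ → K) with hMK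
  set NK := N.map (Int.cast : ℤ → K) with hNK
  have hp : ∀ (A : Matrix (Fin 5) (Fin 5) ℤ), IsC9 A →
      ∃ Λ Λ' : Fin n → PR n K, HP (pw (A.map (Int.cast : ℤ → K)) (lst n c)) Λ Λ' := by
    intro A hA
    obtain ⟨Λ, Λ', a, b⟩ := h1 n K (pw (A.map (Int.cast : ℤ → K)) (lst n c))
    obtain ⟨s1, s2⟩ := h4 K A hA
    refine ⟨Λ, Λ', a, b, h2 n K _ _ Λ hn (h3 K _ s1 s2) a, ?_, ?_⟩
    · intro k
      show IsUnit ((A.map (Int.cast : ℤ → K)) ^ lst n c k).det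
      rw [Matrix.det_pow]
      exact (isUnit_iff_ne_zero.2 s2).pow _
    · intro k
      exact (h7 n K A A (lst n c) k).2 (h6 n c A (by omega) hA hZ k)
  obtain ⟨Λ, Λ', hΛ⟩ := hp M hM
  obtain ⟨Ξ, Ξ', hΞ⟩ := hp N hN
  exact h8 n K _ _ Λ Λ' Ξ Ξ' hn hΛ hΞ
    (fun k => (h7 n K M N (lst n c) k).1 (h5 n c M N (by omega) hM hN hC k))
    (fun k => (h7 n K N M (lst n c) k).1 (h5 n c N M (by omega) hN hM hC k)) p q hI

end Pool.Agent.MP62a5ad.RI
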