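import Pool.Agent.Lib.MP_62a5ad_mp.RI.Spec2

/-!
# MP_62a5ad: explicit certificates for `n = 3`
-/

set_option autoImplicit false
set_option maxRecDepth 100000

namespace Pool.Agent.MP62a5ad.RI

open Matrix

namespace cert3Aux

/-- The orbit for the twist `0`. -/
def t0 : List (Fin 3 → V5 (ZMod 9)) := [
  ![![4, 3, 8, 0, 0], ![0, 0, 2, 0, 0], ![0, 1, 2, 2, 0]],
  ![![6, 1, 0, 4, 3], ![1, 0, 0, 0, 0], ![7, 8, 7, 7, 3]],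
  ![![0, 0, 1, 3, 2], ![0, 0, 0, 6, 7], ![4, 2, 6, 7, 3]],
  ![![5, 3, 0, 8, 6], ![0, 0, 2, 6, 0], ![8, 6, 8, 4, 8]],
  ![![3, 5, 0, 0, 7], ![6, 7, 0, 0, 0], ![7, 6, 1, 8, 6]],
  ![![8, 6, 5, 3, 0], ![6, 0, 0, 0, 2], ![4, 8, 8, 6, 8]],
  ![![0, 7, 3, 5, 0], ![0, 0, 6, 7, 0], ![8, 6, 7, 6, 1]],
  ![![3, 0, 8, 6, 5], ![0, 2, 6, 0, 0], ![6, 8, 4, 8, 8]],
  ![![5, 0, 0, 7, 3], ![7, 0, 0, 0, 6], ![6, 1, 8, 6, 7]],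
  ![![6, 5, 3, 0, 8], ![0, 0, 0, 2, 6], ![8, 8, 6, 8, 4]],
  ![![7, 3, 5, 0, 0], ![0, 6, 7, 0, 0], ![6, 7, 6, 1, 8]],
  ![![0, 8, 6, 5, 3], ![2, 6, 0, 0, 0], ![8, 4, 8, 8, 6]],
  ![![0, 0, 7, 3, 5], ![0, 0, 0, 6, 7], ![1, 8, 6, 7, 6]],
  ![![5, 3, 0, 8, 6], ![0, 0, 2, 6, 0], ![8, 6, 8, 4, 8]]]

/-- The sequence of the orbit. -/
def A0 (m : ℕ) : Fin 3 → V5 (ZMod 9) := t0.getD m 0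

theorem cert0 (hF : S_FinC) : Cert 3 0 := by
  refine hF 3 0 A0 3 10 (by norm_num) (by norm_num) ?_ ?_ ?_ ?_
  · decide
  · decide
  · decide
  · exact ⟨4, 6, 2, by decide⟩

theorem certZ0 (hF : S_FinZ) : CertZ 3 0 := by
  refine hF 3 0 ![![4, 2, 0, 2, 1], ![1, 0, 2, 0, 0], ![2, 1, 2, 0, 2]]
    ![![4, 8, 3, 3, 7], ![7, 8, 1, 4, 2], ![3, 4, 3, 7, 1]] (by norm_num) ?_ ?_ ?_ ?_ ?_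
  · exact ⟨0, 1, 2, by decide⟩
  · decide
  · exact ⟨![1, 1, 1, 0, 1], by decide⟩
  · decide
  · decide

/-- The orbit for the twist `1`. -/
def t1 : List (Fin 3 → V5 (ZMod 9)) := [
  ![![0, 1, 1, 2, 0], ![0, 0, 0, 2, 0], ![0, 0, 1, 2, 1]],
  ![![7, 8, 1, 0, 4], ![0, 1, 0, 0, 0], ![3, 4, 3, 8, 8]],
  ![![5, 0, 0, 7, 7], ![8, 0, 0, 0, 6], ![8, 1, 0, 6, 4]],
  ![![6, 4, 4, 2, 4], ![0, 0, 0, 7, 3], ![5, 5, 3, 7, 3]],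
  ![![1, 1, 2, 0, 0], ![0, 6, 8, 0, 0], ![0, 4, 8, 4, 0]],
  ![![2, 4, 6, 4, 4], ![7, 0, 0, 0, 0], ![4, 3, 8, 8, 3]],
  ![![0, 0, 1, 1, 2], ![0, 0, 0, 6, 8], ![4, 0, 0, 4, 8]],
  ![![4, 4, 2, 4, 6], ![0, 0, 7, 0, 0], ![8, 3, 4, 3, 8]],
  ![![1, 2, 0, 0, 1], ![6, 8, 0, 0, 0], ![4, 8, 4, 0, 0]],
  ![![4, 6, 4, 4, 2], ![0, 0, 0, 0, 7], ![3, 8, 8, 3, 4]],
  ![![0, 1, 1, 2, 0], ![0, 0, 6, 8, 0], ![0, 0, 4, 8, 4]],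
  ![![4, 2, 4, 6, 4], ![0, 7, 0, 0, 0], ![3, 4, 3, 8, 8]],
  ![![2, 0, 0, 1, 1], ![8, 0, 0, 0, 6], ![8, 4, 0, 0, 4]],
  ![![6, 4, 4, 2, 4], ![0, 0, 0, 7, 0], ![8, 8, 3, 4, 3]],
  ![![1, 1, 2, 0, 0], ![0, 6, 8, 0, 0], ![0, 4, 8, 4, 0]]]

/-- The sequence of the orbit. -/
def A1 (m : ℕ) : Fin 3 → V5 (ZMod 9) := t1.getD m 0

theorem cert1 (hF : S_FinC) : Cert 3 1 := by
  refine hF 3 1 A1 4 10 (by norm_num) (by norm_num) ?_ ?_ ?_ ?_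
  · decide
  · decide
  · decide
  · exact ⟨1, 5, 5, by decide⟩

theorem certZ1 (hF : S_FinZ) : CertZ 3 1 := by
  refine hF 3 1 ![![1, 0, 2, 1, 2], ![1, 0, 0, 1, 0], ![0, 0, 0, 2, 0]]
    ![![2, 5, 0, 0, 8], ![8, 8, 8, 1, 1], ![0, 0, 0, 0, 8]] (by norm_num) ?_ ?_ ?_ ?_ ?_
  · exact ⟨1, 2, 0, by decide⟩
  · decide
  · exact ⟨![1, 0, 0, 0, 1], by decide⟩
  · decide
  · decide

/-- The orbit for the twist `2`. -/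
def t2 : List (Fin 3 → V5 (ZMod 9)) := [
  ![![5, 0, 7, 3, 1], ![2, 0, 0, 0, 2], ![2, 2, 2, 0, 0]],
  ![![5, 3, 7, 7, 4], ![0, 0, 0, 7, 0], ![3, 2, 4, 3, 2]],
  ![![3, 7, 8, 0, 4], ![0, 5, 2, 0, 0], ![6, 6, 8, 5, 2]],
  ![![7, 4, 8, 6, 1], ![4, 3, 6, 3, 6], ![3, 5, 3, 5, 1]],
  ![![0, 4, 3, 7, 8], ![0, 0, 0, 5, 2], ![5, 2, 6, 6, 8]],
  ![![6, 1, 7, 4, 8], ![3, 6, 4, 3, 6], ![5, 1, 3, 5, 3]],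
  ![![7, 8, 0, 4, 3], ![5, 2, 0, 0, 0], ![6, 8, 5, 2, 6]],
  ![![4, 8, 6, 1, 7], ![3, 6, 3, 6, 4], ![5, 3, 5, 1, 3]],
  ![![4, 3, 7, 8, 0], ![0, 0, 5, 2, 0], ![2, 6, 6, 8, 5]],
  ![![1, 7, 4, 8, 6], ![6, 4, 3, 6, 3], ![1, 3, 5, 3, 5]],
  ![![8, 0, 4, 3, 7], ![2, 0, 0, 0, 5], ![8, 5, 2, 6, 6]],
  ![![8, 6, 1, 7, 4], ![6, 3, 6, 4, 3], ![3, 5, 1, 3, 5]],
  ![![3, 7, 8, 0, 4], ![0, 5, 2, 0, 0], ![6, 6, 8, 5, 2]]]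

/-- The sequence of the orbit. -/
def A2 (m : ℕ) : Fin 3 → V5 (ZMod 9) := t2.getD m 0

theorem cert2 (hF : S_FinC) : Cert 3 2 := by
  refine hF 3 2 A2 2 10 (by norm_num) (by norm_num) ?_ ?_ ?_ ?_
  · decide
  · decide
  · decide
  · exact ⟨7, 7, 8, by decide⟩

theorem certZ2 (hF : S_FinZ) : CertZ 3 2 := by
  refine hF 3 2 ![![1, 0, 2, 1, 2], ![1, 0, 0, 1, 0], ![0, 0, 0, 2, 0]]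
    ![![3, 0, 4, 4, 6], ![8, 8, 8, 1, 1], ![0, 0, 0, 0, 8]] (by norm_num) ?_ ?_ ?_ ?_ ?_
  · exact ⟨1, 2, 0, by decide⟩
  · decide
  · exact ⟨![1, 0, 0, 0, 1], by decide⟩
  · decide
  · decide

/-- The orbit for the twist `3`. -/
def t3 : List (Fin 3 → V5 (ZMod 9)) := [
  ![![5, 0, 0, 5, 8], ![2, 0, 0, 0, 0], ![2, 0, 0, 2, 1]],
  ![![0, 7, 5, 4, 2], ![0, 0, 0, 1, 7], ![8, 5, 3, 1, 0]],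
  ![![5, 8, 5, 0, 0], ![3, 6, 2, 3, 6], ![2, 1, 2, 0, 0]],
  ![![7, 5, 3, 1, 8], ![4, 1, 0, 0, 0], ![1, 0, 8, 5, 3]],
  ![![0, 0, 2, 5, 2], ![3, 6, 3, 6, 2], ![6, 0, 5, 4, 8]],
  ![![1, 8, 7, 5, 3], ![0, 0, 7, 7, 0], ![2, 3, 4, 0, 5]],
  ![![5, 2, 0, 0, 2], ![6, 2, 3, 6, 3], ![4, 8, 6, 0, 5]],
  ![![5, 3, 1, 8, 7], ![7, 0, 0, 0, 7], ![0, 5, 2, 3, 4]],
  ![![0, 2, 5, 2, 0], ![6, 3, 6, 2, 3], ![0, 5, 4, 8, 6]],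
  ![![8, 7, 5, 3, 1], ![0, 7, 7, 0, 0], ![3, 4, 0, 5, 2]],
  ![![2, 0, 0, 2, 5], ![2, 3, 6, 3, 6], ![8, 6, 0, 5, 4]],
  ![![3, 1, 8, 7, 5], ![0, 0, 0, 7, 7], ![5, 2, 3, 4, 0]],
  ![![2, 5, 2, 0, 0], ![3, 6, 2, 3, 6], ![5, 4, 8, 6, 0]],
  ![![7, 5, 3, 1, 8], ![7, 7, 0, 0, 0], ![4, 0, 5, 2, 3]],
  ![![0, 0, 2, 5, 2], ![3, 6, 3, 6, 2], ![6, 0, 5, 4, 8]]]

/-- The sequence of the orbit. -/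
def A3 (m : ℕ) : Fin 3 → V5 (ZMod 9) := t3.getD m 0

theorem cert3 (hF : S_FinC) : Cert 3 3 := by
  refine hF 3 3 A3 4 10 (by norm_num) (by norm_num) ?_ ?_ ?_ ?_
  · decide
  · decide
  · decide
  · exact ⟨7, 4, 7, by decide⟩

theorem certZ3 (hF : S_FinZ) : CertZ 3 3 := by
  refine hF 3 3 ![![1, 0, 2, 1, 2], ![1, 0, 0, 1, 0], ![0, 0, 0, 2, 0]]
    ![![0, 6, 7, 7, 3], ![8, 8, 8, 1, 1], ![0, 0, 0, 0, 8]] (by norm_num) ?_ ?_ ?_ ?_ ?_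
  · exact ⟨1, 2, 0, by decide⟩
  · decide
  · exact ⟨![1, 0, 0, 0, 1], by decide⟩
  · decide
  · decide

/-- The orbit for the twist `4`. -/
def t4 : List (Fin 3 → V5 (ZMod 9)) := [
  ![![1, 8, 7, 0, 0], ![0, 0, 1, 0, 0], ![1, 0, 0, 2, 2]],
  ![![5, 5, 0, 7, 1], ![0, 1, 0, 0, 0], ![1, 1, 5, 1, 3]],
  ![![0, 0, 2, 7, 5], ![3, 0, 0, 0, 8], ![3, 5, 5, 6, 5]],
  ![![7, 7, 5, 8, 3], ![0, 0, 6, 7, 0], ![7, 3, 7, 7, 8]],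
  ![![4, 8, 0, 0, 5], ![0, 8, 3, 0, 0], ![6, 8, 6, 2, 5]],
  ![![8, 3, 7, 7, 5], ![7, 0, 0, 0, 6], ![7, 8, 7, 3, 7]],
  ![![0, 5, 4, 8, 0], ![0, 0, 0, 8, 3], ![2, 5, 6, 8, 6]],
  ![![7, 5, 8, 3, 7], ![0, 6, 7, 0, 0], ![3, 7, 7, 8, 7]],
  ![![8, 0, 0, 5, 4], ![8, 3, 0, 0, 0], ![8, 6, 2, 5, 6]],
  ![![3, 7, 7, 5, 8], ![0, 0, 0, 6, 7], ![8, 7, 3, 7, 7]],
  ![![5, 4, 8, 0, 0], ![0, 0, 8, 3, 0], ![5, 6, 8, 6, 2]],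
  ![![5, 8, 3, 7, 7], ![6, 7, 0, 0, 0], ![7, 7, 8, 7, 3]],
  ![![0, 0, 5, 4, 8], ![3, 0, 0, 0, 8], ![6, 2, 5, 6, 8]],
  ![![7, 7, 5, 8, 3], ![0, 0, 6, 7, 0], ![7, 3, 7, 7, 8]]]

/-- The sequence of the orbit. -/
def A4 (m : ℕ) : Fin 3 → V5 (ZMod 9) := t4.getD m 0

theorem cert4 (hF : S_FinC) : Cert 3 4 := by
  refine hF 3 4 A4 3 10 (by norm_num) (by norm_num) ?_ ?_ ?_ ?_
  · decide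
  · decide
  · decide
  · exact ⟨7, 8, 1, by decide⟩

theorem certZ4 (hF : S_FinZ) : CertZ 3 4 := by
  refine hF 3 4 ![![1, 0, 2, 1, 2], ![1, 0, 0, 1, 0], ![0, 0, 0, 2, 0]]
    ![![6, 3, 1, 1, 0], ![8, 8, 8, 1, 1], ![0, 0, 0, 0, 8]] (by norm_num) ?_ ?_ ?_ ?_ ?_
  · exact ⟨1, 2, 0, by decide⟩
  · decide
  · exact ⟨![1, 0, 0, 0, 1], by decide⟩
  · decide
  · decide

end cert3Aux

theorem per : S_Per := by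
  intro n s t h
  unfold Cert CertZ
  rw [h]
  exact ⟨id, id⟩

theorem cert3 (hC : S_FinC) (hZ : S_FinZ) (s : ℕ) : Cert 3 s ∧ CertZ 3 s := by
  have key : ∀ r : ℕ, r < 5 → Cert 3 r ∧ CertZ 3 r := by
    intro r hr
    interval_cases r
    · exact ⟨cert3Aux.cert0 hC, cert3Aux.certZ0 hZ⟩
    · exact ⟨cert3Aux.cert1 hC, cert3Aux.certZ1 hZ⟩
    · exact ⟨cert3Aux.cert2 hC, cert3Aux.certZ2 hZ⟩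
    · exact ⟨cert3Aux.cert3 hC, cert3Aux.certZ3 hZ⟩
    · exact ⟨cert3Aux.cert4 hC, cert3Aux.certZ4 hZ⟩
  have h := key (s % 5) (Nat.mod_lt _ (by norm_num))
  have e : ((s % 5 : ℕ) : ZMod 5) = (s : ZMod 5) := ZMod.natCast_mod s 5
  exact ⟨(per 3 _ _ e).1 h.1, (per 3 _ _ e).2 h.2⟩

end Pool.Agent.MP62a5ad.RI
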