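import Pool.Agent.Lib.MP_62a5ad_mp.RI.Spec

/-!
# MP_62a5ad, RI: composition with the half step (helper18)
-/

set_option autoImplicit false

namespace Pool.Agent.MP62a5ad.RI

open Matrix

theorem cmp : S_Cmp := by
  intro n _ L _ d Λ Λ' hΛ hΛ' hn hn' a f hf
  have zero_ev : ∀ (v : Pg n (PR n L)), ev (0 : PR n L) v = 0 := fun v => by simp [ev]
  refine ⟨?_, fun hf0 h0 => ?_, fun hf0 h0 => ?_⟩
  · intro R _ _ c v
    rw [ev_Fg, ev_Fg, fwd_sc, hf R]
    congr 1
    have h1 : ∀ k, (c k ^ 3 * c (k + 1)) ^ a k = c k ^ (3 * a k) * c (k + 1) ^ a k := by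
      intro k
      rw [mul_pow, ← pow_mul]
    have h2 : ∀ k, c k ^ (3 * a k + a (k - 1)) = c k ^ (3 * a k) * c k ^ a (k - 1) := fun k =>
      pow_add _ _ _
    simp only [h1, h2]
    rw [Finset.prod_mul_distrib, Finset.prod_mul_distrib]
    congr 1
    refine Fintype.prod_equiv (Equiv.addRight 1) _ _ fun k => ?_
    show c (k + 1) ^ a k = c (k + 1) ^ a (k + 1 - 1)
    rw [add_sub_cancel_right]
  · have h1 := ev_Fg (R := PR n L) d f (Gg d)
    have h2 : fwd (d.up (PR n L)) (Gg d) = sc Λ' (gen n L) := funext fun k => hΛ' k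
    rw [h0, zero_ev, h2, hf (PR n L), ev_gen] at h1
    exact mul_ne_zero (Finset.prod_ne_zero_iff.2 fun k _ => pow_ne_zero _ (hn' k)) hf0 h1.symm
  · have h1 := ev_Gg (R := PR n L) d f (Fg d)
    have h2 : bwd (d.up (PR n L)) (Fg d) = sc Λ (gen n L) := funext fun k => hΛ k
    rw [h0, zero_ev, h2, hf (PR n L), ev_gen] at h1
    exact mul_ne_zero (Finset.prod_ne_zero_iff.2 fun k _ => pow_ne_zero _ (hn k)) hf0 h1.symm

end Pool.Agent.MP62a5ad.RI
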