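import Pool.Agent.Lib.MP_62a5ad_mp.RI.Basic

/-!
# MP_62a5ad: the contraction formula for the double cross product
-/

set_option autoImplicit false

namespace Pool.Agent.MP62a5ad.RI

open Matrix

variable {R : Type} [CommRing R]

/-- The determinant of the pairings of three covectors with three vectors. -/
def H3 (p p' p'' u u' u'' : V5 R) : R :=
  (p ⬝ᵥ u) * ((p' ⬝ᵥ u') * (p'' ⬝ᵥ u'') - (p' ⬝ᵥ u'') * (p'' ⬝ᵥ u'))
    - (p ⬝ᵥ u') * ((p' ⬝ᵥ u) * (p'' ⬝ᵥ u'') - (p' ⬝ᵥ u'') * (p'' ⬝ᵥ u))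
    + (p ⬝ᵥ u'') * ((p' ⬝ᵥ u) * (p'' ⬝ᵥ u') - (p' ⬝ᵥ u') * (p'' ⬝ᵥ u))

private theorem c0 (p p' p'' u v u' u'' : V5 R) :
    X5 p (X5 u v u' u'') p' p'' 0 = H3 p p' p'' v u' u'' * u 0 - H3 p p' p'' u u' u'' * v 0
      + H3 p p' p'' u v u'' * u' 0 - H3 p p' p'' u v u' * u'' 0 := by
  simp only [X5_0, lap, mn, X5_1, X5_2, X5_3, X5_4, H3, dot5]
  ring

private theorem c1 (p p' p'' u v u' u'' : V5 R) :
    X5 p (X5 u v u' u'') p' p'' 1 = H3 p p' p'' v u' u'' * u 1 - H3 p p' p'' u u' u'' * v 1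
      + H3 p p' p'' u v u'' * u' 1 - H3 p p' p'' u v u' * u'' 1 := by
  simp only [X5_0, lap, mn, X5_1, X5_2, X5_3, X5_4, H3, dot5]
  ring

private theorem c2 (p p' p'' u v u' u'' : V5 R) :
    X5 p (X5 u v u' u'') p' p'' 2 = H3 p p' p'' v u' u'' * u 2 - H3 p p' p'' u u' u'' * v 2
      + H3 p p' p'' u v u'' * u' 2 - H3 p p' p'' u v u' * u'' 2 := by
  simp only [X5_0, lap, mn, X5_1, X5_2, X5_3, X5_4, H3, dot5]
  ring

private theorem c3 (p p' p'' u v u' u'' : V5 R) :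
    X5 p (X5 u v u' u'') p' p'' 3 = H3 p p' p'' v u' u'' * u 3 - H3 p p' p'' u u' u'' * v 3
      + H3 p p' p'' u v u'' * u' 3 - H3 p p' p'' u v u' * u'' 3 := by
  simp only [X5_0, lap, mn, X5_1, X5_2, X5_3, X5_4, H3, dot5]
  ring

private theorem c4 (p p' p'' u v u' u'' : V5 R) :
    X5 p (X5 u v u' u'') p' p'' 4 = H3 p p' p'' v u' u'' * u 4 - H3 p p' p'' u u' u'' * v 4
      + H3 p p' p'' u v u'' * u' 4 - H3 p p' p'' u v u' * u'' 4 := by
  simp only [X5_0, lap, mn, X5_1, X5_2, X5_3, X5_4, H3, dot5]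
  ring

/-- The general contraction formula. -/
theorem X5_contr_gen (p p' p'' u v u' u'' : V5 R) :
    X5 p (X5 u v u' u'') p' p'' = H3 p p' p'' v u' u'' • u - H3 p p' p'' u u' u'' • v
      + H3 p p' p'' u v u'' • u' - H3 p p' p'' u v u' • u'' := by
  refine V5_ext ?_ ?_ ?_ ?_ ?_ <;>
    simp only [Pi.add_apply, Pi.sub_apply, Pi.smul_apply, smul_eq_mul]
  · exact c0 ..
  · exact c1 ..
  · exact c2 ..
  · exact c3 ..
  · exact c4 ..

/-- The contraction formula if `v` is in the kernel of the three covectors. -/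
theorem X5_contr (p p' p'' u v u' u'' : V5 R) (h : p ⬝ᵥ v = 0) (h' : p' ⬝ᵥ v = 0)
    (h'' : p'' ⬝ᵥ v = 0) :
    X5 p (X5 u v u' u'') p' p'' = -(H3 p p' p'' u u' u'') • v := by
  rw [X5_contr_gen]
  have h1 : H3 p p' p'' v u' u'' = 0 := by simp only [H3, h, h', h'']; ring
  have h2 : H3 p p' p'' u v u'' = 0 := by simp only [H3, h, h', h'']; ring
  have h3 : H3 p p' p'' u v u' = 0 := by simp only [H3, h, h', h'']; ring
  rw [h1, h2, h3]
  simp

end Pool.Agent.MP62a5ad.RI
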