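import Pool.Agent.Lib.MP_62a5ad_mp.RI.Spec

/-! # MP_62a5ad: proof of `S_Cub` -/

set_option autoImplicit false

namespace Pool.Agent.MP62a5ad.RI

open MvPolynomial

namespace cubAux

/-- The cubic form with the coefficients `K`. -/
noncomputable def F {R : Type} [CommRing R] (K : Fin 5 → Fin 5 → Fin 5 → R) :
    MvPolynomial (Fin 5) R :=
  ∑ a, ∑ b, ∑ c, if a < b ∧ b < c then
    MvPolynomial.C (K a b c) *
      (MvPolynomial.X a * MvPolynomial.X b * MvPolynomial.X c) else 0

/-- The indicator of a set. -/
def ind (R : Type) [CommRing R] (S : Finset (Fin 5)) : Fin 5 → R := fun i => if i ∈ S then 1 else 0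

theorem eval_F {R : Type} [CommRing R] (K : Fin 5 → Fin 5 → Fin 5 → R) (x : Fin 5 → R) :
    eval x (F K) = ∑ a, ∑ b, ∑ c, if a < b ∧ b < c then K a b c * (x a * x b * x c) else 0 := by
  unfold F
  simp only [map_sum]
  refine Finset.sum_congr rfl fun a _ => Finset.sum_congr rfl fun b _ =>
    Finset.sum_congr rfl fun c _ => ?_
  by_cases h : a < b ∧ b < c
  · rw [if_pos h, if_pos h]
    simp only [map_mul, eval_C, eval_X]
  · rw [if_neg h, if_neg h, map_zero]

/-- Evaluation at the indicator of a sorted triple. -/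
theorem eval3 {R : Type} [CommRing R] (K : Fin 5 → Fin 5 → Fin 5 → R) (a b c : Fin 5)
    (hab : a < b) (hbc : b < c) : eval (ind R {a, b, c}) (F K) = K a b c := by
  have key : ∀ a' b' c' : Fin 5, ¬(a' = a ∧ b' = b ∧ c' = c) →
      (if a' < b' ∧ b' < c' then K a' b' c' *
        (ind R {a, b, c} a' * ind R {a, b, c} b' * ind R {a, b, c} c') else 0) = 0 := by
    intro a' b' c' hne
    split_ifs with h
    · obtain ⟨h1, h2⟩ := h
      by_cases ha : a' ∈ ({a, b, c} : Finset (Fin 5))
      · by_cases hb : b' ∈ ({a, b, c} : Finset (Fin 5))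
        · by_cases hc : c' ∈ ({a, b, c} : Finset (Fin 5))
          · exfalso
            simp only [Finset.mem_insert, Finset.mem_singleton] at ha hb hc
            apply hne
            rw [Fin.lt_def] at hab hbc h1 h2
            simp only [Fin.ext_iff] at ha hb hc ⊢
            omega
          · have : ind R {a, b, c} c' = 0 := if_neg hc
            rw [this, mul_zero, mul_zero]
        · have : ind R {a, b, c} b' = 0 := if_neg hb
          rw [this, mul_zero, zero_mul, mul_zero]
      · have : ind R {a, b, c} a' = 0 := if_neg ha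
        rw [this, zero_mul, zero_mul, mul_zero]
    · rfl
  rw [eval_F, Finset.sum_eq_single a, Finset.sum_eq_single b, Finset.sum_eq_single c]
  · rw [if_pos ⟨hab, hbc⟩]
    have e1 : ind R {a, b, c} a = 1 := if_pos (by simp)
    have e2 : ind R {a, b, c} b = 1 := if_pos (by simp)
    have e3 : ind R {a, b, c} c = 1 := if_pos (by simp)
    rw [e1, e2, e3, mul_one, mul_one, mul_one]
  · intro c' _ hc
    exact key a b c' fun h => hc h.2.2
  · intro h
    exact absurd (Finset.mem_univ _) h
  · intro b' _ hb
    exact Finset.sum_eq_zero fun c' _ => key a b' c' fun h => hb h.2.1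
  · intro h
    exact absurd (Finset.mem_univ _) h
  · intro a' _ ha
    exact Finset.sum_eq_zero fun b' _ => Finset.sum_eq_zero fun c' _ =>
      key a' b' c' fun h => ha h.1
  · intro h
    exact absurd (Finset.mem_univ _) h

/-- Evaluation at the indicator of a pair. -/
theorem eval2 {R : Type} [CommRing R] (K : Fin 5 → Fin 5 → Fin 5 → R) (a b : Fin 5) :
    eval (ind R {a, b}) (F K) = 0 := by
  rw [eval_F]
  refine Finset.sum_eq_zero fun a' _ => Finset.sum_eq_zero fun b' _ =>
    Finset.sum_eq_zero fun c' _ => ?_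
  split_ifs with h
  · obtain ⟨h1, h2⟩ := h
    by_cases ha : a' ∈ ({a, b} : Finset (Fin 5))
    · by_cases hb : b' ∈ ({a, b} : Finset (Fin 5))
      · by_cases hc : c' ∈ ({a, b} : Finset (Fin 5))
        · exfalso
          simp only [Finset.mem_insert, Finset.mem_singleton] at ha hb hc
          rw [Fin.lt_def] at h1 h2
          simp only [Fin.ext_iff] at ha hb hc
          omega
        · have : ind R {a, b} c' = 0 := if_neg hc
          rw [this, mul_zero, mul_zero]
      · have : ind R {a, b} b' = 0 := if_neg hb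
        rw [this, mul_zero, zero_mul, mul_zero]
    · have : ind R {a, b} a' = 0 := if_neg ha
      rw [this, zero_mul, zero_mul, mul_zero]
  · rfl

/-- Three different elements give a sorted triple. -/
theorem sort3 (a b c : Fin 5) (hab : a ≠ b) (hac : a ≠ c) (hbc : b ≠ c) :
    ∃ a' b' c' : Fin 5, a' < b' ∧ b' < c' ∧ ({a, b, c} : Finset (Fin 5)) = {a', b', c'} := by
  rcases lt_or_gt_of_ne hab with h1 | h1
  · rcases lt_or_gt_of_ne hbc with h2 | h2
    · exact ⟨a, b, c, h1, h2, rfl⟩
    · rcases lt_or_gt_of_ne hac with h3 | h3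
      · exact ⟨a, c, b, h3, h2, by ext i; simp only [Finset.mem_insert, Finset.mem_singleton]; tauto⟩
      · exact ⟨c, a, b, h3, h1, by ext i; simp only [Finset.mem_insert, Finset.mem_singleton]; tauto⟩
  · rcases lt_or_gt_of_ne hac with h3 | h3
    · exact ⟨b, a, c, h1, h3, by ext i; simp only [Finset.mem_insert, Finset.mem_singleton]; tauto⟩
    · rcases lt_or_gt_of_ne hbc with h2 | h2
      · exact ⟨b, c, a, h2, h3, by ext i; simp only [Finset.mem_insert, Finset.mem_singleton]; tauto⟩
      · exact ⟨c, b, a, h2, h1, by ext i; simp only [Finset.mem_insert, Finset.mem_singleton]; tauto⟩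

theorem eval3_ne {R : Type} [CommRing R] (K : Fin 5 → Fin 5 → Fin 5 → R)
    (hK : ∀ a b c, K a b c ≠ 0) (a b c : Fin 5) (hab : a ≠ b) (hac : a ≠ c) (hbc : b ≠ c) :
    eval (ind R {a, b, c}) (F K) ≠ 0 := by
  obtain ⟨a', b', c', h1, h2, h3⟩ := sort3 a b c hab hac hbc
  rw [h3, eval3 K a' b' c' h1 h2]
  exact hK a' b' c'

/-- Every variable has degree at most one. -/
theorem deg_F {R : Type} [CommRing R] [Nontrivial R] (K : Fin 5 → Fin 5 → Fin 5 → R) (e : Fin 5) :
    degreeOf e (F K) ≤ 1 := by
  unfold F
  refine (degreeOf_sum_le e _ _).trans (Finset.sup_le fun a _ => ?_)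
  refine (degreeOf_sum_le e _ _).trans (Finset.sup_le fun b _ => ?_)
  refine (degreeOf_sum_le e _ _).trans (Finset.sup_le fun c _ => ?_)
  split_ifs with h
  · obtain ⟨h1, h2⟩ := h
    refine (degreeOf_mul_le e _ _).trans ?_
    rw [degreeOf_C, zero_add]
    refine (degreeOf_mul_le e _ _).trans ?_
    refine (add_le_add_left (degreeOf_mul_le e _ _) _).trans ?_
    rw [degreeOf_X, degreeOf_X, degreeOf_X]
    rw [Fin.lt_def] at h1 h2
    simp only [Fin.ext_iff]
    split_ifs <;> omega
  · rw [degreeOf_zero]
    exact Nat.zero_le _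

/-- The value of a polynomial does not depend on absent variables. -/
theorem eval_congr {R : Type} [CommRing R] (q : MvPolynomial (Fin 5) R) (x y : Fin 5 → R)
    (h : ∀ i, x i = y i ∨ degreeOf i q = 0) : eval x q = eval y q := by
  have : eval₂Hom (RingHom.id R) x q = eval₂Hom (RingHom.id R) y q := by
    refine eval₂Hom_congr' rfl ?_ rfl
    intro i hi _
    rcases h i with h | h
    · exact h
    · exfalso
      rw [mem_vars_iff_mem_support] at hi
      obtain ⟨d, hd, hi⟩ := hi
      have := monomial_le_degreeOf i hd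
      rw [h] at this
      exact (Finsupp.mem_support_iff.1 hi) (Nat.le_zero.1 this)
  exact this

/-- The main contradiction. -/
theorem main {R : Type} [CommRing R] [IsDomain R] (K : Fin 5 → Fin 5 → Fin 5 → R)
    (hK : ∀ a b c, K a b c ≠ 0) (g h : MvPolynomial (Fin 5) R) (hf : F K = g * h)
    (a b c e : Fin 5) (hbc : b ≠ c) (hbe : b ≠ e) (hce : c ≠ e) (hab : a ≠ b) (hac : a ≠ c)
    (hb : degreeOf b g = 0) (hc : degreeOf c g = 0) (he : degreeOf e g = 0)
    (ha : degreeOf a h = 0) : False := by
  have g1 : eval (ind R {b, c, e}) g = eval (ind R ∅) g := by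
    refine eval_congr _ _ _ fun i => ?_
    by_cases hi : i ∈ ({b, c, e} : Finset (Fin 5))
    · right
      simp only [Finset.mem_insert, Finset.mem_singleton] at hi
      rcases hi with rfl | rfl | rfl <;> assumption
    · left
      unfold ind
      rw [if_neg hi, if_neg (Finset.notMem_empty _)]
  have g2 : eval (ind R {b, c}) g = eval (ind R ∅) g := by
    refine eval_congr _ _ _ fun i => ?_
    by_cases hi : i ∈ ({b, c} : Finset (Fin 5))
    · right
      simp only [Finset.mem_insert, Finset.mem_singleton] at hi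
      rcases hi with rfl | rfl <;> assumption
    · left
      unfold ind
      rw [if_neg hi, if_neg (Finset.notMem_empty _)]
  have h1 : eval (ind R {a, b, c}) h = eval (ind R {b, c}) h := by
    refine eval_congr _ _ _ fun i => ?_
    by_cases hi : i = a
    · right
      rw [hi]
      exact ha
    · left
      unfold ind
      by_cases h2 : i ∈ ({b, c} : Finset (Fin 5))
      · rw [if_pos h2, if_pos (Finset.mem_insert_of_mem h2)]
      · rw [if_neg h2, if_neg fun h3 => (Finset.mem_insert.1 h3).elim hi h2]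
  have n1 := eval3_ne K hK b c e hbc hbe hce
  rw [hf, map_mul, g1] at n1
  have g0 : eval (ind R ∅) g ≠ 0 := left_ne_zero_of_mul n1
  have z1 := eval2 K b c
  rw [hf, map_mul, g2] at z1
  have z2 : eval (ind R {b, c}) h = 0 := (mul_eq_zero.1 z1).resolve_left g0
  have n2 := eval3_ne K hK a b c hab hac hbc
  rw [hf, map_mul, h1, z2, mul_zero] at n2
  exact n2 rfl

/-- A factor without variables is a unit. -/
theorem const {R : Type} [CommRing R] [IsDomain R] [UniqueFactorizationMonoid R]
    (p : Fin 5 → R) (κ : Fin 5 → Fin 5 → Fin 5 → R) (hκ : ∀ a b c, IsUnit (κ a b c))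
    (hco : ∀ a b π, a ≠ b → Irreducible π → π ∣ p a → π ∣ p b → False)
    (g h : MvPolynomial (Fin 5) R)
    (hf : F (fun a b c => κ a b c * (p a * p b * p c)) = g * h) (hg0 : g ≠ 0)
    (hg : ∀ e, degreeOf e g = 0) : IsUnit g := by
  have hC : g = C (coeff 0 g) := by
    rw [← totalDegree_eq_zero_iff_eq_C, totalDegree_eq_zero_iff]
    intro m hm x
    have := monomial_le_degreeOf x hm
    rw [hg x] at this
    exact Nat.le_zero.1 this
  set r := coeff 0 g with hr
  have hr0 : r ≠ 0 := by
    rintro h0
    rw [h0, map_zero] at hC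
    exact hg0 hC
  rw [hC]
  refine IsUnit.map _ ?_
  by_contra hu
  obtain ⟨π, hπ, hdvd⟩ := WfDvdMonoid.exists_irreducible_factor hu hr0
  have hp : Prime π := UniqueFactorizationMonoid.irreducible_iff_prime.1 hπ
  have key : ∀ a b c : Fin 5, a < b → b < c → π ∣ p a ∨ π ∣ p b ∨ π ∣ p c := by
    intro a b c hab hbc
    have e1 := eval3 (fun a b c => κ a b c * (p a * p b * p c)) a b c hab hbc
    rw [hf, hC, map_mul, eval_C] at e1
    have d1 : π ∣ κ a b c * (p a * p b * p c) := by
      rw [← e1]
      exact hdvd.mul_right _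
    rw [(hκ a b c).dvd_mul_left] at d1
    rcases hp.dvd_or_dvd d1 with d2 | d2
    · rcases hp.dvd_or_dvd d2 with d3 | d3
      · exact Or.inl d3
      · exact Or.inr (Or.inl d3)
    · exact Or.inr (Or.inr d2)
  have fin : ∀ x a b c : Fin 5, a < b → b < c → x ≠ a → x ≠ b → x ≠ c → π ∣ p x → False := by
    intro x a b c hab hbc ha hb hc hx
    rcases key a b c hab hbc with h1 | h1 | h1
    · exact hco x a π ha hπ hx h1
    · exact hco x b π hb hπ hx h1
    · exact hco x c π hc hπ hx h1
  rcases key 0 1 2 (by decide) (by decide) with h1 | h1 | h1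
  · exact fin 0 1 2 3 (by decide) (by decide) (by decide) (by decide) (by decide) h1
  · exact fin 1 0 2 3 (by decide) (by decide) (by decide) (by decide) (by decide) h1
  · exact fin 2 0 1 3 (by decide) (by decide) (by decide) (by decide) (by decide) h1

/-- The form is irreducible. -/
theorem irr {R : Type} [CommRing R] [IsDomain R] [UniqueFactorizationMonoid R]
    (p : Fin 5 → R) (κ : Fin 5 → Fin 5 → Fin 5 → R) (hκ : ∀ a b c, IsUnit (κ a b c))
    (hp : ∀ a, p a ≠ 0)
    (hco : ∀ a b π, a ≠ b → Irreducible π → π ∣ p a → π ∣ p b → False) :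
    Irreducible (F (fun a b c => κ a b c * (p a * p b * p c))) := by
  set K : Fin 5 → Fin 5 → Fin 5 → R := fun a b c => κ a b c * (p a * p b * p c) with hKdef
  have hK : ∀ a b c, K a b c ≠ 0 := fun a b c =>
    mul_ne_zero (hκ a b c).ne_zero (mul_ne_zero (mul_ne_zero (hp a) (hp b)) (hp c))
  have hF0 : F K ≠ 0 := by
    intro h0
    have := eval3_ne K hK 0 1 2 (by decide) (by decide) (by decide)
    rw [h0, map_zero] at this
    exact this rfl
  refine ⟨?_, ?_⟩
  · intro hu
    have h1 : IsUnit (eval (ind R {0, 1}) (F K)) := hu.map (eval (ind R {0, 1}))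
    rw [eval2] at h1
    exact not_isUnit_zero h1
  · intro g h hf
    have hg0 : g ≠ 0 := by
      rintro rfl
      rw [zero_mul] at hf
      exact hF0 hf
    have hh0 : h ≠ 0 := by
      rintro rfl
      rw [mul_zero] at hf
      exact hF0 hf
    have hdeg : ∀ e, degreeOf e g = 0 ∨ degreeOf e h = 0 := by
      intro e
      have h1 := deg_F K e
      rw [hf, degreeOf_mul_eq hg0 hh0] at h1
      omega
    by_cases hI : ∀ e, degreeOf e g = 0
    · left
      exact const p κ hκ hco g h hf hg0 hI
    by_cases hJ : ∀ e, degreeOf e h = 0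
    · right
      exact const p κ hκ hco h g (by rw [mul_comm h g]; exact hf) hh0 hJ
    exfalso
    push Not at hI hJ
    obtain ⟨i, hi⟩ := hI
    obtain ⟨j, hj⟩ := hJ
    have hi' : degreeOf i h = 0 := (hdeg i).resolve_left hi
    have hj' : degreeOf j g = 0 := (hdeg j).resolve_right hj
    have hcard := Finset.card_filter_add_card_filter_not (s := (Finset.univ : Finset (Fin 5)))
      (fun e => degreeOf e g = 0)
    rw [Finset.card_univ, Fintype.card_fin] at hcard
    rcases lt_or_ge 2 (Finset.univ.filter fun e : Fin 5 => degreeOf e g = 0).card with hc | hc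
    · obtain ⟨b, hb, c, hc, e, he, h1, h2, h3⟩ := Finset.two_lt_card.1 hc
      rw [Finset.mem_filter] at hb hc he
      refine main K hK g h hf i b c e h1 h2 h3 ?_ ?_ hb.2 hc.2 he.2 hi'
      · rintro rfl
        exact hi hb.2
      · rintro rfl
        exact hi hc.2
    · have hc2 : 2 < (Finset.univ.filter fun e : Fin 5 => ¬ degreeOf e g = 0).card := by omega
      obtain ⟨b, hb, c, hc, e, he, h1, h2, h3⟩ := Finset.two_lt_card.1 hc2
      rw [Finset.mem_filter] at hb hc he
      refine main K hK h g (by rw [mul_comm h g]; exact hf) j b c e h1 h2 h3 ?_ ?_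
        ((hdeg b).resolve_left hb.2) ((hdeg c).resolve_left hc.2) ((hdeg e).resolve_left he.2) hj'
      · rintro rfl
        exact hb.2 hj'
      · rintro rfl
        exact hc.2 hj'

end cubAux

theorem cub : S_Cub := by
  intro R _ _ _ p κ hκ hp hco
  exact cubAux.irr p κ hκ hp hco

end Pool.Agent.MP62a5ad.RI
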