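import Pool.Agent.Lib.MP_62a5ad_mp.RI.Spec3

/-!
# MP_62a5ad: cyclic convolution (module Cv)
-/

set_option autoImplicit false

namespace Pool.Agent.MP62a5ad.RI

open Matrix

namespace cvAux

variable {R : Type} [CommRing R]

theorem cv_0 (a b : V5 R) : cv a b 0 =
    a 0 * b 0 + a 1 * b 4 + a 2 * b 3 + a 3 * b 2 + a 4 * b 1 := rfl
theorem cv_1 (a b : V5 R) : cv a b 1 =
    a 0 * b 1 + a 1 * b 0 + a 2 * b 4 + a 3 * b 3 + a 4 * b 2 := rfl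
theorem cv_2 (a b : V5 R) : cv a b 2 =
    a 0 * b 2 + a 1 * b 1 + a 2 * b 0 + a 3 * b 4 + a 4 * b 3 := rfl
theorem cv_3 (a b : V5 R) : cv a b 3 =
    a 0 * b 3 + a 1 * b 2 + a 2 * b 1 + a 3 * b 0 + a 4 * b 4 := rfl
theorem cv_4 (a b : V5 R) : cv a b 4 =
    a 0 * b 4 + a 1 * b 3 + a 2 * b 2 + a 3 * b 1 + a 4 * b 0 := rfl

theorem cvC (a b : V5 R) : cv a b = cv b a := by
  refine V5_ext ?_ ?_ ?_ ?_ ?_ <;> simp only [cv_0, cv_1, cv_2, cv_3, cv_4] <;> ring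

theorem cvA (a b c : V5 R) : cv (cv a b) c = cv a (cv b c) := by
  refine V5_ext ?_ ?_ ?_ ?_ ?_ <;> simp only [cv_0, cv_1, cv_2, cv_3, cv_4] <;> ring

theorem e0v : (e0 : V5 R) 0 = 1 ∧ (e0 : V5 R) 1 = 0 ∧ (e0 : V5 R) 2 = 0 ∧ (e0 : V5 R) 3 = 0 ∧
    (e0 : V5 R) 4 = 0 := ⟨rfl, rfl, rfl, rfl, rfl⟩

theorem cvO (a : V5 R) : cv e0 a = a := by
  obtain ⟨h0, h1, h2, h3, h4⟩ := e0v (R := R)
  refine V5_ext ?_ ?_ ?_ ?_ ?_ <;>
    simp only [cv_0, cv_1, cv_2, cv_3, cv_4, h0, h1, h2, h3, h4] <;> ring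

theorem shift1 (a b : V5 R) : cv a (cyc 1 b) = cyc 1 (cv a b) := by
  have c0 : ∀ x : V5 R, cyc 1 x 0 = x 4 := fun x => rfl
  have c1 : ∀ x : V5 R, cyc 1 x 1 = x 0 := fun x => rfl
  have c2 : ∀ x : V5 R, cyc 1 x 2 = x 1 := fun x => rfl
  have c3 : ∀ x : V5 R, cyc 1 x 3 = x 2 := fun x => rfl
  have c4 : ∀ x : V5 R, cyc 1 x 4 = x 3 := fun x => rfl
  refine V5_ext ?_ ?_ ?_ ?_ ?_ <;>
    simp only [cv_0, cv_1, cv_2, cv_3, cv_4, c0, c1, c2, c3, c4] <;> ring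

theorem cvS (r : R) (a b : V5 R) : cv (r • a) b = r • cv a b := by
  refine V5_ext ?_ ?_ ?_ ?_ ?_ <;>
    simp only [cv_0, cv_1, cv_2, cv_3, cv_4, Pi.smul_apply, smul_eq_mul] <;> ring

theorem cvD (a b c : V5 R) : cv (a + b) c = cv a c + cv b c := by
  refine V5_ext ?_ ?_ ?_ ?_ ?_ <;>
    simp only [cv_0, cv_1, cv_2, cv_3, cv_4, Pi.add_apply] <;> ring

/-- The circulant matrix. -/
def A (u : V5 R) : Matrix (Fin 5) (Fin 5) R := Matrix.of fun i j => u (i - j)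

theorem A_mul (u x : V5 R) : A u *ᵥ x = cv u x := by
  refine V5_ext ?_ ?_ ?_ ?_ ?_ <;>
    simp only [A, Matrix.mulVec, dot5, Matrix.of_apply]
  · rw [cv_0]; show u 0 * _ + u 4 * _ + u 3 * _ + u 2 * _ + u 1 * _ = _; ring
  · rw [cv_1]; show u 1 * _ + u 0 * _ + u 4 * _ + u 3 * _ + u 2 * _ = _; ring
  · rw [cv_2]; show u 2 * _ + u 1 * _ + u 0 * _ + u 4 * _ + u 3 * _ = _; ring
  · rw [cv_3]; show u 3 * _ + u 2 * _ + u 1 * _ + u 0 * _ + u 4 * _ = _; ring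
  · rw [cv_4]; show u 4 * _ + u 3 * _ + u 2 * _ + u 1 * _ + u 0 * _ = _; ring

theorem ext_mulVec {A B : Matrix (Fin 5) (Fin 5) R} (h : ∀ x, A *ᵥ x = B *ᵥ x) : A = B := by
  ext i j
  have := congrFun (h (Pi.single j 1)) i
  simpa using this

end cvAux

open cvAux in
theorem cv_thm (h1 : S_Cyc) : S_Cv := by
  intro R _
  obtain ⟨hcc, hc0, hcz, hcl, hX, hp, -, -, hadj, -⟩ := h1 R
  have hC1 : ∀ x : V5 R, Cm R *ᵥ x = cyc 1 x := by
    intro x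
    have := hp 1 x
    rwa [pow_one, Nat.cast_one] at this
  have hcs : ∀ (t : ZMod 5) (c : R) (x : V5 R), cyc t (c • x) = c • cyc t x := fun t c x => rfl
  have hca : ∀ (t : ZMod 5) (x y : V5 R), cyc t (x + y) = cyc t x + cyc t y := fun t x y => rfl
  -- maps that commute with `cyc 1` commute with `cyc t`
  have ind : ∀ f : V5 R → V5 R, (∀ x, f (cyc 1 x) = cyc 1 (f x)) →
      ∀ (t : ZMod 5) x, f (cyc t x) = cyc t (f x) := by
    intro f hf t x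
    have key : ∀ (m : ℕ), f (cyc (m : ZMod 5) x) = cyc (m : ZMod 5) (f x) := by
      intro m
      induction m with
      | zero => simp only [Nat.cast_zero, hc0]
      | succ m ih =>
        have e : ((m + 1 : ℕ) : ZMod 5) = 1 + (m : ZMod 5) := by push_cast; ring
        rw [e, ← hcc, ← hcc, hf, ih]
    have h := key t.val
    rwa [ZMod.natCast_zmod_val] at h
  have cvy : ∀ (t : ZMod 5) (a b : V5 R), cv a (cyc t b) = cyc t (cv a b) :=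
    fun t a b => ind (fun x => cv a x) (fun x => shift1 a x) t b
  have b1 : cyc 1 (e0 : V5 R) = ![0, 1, 0, 0, 0] := by
    refine V5_ext ?_ ?_ ?_ ?_ ?_ <;> rfl
  have b2 : cyc 2 (e0 : V5 R) = ![0, 0, 1, 0, 0] := by
    refine V5_ext ?_ ?_ ?_ ?_ ?_ <;> rfl
  have b3 : cyc 3 (e0 : V5 R) = ![0, 0, 0, 1, 0] := by
    refine V5_ext ?_ ?_ ?_ ?_ ?_ <;> rfl
  have b4 : cyc 4 (e0 : V5 R) = ![0, 0, 0, 0, 1] := by
    refine V5_ext ?_ ?_ ?_ ?_ ?_ <;> rfl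
  have X0 : X5 (cyc 1 (e0 : V5 R)) (cyc 2 e0) (cyc 3 e0) (cyc 4 e0) = e0 := by
    rw [b1, b2, b3, b4]
    refine V5_ext ?_ ?_ ?_ ?_ ?_
    · rw [X5_0]; simp [lap, mn, e0]
    · rw [X5_1]; simp [lap, mn, e0]
    · rw [X5_2]; simp [lap, mn, e0]
    · rw [X5_3]; simp [lap, mn, e0]
    · rw [X5_4]; simp [lap, mn, e0]
  have cvX : ∀ u a b c d : V5 R,
      X5 (cv u a) (cv u b) (cv u c) (cv u d) = cv (aj u) (X5 a b c d) := by
    intro u
    set B := (A u).adjugateᵀ with hB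
    have comm1 : A u * Cm R = Cm R * A u := by
      refine ext_mulVec fun x => ?_
      rw [← Matrix.mulVec_mulVec, ← Matrix.mulVec_mulVec, hC1, hC1, A_mul, A_mul, cvy]
    have comm2 : B * Cm R = Cm R * B := by
      have e := congrArg (fun M : Matrix (Fin 5) (Fin 5) R => M.adjugateᵀ) comm1
      simp only [Matrix.adjugate_mul_distrib, Matrix.transpose_mul, hadj] at e
      exact e
    have hB1 : ∀ x, B *ᵥ cyc 1 x = cyc 1 (B *ᵥ x) := by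
      intro x
      rw [← hC1, ← hC1, Matrix.mulVec_mulVec, Matrix.mulVec_mulVec, comm2]
    have hBt := ind (fun x => B *ᵥ x) hB1
    have hBc : ∀ x, B *ᵥ x = cv (B *ᵥ e0) x := by
      intro x
      have e : x = x 0 • e0 + x 1 • cyc 1 e0 + x 2 • cyc 2 e0 + x 3 • cyc 3 e0 + x 4 • cyc 4 e0 := by
        rw [b1, b2, b3, b4]
        refine V5_ext ?_ ?_ ?_ ?_ ?_ <;> simp [e0]
      have e2 : cv (B *ᵥ e0) x = x 0 • (B *ᵥ e0) + x 1 • cyc 1 (B *ᵥ e0) + x 2 • cyc 2 (B *ᵥ e0)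
          + x 3 • cyc 3 (B *ᵥ e0) + x 4 • cyc 4 (B *ᵥ e0) := by
        conv_lhs => rw [e]
        rw [cvC, cvD, cvD, cvD, cvD, cvS, cvS, cvS, cvS, cvS, cvO, cvC (cyc 1 e0),
          cvC (cyc 2 e0), cvC (cyc 3 e0), cvC (cyc 4 e0), cvy, cvy, cvy, cvy,
          cvC _ e0, cvO]
      rw [e2]
      conv_lhs => rw [e]
      simp only [Matrix.mulVec_add, Matrix.mulVec_smul]
      rw [hBt 1 e0, hBt 2 e0, hBt 3 e0, hBt 4 e0]
    have hall : ∀ a b c d, X5 (cv u a) (cv u b) (cv u c) (cv u d) = cv (B *ᵥ e0) (X5 a b c d) := by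
      intro a b c d
      rw [← A_mul, ← A_mul, ← A_mul, ← A_mul, X5_mulVec, ← hB, hBc]
    have haj : aj u = B *ᵥ e0 := by
      have h := hall (cyc 1 e0) (cyc 2 e0) (cyc 3 e0) (cyc 4 e0)
      rw [X0, cvy, cvy, cvy, cvy, cvC _ e0, cvO, cvC _ e0, cvO] at h
      exact h
    intro a b c d
    rw [haj]
    exact hall a b c d
  refine ⟨cvC, cvA, cvO, cvy, cvS, cvD, cvX, ?_, X0, ?_, ?_⟩
  · intro a b
    unfold aj
    rw [← cvy, ← cvy, ← cvy, ← cvy, cvX]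
    rfl
  · intro r a
    unfold aj
    rw [hcs, hcs, hcs, hcs, X5_smul]
    congr 1
    ring
  · intro t a
    unfold aj
    rw [← hX]
    simp only [hcc]
    congr 2 <;> ring

end Pool.Agent.MP62a5ad.RI
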