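import Pool.Agent.Lib.MP_62a5ad_mp.RI.Spec2

/-!
# MP_62a5ad: the cyclic shift of five coordinates (module Cyc)
-/

set_option autoImplicit false

namespace Pool.Agent.MP62a5ad.RI

open Matrix

namespace cycAux

variable {R : Type}

theorem cyc_cyc (s t : ZMod 5) (x : V5 R) : cyc s (cyc t x) = cyc (s + t) x := by
  funext i
  unfold cyc
  congr 1
  show (show ZMod 5 from i) - s - t = (show ZMod 5 from i) - (s + t)
  rw [sub_sub]

theorem cyc_zero (x : V5 R) : cyc 0 x = x := by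
  funext i
  unfold cyc
  congr 1
  exact sub_zero (show ZMod 5 from i)

variable [CommRing R]

theorem cyc_one_X5 (a b c d : V5 R) :
    X5 (cyc 1 a) (cyc 1 b) (cyc 1 c) (cyc 1 d) = cyc 1 (X5 a b c d) := by
  have e0 : ∀ x : V5 R, cyc 1 x 0 = x 4 := fun x => rfl
  have e1 : ∀ x : V5 R, cyc 1 x 1 = x 0 := fun x => rfl
  have e2 : ∀ x : V5 R, cyc 1 x 2 = x 1 := fun x => rfl
  have e3 : ∀ x : V5 R, cyc 1 x 3 = x 2 := fun x => rfl
  have e4 : ∀ x : V5 R, cyc 1 x 4 = x 3 := fun x => rfl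
  refine V5_ext ?_ ?_ ?_ ?_ ?_
  · rw [X5_0, e0, X5_4]; simp only [lap, mn, e1, e2, e3, e4]
  · rw [X5_1, e1, X5_0]; simp only [lap, mn, e0, e2, e3, e4]; ring
  · rw [X5_2, e2, X5_1]; simp only [lap, mn, e0, e1, e3, e4]; ring
  · rw [X5_3, e3, X5_2]; simp only [lap, mn, e0, e1, e2, e4]; ring
  · rw [X5_4, e4, X5_3]; simp only [lap, mn, e0, e1, e2, e3]; ring

theorem cyc_nat_X5 (m : ℕ) (a b c d : V5 R) :
    X5 (cyc (m : ZMod 5) a) (cyc (m : ZMod 5) b) (cyc (m : ZMod 5) c) (cyc (m : ZMod 5) d)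
      = cyc (m : ZMod 5) (X5 a b c d) := by
  induction m with
  | zero => simp only [Nat.cast_zero, cyc_zero]
  | succ m ih =>
    have e : ((m + 1 : ℕ) : ZMod 5) = 1 + (m : ZMod 5) := by push_cast; ring
    rw [e, ← cyc_cyc, ← cyc_cyc, ← cyc_cyc, ← cyc_cyc, cyc_one_X5, ih, cyc_cyc]

theorem cyc_X5 (t : ZMod 5) (a b c d : V5 R) :
    X5 (cyc t a) (cyc t b) (cyc t c) (cyc t d) = cyc t (X5 a b c d) := by
  have h := cyc_nat_X5 t.val a b c d
  rw [ZMod.natCast_zmod_val] at h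
  exact h

theorem Cm_mul (x : V5 R) : Cm R *ᵥ x = cyc 1 x := by
  have h : ∀ i j : Fin 5, (i = j + 1) ↔ j = i - 1 := by decide
  funext i
  show ∑ j, Cm R i j * x j = _
  rw [Finset.sum_eq_single (i - 1)]
  · have : Cm R i (i - 1) = 1 := if_pos ((h i (i - 1)).2 rfl)
    rw [this, one_mul]
    rfl
  · intro j _ hj
    have : Cm R i j = 0 := if_neg fun e => hj ((h i j).1 e)
    rw [this, zero_mul]
  · intro h; exact absurd (Finset.mem_univ _) h

theorem Cm_mulT (x : V5 R) : (Cm R)ᵀ *ᵥ x = cyc (-1) x := by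
  funext i
  show ∑ j, Cm R j i * x j = _
  rw [Finset.sum_eq_single (i + 1)]
  · have : Cm R (i + 1) i = 1 := if_pos rfl
    rw [this, one_mul]
    show x (i + 1) = x ((show ZMod 5 from i) - (-1) : ZMod 5)
    congr 1
    clear this
    revert i
    decide
  · intro j _ hj
    have : Cm R j i = 0 := if_neg hj
    rw [this, zero_mul]
  · intro h; exact absurd (Finset.mem_univ _) h

theorem Cm_pow (m : ℕ) (x : V5 R) : (Cm R ^ m) *ᵥ x = cyc (m : ZMod 5) x := by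
  induction m with
  | zero => simp [cyc_zero]
  | succ m ih =>
    rw [pow_succ', ← Matrix.mulVec_mulVec, ih, Cm_mul, cyc_cyc]
    congr 1
    push_cast; ring

theorem Cm_powT (m : ℕ) (x : V5 R) : (Cm R ^ m)ᵀ *ᵥ x = cyc (-(m : ZMod 5)) x := by
  induction m with
  | zero => simp [cyc_zero]
  | succ m ih =>
    rw [pow_succ, Matrix.transpose_mul, ← Matrix.mulVec_mulVec, ih, Cm_mulT, cyc_cyc]
    congr 1
    push_cast; ring

theorem ext_mulVec {A B : Matrix (Fin 5) (Fin 5) R} (h : ∀ x, A *ᵥ x = B *ᵥ x) : A = B := by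
  ext i j
  have := congrFun (h (Pi.single j 1)) i
  simpa using this

theorem Cm_det : (Cm R).det = 1 := by
  have h : Cm R = Matrix.of ![![0, 0, 0, 0, 1], ![1, 0, 0, 0, 0], ![0, 1, 0, 0, 0],
      ![0, 0, 1, 0, 0], ![0, 0, 0, 1, 0]] := by
    ext i j
    fin_cases i <;> fin_cases j <;> simp [Cm]
  rw [h, ← X5_det, dot5, X5_0, X5_1, X5_2, X5_3, X5_4]
  simp [lap, mn]

theorem Cm_adj : (Cm R).adjugateᵀ = Cm R := by
  have h1 : Cm R * (Cm R)ᵀ = 1 := by
    refine ext_mulVec fun x => ?_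
    rw [← Matrix.mulVec_mulVec, Cm_mulT, Cm_mul, cyc_cyc]
    simp [cyc_zero]
  have h2 : (Cm R).adjugate = (Cm R)ᵀ := by
    have h3 : (Cm R).adjugate * (Cm R * (Cm R)ᵀ) = (Cm R)ᵀ := by
      rw [← Matrix.mul_assoc, Matrix.adjugate_mul, Cm_det, one_smul, Matrix.one_mul]
    rwa [h1, Matrix.mul_one] at h3
  rw [h2, Matrix.transpose_transpose]

theorem Cm_pow_adj (m : ℕ) : (Cm R ^ m).adjugateᵀ = Cm R ^ m := by
  rw [Matrix.adjugate_pow, Matrix.transpose_pow, Cm_adj]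

end cycAux

open cycAux in
theorem cyc_thm : S_Cyc := by
  intro R _
  refine ⟨cyc_cyc, cyc_zero, ?_, ?_, cyc_X5, Cm_pow, Cm_powT, ?_, Cm_adj, Cm_det⟩
  · intro t x
    constructor
    · intro h
      have h2 := congrArg (cyc (-t)) h
      rw [cyc_cyc, neg_add_cancel, cyc_zero] at h2
      rw [h2]; rfl
    · rintro rfl; rfl
  · intro t r x y; rfl
  · intro m x
    rw [Cm_pow_adj, Cm_pow]

end Pool.Agent.MP62a5ad.RI
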