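import Mathlib

/-!
# MP_62a5ad: rational first integrals of the generalized pentagram maps, definitions

Vectors with five coordinates, the cross product of four of them, polygons `Fin n → V5`, the half
step `fwd` (polygon of hyperplanes spanned by `v k`, `B k v (k+1)`, `M v k`, `M² v k`) and its
inverse `bwd`, polynomials in the coordinates of a polygon.
-/

set_option autoImplicit false

namespace Pool.Agent.MP62a5ad.RI

open Matrix

/-- Vectors with five coordinates. -/
abbrev V5 (R : Type) := Fin 5 → R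

section Cross

variable {R : Type} [CommRing R]

/-- A `2 × 2` minor. -/
def mn (a b : V5 R) (i j : Fin 5) : R := a i * b j - a j * b i

/-- The `4 × 4` minor of the rows `a b c d` and the columns `w x y z` (Laplace expansion). -/
def lap (a b c d : V5 R) (w x y z : Fin 5) : R :=
  mn a b w x * mn c d y z - mn a b w y * mn c d x z + mn a b w z * mn c d x y
    + mn a b x y * mn c d w z - mn a b x z * mn c d w y + mn a b y z * mn c d w x

/-- The cross product of four vectors: `⟪w, X5 a b c d⟫ = det (w, a, b, c, d)`. -/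
def X5 (a b c d : V5 R) : V5 R :=
  ![lap a b c d 1 2 3 4, -lap a b c d 0 2 3 4, lap a b c d 0 1 3 4, -lap a b c d 0 1 2 4,
    lap a b c d 0 1 2 3]

end Cross

/-- Polygons (or polygons of hyperplanes) with `n` vertices over `R`. -/
abbrev Pg (n : ℕ) (R : Type) := Fin n → V5 R

/-- The matrices of a half step. -/
structure Dat (n : ℕ) (R : Type) where
  /-- the matrix `M` -/
  M : Matrix (Fin 5) (Fin 5) R
  /-- the matrices on the links `(k, k+1)` -/
  B : Fin n → Matrix (Fin 5) (Fin 5) R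

section Maps

variable {n : ℕ} [NeZero n] {R : Type} [CommRing R]

/-- The half step: the hyperplane spanned by `v k`, `B k (v (k+1))`, `M (v k)`, `M² (v k)`. -/
def fwd (d : Dat n R) (v : Pg n R) : Pg n R := fun k =>
  X5 (v k) (d.B k *ᵥ v (k + 1)) (d.M *ᵥ v k) (d.M *ᵥ (d.M *ᵥ v k))

/-- The inverse half step. -/
def bwd (d : Dat n R) (w : Pg n R) : Pg n R := fun k =>
  X5 (w k) ((d.B (k - 1))ᵀ *ᵥ w (k - 1)) (d.Mᵀ *ᵥ w k) (d.Mᵀ *ᵥ (d.Mᵀ *ᵥ w k))

omit [NeZero n] in
/-- Scaling of the vertices. -/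
def sc (c : Fin n → R) (v : Pg n R) : Pg n R := fun k i => c k * v k i

end Maps

section Change

variable {n : ℕ}

/-- Image of a datum under a ring homomorphism. -/
def Dat.map {R S : Type} [CommRing R] [CommRing S] (d : Dat n R) (φ : R →+* S) : Dat n S :=
  ⟨d.M.map φ, fun k => (d.B k).map φ⟩

/-- A datum over `L` as a datum over the `L`-algebra `R`. -/
def Dat.up {L : Type} [CommRing L] (d : Dat n L) (R : Type) [CommRing R] [Algebra L R] : Dat n R :=
  d.map (algebraMap L R)

/-- The datum with `B k = M ^ c k`. -/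
def pw {R : Type} [CommRing R] (M : Matrix (Fin 5) (Fin 5) R) (c : Fin n → ℕ) : Dat n R :=
  ⟨M, fun k => M ^ c k⟩

end Change

/-- The exponents `c, …, c, c + 1`. -/
def lst (n c : ℕ) : Fin n → ℕ := fun j => if (j : ℕ) + 1 = n then c + 1 else c

/-- The polynomial ring in the coordinates of a polygon. -/
abbrev PR (n : ℕ) (L : Type) [CommRing L] := MvPolynomial (Fin n × Fin 5) L

section Poly

variable (n : ℕ) (L : Type) [CommRing L]

/-- The generic polygon. -/
noncomputable def gen : Pg n (PR n L) := fun k i => MvPolynomial.X (k, i)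

variable {n L}

/-- The value of a polynomial at a polygon. -/
noncomputable def ev {R : Type} [CommRing R] [Algebra L R] (f : PR n L) (v : Pg n R) : R :=
  MvPolynomial.aeval (fun x : Fin n × Fin 5 => v x.1 x.2) f

/-- `f` is multihomogeneous of multidegree `a`. -/
def MH (a : Fin n → ℕ) (f : PR n L) : Prop :=
  ∀ (R : Type) [CommRing R] [Algebra L R] (c : Fin n → R) (v : Pg n R),
    ev f (sc c v) = (∏ k, c k ^ a k) * ev f v

variable [NeZero n]

/-- The half step of the generic polygon. -/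
noncomputable def Fg (d : Dat n L) : Pg n (PR n L) := fwd (d.up (PR n L)) (gen n L)

/-- The inverse half step of the generic polygon. -/
noncomputable def Gg (d : Dat n L) : Pg n (PR n L) := bwd (d.up (PR n L)) (gen n L)

/-- `bwd (fwd v) k = Λ k • v k`. -/
def IsLam (d : Dat n L) (Λ : Fin n → PR n L) : Prop :=
  ∀ k, bwd (d.up (PR n L)) (Fg d) k = Λ k • gen n L k

/-- `fwd (bwd w) k = Λ' k • w k`. -/
def IsLam' (d : Dat n L) (Λ' : Fin n → PR n L) : Prop :=
  ∀ k, fwd (d.up (PR n L)) (Gg d) k = Λ' k • gen n L k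

/-- The generic point of the set of all `w` with `bwd w k = 0`: the vertex `k - 1` is
`(adj B (k-1))ᵀ (x₀ w k + x₁ Mᵀ w k + x₂ Mᵀ Mᵀ w k)`, all other vertices are free. -/
noncomputable def psi (d : Dat n L) (k : Fin n) : Pg n (PR n L) := fun j =>
  if j = k - 1 then
    ((d.up (PR n L)).B (k - 1)).adjugateᵀ *ᵥ
      (gen n L (k - 1) 0 • gen n L k + gen n L (k - 1) 1 • ((d.up (PR n L)).Mᵀ *ᵥ gen n L k)
        + gen n L (k - 1) 2 • ((d.up (PR n L)).Mᵀ *ᵥ ((d.up (PR n L)).Mᵀ *ᵥ gen n L k)))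
  else gen n L j

/-- The orbit of `psi d k` under the half steps of `d'`, `d`, `d'`, `d`, … -/
noncomputable def orb (d d' : Dat n L) (k : Fin n) : ℕ → Pg n (PR n L)
  | 0 => psi d k
  | m + 1 => fwd ((if m % 2 = 0 then d' else d).up (PR n L)) (orb d d' k m)

/-- All points of the orbit are regular: the inverse half step is defined at the next point. -/
def REG (d d' : Dat n L) (k : Fin n) : Prop :=
  ∀ m j, bwd ((if m % 2 = 0 then d' else d).up (PR n L)) (orb d d' k (m + 1)) j ≠ 0

/-- A preimage of `psi d k` (up to scaling). -/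
noncomputable def xpt (d : Dat n L) (k : Fin n) (η : V5 L) : Pg n (PR n L) := fun j =>
  if j = k then
    X5 (gen n L k) ((d.up (PR n L)).Mᵀ *ᵥ gen n L k)
      ((d.up (PR n L)).Mᵀ *ᵥ ((d.up (PR n L)).Mᵀ *ᵥ gen n L k)) (fun i => MvPolynomial.C (η i))
  else bwd (d.up (PR n L)) (psi d k) j

/-- The preimage is not degenerate. -/
def NZ (d : Dat n L) (k : Fin n) : Prop :=
  ∃ η : V5 L, xpt d k η k ≠ 0 ∧ ∀ j, fwd (d.up (PR n L)) (xpt d k η) j ≠ 0

/-- All properties of a half step which are used. -/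
structure HP (d : Dat n L) (Λ Λ' : Fin n → PR n L) : Prop where
  lam : IsLam d Λ
  lam' : IsLam' d Λ'
  irr : ∀ k, Irreducible (Λ k)
  det : ∀ k, IsUnit (d.B k).det
  nz : ∀ k, NZ d k

/-- The fraction `p / q` is invariant under `fwd d' ∘ fwd d` (at all points where the two half
steps and both values are defined) and under all choices of the scaling of the image. -/
def InvF (d d' : Dat n L) (p q : PR n L) : Prop :=
  ∀ (v : Pg n L) (c : Fin n → L), (∀ k, fwd d v k ≠ 0) → (∀ k, fwd d' (fwd d v) k ≠ 0) →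
    (∀ k, c k ≠ 0) → ev q v ≠ 0 → ev q (sc c (fwd d' (fwd d v))) ≠ 0 →
    ev p v * ev q (sc c (fwd d' (fwd d v))) = ev p (sc c (fwd d' (fwd d v))) * ev q v

end Poly

/-- The field generated by the coordinates of a polygon. -/
def fld (L : Type) [Field L] {K : Type} [Field K] [Algebra L K] {n : ℕ} (v : Pg n K) :
    IntermediateField L K :=
  IntermediateField.adjoin L (Set.range fun x : Fin n × Fin 5 => v x.1 x.2)

section Cyc

variable {R : Type}

/-- The cyclic shift `(cyc t x) i = x (i - t)`. -/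
def cyc (t : ZMod 5) (x : V5 R) : V5 R := fun i => x ((show ZMod 5 from i) - t : ZMod 5)

variable [CommRing R]

/-- The matrix of the cyclic shift by one. -/
def Cm (R : Type) [CommRing R] : Matrix (Fin 5) (Fin 5) R := fun i j => if i = j + 1 then 1 else 0

/-- The half step for sequences. -/
def fk (u : ℤ → V5 R) : ℤ → V5 R := fun k => X5 (u k) (u (k + 1)) (cyc 1 (u k)) (cyc 2 (u k))

/-- The inverse half step for sequences. -/
def bk (u : ℤ → V5 R) : ℤ → V5 R := fun k => X5 (u k) (u (k - 1)) (cyc (-1) (u k)) (cyc (-2) (u k))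

/-- A certificate for the regularity of the orbit. -/
def Cert (n s : ℕ) : Prop := ∃ u : ℤ → V5 (ZMod 9), (∀ k, u (k + n) = cyc s (u k)) ∧
  (∃ α β γ : ZMod 9, u 0 = α • u 1 + β • cyc (-1) (u 1) + γ • cyc (-2) (u 1)) ∧
  ∀ m k, bk (fk^[m + 1] u) k ≠ 0

/-- A certificate for the preimage. -/
def CertZ (n s : ℕ) : Prop := ∃ u x : ℤ → V5 (ZMod 9), (∀ k, u (k + n) = cyc s (u k)) ∧
  (∀ k, x (k + n) = cyc s (x k)) ∧
  (∃ α β γ : ZMod 9, u 0 = α • u 1 + β • cyc (-1) (u 1) + γ • cyc (-2) (u 1)) ∧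
  (∀ k : ℤ, ¬ (n : ℤ) ∣ (k - 1) → x k = bk u k) ∧
  (∃ η, x 1 = X5 (u 1) (cyc (-1) (u 1)) (cyc (-2) (u 1)) η) ∧ x 1 ≠ 0 ∧ ∀ k, fk x k ≠ 0

/-- An integral matrix which is congruent to the cyclic shift modulo nine. -/
def IsC9 (M : Matrix (Fin 5) (Fin 5) ℤ) : Prop := M.map (Int.cast : ℤ → ZMod 9) = Cm (ZMod 9)

end Cyc

end Pool.Agent.MP62a5ad.RI
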