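import Pool.Agent.Lib.MP_62a5ad_mp.RI.Defs

/-!
# MP_62a5ad: twisted polygons in the projective space `P⁴` and the map `T_{I,I}`, definitions

A twisted `n`-gon is given by vectors `v k`, `k : ℤ`, with `v (k + n) = M v k`.
-/

set_option autoImplicit false

namespace Pool.Agent.MP62a5ad.RI

open Matrix

/-- The offsets `s_0 = 0`, `s_m = i_1 + … + i_m`. -/
def off (I : Fin 3 → ℕ) (m : Fin 4) : ℕ := ∑ j : Fin 3, if (j : ℕ) < (m : ℕ) then I j else 0

/-- The tuples `I` with the set of offsets `{0, c n + 1, n, 2 n}`: `(1, n - 1, n)` for `c = 0`,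
`(n, 1, n - 1)` for `c = 1` and `(n, n, (c - 2) n + 1)` for `c ≥ 2`. -/
def tup (n : ℕ) : ℕ → Fin 3 → ℕ
  | 0 => ![1, n - 1, n]
  | 1 => ![n, 1, n - 1]
  | c + 2 => ![n, n, c * n + 1]

section

variable {K : Type} [Field K]

/-- The vectors `v k` represent a twisted `n`-gon with the monodromy `M`. -/
def Tw (n : ℕ) (M : Matrix (Fin 5) (Fin 5) K) (v : ℤ → V5 K) : Prop := ∀ k, v (k + n) = M *ᵥ v k

/-- The subspace `P_k`, spanned by the vertices `v (k + s_m)`. -/
def plane (I : Fin 3 → ℕ) (v : ℤ → V5 K) (k : ℤ) : Submodule K (V5 K) :=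
  Submodule.span K (Set.range fun m : Fin 4 => v (k + off I m))

/-- The intersection of the subspaces `P_{k + s_m}`. -/
def meet (I : Fin 3 → ℕ) (v : ℤ → V5 K) (k : ℤ) : Submodule K (V5 K) :=
  ⨅ m : Fin 4, plane I v (k + off I m)

/-- Every `P_k` is a hyperplane, and the four hyperplanes meet in exactly one point. -/
def Generic (I : Fin 3 → ℕ) (v : ℤ → V5 K) : Prop :=
  (∀ k, Module.finrank K (plane I v k) = 4) ∧ ∀ k, Module.finrank K (meet I v k) = 1

/-- The vectors `w k` represent the image of the polygon `v` under `T_{I,I}`. -/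
def IsImage (I : Fin 3 → ℕ) (v w : ℤ → V5 K) : Prop := ∀ k, w k ≠ 0 ∧ w k ∈ meet I v k

/-- The coordinates: those of the vertices `v_0, …, v_{n-1}` and the entries of the monodromy. -/
abbrev Co (n : ℕ) : Type := (Fin n × Fin 5) ⊕ (Fin 5 × Fin 5)

/-- The value of a polynomial. -/
noncomputable def vl {n : ℕ} (f : MvPolynomial (Co n) K) (x : Fin n → V5 K)
    (M : Matrix (Fin 5) (Fin 5) K) : K :=
  MvPolynomial.eval (Sum.elim (fun z => x z.1 z.2) (fun z => M z.1 z.2)) f

/-- The vertices `v_0, …, v_{n-1}`. -/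
def fst (n : ℕ) (v : ℤ → V5 K) : Fin n → V5 K := fun j => v ((j : ℕ) : ℤ)

/-- The rational function `p / q` of the vertices and of the monodromy is invariant under
`T_{I,I}`: its values at a polygon and at its image agree, wherever both are defined. -/
def Invariant (n : ℕ) (I : Fin 3 → ℕ) (p q : MvPolynomial (Co n) K) : Prop :=
  ∀ (M : Matrix (Fin 5) (Fin 5) K) (v w : ℤ → V5 K), M.det ≠ 0 → Tw n M v → Tw n M w →
    Generic I v → IsImage I v w → vl q (fst n v) M ≠ 0 → vl q (fst n w) M ≠ 0 →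
    vl p (fst n w) M / vl q (fst n w) M = vl p (fst n v) M / vl q (fst n v) M

/-- The rational function `p / q` is invariant under projective transformations. -/
def ProjInv (n : ℕ) (p q : MvPolynomial (Co n) K) : Prop :=
  ∀ (g M : Matrix (Fin 5) (Fin 5) K) (x : Fin n → V5 K), g.det ≠ 0 → M.det ≠ 0 →
    vl q x M ≠ 0 → vl q (fun j => g *ᵥ x j) (g * M * g⁻¹) ≠ 0 →
    vl p (fun j => g *ᵥ x j) (g * M * g⁻¹) / vl q (fun j => g *ᵥ x j) (g * M * g⁻¹)
      = vl p x M / vl q x M

/-- The polygons for which the map is defined contain a non-empty Zariski open set. -/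
def Admissible (K : Type) [Field K] (n : ℕ) (I : Fin 3 → ℕ) : Prop :=
  ∃ g : MvPolynomial (Co n) K, g ≠ 0 ∧ ∀ (M : Matrix (Fin 5) (Fin 5) K) (v : ℤ → V5 K),
    Tw n M v → vl g (fst n v) M ≠ 0 → M.det ≠ 0 ∧ Generic I v

end

end Pool.Agent.MP62a5ad.RI
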