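import Pool.Agent.Lib.MP_62a5ad_mp.RI.Spec

/-!
# MP_62a5ad: degrees (module Deg)
-/

set_option autoImplicit false

namespace Pool.Agent.MP62a5ad.RI

open Matrix

namespace degAux

variable {n : ℕ} {L : Type} [Field L]

theorem ev_poly (f : PR n L) :
    ev f (fun k i => (Polynomial.C (gen n L k i) : Polynomial (PR n L))) = Polynomial.C f := by
  have h := ev_map (IsScalarTower.toAlgHom L (PR n L) (Polynomial (PR n L))) f (gen n L)
  rw [ev_gen] at h
  exact h.symm

theorem uniq (a b : Fin n → ℕ) (f : PR n L) (hf : f ≠ 0) (ha : MH a f) (hb : MH b f) : a = b := by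
  funext k
  have h1 := ha (Polynomial (PR n L)) (fun j => if j = k then Polynomial.X else 1)
    (fun k i => Polynomial.C (gen n L k i))
  have h2 := hb (Polynomial (PR n L)) (fun j => if j = k then Polynomial.X else 1)
    (fun k i => Polynomial.C (gen n L k i))
  rw [h1, ev_poly] at h2
  have h3 := mul_right_cancel₀ (Polynomial.C_ne_zero.2 hf) h2
  simp only [ite_pow, one_pow, Finset.prod_ite_eq', Finset.mem_univ, if_true] at h3
  have h4 := congrArg Polynomial.natDegree h3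
  rwa [Polynomial.natDegree_X_pow, Polynomial.natDegree_X_pow] at h4

theorem unit_C (G : PR n L) (h : IsUnit G) : ∃ c : L, c ≠ 0 ∧ G = MvPolynomial.C c := by
  rw [MvPolynomial.isUnit_iff_totalDegree_of_isReduced] at h
  refine ⟨G.coeff 0, h.1.ne_zero, MvPolynomial.totalDegree_eq_zero_iff_eq_C.1 h.2⟩

theorem mh_C (a : Fin n → ℕ) (f : PR n L) (c : L) (h : MH a f) :
    MH a (MvPolynomial.C c * f) := by
  intro R _ _ t v
  rw [ev_mul, ev_mul, h R t v]
  have e : ∀ x : Pg n R, ev (MvPolynomial.C c : PR n L) x = algebraMap L R c := by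
    intro x
    unfold ev
    rw [MvPolynomial.aeval_C]
  rw [e, e]
  ring

end degAux

open degAux in
theorem deg (h1 : S_Cmp) : S_Deg := by
  intro n _ L _ d d' Λ Λ' Ξ Ξ' hL hL' hX hX' nL nL' nX nX' P0 P1 G H a b hG hH hP1 ha hb e1 e2
  obtain ⟨c1, c2, -⟩ := h1 n L d Λ Λ' hL hL' nL nL' b P1 hb
  have hP0 : P0 ≠ 0 := by
    intro h
    rw [h, mul_zero] at e1
    exact c2 hP1 e1
  obtain ⟨c3, -, -⟩ := h1 n L d' Ξ Ξ' hX hX' nX nX' a P0 ha
  obtain ⟨g, hg, rfl⟩ := unit_C G hG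
  obtain ⟨h, hh, rfl⟩ := unit_C H hH
  rw [e1] at c1
  rw [e2] at c3
  have f1 := uniq _ _ _ (mul_ne_zero (MvPolynomial.C_ne_zero.2 hh) hP0) c1 (mh_C a P0 h ha)
  have f2 := uniq _ _ _ (mul_ne_zero (MvPolynomial.C_ne_zero.2 hg) hP1) c3 (mh_C b P1 g hb)
  have s : ∀ u : Fin n → ℕ, ∑ k, (3 * u k + u (k - 1)) = 4 * ∑ k, u k := by
    intro u
    rw [Finset.sum_add_distrib, ← Finset.mul_sum]
    have : ∑ k, u (k - 1) = ∑ k, u k :=
      Fintype.sum_equiv (Equiv.subRight 1) _ _ fun k => rfl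
    rw [this]
    ring
  have s1 : ∑ k, a k = 4 * ∑ k, b k := by rw [← s, ← f1]
  have s2 : ∑ k, b k = 4 * ∑ k, a k := by rw [← s, ← f2]
  have s3 : ∑ k, a k = 0 := by omega
  have a0 : ∀ k, a k = 0 := fun k => by
    have := (Finset.sum_eq_zero_iff.1 s3) k (Finset.mem_univ k)
    exact this
  have h5 := ha (PR n L) (fun _ => 0) (gen n L)
  rw [ev_gen, Finset.prod_eq_one (fun k _ => by rw [a0, pow_zero]), one_mul] at h5
  refine ⟨MvPolynomial.constantCoeff P0, ?_⟩
  rw [← h5]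
  unfold ev
  have e : (fun x : Fin n × Fin 5 => sc (fun _ => (0 : PR n L)) (gen n L) x.1 x.2) = 0 := by
    funext x
    exact zero_mul _
  rw [e, MvPolynomial.aeval_zero]
  simp

end Pool.Agent.MP62a5ad.RI
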