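import Pool.Agent.Lib.MP_62a5ad_mp.RI.Spec2

/-!
# MP_62a5ad: density of integral matrices (module Den)
-/

set_option autoImplicit false

namespace Pool.Agent.MP62a5ad.RI

open Matrix

theorem den : S_Den := by
  intro K _ _ F hF
  let s : Fin 5 × Fin 5 → Set K := fun z => Set.range fun t : ℤ => ((Cm ℤ z.1 z.2 + 9 * t : ℤ) : K)
  have hinf : ∀ z, (s z).Infinite := by
    intro z
    refine Set.infinite_range_of_injective ?_
    intro a b h
    have h2 : (Cm ℤ z.1 z.2 + 9 * a : ℤ) = Cm ℤ z.1 z.2 + 9 * b := Int.cast_injective h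
    omega
  refine MvPolynomial.funext_set s hinf ?_
  intro x hx
  rw [map_zero]
  have hx2 : ∀ z, ∃ t : ℤ, ((Cm ℤ z.1 z.2 + 9 * t : ℤ) : K) = x z := fun z => hx z (Set.mem_univ z)
  choose t ht using hx2
  have h := hF (Matrix.of fun i j => Cm ℤ i j + 9 * t (i, j)) (by
    unfold IsC9
    ext i j
    rw [Matrix.map_apply, Matrix.of_apply]
    have h9 : ((9 : ℤ) : ZMod 9) = 0 := by decide
    rw [Int.cast_add, Int.cast_mul, h9, zero_mul, add_zero]
    unfold Cm
    split_ifs <;> simp)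
  have e : (fun z : Fin 5 × Fin 5 => (((Cm ℤ z.1 z.2 + 9 * t (z.1, z.2) : ℤ)) : K)) = x := by
    funext z
    exact ht z
  rw [← e]
  exact h

end Pool.Agent.MP62a5ad.RI
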