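import Pool.Agent.Lib.MP_62a5ad_mp.RI.Spec2

/-!
# MP_62a5ad: algebraic dependence (module Dep)
-/

set_option autoImplicit false

namespace Pool.Agent.MP62a5ad.RI

open Matrix

theorem dep_bs (K : Type) [Field K] (A Ω : Type) [CommRing A] [Field Ω] [Algebra K A]
    [Algebra A Ω] [Algebra K Ω] [IsScalarTower K A Ω] (c : Fin 5 → A)
    (f : MvPolynomial (Fin 5) K) :
    algebraMap A Ω (MvPolynomial.aeval c f) = MvPolynomial.aeval (fun j => algebraMap A Ω (c j)) f := by
  have : (IsScalarTower.toAlgHom K A Ω) (MvPolynomial.aeval c f)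
      = MvPolynomial.aeval (fun j => algebraMap A Ω (c j)) f := by
    rw [← AlgHom.comp_apply, MvPolynomial.comp_aeval]
    rfl
  exact this

theorem dep (h1 : S_Dp1) (h2 : S_Tr5) : S_Dep := by
  intro n K _ _ p q hq hB hP
  let b : Fin 5 → FractionRing (MvPolynomial (Co n) K) := fun j =>
    algebraMap (MvPolynomial (Co n) K) (FractionRing (MvPolynomial (Co n) K))
      ((gM n K).charpoly.coeff (j : ℕ))
  refine h2 K (FractionRing (MvPolynomial (Co n) K)) b _ fun i => ?_
  obtain ⟨r, s, hs, e⟩ := h1 n K (p i) (q i) (hq i) (hB i) (hP i)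
  have hinj : Function.Injective
      (algebraMap (MvPolynomial (Co n) K) (FractionRing (MvPolynomial (Co n) K))) :=
    IsFractionRing.injective _ _
  have hBs : ∀ f : MvPolynomial (Fin 5) K,
      algebraMap (MvPolynomial (Co n) K) (FractionRing (MvPolynomial (Co n) K)) (Bs n f)
        = MvPolynomial.aeval b f := by
    intro f
    exact dep_bs K _ _ _ f
  have hs' : algebraMap (MvPolynomial (Co n) K) (FractionRing (MvPolynomial (Co n) K)) (Bs n s) ≠ 0 :=
    fun h => hs (hinj (by rw [h, map_zero]))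
  have hq' : algebraMap (MvPolynomial (Co n) K) (FractionRing (MvPolynomial (Co n) K)) (q i) ≠ 0 :=
    fun h => hq i (hinj (by rw [h, map_zero]))
  have e2 : algebraMap (MvPolynomial (Co n) K) (FractionRing (MvPolynomial (Co n) K)) (p i)
        / algebraMap (MvPolynomial (Co n) K) (FractionRing (MvPolynomial (Co n) K)) (q i)
      = MvPolynomial.aeval b r / MvPolynomial.aeval b s := by
    rw [← hBs, ← hBs, div_eq_div_iff hq' (by rw [hBs] at hs' ⊢; exact hs'), ← map_mul, ← map_mul, e,
      mul_comm]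
  rw [e2]
  exact (IntermediateField.mem_adjoin_range_iff K b _).2 ⟨r, s, rfl⟩

end Pool.Agent.MP62a5ad.RI
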