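import Pool.Agent.Lib.MP_62a5ad_mp.RI.Spec

/-!
# MP_62a5ad: eigenbasis (module Dia)
-/

set_option autoImplicit false

namespace Pool.Agent.MP62a5ad.RI

open Matrix

theorem dia : S_Dia := by
  intro K _ M hsep hdet
  classical
  set F := AlgebraicClosure K with hF
  set M' : Matrix (Fin 5) (Fin 5) F := M.map (algebraMap K F) with hM'
  have hcp : M'.charpoly = M.charpoly.map (algebraMap K F) := Matrix.charpoly_map M _
  have hsep' : M'.charpoly.Separable := by
    rw [hcp]
    exact hsep.map
  have hcard : M'.charpoly.roots.card = 5 := by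
    rw [IsAlgClosed.card_roots_eq_natDegree, Matrix.charpoly_natDegree_eq_dim]
    simp
  have hnd : M'.charpoly.roots.Nodup := Polynomial.nodup_roots hsep'
  have hfc : M'.charpoly.roots.toFinset.card = 5 := by
    rw [Multiset.toFinset_card_of_nodup hnd, hcard]
  let e := (Finset.equivFinOfCardEq hfc).symm
  let lam : Fin 5 → F := fun i => (e i : F)
  have hlam : Function.Injective lam := fun i j h => e.injective (Subtype.ext h)
  have hroot : ∀ i, M'.charpoly.IsRoot (lam i) := by
    intro i
    have h1 := (e i).2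
    rw [Multiset.mem_toFinset] at h1
    exact Polynomial.isRoot_of_mem_roots h1
  have hdet' : M'.det ≠ 0 := by
    have : M'.det = algebraMap K F M.det := (RingHom.map_det (algebraMap K F) M).symm
    rw [this]
    exact (map_ne_zero_iff _ (algebraMap K F).injective).2 hdet
  have hev : ∀ i, ∃ v : V5 F, v ≠ 0 ∧ M' *ᵥ v = lam i • v := by
    intro i
    have h1 := hroot i
    rw [Polynomial.IsRoot, Matrix.eval_charpoly] at h1
    obtain ⟨v, hv, h2⟩ := Matrix.exists_mulVec_eq_zero_iff.2 h1
    refine ⟨v, hv, ?_⟩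
    rw [Matrix.sub_mulVec, sub_eq_zero] at h2
    rw [← h2]
    funext j
    simp [Matrix.scalar_apply, Matrix.mulVec_diagonal]
  have hl0 : ∀ i, lam i ≠ 0 := by
    intro i h
    obtain ⟨v, hv, h2⟩ := hev i
    rw [h, zero_smul] at h2
    exact hdet' (Matrix.exists_mulVec_eq_zero_iff.1 ⟨v, hv, h2⟩)
  choose v hv hMv using hev
  have hli : LinearIndependent F v := by
    refine Module.End.eigenvectors_linearIndependent' (Matrix.toLin' M') lam hlam v fun i => ?_
    refine ⟨?_, hv i⟩
    rw [Module.End.mem_eigenspace_iff, Matrix.toLin'_apply]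
    exact hMv i
  let g : Matrix (Fin 5) (Fin 5) F := fun i j => v j i
  have hg : IsUnit g := by
    rw [← Matrix.linearIndependent_cols_iff_isUnit]
    exact hli
  refine ⟨g, lam, (Matrix.isUnit_iff_isUnit_det g).1 hg, hlam, hl0, ?_⟩
  ext i j
  rw [Matrix.mul_diagonal]
  have h1 := congrFun (hMv j) i
  have h2 : (M' * g) i j = (M' *ᵥ v j) i := rfl
  rw [← hM', h2, h1]
  show lam j * v j i = v j i * lam j
  ring

end Pool.Agent.MP62a5ad.RI
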