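import Pool.Agent.Lib.MP_62a5ad_mp.RI.Y

/-!
# MP_62a5ad: different times give different kernels (module Dis)
-/

set_option autoImplicit false

namespace Pool.Agent.MP62a5ad.RI

open Matrix

namespace disAux

variable {n : ℕ} [NeZero n] {L : Type} [Field L]

/-- Equality up to non-zero scalings. -/
def Sim (v w : Pg n (PR n L)) : Prop := ∃ c : Fin n → PR n L, (∀ k, c k ≠ 0) ∧ v = sc c w

omit [NeZero n] in
theorem sc_sc (c e : Fin n → PR n L) (v : Pg n (PR n L)) :
    sc c (sc e v) = sc (fun k => c k * e k) v := by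
  funext k i
  show c k * (e k * v k i) = c k * e k * v k i
  ring

omit [NeZero n] in
theorem Sim.trans {u v w : Pg n (PR n L)} (h1 : Sim u v) (h2 : Sim v w) : Sim u w := by
  obtain ⟨c, hc, rfl⟩ := h1
  obtain ⟨e, he, rfl⟩ := h2
  exact ⟨fun k => c k * e k, fun k => mul_ne_zero (hc k) (he k), sc_sc c e w⟩

omit [NeZero n] in
theorem Sim.refl (v : Pg n (PR n L)) : Sim v v :=
  ⟨fun _ => 1, fun _ => one_ne_zero, by funext k i; exact (one_mul _).symm⟩

theorem Sim.bwd {v w : Pg n (PR n L)} (D : Dat n (PR n L)) (h : Sim v w) :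
    Sim (bwd D v) (bwd D w) := by
  obtain ⟨c, hc, rfl⟩ := h
  exact ⟨fun k => c k ^ 3 * c (k - 1), fun k => mul_ne_zero (pow_ne_zero _ (hc k)) (hc (k - 1)),
    bwd_sc D c w⟩

omit [NeZero n] in
theorem Sim.zero {v w : Pg n (PR n L)} (h : Sim v w) (k : Fin n) : v k = 0 ↔ w k = 0 := by
  obtain ⟨c, hc, rfl⟩ := h
  have e : sc c w k = c k • w k := rfl
  rw [e, smul_eq_zero]
  exact ⟨fun h => h.resolve_left (hc k), Or.inr⟩

theorem back (d : Dat n L) (Λ : Fin n → PR n L) (hL : IsLam d Λ) (v : Pg n (PR n L))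
    (h : ∀ k, bwd (d.up (PR n L)) (fwd (d.up (PR n L)) v) k ≠ 0) :
    Sim (bwd (d.up (PR n L)) (fwd (d.up (PR n L)) v)) v := by
  refine ⟨fun k => ev (Λ k) v, fun k h0 => h k ?_, ?_⟩
  · have h0' : ev (Λ k) v = 0 := h0
    rw [lam_pt d Λ hL, h0', zero_smul]
  · funext k
    exact lam_pt d Λ hL v k

/-- The inverse map. -/
noncomputable def U (d d' : Dat n L) (w : Pg n (PR n L)) : Pg n (PR n L) :=
  bwd (d'.up (PR n L)) (bwd (d.up (PR n L)) w)

theorem U_sim (d d' : Dat n L) {v w : Pg n (PR n L)} (h : Sim v w) : Sim (U d d' v) (U d d' w) :=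
  (h.bwd _).bwd _

theorem Uit_sim (d d' : Dat n L) (m : ℕ) {v w : Pg n (PR n L)} (h : Sim v w) :
    Sim ((U d d')^[m] v) ((U d d')^[m] w) := by
  induction m generalizing v w with
  | zero => exact h
  | succ m ih =>
    rw [Function.iterate_succ_apply, Function.iterate_succ_apply]
    exact ih (U_sim d d' h)

theorem Uit_map (d d' : Dat n L) (φ : PR n L →ₐ[L] PR n L) (m : ℕ) (v : Pg n (PR n L)) :
    (fun k i => φ ((U d d')^[m] v k i)) = (U d d')^[m] (fun k i => φ (v k i)) := by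
  induction m with
  | zero => rfl
  | succ m ih =>
    rw [Function.iterate_succ_apply', Function.iterate_succ_apply', ← ih]
    unfold U
    have e1 := bwd_up φ d ((U d d')^[m] v)
    have e2 := bwd_up φ d' (bwd (d.up (PR n L)) ((U d d')^[m] v))
    rw [e1] at e2
    exact e2

theorem step (d d' : Dat n L) (k : Fin n) (Λ Λ' : Fin n → PR n L) (hL : IsLam d Λ)
    (hL' : IsLam d' Λ') (hR : REG d d' k) (j : ℕ) :
    Sim (U d d' (orb d d' k (2 * j + 2))) (orb d d' k (2 * j)) := by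
  have h1 : (2 * j + 1) % 2 = 1 := by omega
  have h0 : (2 * j) % 2 = 0 := by omega
  have a1 : orb d d' k (2 * j + 2) = fwd (d.up (PR n L)) (orb d d' k (2 * j + 1)) := by
    show fwd ((if (2 * j + 1) % 2 = 0 then d' else d).up (PR n L)) _ = _
    rw [h1, if_neg one_ne_zero]
  have a0 : orb d d' k (2 * j + 1) = fwd (d'.up (PR n L)) (orb d d' k (2 * j)) := by
    show fwd ((if (2 * j) % 2 = 0 then d' else d).up (PR n L)) _ = _
    rw [h0, if_pos rfl]
  have r1 : ∀ l, bwd (d.up (PR n L)) (orb d d' k (2 * j + 2)) l ≠ 0 := by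
    intro l
    have := hR (2 * j + 1) l
    rw [h1, if_neg one_ne_zero] at this
    exact this
  have r0 : ∀ l, bwd (d'.up (PR n L)) (orb d d' k (2 * j + 1)) l ≠ 0 := by
    intro l
    have := hR (2 * j) l
    rw [h0, if_pos rfl] at this
    exact this
  unfold U
  have b1 : Sim (bwd (d.up (PR n L)) (orb d d' k (2 * j + 2))) (orb d d' k (2 * j + 1)) := by
    rw [a1] at r1 ⊢
    exact back d Λ hL _ r1
  have b0 : Sim (bwd (d'.up (PR n L)) (orb d d' k (2 * j + 1))) (orb d d' k (2 * j)) := by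
    rw [a0] at r0 ⊢
    exact back d' Λ' hL' _ r0
  exact (b1.bwd _).trans b0

theorem steps (d d' : Dat n L) (k : Fin n) (Λ Λ' : Fin n → PR n L) (hL : IsLam d Λ)
    (hL' : IsLam d' Λ') (hR : REG d d' k) (m j : ℕ) :
    Sim ((U d d')^[m] (orb d d' k (2 * (m + j)))) (orb d d' k (2 * j)) := by
  induction m with
  | zero =>
    rw [Nat.zero_add]
    exact Sim.refl _
  | succ m ih =>
    rw [Function.iterate_succ_apply]
    have e : 2 * (m + 1 + j) = 2 * (m + j) + 2 := by ring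
    rw [e]
    exact (Uit_sim d d' m (step d d' k Λ Λ' hL hL' hR (m + j))).trans ih

open yAux in
theorem psi0 (hn : 2 ≤ n) (d : Dat n L) (k : Fin n) : bwd (d.up (PR n L)) (psi d k) k = 0 := by
  unfold bwd
  rw [B_psi, psi_ne d k k (pred_ne hn k)]
  exact comb_dep _ _ _ _ _ _

end disAux

open disAux in
theorem dis : S_Dis := by
  intro n _ L _ d d' k hn ⟨Λ, Λ', hL, hL'⟩ hR m m' hm
  have hev : ∀ (w : Pg n (PR n L)) (i : Fin 5),
      ev (bwd (d.up (PR n L)) ((U d d')^[m] (gen n L)) k i) w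
        = bwd (d.up (PR n L)) ((U d d')^[m] w) k i := by
    intro w i
    have e1 := Uit_map d d' (MvPolynomial.aeval (fun x : Fin n × Fin 5 => w x.1 x.2)) m (gen n L)
    have e3 : (fun k i => (MvPolynomial.aeval (R := L) (fun x : Fin n × Fin 5 => w x.1 x.2))
        (gen n L k i)) = w := by
      funext k i
      exact ev_X k i w
    rw [e3] at e1
    have e2 := bwd_up (MvPolynomial.aeval (R := L) (fun x : Fin n × Fin 5 => w x.1 x.2)) d
      ((U d d')^[m] (gen n L))
    rw [e1] at e2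
    exact congrFun (congrFun e2 k) i
  have s1 : Sim ((U d d')^[m] (orb d d' k (2 * m))) (psi d k) := by
    have := steps d d' k Λ Λ' hL hL' hR m 0
    rw [Nat.add_zero, Nat.mul_zero] at this
    exact this
  have z1 : bwd (d.up (PR n L)) ((U d d')^[m] (orb d d' k (2 * m))) k = 0 :=
    ((s1.bwd _).zero k).2 (psi0 hn d k)
  obtain ⟨j, hj⟩ : ∃ j, m' = m + (j + 1) := ⟨m' - m - 1, by omega⟩
  have s2 : Sim ((U d d')^[m] (orb d d' k (2 * m'))) (orb d d' k (2 * (j + 1))) := by
    rw [hj]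
    exact steps d d' k Λ Λ' hL hL' hR m (j + 1)
  have z2 : bwd (d.up (PR n L)) ((U d d')^[m] (orb d d' k (2 * m'))) k ≠ 0 := by
    intro h
    have h2 := ((s2.bwd (d.up (PR n L))).zero k).1 h
    have h3 := hR (2 * j + 1) k
    rw [show (2 * j + 1) % 2 = 1 by omega, if_neg one_ne_zero] at h3
    exact h3 h2
  obtain ⟨i, hi⟩ : ∃ i, bwd (d.up (PR n L)) ((U d d')^[m] (orb d d' k (2 * m'))) k i ≠ 0 := by
    by_contra hcon
    push Not at hcon
    exact z2 (funext hcon)
  refine ⟨bwd (d.up (PR n L)) ((U d d')^[m] (gen n L)) k i, ?_, ?_⟩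
  · rw [hev, z1]
    rfl
  · rw [hev]
    exact hi

end Pool.Agent.MP62a5ad.RI
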