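import Pool.Agent.Lib.MP_62a5ad_mp.RI.Red

/-!
# MP_62a5ad: dominance of the inverse map (module Dom)
-/

set_option autoImplicit false

namespace Pool.Agent.MP62a5ad.RI

open Matrix

open redAux in
theorem dom (h1 : S_LMH) (h2 : S_Cmp) : S_Dom := by
  intro n _ L _ _ d d' Λ Λ' Ξ Ξ' hL hL' hX hX' nL nL' nX nX' f hf
  have hY : ∀ k, ev (Ξ k) (Fg d) ≠ 0 := fun k =>
    (h2 n L d Λ Λ' hL hL' nL nL' (ex3 k) (Ξ k) (h1 n L d' Ξ Ξ' hX hX' k).1).2.1 (nX k)
  have hne : f * ∏ k, (ev (Ξ k) (Fg d) * Λ k) ≠ 0 :=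
    mul_ne_zero hf (Finset.prod_ne_zero_iff.2 fun k _ => mul_ne_zero (hY k) (nL k))
  obtain ⟨x, hx⟩ := exists_pt _ hne
  rw [ev_mul] at hx
  have hfx := left_ne_zero_of_mul hx
  have hpx : ∀ k, ev (ev (Ξ k) (Fg d)) x ≠ 0 ∧ ev (Λ k) x ≠ 0 := by
    have e : ev (∏ k, (ev (Ξ k) (Fg d) * Λ k)) x
        = ∏ k, (ev (ev (Ξ k) (Fg d)) x * ev (Λ k) x) := by
      rw [ev, map_prod]
      refine Finset.prod_congr rfl fun k _ => ?_
      exact ev_mul _ _ _
    rw [e] at hx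
    intro k
    have := Finset.prod_ne_zero_iff.1 (right_ne_zero_of_mul hx) k (Finset.mem_univ k)
    exact ⟨left_ne_zero_of_mul this, right_ne_zero_of_mul this⟩
  set y := fwd d x with hy
  set w := fwd d' y with hw
  have a1 : bwd d' w = sc (fun k => ev (Ξ k) y) y := by
    funext k
    have := lam_pt d' Ξ hX y k
    rw [up_self] at this
    exact this
  have a2 : bwd d y = sc (fun k => ev (Λ k) x) x := by
    funext k
    have := lam_pt d Λ hL x k
    rw [up_self] at this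
    exact this
  have hYx : ∀ k, ev (Ξ k) y ≠ 0 := by
    intro k
    have := (hpx k).1
    rw [ev_Fg, up_self] at this
    exact this
  set θ : Fin n → L := fun k => ev (Ξ k) y ^ 3 * ev (Ξ (k - 1)) y * ev (Λ k) x with hθ
  have hθn : ∀ k, θ k ≠ 0 := fun k =>
    mul_ne_zero (mul_ne_zero (pow_ne_zero _ (hYx k)) (hYx (k - 1))) (hpx k).2
  have a3 : bwd d (bwd d' w) = sc θ x := by
    rw [a1, bwd_sc, a2]
    funext k i
    show _ * (_ * x k i) = (_ * _ * _) * x k i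
    ring
  refine ⟨fun k => (θ k)⁻¹, fun k => inv_ne_zero (hθn k), ?_⟩
  intro h0
  have h3 : ev (ev f (sc (fun k => MvPolynomial.C (θ k)⁻¹) (bwd (d.up (PR n L)) (Gg d')))) w = 0 := by
    rw [h0]
    exact map_zero _
  rw [ev_comp] at h3
  have hpt : (fun k i => ev (sc (fun k => MvPolynomial.C (θ k)⁻¹)
      (bwd (d.up (PR n L)) (Gg d')) k i) w) = x := by
    have e1 := bwd_up (MvPolynomial.aeval (R := L) (fun x : Fin n × Fin 5 => w x.1 x.2)) d (Gg d')
    have e2 : (fun k i => (MvPolynomial.aeval (R := L) (fun x : Fin n × Fin 5 => w x.1 x.2))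
        (Gg d' k i)) = bwd (d'.up L) w := Gg_pt d' w
    rw [e2, up_self, up_self, a3] at e1
    funext k i
    show ev (MvPolynomial.C (θ k)⁻¹ * bwd (d.up (PR n L)) (Gg d') k i) w = x k i
    rw [ev_mul]
    have e4 : ev (MvPolynomial.C (θ k)⁻¹ : PR n L) w = (θ k)⁻¹ := by
      unfold ev
      rw [MvPolynomial.aeval_C]
      rfl
    have e5 : ev (bwd (d.up (PR n L)) (Gg d') k i) w = θ k * x k i :=
      congrFun (congrFun e1 k) i
    rw [e4, e5, inv_mul_cancel_left₀ (hθn k)]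
  rw [hpt] at h3
  exact hfx h3

end Pool.Agent.MP62a5ad.RI
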