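import Pool.Agent.Lib.MP_62a5ad_mp.RI.Spec2

/-!
# MP_62a5ad: conjugation invariant functions and the characteristic polynomial (module Dp1)
-/

set_option autoImplicit false

namespace Pool.Agent.MP62a5ad.RI

open Matrix

theorem dp_eval {σ τ K : Type} [Field K] (g : τ → K) (c : σ → MvPolynomial τ K)
    (f : MvPolynomial σ K) :
    MvPolynomial.eval g (MvPolynomial.aeval c f)
      = MvPolynomial.eval (fun j => MvPolynomial.eval g (c j)) f := by
  have h : (MvPolynomial.aeval g : MvPolynomial τ K →ₐ[K] K) (MvPolynomial.aeval c f)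
      = MvPolynomial.aeval (fun j => (MvPolynomial.aeval g : MvPolynomial τ K →ₐ[K] K) (c j)) f := by
    rw [← AlgHom.comp_apply, MvPolynomial.comp_aeval]
  exact h

theorem dp_kry {R S : Type} [CommRing R] [CommRing S] (φ : R →+* S)
    (A : Matrix (Fin 5) (Fin 5) R) : (kry A).map φ = kry (A.map φ) := by
  ext i j
  show φ ((A ^ (j : ℕ)) i 0) = ((A.map φ) ^ (j : ℕ)) i 0
  have h : φ.mapMatrix (A ^ (j : ℕ)) = (φ.mapMatrix A) ^ (j : ℕ) := map_pow _ _ _
  have h2 := congrFun (congrFun h i) 0
  exact h2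

theorem dp_cpn {R S : Type} [CommRing R] [CommRing S] (φ : R →+* S) (b : Fin 5 → R) :
    (cpn b).map φ = cpn (fun j => φ (b j)) := by
  ext i j
  show φ (if j = 4 then -b i else if (i : ℕ) = j + 1 then 1 else 0)
    = if j = 4 then -φ (b i) else if (i : ℕ) = j + 1 then 1 else 0
  split_ifs
  · rw [map_neg]
  · rw [map_one]
  · rw [map_zero]

/-- The conjugate of the companion matrix. -/
noncomputable def dMb {K : Type} [Field K] (h : Matrix (Fin 5) (Fin 5) K) (R : Type) [CommRing R]
    [Algebra K R] (b : Fin 5 → R) : Matrix (Fin 5) (Fin 5) R :=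
  h.map (algebraMap K R) * cpn b * (h⁻¹).map (algebraMap K R)

section

variable {n : ℕ} {K : Type} [Field K]

/-- The point with the coordinates `x`, `M`. -/
def dpt (x : Fin n → V5 K) (M : Matrix (Fin 5) (Fin 5) K) : Co n → K :=
  Sum.elim (fun z => x z.1 z.2) (fun z => M z.1 z.2)

theorem dp_gM (x : Fin n → V5 K) (M : Matrix (Fin 5) (Fin 5) K) :
    (gM n K).map (MvPolynomial.eval (dpt x M)) = M := by
  ext i j
  show MvPolynomial.eval (dpt x M) (MvPolynomial.X (Sum.inr (i, j))) = M i j
  rw [MvPolynomial.eval_X]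
  rfl

theorem dp_coef (x : Fin n → V5 K) (M : Matrix (Fin 5) (Fin 5) K) (j : ℕ) :
    MvPolynomial.eval (dpt x M) ((gM n K).charpoly.coeff j) = M.charpoly.coeff j := by
  rw [← Polynomial.coeff_map, ← Matrix.charpoly_map, dp_gM]

theorem dp_Bs (f : MvPolynomial (Fin 5) K) (x : Fin n → V5 K) (M : Matrix (Fin 5) (Fin 5) K) :
    MvPolynomial.eval (dpt x M) (Bs n f)
      = MvPolynomial.eval (fun j : Fin 5 => M.charpoly.coeff (j : ℕ)) f := by
  unfold Bs
  rw [dp_eval]
  refine congrArg (fun g => MvPolynomial.eval g f) (funext fun j => ?_)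
  exact dp_coef x M j

theorem dp_dMb {R S : Type} [CommRing R] [Algebra K R] [CommRing S] [Algebra K S] (φ : R →ₐ[K] S)
    (h : Matrix (Fin 5) (Fin 5) K) (b : Fin 5 → R) :
    (dMb h R b).map φ = dMb h S (fun j => φ (b j)) := by
  unfold dMb
  have e : ∀ A : Matrix (Fin 5) (Fin 5) K,
      ((φ : R →+* S).mapMatrix (A.map (algebraMap K R))) = A.map (algebraMap K S) := by
    intro A
    ext i j
    show φ (algebraMap K R (A i j)) = algebraMap K S (A i j)
    exact φ.commutes _
  have e2 : ((φ : R →+* S).mapMatrix (cpn b)) = cpn (fun j => φ (b j)) := dp_cpn (φ : R →+* S) b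
  have h3 : ((φ : R →+* S).mapMatrix
      (h.map (algebraMap K R) * cpn b * (h⁻¹).map (algebraMap K R)))
      = h.map (algebraMap K S) * cpn (fun j => φ (b j)) * (h⁻¹).map (algebraMap K S) := by
    rw [map_mul, map_mul, e, e, e2]
  exact h3

theorem dp_dMbK (h : Matrix (Fin 5) (Fin 5) K) (b : Fin 5 → K) :
    dMb h K b = h * cpn b * h⁻¹ := by
  unfold dMb
  have e : ∀ A : Matrix (Fin 5) (Fin 5) K, A.map (algebraMap K K) = A := fun A => by
    ext i j; rfl
  rw [e, e]

theorem dp_adj (M C k : Matrix (Fin 5) (Fin 5) K) (hk : k.det ≠ 0) (e : M * k = k * C) :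
    k.adjugate * M = C * k.adjugate := by
  have h : k.det • (k.adjugate * M) = k.det • (C * k.adjugate) := by
    calc k.det • (k.adjugate * M) = k.adjugate * M * (k * k.adjugate) := by
          rw [Matrix.mul_adjugate, Matrix.mul_smul, Matrix.mul_one]
      _ = k.adjugate * (M * k) * k.adjugate := by simp only [Matrix.mul_assoc]
      _ = (k.adjugate * k) * C * k.adjugate := by rw [e]; simp only [Matrix.mul_assoc]
      _ = k.det • (C * k.adjugate) := by
          rw [Matrix.adjugate_mul, Matrix.smul_mul, Matrix.one_mul, Matrix.smul_mul]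
  exact smul_right_injective _ hk h

end

theorem dp1 (h1 : S_Kry) : S_Dp1 := by
  intro n K _ _ p q hq hB hP
  obtain ⟨hK, hC⟩ := h1
  -- the good point
  have hkry0 : (kry (gM n K)).det ≠ 0 := by
    intro h
    have h2 := congrArg (MvPolynomial.eval (dpt (fun _ _ => (0 : K)) (Cm K) : Co n → K)) h
    rw [RingHom.map_det, map_zero] at h2
    have h3 : (MvPolynomial.eval (dpt (fun _ _ => (0 : K)) (Cm K) : Co n → K)).mapMatrix
        (kry (gM n K)) = 1 := by
      have := dp_kry (MvPolynomial.eval (dpt (fun _ _ => (0 : K)) (Cm K) : Co n → K)) (gM n K)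
      rw [dp_gM, hC] at this
      exact this
    rw [h3, Matrix.det_one] at h2
    exact one_ne_zero h2
  have hdet0 : (gM n K).det ≠ 0 := by
    intro h
    have h2 := congrArg (MvPolynomial.eval (dpt (fun _ _ => (0 : K)) 1 : Co n → K)) h
    rw [RingHom.map_det, map_zero] at h2
    have h3 : (MvPolynomial.eval (dpt (fun _ _ => (0 : K)) 1 : Co n → K)).mapMatrix (gM n K) = 1 :=
      dp_gM _ _
    rw [h3, Matrix.det_one] at h2
    exact one_ne_zero h2
  have hpt : ∀ z : Co n → K, ∃ x M, z = dpt x M := by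
    intro z
    refine ⟨fun j i => z (Sum.inl (j, i)), fun i j => z (Sum.inr (i, j)), ?_⟩
    funext w
    rcases w with w | w <;> rfl
  have hne : ∀ f : MvPolynomial (Co n) K, f ≠ 0 →
      ∃ (x : Fin n → V5 K) (M : Matrix (Fin 5) (Fin 5) K), MvPolynomial.eval (dpt x M) f ≠ 0 := by
    intro f hf
    by_contra hcon
    push Not at hcon
    apply hf
    apply MvPolynomial.funext
    intro z
    obtain ⟨x, M, rfl⟩ := hpt z
    rw [hcon, map_zero]
  have ekry : ∀ (x : Fin n → V5 K) (M : Matrix (Fin 5) (Fin 5) K),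
      MvPolynomial.eval (dpt x M) (kry (gM n K)).det = (kry M).det := by
    intro x M
    rw [RingHom.map_det]
    have := dp_kry (MvPolynomial.eval (dpt x M)) (gM n K)
    rw [dp_gM] at this
    exact congrArg Matrix.det this
  have edet : ∀ (x : Fin n → V5 K) (M : Matrix (Fin 5) (Fin 5) K),
      MvPolynomial.eval (dpt x M) (gM n K).det = M.det := by
    intro x M
    rw [RingHom.map_det]
    exact congrArg Matrix.det (dp_gM x M)
  obtain ⟨x₀, M₀, h0⟩ := hne (q * (kry (gM n K)).det * (gM n K).det)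
    (mul_ne_zero (mul_ne_zero hq hkry0) hdet0)
  rw [map_mul, map_mul, ekry, edet] at h0
  have hq0 : vl q x₀ M₀ ≠ 0 := fun h => h0 (by
    have h' : MvPolynomial.eval (dpt x₀ M₀) q = 0 := h
    rw [h', zero_mul, zero_mul])
  have hk0 : (kry M₀).det ≠ 0 := fun h => h0 (by rw [h, mul_zero, zero_mul])
  set h := kry M₀ with hh
  -- M_b
  have hMb0 : h * cpn (fun i : Fin 5 => M₀.charpoly.coeff (i : ℕ)) * h⁻¹ = M₀ := by
    rw [← hK K M₀, ← hh, Matrix.mul_assoc, Matrix.mul_nonsing_inv _ (Ne.isUnit hk0), Matrix.mul_one]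
  -- r and s
  let tr : MvPolynomial (Co n) K → MvPolynomial (Fin 5) K := fun f =>
    MvPolynomial.aeval (Sum.elim (fun z : Fin n × Fin 5 => MvPolynomial.C (x₀ z.1 z.2))
      (fun z : Fin 5 × Fin 5 => dMb h (MvPolynomial (Fin 5) K) (fun j => MvPolynomial.X j) z.1 z.2)) f
  have htr : ∀ (f : MvPolynomial (Co n) K) (b : Fin 5 → K),
      MvPolynomial.eval b (tr f) = vl f x₀ (h * cpn b * h⁻¹) := by
    intro f b
    show MvPolynomial.eval b (MvPolynomial.aeval _ f) = _
    rw [dp_eval]
    unfold vl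
    refine congrArg (fun g => MvPolynomial.eval g f) (funext fun w => ?_)
    rcases w with w | w
    · show MvPolynomial.eval b (MvPolynomial.C (x₀ w.1 w.2)) = x₀ w.1 w.2
      rw [MvPolynomial.eval_C]
    · show MvPolynomial.eval b (dMb h (MvPolynomial (Fin 5) K) (fun j => MvPolynomial.X j) w.1 w.2)
        = (h * cpn b * h⁻¹) w.1 w.2
      have e := dp_dMb (MvPolynomial.aeval b : MvPolynomial (Fin 5) K →ₐ[K] K) h
        (fun j => MvPolynomial.X j)
      have e1 := congrFun (congrFun e w.1) w.2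
      have e2 : (fun j : Fin 5 => (MvPolynomial.aeval b : MvPolynomial (Fin 5) K →ₐ[K] K)
          (MvPolynomial.X j)) = b := by
        funext j
        rw [MvPolynomial.aeval_X]
      rw [e2, dp_dMbK] at e1
      exact e1
  refine ⟨tr p, tr q, ?_, ?_⟩
  · intro hz
    have h2 := congrArg (MvPolynomial.eval (dpt x₀ M₀)) hz
    rw [dp_Bs, htr, map_zero, hMb0] at h2
    exact hq0 h2
  -- U
  let gP : Matrix (Fin 5) (Fin 5) (MvPolynomial (Co n) K) :=
    h.map (algebraMap K (MvPolynomial (Co n) K)) * (kry (gM n K)).adjugate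
  let U : MvPolynomial (Co n) K := MvPolynomial.aeval
    (Sum.elim (fun z : Fin n × Fin 5 => (gP *ᵥ fun i => MvPolynomial.X (Sum.inl (z.1, i))) z.2)
      (fun z : Fin 5 × Fin 5 => dMb h (MvPolynomial (Co n) K)
        (fun j => (gM n K).charpoly.coeff (j : ℕ)) z.1 z.2)) q
  have hgP : ∀ (x : Fin n → V5 K) (M : Matrix (Fin 5) (Fin 5) K),
      gP.map (MvPolynomial.eval (dpt x M)) = h * (kry M).adjugate := by
    intro x M
    have e := map_mul (MvPolynomial.eval (dpt x M)).mapMatrix
      (h.map (algebraMap K (MvPolynomial (Co n) K))) ((kry (gM n K)).adjugate)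
    rw [RingHom.map_adjugate] at e
    have e1 : (MvPolynomial.eval (dpt x M)).mapMatrix
        (h.map (algebraMap K (MvPolynomial (Co n) K))) = h := by
      ext i j
      show MvPolynomial.eval (dpt x M) (MvPolynomial.C (h i j)) = h i j
      rw [MvPolynomial.eval_C]
    have e2 : (MvPolynomial.eval (dpt x M)).mapMatrix (kry (gM n K)) = kry M := by
      have := dp_kry (MvPolynomial.eval (dpt x M)) (gM n K)
      rw [dp_gM] at this
      exact this
    rw [e1, e2] at e
    exact e
  have hU : ∀ (x : Fin n → V5 K) (M : Matrix (Fin 5) (Fin 5) K),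
      MvPolynomial.eval (dpt x M) U = vl q (fun j => (h * (kry M).adjugate) *ᵥ x j)
        (h * cpn (fun i : Fin 5 => M.charpoly.coeff (i : ℕ)) * h⁻¹) := by
    intro x M
    show MvPolynomial.eval (dpt x M) (MvPolynomial.aeval _ q) = _
    rw [dp_eval]
    unfold vl
    refine congrArg (fun g => MvPolynomial.eval g q) (funext fun w => ?_)
    rcases w with w | w
    · show MvPolynomial.eval (dpt x M) ((gP *ᵥ fun i => MvPolynomial.X (Sum.inl (w.1, i))) w.2)
        = ((h * (kry M).adjugate) *ᵥ x w.1) w.2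
      rw [← hgP x M]
      unfold Matrix.mulVec dotProduct
      rw [map_sum]
      refine Finset.sum_congr rfl fun i _ => ?_
      rw [map_mul, MvPolynomial.eval_X]
      rfl
    · show MvPolynomial.eval (dpt x M) (dMb h (MvPolynomial (Co n) K)
        (fun j => (gM n K).charpoly.coeff (j : ℕ)) w.1 w.2)
        = (h * cpn (fun i : Fin 5 => M.charpoly.coeff (i : ℕ)) * h⁻¹) w.1 w.2
      have e := dp_dMb (MvPolynomial.aeval (dpt x M) : MvPolynomial (Co n) K →ₐ[K] K) h
        (fun j : Fin 5 => (gM n K).charpoly.coeff (j : ℕ))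
      have e1 := congrFun (congrFun e w.1) w.2
      have e2 : (fun j : Fin 5 => (MvPolynomial.aeval (dpt x M) : MvPolynomial (Co n) K →ₐ[K] K)
          ((gM n K).charpoly.coeff (j : ℕ))) = fun i : Fin 5 => M.charpoly.coeff (i : ℕ) := by
        funext j
        exact dp_coef x M j
      rw [e2, dp_dMbK] at e1
      exact e1
  have hU0 : U ≠ 0 := by
    intro hz
    have h2 := congrArg (MvPolynomial.eval (dpt (fun j => (h.det)⁻¹ • x₀ j) M₀)) hz
    rw [hU, map_zero, hMb0] at h2
    have e : (fun j => (h * (kry M₀).adjugate) *ᵥ ((h.det)⁻¹ • x₀ j)) = x₀ := by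
      funext j
      rw [← hh, Matrix.mul_adjugate, Matrix.smul_mulVec, Matrix.one_mulVec, smul_smul,
        mul_inv_cancel₀ hk0, one_smul]
    rw [e] at h2
    exact hq0 h2
  -- the claim
  have key : (p * Bs n (tr q) - Bs n (tr p) * q) * (kry (gM n K)).det * (gM n K).det * U * q = 0 := by
    apply MvPolynomial.funext
    intro z
    obtain ⟨x, M, rfl⟩ := hpt z
    rw [map_zero, map_mul, map_mul, map_mul, map_mul, ekry, edet, hU]
    by_cases a1 : (kry M).det = 0
    · rw [a1]; ring
    by_cases a2 : M.det = 0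
    · rw [a2]; ring
    set M' := h * cpn (fun i : Fin 5 => M.charpoly.coeff (i : ℕ)) * h⁻¹ with hM'
    set g := h * (kry M).adjugate with hg
    by_cases a3 : vl q (fun j => g *ᵥ x j) M' = 0
    · rw [a3]; ring
    by_cases a4 : vl q x M = 0
    · have a4' : MvPolynomial.eval (dpt x M) q = 0 := a4
      rw [a4']; ring
    have hgd : g.det ≠ 0 := by
      rw [hg, Matrix.det_mul, Matrix.det_adjugate]
      exact mul_ne_zero hk0 (pow_ne_zero _ a1)
    have hgM : g * M * g⁻¹ = M' := by
      have e : g * M = M' * g := by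
        rw [hg, hM', Matrix.mul_assoc h, dp_adj M _ (kry M) a1 (hK K M)]
        calc h * (cpn (fun i : Fin 5 => M.charpoly.coeff (i : ℕ)) * (kry M).adjugate)
            = h * cpn (fun i : Fin 5 => M.charpoly.coeff (i : ℕ)) * 1 * (kry M).adjugate := by
              rw [Matrix.mul_one, Matrix.mul_assoc]
          _ = h * cpn (fun i : Fin 5 => M.charpoly.coeff (i : ℕ)) * (h⁻¹ * h) * (kry M).adjugate := by
              rw [Matrix.nonsing_inv_mul _ (Ne.isUnit hk0)]
          _ = _ := by simp only [Matrix.mul_assoc]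
      rw [e, Matrix.mul_assoc, Matrix.mul_nonsing_inv _ (Ne.isUnit hgd), Matrix.mul_one]
    have b1 := hP g M x hgd a2 a4 (by rw [hgM]; exact a3)
    rw [hgM, div_eq_div_iff a3 a4] at b1
    have b2 := hB (fun j => g *ᵥ x j) x₀ M'
    rw [map_sub, map_mul, map_mul, dp_Bs, dp_Bs, htr, htr, ← hM']
    have c1 : MvPolynomial.eval (dpt x M) p = vl p x M := rfl
    have c2 : MvPolynomial.eval (dpt x M) q = vl q x M := rfl
    rw [c1, c2]
    have b3 : (vl p x M * vl q x₀ M' - vl p x₀ M' * vl q x M) * vl q (fun j => g *ᵥ x j) M' = 0 := by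
      linear_combination (-(vl q x₀ M')) * b1 + vl q x M * b2
    linear_combination ((kry M).det * M.det * vl q x M) * b3
  have h5 : p * Bs n (tr q) - Bs n (tr p) * q = 0 := by
    rcases mul_eq_zero.1 key with h | h
    · rcases mul_eq_zero.1 h with h | h
      · rcases mul_eq_zero.1 h with h | h
        · rcases mul_eq_zero.1 h with h | h
          · exact h
          · exact absurd h hkry0
        · exact absurd h hdet0
      · exact absurd h hU0
    · exact absurd h hq
  exact sub_eq_zero.1 h5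

end Pool.Agent.MP62a5ad.RI
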