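import Pool.Agent.Lib.MP_62a5ad_mp.RI.SeqA

/-!
# MP_62a5ad: evaluation modulo nine
-/

set_option autoImplicit false

namespace Pool.Agent.MP62a5ad.RI

open Matrix

namespace evA

variable {n : ℕ} [NeZero n]

/-- The evaluation. -/
noncomputable def E (x : Fin n × Fin 5 → ZMod 9) : PR n ℤ →+* ZMod 9 :=
  MvPolynomial.eval₂Hom (Int.castRingHom (ZMod 9)) x

omit [NeZero n] in
theorem E_gen (x : Fin n × Fin 5 → ZMod 9) (j : Fin n) (i : Fin 5) :
    E x (gen n ℤ j i) = x (j, i) := by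
  simp [E, gen]

omit [NeZero n] in
theorem E_C (x : Fin n × Fin 5 → ZMod 9) (a : ℤ) : E x (MvPolynomial.C a) = (a : ZMod 9) := by
  simp [E]

omit [NeZero n] in
theorem map_pow' {R S : Type} [CommRing R] [CommRing S] (φ : R →+* S)
    (M : Matrix (Fin 5) (Fin 5) R) (c : ℕ) : (M ^ c).map φ = (M.map φ) ^ c := by
  have := map_pow (RingHom.mapMatrix (m := Fin 5) φ) M c
  simpa using this

omit [NeZero n] in
theorem up_map_E (x : Fin n × Fin 5 → ZMod 9) (M : Matrix (Fin 5) (Fin 5) ℤ) (hM : IsC9 M) :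
    (M.map (algebraMap ℤ (PR n ℤ))).map (E x) = Cm (ZMod 9) := by
  rw [← hM]
  ext i j
  simp only [Matrix.map_apply]
  show E x (algebraMap ℤ (PR n ℤ) (M i j)) = _
  simp

omit [NeZero n] in
theorem up_E (x : Fin n × Fin 5 → ZMod 9) (M : Matrix (Fin 5) (Fin 5) ℤ) (hM : IsC9 M)
    (c : Fin n → ℕ) : ((pw M c).up (PR n ℤ)).map (E x) = pw (Cm (ZMod 9)) c := by
  unfold Dat.up Dat.map pw
  have e1 := up_map_E x M hM
  have e2 : (fun k => ((M ^ c k).map (algebraMap ℤ (PR n ℤ))).map (E x))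
      = fun k => Cm (ZMod 9) ^ c k := by
    funext k
    rw [map_pow', map_pow', e1]
  simp only [e1, e2]

omit [NeZero n] in
theorem adj_map {R S : Type} [CommRing R] [CommRing S] (φ : R →+* S)
    (M : Matrix (Fin 5) (Fin 5) R) : (M.adjugateᵀ).map φ = (M.map φ).adjugateᵀ := by
  have := RingHom.map_adjugate φ M
  rw [Matrix.transpose_map]
  rw [RingHom.mapMatrix_apply, RingHom.mapMatrix_apply] at this
  rw [this]

/-- The point of the ring homomorphism. -/
def pt (c : ℕ) (k : Fin n) (u : ℤ → V5 (ZMod 9)) (α β γ : ZMod 9) : Fin n × Fin 5 → ZMod 9 :=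
  fun y => if y.1 = k - 1 then ![α, β, γ, 0, 0] y.2 else gau c k u y.1 y.2

theorem ne_sub_one (hn : 2 ≤ n) (k : Fin n) : k ≠ k - 1 := by
  intro h
  have h1 : (1 : Fin n) = 0 := by
    have := congrArg (fun t => k - t) h
    simpa using this.symm
  have h2 := congrArg (fun i : Fin n => (i : ℕ)) h1
  simp only [Fin.val_zero] at h2
  rw [Fin.val_one', Nat.mod_eq_of_lt (by omega)] at h2
  omega

theorem gau_k (c : ℕ) (k : Fin n) (u : ℤ → V5 (ZMod 9)) :
    gau c k u k = cyc (-((c * (k : ℕ) : ℕ) : ZMod 5)) (u 1) := by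
  unfold gau
  have e : ((k : ℕ) : ℤ) - (k : ℕ) + 1 = 1 := by ring
  rw [e]

theorem E_gen_k (hn : 2 ≤ n) (c : ℕ) (k : Fin n) (u : ℤ → V5 (ZMod 9)) (α β γ : ZMod 9) :
    (fun i => E (pt c k u α β γ) (gen n ℤ k i)) = gau c k u k := by
  funext i
  rw [E_gen]
  unfold pt
  rw [if_neg (ne_sub_one hn k)]

theorem psi_E (h1 : S_Cyc) (hn : 2 ≤ n) (c : ℕ) (k : Fin n) (u : ℤ → V5 (ZMod 9))
    (α β γ : ZMod 9) (M : Matrix (Fin 5) (Fin 5) ℤ) (hM : IsC9 M)
    (hu : ∀ j : ℤ, u (j + n) = cyc ((c * n + 1 : ℕ) : ZMod 5) (u j))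
    (hd : u 0 = α • u 1 + β • cyc (-1) (u 1) + γ • cyc (-2) (u 1)) :
    (fun j i => E (pt c k u α β γ) (psi (pw M (lst n c)) k j i)) = gau c k u := by
  obtain ⟨hcc, hc0, hcz, hcl, hX, hp, hpT, hpA, hA, hdet⟩ := h1 (ZMod 9)
  have hC1T : ∀ x : V5 (ZMod 9), (Cm (ZMod 9))ᵀ *ᵥ x = cyc (-1) x := by
    intro x
    have := hpT 1 x
    rwa [pow_one, Nat.cast_one] at this
  have hcs : ∀ (t : ZMod 5) (c : ZMod 9) (x : V5 (ZMod 9)), cyc t (c • x) = c • cyc t x :=
    fun t c x => rfl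
  have hca : ∀ (t : ZMod 5) (x y : V5 (ZMod 9)), cyc t (x + y) = cyc t x + cyc t y :=
    fun t x y => rfl
  set P := pt c k u α β γ with hP
  have hgk := E_gen_k hn c k u α β γ
  funext j
  by_cases hj : j = k - 1
  · subst hj
    unfold psi
    simp only [if_true]
    have hT : (((pw M (lst n c)).up (PR n ℤ)).Mᵀ).map (E P) = (Cm (ZMod 9))ᵀ := by
      rw [Matrix.transpose_map]
      exact congrArg Matrix.transpose (up_map_E P M hM)
    have hB : ((((pw M (lst n c)).up (PR n ℤ)).B (k - 1)).adjugateᵀ).map (E P)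
        = (Cm (ZMod 9) ^ lst n c (k - 1)).adjugateᵀ := by
      rw [adj_map]
      have := congrArg (fun d : Dat n (ZMod 9) => d.B (k - 1)) (up_E P M hM (lst n c))
      exact congrArg (fun B : Matrix (Fin 5) (Fin 5) (ZMod 9) => B.adjugateᵀ) this
    rw [map_mulVec', hB, hpA]
    have hin : (fun i => E P ((gen n ℤ (k - 1) 0 • gen n ℤ k
          + gen n ℤ (k - 1) 1 • (((pw M (lst n c)).up (PR n ℤ)).Mᵀ *ᵥ gen n ℤ k)
          + gen n ℤ (k - 1) 2 • (((pw M (lst n c)).up (PR n ℤ)).Mᵀ *ᵥ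
            (((pw M (lst n c)).up (PR n ℤ)).Mᵀ *ᵥ gen n ℤ k))) i))
        = α • gau c k u k + β • cyc (-1) (gau c k u k) + γ • cyc (-2) (gau c k u k) := by
      have v0 : E P (gen n ℤ (k - 1) 0) = α := by
        rw [E_gen, hP]; unfold pt; rw [if_pos rfl]; rfl
      have v1 : E P (gen n ℤ (k - 1) 1) = β := by
        rw [E_gen, hP]; unfold pt; rw [if_pos rfl]; rfl
      have v2 : E P (gen n ℤ (k - 1) 2) = γ := by
        rw [E_gen, hP]; unfold pt; rw [if_pos rfl]; rfl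
      have w1 : (fun i => E P ((((pw M (lst n c)).up (PR n ℤ)).Mᵀ *ᵥ gen n ℤ k) i))
          = cyc (-1) (gau c k u k) := by
        rw [map_mulVec', hT, hgk, hC1T]
      have w2 : (fun i => E P ((((pw M (lst n c)).up (PR n ℤ)).Mᵀ *ᵥ
            (((pw M (lst n c)).up (PR n ℤ)).Mᵀ *ᵥ gen n ℤ k)) i))
          = cyc (-2) (gau c k u k) := by
        rw [map_mulVec', hT, w1, hC1T, hcc]
        congr 1
      funext i
      simp only [Pi.add_apply, Pi.smul_apply, smul_eq_mul, map_add, map_mul]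
      rw [v0, v1, v2]
      have g0 := congrFun hgk i
      have g1 := congrFun w1 i
      have g2 := congrFun w2 i
      rw [g0, g1, g2]
    rw [hin, gau_k]
    -- the value of the gauge at `k - 1`
    by_cases hk0 : k = 0
    · subst hk0
      have e := seqA.zero_sub_one (n := n)
      have el : lst n c (0 - 1) = c + 1 := by
        unfold lst; rw [if_pos (by rw [e]; omega)]
      rw [el]
      unfold gau
      rw [e, Fin.val_zero]
      have e3 : ((n - 1 : ℕ) : ℤ) - ((0 : ℕ) : ℤ) + 1 = 0 + n := by omega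
      have e4 : ((c * n + 1 : ℕ) : ZMod 5) = ((c * (n - 1) + (c + 1) : ℕ) : ZMod 5) := by
        refine congrArg (Nat.cast : ℕ → ZMod 5) ?_
        obtain ⟨t, rfl⟩ : ∃ t, n = t + 1 := ⟨n - 1, by omega⟩
        simp only [Nat.add_sub_cancel]
        ring
      have e5 : cyc (-((c * (n - 1) : ℕ) : ZMod 5)) (u (((n - 1 : ℕ) : ℤ) - ((0 : ℕ) : ℤ) + 1))
          = cyc ((c + 1 : ℕ) : ZMod 5) (u 0) := by
        rw [e3, hu, hcc, e4]
        have : -((c * (n - 1) : ℕ) : ZMod 5) + ((c * (n - 1) + (c + 1) : ℕ) : ZMod 5)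
            = ((c + 1 : ℕ) : ZMod 5) := by
          push_cast; ring
        rw [this]
      rw [e5, hd]
      simp only [Nat.mul_zero, Nat.cast_zero, neg_zero, hc0, hca, hcs]
    · have hk0' : (k : ℕ) ≠ 0 := by
        intro h0
        exact hk0 (Fin.ext (by rw [h0, Fin.val_zero]))
      have e := seqA.sub_one_val k hk0'
      have hk2 := k.2
      have el : lst n c (k - 1) = c := by
        unfold lst; rw [if_neg (by rw [e]; omega)]
      rw [el]
      unfold gau
      rw [e]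
      obtain ⟨t, ht⟩ : ∃ t, (k : ℕ) = t + 1 := ⟨(k : ℕ) - 1, by omega⟩
      rw [ht]
      simp only [Nat.add_sub_cancel]
      have e3 : ((t : ℕ) : ℤ) - ((t + 1 : ℕ) : ℤ) + 1 = 0 := by push_cast; ring
      rw [e3, hd]
      simp only [hca, hcs, hcc]
      have q1 : (c : ZMod 5) + -((c * (t + 1) : ℕ) : ZMod 5) = -((c * t : ℕ) : ZMod 5) := by
        push_cast; ring
      have q2 : (c : ZMod 5) + (-1 + -((c * (t + 1) : ℕ) : ZMod 5))
          = -((c * t : ℕ) : ZMod 5) + -1 := by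
        push_cast; ring
      have q3 : (c : ZMod 5) + (-2 + -((c * (t + 1) : ℕ) : ZMod 5))
          = -((c * t : ℕ) : ZMod 5) + -2 := by
        push_cast; ring
      rw [q1, q2, q3]
  · funext i
    unfold psi
    simp only [hj, if_false]
    rw [E_gen, hP]
    unfold pt
    rw [if_neg hj]

end evA

end Pool.Agent.MP62a5ad.RI
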