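import Pool.Agent.Lib.MP_62a5ad_mp.RI.Spec2

/-!
# MP_62a5ad: extension to twisted polygons (module Ext)
-/

set_option autoImplicit false

namespace Pool.Agent.MP62a5ad.RI

open Matrix

theorem ext : S_Ext := by
  intro n _ K _ M hM
  have hn0 : n ≠ 0 := NeZero.ne n
  have hnz : (n : ℤ) ≠ 0 := by exact_mod_cast hn0
  have hu : IsUnit M.det := isUnit_iff_ne_zero.2 hM
  constructor
  · intro x
    refine ⟨fun k => (M ^ (k / (n : ℤ))) *ᵥ x (Fin.ofNat n (k % (n : ℤ)).toNat), ?_, ?_⟩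
    · intro k
      have e1 : (k + (n : ℤ)) / (n : ℤ) = k / (n : ℤ) + 1 := by
        have := Int.add_mul_ediv_right k 1 hnz
        rwa [one_mul] at this
      have e2 : (k + (n : ℤ)) % (n : ℤ) = k % (n : ℤ) := Int.add_emod_right ..
      show (M ^ ((k + (n : ℤ)) / (n : ℤ))) *ᵥ x (Fin.ofNat n ((k + (n : ℤ)) % (n : ℤ)).toNat)
        = M *ᵥ ((M ^ (k / (n : ℤ))) *ᵥ x (Fin.ofNat n (k % (n : ℤ)).toNat))
      rw [e1, e2, Matrix.mulVec_mulVec, add_comm, Matrix.zpow_add hu, zpow_one]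
    · funext j
      show (M ^ ((((j : ℕ) : ℤ)) / (n : ℤ))) *ᵥ x (Fin.ofNat n ((((j : ℕ) : ℤ)) % (n : ℤ)).toNat)
        = x j
      have h0 : (0 : ℤ) ≤ (j : ℕ) := by positivity
      have h2 : (((j : ℕ) : ℤ)) < n := by exact_mod_cast j.2
      have e : Fin.ofNat n (j : ℕ) = j := by
        ext
        simp [Fin.ofNat, Nat.mod_eq_of_lt j.2]
      rw [Int.ediv_eq_zero_of_lt h0 h2, Int.emod_eq_of_lt h0 h2, Int.toNat_natCast, e, zpow_zero,
        Matrix.one_mulVec]
  · intro Q hQ hj k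
    have key : ∀ q : ℤ, ∀ r, Q r → Q (r + n * q) := by
      intro q
      induction q using Int.induction_on with
      | zero => intro r hr; simpa using hr
      | succ i ih =>
        intro r hr
        have e : r + (n : ℤ) * ((i : ℤ) + 1) = r + n * i + n := by ring
        rw [e]
        exact (hQ _).1 (ih r hr)
      | pred i ih =>
        intro r hr
        have e : r + (n : ℤ) * (-(i : ℤ)) = r + n * (-(i : ℤ) - 1) + n := by ring
        have h := ih r hr
        rw [e] at h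
        exact (hQ _).2 h
    have h0 := Int.emod_nonneg k hnz
    have h2 := Int.emod_lt_of_pos k (show (0 : ℤ) < n by omega)
    have hlt : (k % (n : ℤ)).toNat < n := by omega
    have h3 := hj ⟨(k % (n : ℤ)).toNat, hlt⟩
    have e3 : (((k % (n : ℤ)).toNat : ℕ) : ℤ) = k % n := Int.toNat_of_nonneg h0
    have h4 : Q (k % n) := e3 ▸ h3
    have h5 := key (k / n) _ h4
    rwa [Int.emod_add_mul_ediv] at h5

end Pool.Agent.MP62a5ad.RI
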