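import Pool.Agent.Lib.MP_62a5ad_mp.RI.Spec

/-!
# MP_62a5ad: rational first integrals, finitely many components
-/

set_option autoImplicit false

namespace Pool.Agent.MP62a5ad.RI

open Matrix

private theorem fin_cons {R S : Type} {r : ℕ} (φ : R → S) (b : R) (y : Fin r → R) :
    (fun i => φ ((Fin.cons b y : Fin (r + 1) → R) i)) =
      (Fin.cons (φ b) (fun i => φ (y i)) : Fin (r + 1) → S) := by
  funext i
  refine Fin.cases ?_ (fun j => ?_) i
  · rfl
  · rfl

/-- An algebraically independent family in the polynomial ring has at most `5 n` members. -/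
private theorem fin_card {n : ℕ} {L : Type} [Field L] {r : ℕ} (y : Fin r → PR n L)
    (hy : AlgebraicIndependent L y) : r ≤ n * 5 := by
  have h1 := hy.lift_cardinalMk_le_trdeg
  rw [MvPolynomial.trdeg_of_isDomain] at h1
  have h2 : (r : Cardinal) ≤ ((n * 5 : ℕ) : Cardinal) := by
    simpa using h1
  exact_mod_cast h2

theorem fin (h1 : S_Add) : S_Fin := by
  intro n _ L K _ _ _ x r f hr hf P Q hrp hP hQ
  have hprime : (kerx (L := L) x).IsPrime := RingHom.ker_isPrime _
  have hmem : ∀ a : PR n L, a ∈ kerx (L := L) x ↔ ev a x = 0 := fun a => Iff.rfl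
  refine ⟨⟨hprime, ?_⟩, ?_⟩
  · rw [Ideal.span_le]
    intro a ha
    rcases ha with rfl | ha
    · exact (hmem _).2 hP
    · rw [Set.mem_singleton_iff] at ha
      rw [ha]
      exact (hmem _).2 hQ
  · rintro q ⟨hq, hPQ⟩ hqp
    have hPq : P ∈ q := hPQ (Ideal.subset_span (by simp))
    have hQq : Q ∈ q := hPQ (Ideal.subset_span (by simp))
    by_contra hnle
    obtain ⟨b, hb, hbq⟩ := SetLike.not_le_iff_exists.1 hnle
    -- first step
    have hqk : ∀ a : PR n L, a ∈ q →
        (MvPolynomial.aeval (R := L) (fun y : Fin n × Fin 5 => x y.1 y.2) : PR n L →ₐ[L] K) a = 0 :=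
      fun a ha => (hmem a).1 (hqp ha)
    have s1 := h1 L (PR n L ⧸ q) K (Ideal.Quotient.liftₐ q _ hqk) r
      (fun i => Ideal.Quotient.mk q (f i)) (Ideal.Quotient.mk q b) (by
        exact hf) (by
        intro h0
        exact hbq (Ideal.Quotient.eq_zero_iff_mem.1 h0)) (by
        exact (hmem b).1 hb)
    -- second step
    have hq0 : q ≠ ⊥ := by
      intro h0
      rw [h0, Ideal.mem_bot] at hPq hQq
      rw [hPq, hQq] at hrp
      exact not_isUnit_zero (hrp (dvd_refl 0) (dvd_refl 0))
    obtain ⟨g, hgq, hg⟩ := Ideal.IsPrime.exists_mem_prime_of_ne_bot hq hq0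
    have hgle : Ideal.span {g} ≤ q := by
      rw [Ideal.span_le]
      intro a ha
      rw [Set.mem_singleton_iff] at ha
      rw [ha]
      exact hgq
    obtain ⟨e, heq, heg⟩ : ∃ e ∈ q, e ∉ Ideal.span {g} := by
      by_cases h : P ∈ Ideal.span {g}
      · refine ⟨Q, hQq, fun h' => ?_⟩
        rw [Ideal.mem_span_singleton] at h h'
        exact hg.not_isUnit (hrp h h')
      · exact ⟨P, hPq, h⟩
    have hgp : (Ideal.span {g}).IsPrime := (Ideal.span_singleton_prime hg.ne_zero).2 hg
    have s2 := h1 L (PR n L ⧸ Ideal.span {g}) (PR n L ⧸ q) (Ideal.Quotient.factorₐ L hgle) (r + 1)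
      (Fin.cons (Ideal.Quotient.mk _ b) fun i => Ideal.Quotient.mk _ (f i))
      (Ideal.Quotient.mk _ e) (by
        rw [fin_cons]
        exact s1) (by
        intro h0
        exact heg (Ideal.Quotient.eq_zero_iff_mem.1 h0)) (by
        show Ideal.Quotient.mk q e = 0
        exact Ideal.Quotient.eq_zero_iff_mem.2 heq)
    -- third step
    have s3 := h1 L (PR n L) (PR n L ⧸ Ideal.span {g}) (Ideal.Quotient.mkₐ L (Ideal.span {g}))
      (r + 2) (Fin.cons e (Fin.cons b f)) g (by
        rw [fin_cons, fin_cons]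
        exact s2) hg.ne_zero (by
        show Ideal.Quotient.mk (Ideal.span {g}) g = 0
        exact Ideal.Quotient.eq_zero_iff_mem.2 (Ideal.mem_span_singleton_self g))
    have := fin_card _ s3
    omega

end Pool.Agent.MP62a5ad.RI
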