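import Pool.Agent.Lib.MP_62a5ad_mp.RI.SeqA

/-!
# MP_62a5ad: finite certificates (modules FinC, FinZ)
-/

set_option autoImplicit false

namespace Pool.Agent.MP62a5ad.RI

open Matrix

namespace finCAux

theorem one_val {n : ℕ} [NeZero n] (hn : 2 ≤ n) : ((1 : Fin n) : ℕ) = 1 := by
  rw [Fin.val_one']
  exact Nat.mod_eq_of_lt (by omega)

theorem seq0 {n : ℕ} [NeZero n] (h1 : S_Cyc) (s : ZMod 5) (a : Fin n → V5 (ZMod 9)) :
    seqA.seq s a 0 = a 0 := by
  have h := seqA.val h1 s a 0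
  rwa [Fin.val_zero, Nat.cast_zero] at h

theorem seq1 {n : ℕ} [NeZero n] (h1 : S_Cyc) (hn : 2 ≤ n) (s : ZMod 5)
    (a : Fin n → V5 (ZMod 9)) : seqA.seq s a 1 = a 1 := by
  have h := seqA.val h1 s a 1
  rwa [one_val hn, Nat.cast_one] at h

end finCAux

open finCAux

theorem finC (h1 : S_Cyc) : S_FinC := by
  intro n _ s A T P hn hP hA hT hreg hd
  refine ⟨seqA.seq (s : ZMod 5) (A 0), seqA.per h1 _ _, ?_, ?_⟩
  · rw [seq0 h1, seq1 h1 hn]
    exact hd
  · intro m k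
    obtain ⟨j, hj, e, -⟩ := seqA.orbit h1 (s : ZMod 5) A T P hP hA hT m
    rw [Function.iterate_succ_apply', e, seqA.seq_fk h1, hA j hj, seqA.seq_bk h1]
    exact seqA.seq_ne h1 _ _ (hreg j hj) k

theorem finZ (h1 : S_Cyc) : S_FinZ := by
  intro n _ s a b hn hd hb hη hb1 hfs
  refine ⟨seqA.seq (s : ZMod 5) a, seqA.seq (s : ZMod 5) b, seqA.per h1 _ _, seqA.per h1 _ _,
    ?_, ?_, ?_, ?_, ?_⟩
  · rw [seq0 h1, seq1 h1 hn]
    exact hd
  · intro k hk
    rw [seqA.seq_bk h1]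
    unfold seqA.seq
    congr 1
    refine hb _ ?_
    intro h
    apply hk
    have hnz : (n : ℤ) ≠ 0 := by exact_mod_cast NeZero.ne n
    have h0 := Int.emod_nonneg k hnz
    have h2 := Int.emod_lt_of_pos k (show (0 : ℤ) < n by omega)
    have h3 := congrArg (fun i : Fin n => (i : ℕ)) h
    simp only [one_val hn] at h3
    have h4 : ((Fin.ofNat n (k % (n : ℤ)).toNat : Fin n) : ℕ) = (k % (n : ℤ)).toNat := by
      show (k % (n : ℤ)).toNat % n = _
      exact Nat.mod_eq_of_lt (by omega)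
    rw [h4] at h3
    have h5 : k % (n : ℤ) = 1 := by omega
    exact ⟨k / n, by have h6 := Int.emod_add_mul_ediv k n; rw [h5] at h6; linarith⟩
  · obtain ⟨η, h⟩ := hη
    exact ⟨η, by rw [seq1 h1 hn, seq1 h1 hn]; exact h⟩
  · rw [seq1 h1 hn]; exact hb1
  · intro k
    rw [seqA.seq_fk h1]
    exact seqA.seq_ne h1 _ _ hfs k

end Pool.Agent.MP62a5ad.RI
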