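import Pool.Agent.Lib.MP_62a5ad_mp.RI.Spec3
import Pool.Agent.Lib.MP_62a5ad_mp.RI.FinC

/-!
# MP_62a5ad: finite certificates with a marker (modules FinM, FinZM)
-/

set_option autoImplicit false

namespace Pool.Agent.MP62a5ad.RI

open Matrix

namespace finMAux

theorem seqk {n : ℕ} [NeZero n] (h1 : S_Cyc) (s : ZMod 5)
    (a : Fin n → V5 (ZMod 9)) (k : ℕ) (hk : k < n) :
    seqA.seq s a (k : ℤ) = a (Fin.ofNat n k) := by
  have h := seqA.val h1 s a (Fin.ofNat n k)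
  have e : ((Fin.ofNat n k : Fin n) : ℕ) = k := Nat.mod_eq_of_lt hk
  rwa [e] at h

end finMAux

open finCAux finMAux

theorem finM (h1 : S_Cyc) : S_FinM := by
  intro ε n _ s A tt vv T P hn hP hP2 hA hT hreg hd hM
  refine ⟨seqA.seq (s : ZMod 5) (A 0), seqA.per h1 _ _, ?_, ?_, ?_⟩
  · rw [seq0 h1, seq1 h1 (by omega)]
    exact hd
  · intro m k
    obtain ⟨j, hj, e, -⟩ := seqA.orbit h1 (s : ZMod 5) A T P hP hA hT m
    rw [Function.iterate_succ_apply', e, seqA.seq_fk h1, hA j hj, seqA.seq_bk h1]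
    exact seqA.seq_ne h1 _ _ (hreg j hj) k
  · intro m
    obtain ⟨j, hj, e, hp⟩ := seqA.orbit h1 (s : ZMod 5) A T P hP hA hT m
    have hpar : ((m : ℕ) : ZMod 2) = ((j : ℕ) : ZMod 2) :=
      (ZMod.natCast_eq_natCast_iff' m j 2).2 (hp hP2).symm
    obtain ⟨a1, a2, a3, a4⟩ := hM j hj
    have s2 := seqk h1 (s : ZMod 5) (A j) 2 (by omega)
    have s3 := seqk h1 (s : ZMod 5) (A j) 3 (by omega)
    rw [e, hpar]
    have s2' : seqA.seq (s : ZMod 5) (A j) 2 = A j (Fin.ofNat n 2) := s2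
    have s3' : seqA.seq (s : ZMod 5) (A j) 3 = A j (Fin.ofNat n 3) := s3
    rw [s2', s3']
    exact ⟨⟨tt j, a1, a2, a3⟩, ⟨vv j, a4⟩⟩

theorem finZM (h1 : S_Cyc) : S_FinZM := by
  intro n _ s a b hn hd hb hη hb1 hfs ha2 hb2
  have hnz : (n : ℤ) ≠ 0 := by exact_mod_cast NeZero.ne n
  have e2 : (Fin.ofNat n 2 : Fin n) = 2 := rfl
  have s2 : ∀ a : Fin n → V5 (ZMod 9), seqA.seq (s : ZMod 5) a 2 = a 2 := by
    intro a
    exact seqk h1 (s : ZMod 5) a 2 (by omega)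
  refine ⟨seqA.seq (s : ZMod 5) a, seqA.seq (s : ZMod 5) b, seqA.per h1 _ _, seqA.per h1 _ _,
    ?_, ?_, ?_, ?_, ?_, ?_, ?_⟩
  · rw [seq0 h1, seq1 h1 (by omega)]
    exact hd
  · intro k hk
    rw [seqA.seq_bk h1]
    unfold seqA.seq
    congr 1
    refine hb _ ?_
    intro h
    apply hk
    have h0 := Int.emod_nonneg k hnz
    have h2 := Int.emod_lt_of_pos k (show (0 : ℤ) < n by omega)
    have h3 := congrArg (fun i : Fin n => (i : ℕ)) h
    simp only [one_val (show 2 ≤ n by omega)] at h3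
    have h4 : ((Fin.ofNat n (k % (n : ℤ)).toNat : Fin n) : ℕ) = (k % (n : ℤ)).toNat := by
      show (k % (n : ℤ)).toNat % n = _
      exact Nat.mod_eq_of_lt (by omega)
    rw [h4] at h3
    have h5 : k % (n : ℤ) = 1 := by omega
    exact ⟨k / n, by have h6 := Int.emod_add_mul_ediv k n; rw [h5] at h6; linarith⟩
  · obtain ⟨η, h⟩ := hη
    exact ⟨η, by rw [seq1 h1 (by omega), seq1 h1 (by omega)]; exact h⟩
  · rw [seq1 h1 (by omega)]; exact hb1
  · intro k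
    rw [seqA.seq_fk h1]
    exact seqA.seq_ne h1 _ _ hfs k
  · rw [s2, seq1 h1 (by omega)]; exact ha2
  · rw [s2]; exact hb2

end Pool.Agent.MP62a5ad.RI
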