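import Pool.Agent.Lib.MP_62a5ad_mp.RI.Spec

/-!
# MP_62a5ad: the theorem for fixed matrices (module Fix)
-/

set_option autoImplicit false

namespace Pool.Agent.MP62a5ad.RI

open Matrix

theorem fix (h1 : S_Rel) (h2 : S_Red) (h3 : S_Sys) (h4 : S_Hun) (h5 : S_Deg) : S_Fix := by
  intro n _ L _ _ d d' Λ Λ' Ξ Ξ' hn hD hD' hR hR' p q hI v w
  by_cases hp : p = 0
  · subst hp
    simp [ev]
  by_cases hq : q = 0
  · subst hq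
    simp [ev]
  have nL : ∀ k, Λ k ≠ 0 := fun k => (hD.irr k).ne_zero
  have nX : ∀ k, Ξ k ≠ 0 := fun k => (hD'.irr k).ne_zero
  have nL' := (h1 n L d Λ Λ' hD.lam hD.lam' nL).2.2
  have nX' := (h1 n L d' Ξ Ξ' hD'.lam hD'.lam' nX).2.2
  obtain ⟨g, P, Q, a, hP, hQ, hrel, haP, haQ, hE⟩ := h2 n L d d' Λ Λ' Ξ Ξ' hD.lam hD.lam'
    hD'.lam hD'.lam' nL nL' nX nX' p q hp hq hI
  have hP0 : P ≠ 0 := fun h => hp (by rw [hP, h, mul_zero])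
  have hQ0 : Q ≠ 0 := fun h => hq (by rw [hQ, h, mul_zero])
  obtain ⟨P1, Q1, G, H, b, b', hP1, hQ1, hrel1, hb, hb', e1, e2, e3, e4⟩ := h3 n L d d' Λ Λ' Ξ Ξ'
    hD.lam hD.lam' hD'.lam hD'.lam' nL nL' nX nX' P Q a hP0 hQ0 hrel haP haQ hE
  have hH : IsUnit H := h4 n L d d' Λ Λ' Ξ Ξ' hn hD hD' hR P Q P1 Q1 G H b b' hrel1 hP1 hQ1
    hb hb' e3 e4 e1 e2
  have hG : IsUnit G := h4 n L d' d Ξ Ξ' Λ Λ' hn hD' hD hR' P1 Q1 P Q H G a a hrel hP0 hQ0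
    haP haQ e1 e2 e3 e4
  obtain ⟨c, hc⟩ := h5 n L d d' Λ Λ' Ξ Ξ' hD.lam hD.lam' hD'.lam hD'.lam' nL nL' nX nX'
    P P1 G H a b hG hH hP1 haP hb e3 e1
  obtain ⟨c', hc'⟩ := h5 n L d d' Λ Λ' Ξ Ξ' hD.lam hD.lam' hD'.lam hD'.lam' nL nL' nX nX'
    Q Q1 G H a b' hG hH hQ1 haQ hb' e4 e2
  have hC : ∀ (z : L) (x : Pg n L), ev (MvPolynomial.C z : PR n L) x = z := by
    intro z x
    unfold ev
    rw [MvPolynomial.aeval_C]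
    rfl
  rw [hP, hQ, hc, hc', ev_mul, ev_mul, ev_mul, ev_mul, hC, hC, hC, hC]
  ring

end Pool.Agent.MP62a5ad.RI
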