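import Pool.Agent.Lib.MP_62a5ad_mp.RI.Spec2

/-!
# MP_62a5ad: quasi-periodic sequences from finite ones
-/

set_option autoImplicit false

namespace Pool.Agent.MP62a5ad.RI

open Matrix

namespace seqA

/-- The quasi-periodic sequence. -/
def seq {n : ℕ} [NeZero n] (s : ZMod 5) (a : Fin n → V5 (ZMod 9)) : ℤ → V5 (ZMod 9) := fun k =>
  cyc (s * ((k / (n : ℤ) : ℤ) : ZMod 5)) (a (Fin.ofNat n (k % (n : ℤ)).toNat))

theorem qp (h1 : S_Cyc) (N : ℤ) (t : ZMod 5) (f : ℤ → V5 (ZMod 9))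
    (hf : ∀ k, f (k + N) = cyc t (f k)) (q k : ℤ) : f (k + N * q) = cyc (t * (q : ZMod 5)) (f k) := by
  obtain ⟨hcc, hc0, -⟩ := h1 (ZMod 9)
  induction q using Int.induction_on generalizing k with
  | zero => simp [hc0]
  | succ i ih =>
    have e : k + N * ((i : ℤ) + 1) = k + N * i + N := by ring
    rw [e, hf, ih, hcc]
    congr 1
    push_cast
    ring
  | pred i ih =>
    have e : k + N * (-(i : ℤ)) = k + N * (-(i : ℤ) - 1) + N := by ring
    have h := ih k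
    rw [e, hf] at h
    have h2 := congrArg (cyc (-t)) h
    rw [hcc, hcc] at h2
    have e3 : -t + t = (0 : ZMod 5) := by ring
    rw [e3, hc0] at h2
    rw [h2]
    congr 1
    push_cast
    ring

theorem fk_qp (h1 : S_Cyc) (N : ℤ) (t : ZMod 5) (f : ℤ → V5 (ZMod 9))
    (hf : ∀ k, f (k + N) = cyc t (f k)) (k : ℤ) : fk f (k + N) = cyc t (fk f k) := by
  obtain ⟨hcc, hc0, -, -, hX, -⟩ := h1 (ZMod 9)
  unfold fk
  have e : k + N + 1 = k + 1 + N := by ring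
  rw [e, hf, hf, hcc, hcc, ← hX, hcc, hcc]
  congr 2
  · ring
  · ring

theorem bk_qp (h1 : S_Cyc) (N : ℤ) (t : ZMod 5) (f : ℤ → V5 (ZMod 9))
    (hf : ∀ k, f (k + N) = cyc t (f k)) (k : ℤ) : bk f (k + N) = cyc t (bk f k) := by
  obtain ⟨hcc, hc0, -, -, hX, -⟩ := h1 (ZMod 9)
  unfold bk
  have e : k + N - 1 = k - 1 + N := by ring
  rw [e, hf, hf, hcc, hcc, ← hX, hcc, hcc]
  congr 2
  · ring
  · ring

variable {n : ℕ} [NeZero n]

theorem nz : (n : ℤ) ≠ 0 := by exact_mod_cast NeZero.ne n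

theorem npos : (0 : ℤ) < n := by exact_mod_cast Nat.pos_of_ne_zero (NeZero.ne n)

theorem per (h1 : S_Cyc) (s : ZMod 5) (a : Fin n → V5 (ZMod 9)) (k : ℤ) :
    seq s a (k + n) = cyc s (seq s a k) := by
  obtain ⟨hcc, hc0, -⟩ := h1 (ZMod 9)
  unfold seq
  have e1 : (k + (n : ℤ)) / (n : ℤ) = k / (n : ℤ) + 1 := by
    have := Int.add_mul_ediv_right k 1 (nz (n := n))
    rwa [one_mul] at this
  have e2 : (k + (n : ℤ)) % (n : ℤ) = k % (n : ℤ) := Int.add_emod_right ..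
  rw [e1, e2, hcc]
  congr 1
  push_cast
  ring

theorem ofNat_val (j : Fin n) : Fin.ofNat n (j : ℕ) = j := by
  ext
  simp [Fin.ofNat, Nat.mod_eq_of_lt j.2]

theorem val (h1 : S_Cyc) (s : ZMod 5) (a : Fin n → V5 (ZMod 9)) (j : Fin n) :
    seq s a ((j : ℕ) : ℤ) = a j := by
  obtain ⟨hcc, hc0, -⟩ := h1 (ZMod 9)
  unfold seq
  have h0 : (0 : ℤ) ≤ (j : ℕ) := by positivity
  have h2 : (((j : ℕ) : ℤ)) < n := by exact_mod_cast j.2
  rw [Int.ediv_eq_zero_of_lt h0 h2, Int.emod_eq_of_lt h0 h2, Int.toNat_natCast, ofNat_val]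
  simp [hc0]

theorem uniq (h1 : S_Cyc) (s : ZMod 5) (a : Fin n → V5 (ZMod 9)) (f : ℤ → V5 (ZMod 9))
    (hf : ∀ k, f (k + n) = cyc s (f k)) (hv : ∀ j : Fin n, f ((j : ℕ) : ℤ) = a j) :
    f = seq s a := by
  funext k
  have h0 := Int.emod_nonneg k (nz (n := n))
  have h2 := Int.emod_lt_of_pos k (npos (n := n))
  have e : k = k % n + n * (k / n) := (Int.emod_add_mul_ediv k n).symm
  have hlt : (k % (n : ℤ)).toNat < n := by omega
  have hv2 := hv ⟨(k % (n : ℤ)).toNat, hlt⟩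
  have e3 : (((k % (n : ℤ)).toNat : ℕ) : ℤ) = k % n := Int.toNat_of_nonneg h0
  have hv3 : f (k % n) = a ⟨(k % (n : ℤ)).toNat, hlt⟩ := (congrArg f e3.symm).trans hv2
  have e4 : Fin.ofNat n (k % (n : ℤ)).toNat = ⟨(k % (n : ℤ)).toNat, hlt⟩ := by
    ext; simp [Fin.ofNat, Nat.mod_eq_of_lt hlt]
  calc f k = f (k % n + n * (k / n)) := by rw [← e]
    _ = cyc (s * ((k / (n : ℤ) : ℤ) : ZMod 5)) (f (k % n)) := qp h1 n s f hf _ _
    _ = seq s a k := by
      unfold seq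
      rw [hv3, e4]

theorem sub_one_val (j : Fin n) (hj : (j : ℕ) ≠ 0) : ((j - 1 : Fin n) : ℕ) = (j : ℕ) - 1 := by
  have h2 := j.2
  rcases Nat.lt_or_ge 1 n with h | h
  · have e1 : ((1 : Fin n) : ℕ) = 1 := by
      rw [Fin.val_one']
      exact Nat.mod_eq_of_lt h
    rw [Fin.sub_def]
    simp only [e1]
    rw [show n - 1 + (j : ℕ) = n + ((j : ℕ) - 1) by omega]
    rw [Nat.add_mod_left, Nat.mod_eq_of_lt (by omega)]
  · omega

theorem add_one_val (j : Fin n) (hj : (j : ℕ) + 1 < n) : ((j + 1 : Fin n) : ℕ) = (j : ℕ) + 1 := by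
  have e1 : ((1 : Fin n) : ℕ) = 1 := by
    rw [Fin.val_one']
    exact Nat.mod_eq_of_lt (by omega)
  rw [Fin.val_add, e1, Nat.mod_eq_of_lt hj]

theorem add_one_zero (j : Fin n) (hj : (j : ℕ) + 1 = n) : j + 1 = 0 := by
  ext
  rw [Fin.val_add, Fin.val_one', Fin.val_zero]
  rcases Nat.lt_or_ge 1 n with h | h
  · rw [Nat.mod_eq_of_lt h, hj, Nat.mod_self]
  · have : n = 1 := by omega
    subst this
    omega

theorem zero_sub_one : (((0 : Fin n) - 1 : Fin n) : ℕ) = n - 1 := by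
  have hn : 0 < n := Nat.pos_of_ne_zero (NeZero.ne n)
  rcases Nat.lt_or_ge 1 n with h | h
  · have e1 : ((1 : Fin n) : ℕ) = 1 := by
      rw [Fin.val_one']
      exact Nat.mod_eq_of_lt h
    rw [Fin.sub_def]
    simp only [e1, Fin.val_zero, add_zero]
    exact Nat.mod_eq_of_lt (by omega)
  · have h3 := ((0 : Fin n) - 1 : Fin n).2
    omega

theorem seq_fk (h1 : S_Cyc) (s : ZMod 5) (a : Fin n → V5 (ZMod 9)) :
    fk (seq s a) = seq s (fs s a) := by
  refine uniq h1 s _ _ (fk_qp h1 n s _ (per h1 s a)) fun j => ?_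
  have hj := j.2
  show X5 (seq s a ((j : ℕ) : ℤ)) (seq s a ((j : ℕ) + 1)) (cyc 1 (seq s a ((j : ℕ) : ℤ)))
      (cyc 2 (seq s a ((j : ℕ) : ℤ)))
    = X5 (a j) (if j + 1 = 0 then cyc s (a 0) else a (j + 1)) (cyc 1 (a j)) (cyc 2 (a j))
  rw [val h1]
  congr 1
  rcases Nat.lt_or_ge ((j : ℕ) + 1) n with h | h
  · have e := add_one_val j h
    have ne : j + 1 ≠ 0 := by
      intro h0
      rw [h0, Fin.val_zero] at e
      omega
    rw [if_neg ne]
    have h3 := val h1 s a (j + 1)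
    rw [e] at h3
    push_cast at h3
    exact h3
  · have hjn : (j : ℕ) + 1 = n := by omega
    rw [if_pos (add_one_zero j hjn)]
    have e : ((j : ℕ) : ℤ) + 1 = 0 + n := by
      rw [zero_add]; exact_mod_cast hjn
    rw [e, per h1]
    have h3 := val h1 s a 0
    rw [Fin.val_zero, Nat.cast_zero] at h3
    rw [h3]

theorem seq_bk (h1 : S_Cyc) (s : ZMod 5) (a : Fin n → V5 (ZMod 9)) :
    bk (seq s a) = seq s (bs s a) := by
  obtain ⟨hcc, hc0, -⟩ := h1 (ZMod 9)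
  refine uniq h1 s _ _ (bk_qp h1 n s _ (per h1 s a)) fun j => ?_
  have hj := j.2
  show X5 (seq s a ((j : ℕ) : ℤ)) (seq s a ((j : ℕ) - 1)) (cyc (-1) (seq s a ((j : ℕ) : ℤ)))
      (cyc (-2) (seq s a ((j : ℕ) : ℤ)))
    = X5 (a j) (if j = 0 then cyc (-s) (a (j - 1)) else a (j - 1)) (cyc (-1) (a j)) (cyc (-2) (a j))
  rw [val h1]
  congr 1
  by_cases h : j = 0
  · subst h
    rw [if_pos rfl, Fin.val_zero, Nat.cast_zero, zero_sub]
    have h3 := per h1 s a (-1)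
    have h4 := val h1 s a (0 - 1)
    rw [zero_sub_one] at h4
    have hn : 0 < n := Nat.pos_of_ne_zero (NeZero.ne n)
    have e : ((n - 1 : ℕ) : ℤ) = -1 + n := by omega
    rw [e, h3] at h4
    rw [← h4, hcc, neg_add_cancel, hc0]
  · rw [if_neg h]
    have hj0 : (j : ℕ) ≠ 0 := by
      intro h0
      exact h (Fin.ext (by rw [h0, Fin.val_zero]))
    have h3 := val h1 s a (j - 1)
    rw [sub_one_val j hj0] at h3
    have e : (((j : ℕ) - 1 : ℕ) : ℤ) = (j : ℕ) - 1 := by omega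
    rw [e] at h3
    exact h3

/-- The orbit of a finite certificate. -/
theorem orbit (h1 : S_Cyc) (s : ZMod 5) (A : ℕ → Fin n → V5 (ZMod 9)) (T P : ℕ) (hP : 0 < P)
    (hA : ∀ m, m < T + P → fs s (A m) = A (m + 1)) (hT : A (T + P) = A T) (m : ℕ) :
    ∃ j, j < T + P ∧ fk^[m] (seq s (A 0)) = seq s (A j) ∧ (P % 2 = 0 → j % 2 = m % 2) := by
  induction m with
  | zero => exact ⟨0, by omega, rfl, fun _ => rfl⟩
  | succ m ih =>
    obtain ⟨j, hj, e, hp⟩ := ih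
    rw [Function.iterate_succ_apply', e, seq_fk h1, hA j hj]
    by_cases h : j + 1 < T + P
    · exact ⟨j + 1, h, rfl, fun h2 => by have := hp h2; omega⟩
    · have h3 : j + 1 = T + P := by omega
      refine ⟨T, by omega, by rw [h3, hT], fun h2 => ?_⟩
      have := hp h2
      omega

theorem seq_ne (h1 : S_Cyc) (s : ZMod 5) (a : Fin n → V5 (ZMod 9)) (h : ∀ k, a k ≠ 0) (k : ℤ) :
    seq s a k ≠ 0 := by
  obtain ⟨hcc, hc0, hcz, -⟩ := h1 (ZMod 9)
  unfold seq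
  intro h2
  exact h _ ((hcz _ _).1 h2)

end seqA

end Pool.Agent.MP62a5ad.RI
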