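import Pool.Agent.Lib.MP_62a5ad_mp.RI.Spec2
import Pool.Agent.Lib.MP_62a5ad_mp.RI.SeqA

/-!
# MP_62a5ad: the gauge (module Gau)
-/

set_option autoImplicit false

namespace Pool.Agent.MP62a5ad.RI

open Matrix

namespace gauAux

theorem cg {s t : ZMod 5} {x y : V5 (ZMod 9)} (h : s = t) (h' : x = y) : cyc s x = cyc t y := by
  rw [h, h']

theorem xg {a b c c' d d' : V5 (ZMod 9)} (h : c = c') (h' : d = d') :
    X5 a b c d = X5 a b c' d' := by
  rw [h, h']

end gauAux

open gauAux in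
theorem gau_thm (h1 : S_Cyc) : S_Gau := by
  intro n _ c k u hu
  obtain ⟨hcc, hc0, hcz, hcl, hX, hp, hpT, hpA, hA, hdet⟩ := h1 (ZMod 9)
  have hC1 : ∀ x : V5 (ZMod 9), Cm (ZMod 9) *ᵥ x = cyc 1 x := by
    intro x
    have := hp 1 x
    rwa [pow_one, Nat.cast_one] at this
  have hC1T : ∀ x : V5 (ZMod 9), (Cm (ZMod 9))ᵀ *ᵥ x = cyc (-1) x := by
    intro x
    have := hpT 1 x
    rwa [pow_one, Nat.cast_one] at this
  have hn0 : n ≠ 0 := NeZero.ne n
  refine ⟨?_, ?_, seqA.fk_qp h1 n _ u hu, seqA.bk_qp h1 n _ u hu⟩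
  · funext j
    have hj := j.2
    show X5 (gau c k u j) ((Cm (ZMod 9) ^ lst n c j) *ᵥ gau c k u (j + 1))
        (Cm (ZMod 9) *ᵥ gau c k u j) (Cm (ZMod 9) *ᵥ (Cm (ZMod 9) *ᵥ gau c k u j))
      = cyc (-((c * (j : ℕ) : ℕ) : ZMod 5)) (X5 (u ((j : ℕ) - (k : ℕ) + 1))
        (u ((j : ℕ) - (k : ℕ) + 1 + 1)) (cyc 1 (u ((j : ℕ) - (k : ℕ) + 1)))
        (cyc 2 (u ((j : ℕ) - (k : ℕ) + 1))))
    rw [← hX, hp, hC1, hC1]
    have e2 : (cyc (lst n c j : ZMod 5)) (gau c k u (j + 1))
        = cyc (-((c * (j : ℕ) : ℕ) : ZMod 5)) (u ((j : ℕ) - (k : ℕ) + 1 + 1)) := by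
      rcases Nat.lt_or_ge ((j : ℕ) + 1) n with h | h
      · have e := seqA.add_one_val j h
        have el : lst n c j = c := by
          unfold lst; rw [if_neg (by omega)]
        rw [el]
        unfold gau
        rw [e, hcc]
        refine cg ?_ (congrArg u ?_)
        · push_cast; ring
        · push_cast; ring
      · have hjn : (j : ℕ) + 1 = n := by omega
        have e := seqA.add_one_zero j hjn
        have el : lst n c j = c + 1 := by
          unfold lst; rw [if_pos hjn]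
        rw [el, e]
        unfold gau
        rw [Fin.val_zero, hcc]
        have e3 : ((j : ℕ) : ℤ) - (k : ℕ) + 1 + 1 = (((0 : ℕ) : ℤ) - (k : ℕ) + 1) + n := by
          have : ((n : ℕ) : ℤ) = (j : ℕ) + 1 := by exact_mod_cast hjn.symm
          rw [this]; push_cast; ring
        rw [e3, hu, hcc]
        refine cg ?_ rfl
        have : ((n : ℕ) : ZMod 5) = (j : ℕ) + 1 := by
          have h5 := congrArg (Nat.cast : ℕ → ZMod 5) hjn.symm
          rw [h5]; push_cast; ring
        push_cast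
        rw [this]
        ring
    rw [e2]
    unfold gau
    rw [hcc, hcc, hcc, hcc]
    exact xg (cg (by ring) rfl) (cg (by ring) rfl)
  · funext j
    have hj := j.2
    show X5 (gau c k u j) ((Cm (ZMod 9) ^ lst n c (j - 1))ᵀ *ᵥ gau c k u (j - 1))
        ((Cm (ZMod 9))ᵀ *ᵥ gau c k u j) ((Cm (ZMod 9))ᵀ *ᵥ ((Cm (ZMod 9))ᵀ *ᵥ gau c k u j))
      = cyc (-((c * (j : ℕ) : ℕ) : ZMod 5)) (X5 (u ((j : ℕ) - (k : ℕ) + 1))
        (u ((j : ℕ) - (k : ℕ) + 1 - 1)) (cyc (-1) (u ((j : ℕ) - (k : ℕ) + 1)))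
        (cyc (-2) (u ((j : ℕ) - (k : ℕ) + 1))))
    rw [← hX, hpT, hC1T, hC1T]
    have e2 : (cyc (-(lst n c (j - 1) : ZMod 5))) (gau c k u (j - 1))
        = cyc (-((c * (j : ℕ) : ℕ) : ZMod 5)) (u ((j : ℕ) - (k : ℕ) + 1 - 1)) := by
      by_cases h : j = 0
      · subst h
        have e := seqA.zero_sub_one (n := n)
        have el : lst n c (0 - 1) = c + 1 := by
          unfold lst; rw [if_pos (by rw [e]; omega)]
        rw [el]
        unfold gau
        rw [e, Fin.val_zero, hcc]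
        have e3 : ((n - 1 : ℕ) : ℤ) - (k : ℕ) + 1 = (((0 : ℕ) : ℤ) - (k : ℕ) + 1 - 1) + n := by
          omega
        rw [e3, hu, hcc]
        refine cg ?_ rfl
        have e4 : ((c * n + 1 : ℕ) : ZMod 5) = ((c * (n - 1) + (c + 1) : ℕ) : ZMod 5) := by
          refine congrArg (Nat.cast : ℕ → ZMod 5) ?_
          obtain ⟨t, rfl⟩ : ∃ t, n = t + 1 := ⟨n - 1, by omega⟩
          simp only [Nat.add_sub_cancel]
          ring
        rw [e4]
        push_cast
        ring
      · have hj0 : (j : ℕ) ≠ 0 := by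
          intro h0
          exact h (Fin.ext (by rw [h0, Fin.val_zero]))
        have e := seqA.sub_one_val j hj0
        have el : lst n c (j - 1) = c := by
          unfold lst; rw [if_neg (by rw [e]; omega)]
        rw [el]
        unfold gau
        rw [e, hcc]
        obtain ⟨t, ht⟩ : ∃ t, (j : ℕ) = t + 1 := ⟨(j : ℕ) - 1, by omega⟩
        rw [ht]
        simp only [Nat.add_sub_cancel]
        refine cg ?_ (congrArg u ?_)
        · push_cast; ring
        · push_cast; ring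
    rw [e2]
    unfold gau
    rw [hcc, hcc, hcc, hcc]
    exact xg (cg (by ring) rfl) (cg (by ring) rfl)

end Pool.Agent.MP62a5ad.RI
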