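import Pool.Agent.Lib.MP_62a5ad_mp.RI.Spec2

/-!
# MP_62a5ad: generic polygons and images (module Geo)
-/

set_option autoImplicit false

namespace Pool.Agent.MP62a5ad.RI

open Matrix

namespace geoAux

variable {K : Type} [Field K]

theorem inj {A : Matrix (Fin 5) (Fin 5) K} (h : A.det ≠ 0) {x : V5 K} (hx : A *ᵥ x = 0) :
    x = 0 := Matrix.eq_zero_of_mulVec_eq_zero h hx

theorem vimg (I : Fin 3 → ℕ) (n c : ℕ) (h : Set.range (off I) = {0, c * n + 1, n, 2 * n})
    (v : ℤ → V5 K) (k : ℤ) :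
    Set.range (fun m : Fin 4 => v (k + off I m))
      = ({v k, v (k + (c * n + 1 : ℕ)), v (k + n), v (k + (2 * n : ℕ))} : Set (V5 K)) := by
  have e : Set.range (fun m : Fin 4 => v (k + off I m))
      = (fun o : ℕ => v (k + o)) '' Set.range (off I) := by
    rw [← Set.range_comp]; rfl
  rw [e, h, Set.image_insert_eq, Set.image_insert_eq, Set.image_insert_eq, Set.image_singleton]
  simp

end geoAux

open geoAux in
theorem geo (h1 : S_Off) (h2 : S_Lin) (h3 : S_Ext) (h4 : S_Pl) : S_Geo := by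
  intro n _ c K _ M v hn hM hv hF hG
  obtain ⟨-, hoff⟩ := h1 n c hn
  set N := M.adjugateᵀ with hN
  have hNd : N.det ≠ 0 := by
    rw [hN, Matrix.det_transpose, Matrix.det_adjugate]
    exact pow_ne_zero _ hM
  set N' := N.adjugateᵀ with hN'
  have hN'd : N'.det ≠ 0 := by
    rw [hN', Matrix.det_transpose, Matrix.det_adjugate]
    exact pow_ne_zero _ hNd
  have hN'M : N' = M.det ^ 3 • M := by
    rw [hN', hN, Matrix.adjugate_transpose, Matrix.transpose_transpose,
      Matrix.adjugate_adjugate _ (by simp)]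
    simp
  obtain ⟨tP, fP⟩ := h4 n c K M v hv
  set P := pl n c v with hP
  obtain ⟨tW, fW⟩ := h4 n c K N P tP
  set W := pl n c P with hW
  rw [fP] at fW
  -- nothing vanishes
  have nz : ∀ (A : Matrix (Fin 5) (Fin 5) K) (X : ℤ → V5 K), A.det ≠ 0 → Tw n A X →
      (∀ j, fst n X j ≠ 0) → ∀ k, X k ≠ 0 := by
    intro A X hA hX hj
    refine (h3 n K A hA).2 (fun k => X k ≠ 0) (fun k => ?_) hj
    constructor
    · intro h h0
      rw [hX k] at h0
      exact h (inj hA h0)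
    · intro h h0
      apply h
      rw [hX k, h0, Matrix.mulVec_zero]
  have hPk : ∀ k, P k ≠ 0 := nz N P hNd tP (by intro j; rw [fP]; exact hF j)
  have hWk : ∀ k, W k ≠ 0 := nz N' W hN'd tW (by intro j; rw [fW]; exact hG j)
  have hpl : ∀ k x, x ∈ plane (tup n c) v k ↔ P k ⬝ᵥ x = 0 := by
    intro k x
    unfold plane
    rw [vimg (tup n c) n c hoff v k]
    exact (h2 K _ _ _ _ (hPk k)).2.1 x
  have hmeet : ∀ k x, x ∈ meet (tup n c) v k ↔ ∃ t : K, x = t • W k := by
    intro k x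
    unfold meet
    rw [Submodule.mem_iInf]
    have h5 : (P k ⬝ᵥ x = 0 ∧ P (k + (c * n + 1 : ℕ)) ⬝ᵥ x = 0 ∧ P (k + n) ⬝ᵥ x = 0 ∧
        P (k + (2 * n : ℕ)) ⬝ᵥ x = 0) ↔ ∃ t : K, x = t • W k := (h2 K _ _ _ _ (hWk k)).2.2 x
    rw [← h5]
    have hall : (∀ m : Fin 4, x ∈ plane (tup n c) v (k + off (tup n c) m)) ↔
        ∀ o ∈ Set.range (off (tup n c)), P (k + (o : ℕ)) ⬝ᵥ x = 0 := by
      constructor
      · rintro h _ ⟨m, rfl⟩
        exact (hpl _ _).1 (h m)
      · intro h m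
        exact (hpl _ _).2 (h _ ⟨m, rfl⟩)
    rw [hall, hoff]
    simp only [Set.mem_insert_iff, Set.mem_singleton_iff, forall_eq_or_imp, forall_eq]
    have e0 : k + ((0 : ℕ) : ℤ) = k := by simp
    rw [e0]
  refine ⟨⟨?_, ?_⟩, ?_⟩
  · intro k
    unfold plane
    rw [vimg (tup n c) n c hoff v k]
    exact (h2 K _ _ _ _ (hPk k)).1
  · intro k
    have e : meet (tup n c) v k = Submodule.span K {W k} := by
      ext x
      rw [hmeet, Submodule.mem_span_singleton]
      exact ⟨fun ⟨t, h⟩ => ⟨t, h.symm⟩, fun ⟨t, h⟩ => ⟨t, h.symm⟩⟩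
    rw [e]
    exact finrank_span_singleton (hWk k)
  · intro w hw hj
    have key : ∀ k, ∃ t : K, t ≠ 0 ∧ w k = t • W k := by
      refine (h3 n K M hM).2 (fun k => ∃ t : K, t ≠ 0 ∧ w k = t • W k) (fun k => ?_) ?_
      · have e1 : w (k + n) = M *ᵥ w k := hw k
        have e2 : W (k + n) = M.det ^ 3 • (M *ᵥ W k) := by
          rw [tW k, ← hN', hN'M, Matrix.smul_mulVec]
        have hd : M.det ^ 3 ≠ 0 := pow_ne_zero _ hM
        constructor
        · rintro ⟨t, ht, h⟩
          refine ⟨t * (M.det ^ 3)⁻¹, mul_ne_zero ht (inv_ne_zero hd), ?_⟩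
          rw [e1, e2, h, Matrix.mulVec_smul, smul_smul, mul_assoc, inv_mul_cancel₀ hd, mul_one]
        · rintro ⟨t, ht, h⟩
          refine ⟨t * M.det ^ 3, mul_ne_zero ht hd, ?_⟩
          rw [e1, e2, smul_smul] at h
          have h5 : M *ᵥ (w k - (t * M.det ^ 3) • W k) = 0 := by
            rw [Matrix.mulVec_sub, Matrix.mulVec_smul, h, sub_self]
          exact sub_eq_zero.1 (inj hM h5)
      · intro j
        obtain ⟨t, ht, h⟩ := hj j
        refine ⟨t, ht, ?_⟩
        have h6 : fst n w j = t • fst n W j := by rw [fW]; exact h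
        exact h6
    intro k
    obtain ⟨t, ht, h⟩ := key k
    refine ⟨?_, (hmeet k _).2 ⟨t, h⟩⟩
    rw [h]
    exact smul_ne_zero ht (hWk k)

end Pool.Agent.MP62a5ad.RI
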