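import Pool.Agent.Lib.MP_62a5ad_mp.RI.Red

/-!
# MP_62a5ad: the guard polynomial (module Gua)
-/

set_option autoImplicit false

namespace Pool.Agent.MP62a5ad.RI

open Matrix

open redAux in
theorem gua (h1 : S_LMH) (h2 : S_Cmp) : S_Gua := by
  intro n _ L _ d d' Λ Λ' Ξ Ξ' hL hL' hX hX' nL nL' nX nX'
  have hY : ∀ k, ev (Λ' k) (Gg d') ≠ 0 := fun k =>
    (h2 n L d' Ξ Ξ' hX hX' nX nX' (ex3 k) (Λ' k) (h1 n L d Λ Λ' hL hL' k).2).2.2 (nL' k)
  refine ⟨∏ k, (gen n L k 0 * (Ξ' k * ev (Λ' k) (Gg d'))),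
    Finset.prod_ne_zero_iff.2 fun k _ => mul_ne_zero (MvPolynomial.X_ne_zero _)
      (mul_ne_zero (nX' k) (hY k)), ?_⟩
  intro w e hN he
  have hw : ∀ k, w k 0 ≠ 0 ∧ ev (Ξ' k) w ≠ 0 ∧ ev (Λ' k) (bwd d' w) ≠ 0 := by
    have e1 : ev (∏ k, (gen n L k 0 * (Ξ' k * ev (Λ' k) (Gg d')))) w
        = ∏ k, (w k 0 * (ev (Ξ' k) w * ev (Λ' k) (bwd d' w))) := by
      rw [ev, map_prod]
      refine Finset.prod_congr rfl fun k _ => ?_
      show ev _ w = _
      rw [ev_mul, ev_mul, ev_X, ev_Gg, up_self]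
    rw [e1] at hN
    intro k
    have := Finset.prod_ne_zero_iff.1 hN k (Finset.mem_univ k)
    exact ⟨left_ne_zero_of_mul this, left_ne_zero_of_mul (right_ne_zero_of_mul this),
      right_ne_zero_of_mul (right_ne_zero_of_mul this)⟩
  set y := bwd d' w with hy
  have a1 : fwd d (bwd d y) = sc (fun k => ev (Λ' k) y) y := by
    funext k
    have := lam_pt' d Λ' hL' y k
    rw [up_self] at this
    exact this
  have a2 : fwd d' y = sc (fun k => ev (Ξ' k) w) w := by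
    funext k
    have := lam_pt' d' Ξ' hX' w k
    rw [up_self] at this
    exact this
  set s : Fin n → L := fun k => e k ^ 3 * e (k + 1) * ev (Λ' k) y with hs
  have hsn : ∀ k, s k ≠ 0 := fun k =>
    mul_ne_zero (mul_ne_zero (pow_ne_zero _ (he k)) (he (k + 1))) (hw k).2.2
  set t : Fin n → L := fun k => s k ^ 3 * s (k + 1) * ev (Ξ' k) w with ht
  have htn : ∀ k, t k ≠ 0 := fun k =>
    mul_ne_zero (mul_ne_zero (pow_ne_zero _ (hsn k)) (hsn (k + 1))) (hw k).2.1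
  have b1 : fwd d (sc e (bwd d y)) = sc s y := by
    rw [fwd_sc, a1]
    funext k i
    show _ * (_ * y k i) = (_ * _ * _) * y k i
    ring
  have b2 : fwd d' (fwd d (sc e (bwd d y))) = sc t w := by
    rw [b1, fwd_sc, a2]
    funext k i
    show _ * (_ * w k i) = (_ * _ * _) * w k i
    ring
  have hwk : ∀ k, w k ≠ 0 := fun k h => (hw k).1 (by rw [h]; rfl)
  have hyk : ∀ k, y k ≠ 0 := by
    intro k h
    have c1 := congrFun a2 k
    have c2 : fwd d' y k = 0 := by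
      unfold fwd
      rw [h, X5_zero1]
    rw [c2] at c1
    have c3 : ev (Ξ' k) w • w k = 0 := c1.symm
    rcases smul_eq_zero.1 c3 with c | c
    · exact (hw k).2.1 c
    · exact hwk k c
  have nz : ∀ (c : Fin n → L) (v : Pg n L), (∀ k, c k ≠ 0) → (∀ k, v k ≠ 0) →
      ∀ k, sc c v k ≠ 0 := by
    intro c v hc hv k h
    have h' : c k • v k = 0 := h
    rcases smul_eq_zero.1 h' with c' | c'
    · exact hc k c'
    · exact hv k c'
  refine ⟨?_, ?_, t, htn, b2⟩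
  · rw [b1]
    exact nz s y hsn hyk
  · rw [b2]
    exact nz t w htn hwk

end Pool.Agent.MP62a5ad.RI
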