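import Pool.Agent.Lib.MP_62a5ad_mp.RI.Spec

/-!
# MP_62a5ad: the Hankel determinant (module Hfo)
-/

set_option autoImplicit false

namespace Pool.Agent.MP62a5ad.RI

open Matrix

theorem hfo : S_Hfo := by
  intro R _ lam p u
  simp only [H3, dot5, Fin.sum_univ_succ, Fin.sum_univ_zero]
  simp
  ring

end Pool.Agent.MP62a5ad.RI
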