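import Pool.Agent.Lib.MP_62a5ad_mp.RI.Spec

/-!
# MP_62a5ad: rational first integrals, the key step
-/

set_option autoImplicit false

namespace Pool.Agent.MP62a5ad.RI

open Matrix

/-- The value at the image in the fraction field. -/
private theorem hun_im {n : ℕ} {L : Type} [Field L] (f : PR n L) (v : Pg n (PR n L)) :
    ev f (im v) = algebraMap (PR n L) (FractionRing (PR n L)) (ev f v) := by
  have h := ev_map (IsScalarTower.toAlgHom L (PR n L) (FractionRing (PR n L))) f v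
  exact h.symm

/-- Membership in the kernel. -/
private theorem hun_ker {n : ℕ} {L : Type} [Field L] (f : PR n L) (v : Pg n (PR n L)) :
    f ∈ kerx (L := L) (im v) ↔ ev f v = 0 := by
  have h : f ∈ kerx (L := L) (im v) ↔ ev f (im v) = 0 := Iff.rfl
  rw [h, hun_im]
  constructor
  · intro h0
    exact IsFractionRing.injective (PR n L) (FractionRing (PR n L)) (by rw [h0, map_zero])
  · intro h0
    rw [h0, map_zero]

/-- Two steps of the orbit. -/
private theorem hun_step {n : ℕ} [NeZero n] {L : Type} [Field L] (d d' : Dat n L) (k : Fin n)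
    (P0 P1 G H : PR n L) (e1 : ev P1 (Fg d) = H * P0) (e3 : ev P0 (Fg d') = G * P1)
    (h0 : ev P1 (psi d k) = 0) (m : ℕ) : ev P1 (orb d d' k (2 * m)) = 0 := by
  induction m with
  | zero => exact h0
  | succ m ih =>
    have o1 : orb d d' k (2 * m + 1) = fwd (d'.up (PR n L)) (orb d d' k (2 * m)) := by
      have : (2 * m) % 2 = 0 := by omega
      show fwd ((if (2 * m) % 2 = 0 then d' else d).up (PR n L)) (orb d d' k (2 * m)) = _
      rw [if_pos this]
    have o2 : orb d d' k (2 * (m + 1)) = fwd (d.up (PR n L)) (orb d d' k (2 * m + 1)) := by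
      have : ¬ (2 * m + 1) % 2 = 0 := by omega
      show fwd ((if (2 * m + 1) % 2 = 0 then d' else d).up (PR n L)) (orb d d' k (2 * m + 1)) = _
      rw [if_neg this]
    have s1 : ev P0 (orb d d' k (2 * m + 1)) = 0 := by
      rw [o1, ← ev_Fg, e3, ev_mul, ih, mul_zero]
    rw [o2, ← ev_Fg, e1, ev_mul, s1, mul_zero]

theorem hun (h1 : S_Rel) (h2 : S_Cmp) (h3 : S_U1) (h4 : S_Y) (h5 : S_Trb) (h6 : S_Sel)
    (h7 : S_Fin) (h8 : S_Dis) : S_Hun := by
  intro n _ L _ d d' Λ Λ' Ξ Ξ' hn hd hd' hreg P0 Q0 P1 Q1 G H a b hrp hP1 hQ1 hMa hMb e1 e2 e3 e4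
  have hΛ : ∀ k, Λ k ≠ 0 := fun k => (hd.irr k).ne_zero
  obtain ⟨-, -, r3⟩ := h1 n L d Λ Λ' hd.lam hd.lam' hΛ
  have hc := (h2 n L d Λ Λ' hd.lam hd.lam' hΛ r3 a P1 hMa).2.1 hP1
  have hH0 : H ≠ 0 := by
    intro h0
    rw [e1, h0, zero_mul] at hc
    exact hc rfl
  by_contra hH
  obtain ⟨π, hπ, hπH⟩ := WfDvdMonoid.exists_irreducible_factor hH hH0
  have hPd : π ∣ ev P1 (Fg d) := by
    rw [e1]
    exact hπH.mul_right _
  have hQd : π ∣ ev Q1 (Fg d) := by
    rw [e2]
    exact hπH.mul_right _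
  obtain ⟨k, hk⟩ := h3 n L d Λ Λ' hd.lam hd.lam' hΛ P1 Q1 a b hP1 hQ1 hrp hMa hMb π hπ hPd hQd
  have hass : Λ k ∣ π := ((hπ.dvd_irreducible_iff_associated (hd.irr k)).1 hk).symm.dvd
  have hP : ev P1 (psi d k) = 0 := h4 n L d Λ k (by omega) hd.lam (hd.det _) (hd.nz k) P1 a hMa
    (hass.trans hPd)
  have hQ : ev Q1 (psi d k) = 0 := h4 n L d Λ k (by omega) hd.lam (hd.det _) (hd.nz k) Q1 b hMb
    (hass.trans hQd)
  have sP := hun_step d d' k P0 P1 G H e1 e3 hP
  have sQ := hun_step d d' k Q0 Q1 G H e2 e4 hQ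
  have hmin : ∀ m, kerx (L := L) (im (orb d d' k (2 * m))) ∈
      (Ideal.span {P1, Q1}).minimalPrimes := by
    intro m
    obtain ⟨θ, hθ, hθa⟩ := h5 n L d d' k (by omega) (hd.det _) (hd.nz k) (hreg k) (2 * m)
    obtain ⟨f, hf⟩ := h6 n L _ (im (orb d d' k (2 * m))) (5 * n - 2) θ hθ hθa
    refine h7 n L _ _ (5 * n - 2) f (by omega) hf P1 Q1 hrp ?_ ?_
    · rw [hun_im, sP m, map_zero]
    · rw [hun_im, sQ m, map_zero]
  have hne : ∀ m m', m < m' →
      kerx (L := L) (im (orb d d' k (2 * m))) ≠ kerx (L := L) (im (orb d d' k (2 * m'))) := by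
    intro m m' hm heq
    obtain ⟨f, f1, f2⟩ := h8 n L d d' k (by omega) ⟨Λ, Ξ, hd.lam, hd'.lam⟩ (hreg k) m m' hm
    have g1 := (hun_ker f (orb d d' k (2 * m))).2 f1
    rw [heq, hun_ker] at g1
    exact f2 g1
  have hinj : Function.Injective fun m : ℕ => kerx (L := L) (im (orb d d' k (2 * m))) := by
    intro m m' hmm
    rcases lt_trichotomy m m' with h | h | h
    · exact absurd hmm (hne m m' h)
    · exact h
    · exact absurd hmm.symm (hne m' m h)
  exact Set.infinite_of_injective_forall_mem hinj hmin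
    (Ideal.finite_minimalPrimes_of_isNoetherianRing (PR n L) (Ideal.span {P1, Q1}))

end Pool.Agent.MP62a5ad.RI
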