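import Pool.Agent.Lib.MP_62a5ad_mp.RI.Spec3

/-!
# MP_62a5ad: insertion of two links (module Ins)
-/

set_option autoImplicit false

namespace Pool.Agent.MP62a5ad.RI

open Matrix

namespace insAux

theorem fk_qp (h1 : S_Cyc) (N : ℤ) (t : ZMod 5) (f : ℤ → V5 (ZMod 9))
    (hf : ∀ k, f (k + N) = cyc t (f k)) (k : ℤ) : fk f (k + N) = cyc t (fk f k) := by
  obtain ⟨hcc, hc0, -, -, hX, -⟩ := h1 (ZMod 9)
  unfold fk
  have e : k + N + 1 = k + 1 + N := by ring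
  rw [e, hf, hf, hcc, hcc, ← hX, hcc, hcc]
  congr 2
  · ring
  · ring

theorem fk_iter (h1 : S_Cyc) (N : ℤ) (t : ZMod 5) (f : ℤ → V5 (ZMod 9))
    (hf : ∀ k, f (k + N) = cyc t (f k)) (m : ℕ) :
    ∀ k, fk^[m] f (k + N) = cyc t (fk^[m] f k) := by
  induction m with
  | zero => exact hf
  | succ m ih =>
    intro k
    rw [Function.iterate_succ_apply']
    exact fk_qp h1 N t _ ih k

end insAux

theorem ins (h1 : S_Cyc) (h2 : S_Cv) (h3 : S_PEk) (h4 : S_JQ) (h5 : S_InsF) (h6 : S_InsB)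
    (h7 : S_Dat) : S_Ins := by
  intro ε n s hn hC
  obtain ⟨u, hu, hd, hreg, hM⟩ := hC
  obtain ⟨cvc, cva, cve, cvy, cvs, cvd, cvX, ajm, aje, ajs, ajc⟩ := h2 (ZMod 9)
  obtain ⟨PEr, PEs, PEt, PEn, PEc, PEv, PEf, PEX⟩ := h3
  have hW := insAux.fk_iter h1 n s u hu
  have key : ∀ m k, PE (Jn n s (YY ε (m : ℕ)) (fk^[m] u) k) (fk^[m] (Jn n s (YY ε 0) u) k) := by
    intro m
    induction m with
    | zero => intro k; simpa using PEr _
    | succ m ih =>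
      intro k
      rw [Function.iterate_succ_apply', Function.iterate_succ_apply']
      have a := (PEf _ _ ih).1 k
      have b := h5 ε (m : ZMod 2) n s (fk^[m] u) hn (hW m) (hM m) k
      rw [Nat.cast_succ]
      exact PEt _ _ _ b a
  obtain ⟨Jp, -, J0, J1, -⟩ := h4 n s (YY ε 0) u hn hu
  refine ⟨Jn n s (YY ε 0) u, ?_, ?_, ?_, ?_⟩
  · intro k
    have := Jp k
    push_cast
    exact this
  · rw [J0, J1]; exact hd
  · intro m k
    have a := (PEf _ _ (key (m + 1))).2 k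
    refine PEn _ _ a ?_
    exact h6 ε ((m + 1 : ℕ) : ZMod 2) n s (fk^[m + 1] u) hn (hW (m + 1)) (hM (m + 1)) (hreg m) k
  · intro m
    obtain ⟨-, -, -, -, K2, K3, -⟩ := h4 n s (YY ε (m : ℕ)) (fk^[m] u) hn (hW m)
    obtain ⟨c, ⟨c1, hc⟩, e2⟩ := key m 2
    obtain ⟨b, ⟨b1, hb⟩, e3⟩ := key m 3
    rw [K2] at e2
    rw [K3] at e3
    obtain ⟨-, ⟨v, hv⟩⟩ := hM m
    obtain ⟨D1, D2, -⟩ := h7 ε (m : ZMod 2)
    obtain ⟨y, hy⟩ := D1
    constructor
    · refine ⟨(b * c1) • YY ε (m : ℕ), ?_, ?_, ?_⟩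
      · rw [e3, e2, cvs, cvc _ (c • _), cvs, smul_smul, cvc _ (YY ε _)]
        congr 1
        linear_combination (-b) * hc
      · refine ⟨y * b1 * c, ?_⟩
        show b * c1 * YY ε (m : ℕ) (sgi ε (m : ℕ)) * (y * b1 * c) = 1
        linear_combination (b * b1 * c * c1) * hy + (c * c1) * hb + hc
      · show b * c1 * YY ε (m : ℕ) (sgi (ε + 1) (m : ℕ)) = 0
        rw [D2, mul_zero]
    · refine ⟨c1 • v, ?_⟩
      rw [e2, cvs, cvc v, cvs, smul_smul, cvc _ v, hv, mul_comm, hc, one_smul]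

end Pool.Agent.MP62a5ad.RI
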