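import Pool.Agent.Lib.MP_62a5ad_mp.RI.Spec3

/-!
# MP_62a5ad: insertion and the inverse half step (module InsB)
-/

set_option autoImplicit false

namespace Pool.Agent.MP62a5ad.RI

open Matrix

namespace insBAux

theorem qp (h1 : S_Cyc) (N : ℤ) (t : ZMod 5) (f : ℤ → V5 (ZMod 9))
    (hf : ∀ k, f (k + N) = cyc t (f k)) (q k : ℤ) : f (k + N * q) = cyc (t * (q : ZMod 5)) (f k) := by
  obtain ⟨hcc, hc0, -⟩ := h1 (ZMod 9)
  induction q using Int.induction_on generalizing k with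
  | zero => simp [hc0]
  | succ i ih =>
    have e : k + N * ((i : ℤ) + 1) = k + N * i + N := by ring
    rw [e, hf, ih, hcc]
    congr 1
    push_cast
    ring
  | pred i ih =>
    have e : k + N * (-(i : ℤ)) = k + N * (-(i : ℤ) - 1) + N := by ring
    have h := ih k
    rw [e, hf] at h
    have h2 := congrArg (cyc (-t)) h
    rw [hcc, hcc] at h2
    have e3 : -t + t = (0 : ZMod 5) := by ring
    rw [e3, hc0] at h2
    rw [h2]
    congr 1
    push_cast
    ring

theorem bk_qp (h1 : S_Cyc) (N : ℤ) (t : ZMod 5) (f : ℤ → V5 (ZMod 9))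
    (hf : ∀ k, f (k + N) = cyc t (f k)) (k : ℤ) : bk f (k + N) = cyc t (bk f k) := by
  obtain ⟨hcc, hc0, -, -, hX, -⟩ := h1 (ZMod 9)
  unfold bk
  have e : k + N - 1 = k - 1 + N := by ring
  rw [e, hf, hf, hcc, hcc, ← hX, hcc, hcc]
  congr 2
  · ring
  · ring

end insBAux

theorem insB (h1 : S_Cyc) (h2 : S_Cv) (h3 : S_PEk) (h4 : S_JQ) (h5 : S_Dat) : S_InsB := by
  intro ε i n s w hn hw hMK hreg
  obtain ⟨Jp, Jm, J0, J1, J2, J3, JL⟩ := h4 n s (YY ε i) w hn hw
  obtain ⟨hcc, hc0, hcz, hcl, hX, -⟩ := h1 (ZMod 9)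
  obtain ⟨cvc, cva, cve, cvy, cvs, cvd, cvX, ajm, aje, ajs, ajc⟩ := h2 (ZMod 9)
  obtain ⟨-, ⟨v, hv⟩⟩ := hMK
  obtain ⟨-, -, -, -, D5, D6⟩ := h5 ε i
  set J := Jn n s (YY ε i) w with hJ
  have hbJ := insBAux.bk_qp h1 (n + 2) (s + 2) J Jp
  have cve' : ∀ a : V5 (ZMod 9), cv a e0 = a := fun a => by rw [cvc, cve]
  -- multiplication by the unit `aj (w 2)`
  have nz : ∀ a : V5 (ZMod 9), a ≠ 0 → cv (aj (w 2)) a ≠ 0 := by
    intro a ha h
    apply ha
    have e : cv (aj v) (cv (aj (w 2)) a) = a := by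
      rw [← cva, ← ajm, hv, aje, cve]
    rw [h] at e
    rw [← e]
    have : cv (aj v) (0 : V5 (ZMod 9)) = 0 := by
      have := cvs 0 (0 : V5 (ZMod 9)) (aj v)
      rw [zero_smul, zero_smul] at this
      rw [cvc]; exact this
    exact this
  have small : ∀ k : ℤ, 0 ≤ k → k < n + 2 → bk J k ≠ 0 := by
    intro k hk0 hk1
    by_cases c0 : k = 0
    · subst c0
      have : bk J 0 = bk w 0 := by
        show X5 (J 0) (J (0 - 1)) (cyc (-1) (J 0)) (cyc (-2) (J 0)) = X5 (w 0) (w (0 - 1)) _ _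
        rw [zero_sub, J0, Jm]
      rw [this]; exact hreg 0
    by_cases c1 : k = 1
    · subst c1
      have : bk J 1 = bk w 1 := by
        show X5 (J 1) (J (1 - 1)) (cyc (-1) (J 1)) (cyc (-2) (J 1)) = X5 (w 1) (w (1 - 1)) _ _
        rw [sub_self, J1, J0]
      rw [this]; exact hreg 1
    by_cases c2 : k = 2
    · subst c2
      have : bk J 2 = bk w 2 := by
        show X5 (J 2) (J (2 - 1)) (cyc (-1) (J 2)) (cyc (-2) (J 2)) = X5 (w 2) (w (2 - 1)) _ _
        have e : (2 : ℤ) - 1 = 1 := by norm_num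
        rw [e, J2, J1]
      rw [this]; exact hreg 2
    by_cases c3 : k = 3
    · subst c3
      have : bk J 3 = cv (aj (w 2)) (X5 (YY ε i) e0 (cyc (-1) (YY ε i)) (cyc (-2) (YY ε i))) := by
        show X5 (J 3) (J (3 - 1)) (cyc (-1) (J 3)) (cyc (-2) (J 3)) = _
        have e : (3 : ℤ) - 1 = 2 := by norm_num
        rw [e, J3, J2, ← cvX, cve', cvy, cvy, cvc (w 2)]
      rw [this]; exact nz _ D5
    by_cases c4 : k = 4
    · subst c4
      have J4 : J 4 = cyc 2 (w 2) := by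
        have h := JL 2 (by norm_num) (by omega)
        have e : (2 : ℤ) + 2 = 4 := by norm_num
        rwa [e] at h
      have : bk J 4 = cv (aj (w 2)) (X5 (cyc 2 e0) (YY ε i) (cyc 1 e0) e0) := by
        show X5 (J 4) (J (4 - 1)) (cyc (-1) (J 4)) (cyc (-2) (J 4)) = _
        have e : (4 : ℤ) - 1 = 3 := by norm_num
        rw [e, J4, J3, ← cvX, cvy, cvy, cve', hcc, hcc, cvc (w 2)]
        have e1 : (-1 : ZMod 5) + 2 = 1 := by decide
        have e2 : (-2 : ZMod 5) + 2 = 0 := by decide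
        rw [e1, e2, hc0]
      rw [this]; exact nz _ D6
    · obtain ⟨j, rfl⟩ : ∃ j, k = j + 2 := ⟨k - 2, by ring⟩
      have : bk J (j + 2) = cyc 2 (bk w j) := by
        show X5 (J (j + 2)) (J (j + 2 - 1)) (cyc (-1) (J (j + 2))) (cyc (-2) (J (j + 2)))
          = cyc 2 (X5 (w j) (w (j - 1)) (cyc (-1) (w j)) (cyc (-2) (w j)))
        have e : j + 2 - 1 = (j - 1) + 2 := by ring
        rw [e, JL j (by omega) (by omega), JL (j - 1) (by omega) (by omega), ← hX, hcc, hcc,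
          hcc, hcc]
        congr 2
      rw [this]
      intro h
      exact hreg j ((hcz 2 _).1 h)
  intro k
  have hN : (0 : ℤ) < n + 2 := by omega
  have e : k = k % (n + 2) + (n + 2) * (k / (n + 2)) := (Int.emod_add_mul_ediv k (n + 2)).symm
  rw [e, insBAux.qp h1 _ _ (bk J) hbJ]
  intro h
  exact small _ (Int.emod_nonneg _ hN.ne') (Int.emod_lt_of_pos _ hN) ((hcz _ _).1 h)

end Pool.Agent.MP62a5ad.RI
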