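import Pool.Agent.Lib.MP_62a5ad_mp.RI.Spec3

/-!
# MP_62a5ad: insertion and the half step (module InsF)
-/

set_option autoImplicit false

namespace Pool.Agent.MP62a5ad.RI

open Matrix

namespace insFAux

theorem qp (h1 : S_Cyc) (N : ℤ) (t : ZMod 5) (f : ℤ → V5 (ZMod 9))
    (hf : ∀ k, f (k + N) = cyc t (f k)) (q k : ℤ) : f (k + N * q) = cyc (t * (q : ZMod 5)) (f k) := by
  obtain ⟨hcc, hc0, -⟩ := h1 (ZMod 9)
  induction q using Int.induction_on generalizing k with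
  | zero => simp [hc0]
  | succ i ih =>
    have e : k + N * ((i : ℤ) + 1) = k + N * i + N := by ring
    rw [e, hf, ih, hcc]
    congr 1
    push_cast
    ring
  | pred i ih =>
    have e : k + N * (-(i : ℤ)) = k + N * (-(i : ℤ) - 1) + N := by ring
    have h := ih k
    rw [e, hf] at h
    have h2 := congrArg (cyc (-t)) h
    rw [hcc, hcc] at h2
    have e3 : -t + t = (0 : ZMod 5) := by ring
    rw [e3, hc0] at h2
    rw [h2]
    congr 1
    push_cast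
    ring

theorem fk_qp (h1 : S_Cyc) (N : ℤ) (t : ZMod 5) (f : ℤ → V5 (ZMod 9))
    (hf : ∀ k, f (k + N) = cyc t (f k)) (k : ℤ) : fk f (k + N) = cyc t (fk f k) := by
  obtain ⟨hcc, hc0, -, -, hX, -⟩ := h1 (ZMod 9)
  unfold fk
  have e : k + N + 1 = k + 1 + N := by ring
  rw [e, hf, hf, hcc, hcc, ← hX, hcc, hcc]
  congr 2
  · ring
  · ring

theorem hh_eq (t : V5 (ZMod 9)) : hh t = ![0, 0, 0, -t 4, t 3] := by
  have a1 : cyc 1 (e0 : V5 (ZMod 9)) = ![0, 1, 0, 0, 0] := by decide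
  have a2 : cyc 2 (e0 : V5 (ZMod 9)) = ![0, 0, 1, 0, 0] := by decide
  unfold hh
  rw [a1, a2]
  refine V5_ext ?_ ?_ ?_ ?_ ?_ <;>
    simp [X5_0, X5_1, X5_2, X5_3, X5_4, lap, mn, e0]

theorem sgi_cases : ∀ ε i : ZMod 2,
    (sgi ε i = 4 ∧ sgi (ε + 1) i = 3) ∨ (sgi ε i = 3 ∧ sgi (ε + 1) i = 4) := by
  decide

theorem hh_PE (ε i : ZMod 2) (t Y : V5 (ZMod 9)) (h1 : UN (t (sgi ε i)))
    (h2 : t (sgi (ε + 1) i) = 0) (h3 : UN (Y (sgi ε i))) (h4 : Y (sgi (ε + 1) i) = 0) :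
    PE (hh t) (hh Y) := by
  have key : (sgi ε i = 4 ∧ sgi (ε + 1) i = 3) ∨ (sgi ε i = 3 ∧ sgi (ε + 1) i = 4) :=
    sgi_cases ε i
  rw [hh_eq, hh_eq]
  rcases key with ⟨e1, e2⟩ | ⟨e1, e2⟩
  · rw [e1] at h1 h3
    rw [e2] at h2 h4
    obtain ⟨a, ha⟩ := h1
    obtain ⟨b, hb⟩ := h3
    refine ⟨Y 4 * a, ⟨t 4 * b, by linear_combination (Y 4 * b) * ha + hb⟩, ?_⟩
    rw [h2, h4]
    funext j
    fin_cases j <;> simp
    linear_combination (-Y 4) * ha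
  · rw [e1] at h1 h3
    rw [e2] at h2 h4
    obtain ⟨a, ha⟩ := h1
    obtain ⟨b, hb⟩ := h3
    refine ⟨Y 3 * a, ⟨t 3 * b, by linear_combination (Y 3 * b) * ha + hb⟩, ?_⟩
    rw [h2, h4]
    funext j
    fin_cases j <;> simp
    linear_combination (-Y 3) * ha

end insFAux

theorem insF (h1 : S_Cyc) (h2 : S_Cv) (h3 : S_PEk) (h4 : S_JQ) (h5 : S_Dat) : S_InsF := by
  intro ε i n s w hn hw hMK
  have hfw := insFAux.fk_qp h1 n s w hw
  obtain ⟨Jp, -, J0, J1, J2, J3, JL⟩ := h4 n s (YY ε i) w hn hw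
  obtain ⟨Lp, -, L0, L1, L2, L3, LL⟩ := h4 n s (YY ε (i + 1)) (fk w) hn hfw
  obtain ⟨hcc, hc0, hcz, hcl, hX, -⟩ := h1 (ZMod 9)
  obtain ⟨cvc, cva, cve, cvy, cvs, cvd, cvX, ajm, aje, ajs, ajc⟩ := h2 (ZMod 9)
  obtain ⟨PEr, PEs, PEt, PEn, PEc, PEv, PEf, PEX⟩ := h3
  obtain ⟨⟨t, ht, ht1, ht2⟩, -⟩ := hMK
  obtain ⟨D1, D2, D3, D4, -, -⟩ := h5 ε i
  set J := Jn n s (YY ε i) w with hJ
  set L := Jn n s (YY ε (i + 1)) (fk w) with hL
  have hfJ := insFAux.fk_qp h1 (n + 2) (s + 2) J Jp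
  -- the cross product for multiples of a vector
  have cve' : ∀ a : V5 (ZMod 9), cv a e0 = a := fun a => by rw [cvc, cve]
  have xmul : ∀ a b : V5 (ZMod 9), X5 a (cv a b) (cyc 1 a) (cyc 2 a) = cv (aj a) (hh b) := by
    intro a b
    have e1 : cyc 1 a = cv a (cyc 1 e0) := by rw [cvy, cve']
    have e2 : cyc 2 a = cv a (cyc 2 e0) := by rw [cvy, cve']
    unfold hh
    rw [← cvX, cve', ← e1, ← e2]
  have fJ2 : fk J 2 = cv (aj (w 2)) (hh (YY ε i)) := by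
    show X5 (J 2) (J (2 + 1)) (cyc 1 (J 2)) (cyc 2 (J 2)) = _
    have e : (2 : ℤ) + 1 = 3 := by norm_num
    rw [e, J2, J3, cvc (YY ε i), xmul]
  have fw2 : fk w 2 = cv (aj (w 2)) (hh t) := by
    show X5 (w 2) (w (2 + 1)) (cyc 1 (w 2)) (cyc 2 (w 2)) = _
    have e : (2 : ℤ) + 1 = 3 := by norm_num
    rw [e, ht, cvc t, xmul]
  have P2 : PE (fk w 2) (fk J 2) := by
    rw [fJ2, fw2]
    exact PEv _ _ _ (insFAux.hh_PE ε i t _ ht1 ht2 D1 D2)
  have small : ∀ k : ℤ, 0 ≤ k → k < n + 2 → PE (L k) (fk J k) := by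
    intro k hk0 hk1
    by_cases c0 : k = 0
    · subst c0
      rw [L0]
      have : fk J 0 = fk w 0 := by
        show X5 (J 0) (J (0 + 1)) (cyc 1 (J 0)) (cyc 2 (J 0)) = X5 (w 0) (w (0 + 1)) _ _
        rw [zero_add, J0, J1]
      rw [this]; exact PEr _
    by_cases c1 : k = 1
    · subst c1
      rw [L1]
      have : fk J 1 = fk w 1 := by
        show X5 (J 1) (J (1 + 1)) (cyc 1 (J 1)) (cyc 2 (J 1)) = X5 (w 1) (w (1 + 1)) _ _
        have e : (1 : ℤ) + 1 = 2 := by norm_num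
        rw [e, J1, J2]
      rw [this]; exact PEr _
    by_cases c2 : k = 2
    · subst c2
      rw [L2]; exact P2
    by_cases c3 : k = 3
    · subst c3
      rw [L3]
      have J4 : J (3 + 1) = cyc 2 (w 2) := JL 2 (by norm_num) (by omega)
      have e1 : fk J 3 = X5 (cv (YY ε i) (w 2)) (cyc 2 (w 2)) (cyc 1 (cv (YY ε i) (w 2)))
          (cyc 2 (cv (YY ε i) (w 2))) := by
        show X5 (J 3) (J (3 + 1)) (cyc 1 (J 3)) (cyc 2 (J 3)) = _
        rw [J4, J3]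
      have p1 : PE (cyc 2 (w 2)) (cv (cv (YY ε i) (w 2)) (XX ε i)) := by
        have := PEv (w 2) _ _ D3
        rw [cvy, cve'] at this
        have e : cv (w 2) (cv (XX ε i) (YY ε i)) = cv (cv (YY ε i) (w 2)) (XX ε i) := by
          rw [cvc (XX ε i), ← cva, cvc (w 2)]
        rwa [e] at this
      have p2 := PEX _ _ _ _ _ _ _ _ (PEr (cv (YY ε i) (w 2))) p1
        (PEr (cyc 1 (cv (YY ε i) (w 2)))) (PEr (cyc 2 (cv (YY ε i) (w 2))))
      rw [← e1, xmul, ajm] at p2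
      -- p2 : PE (fk J 3) (cv (cv (aj Y) (aj w2)) (hh X))
      have e2 : cv (cv (aj (YY ε i)) (aj (w 2))) (hh (XX ε i))
          = cv (aj (w 2)) (cv (aj (YY ε i)) (hh (XX ε i))) := by
        rw [cvc (aj (YY ε i)), cva]
      rw [e2] at p2
      have p3 := PEv (aj (w 2)) _ _ D4
      have e3 : cv (aj (w 2)) (cv (YY ε (i + 1)) (hh (YY ε i)))
          = cv (YY ε (i + 1)) (fk J 2) := by
        rw [fJ2, ← cva, ← cva, cvc (aj (w 2))]
      rw [e3] at p3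
      exact PEt _ _ _ (PEv _ _ _ P2) (PEt _ _ _ p3 (PEs _ _ p2))
    · obtain ⟨j, rfl⟩ : ∃ j, k = j + 2 := ⟨k - 2, by ring⟩
      rw [LL j (by omega) (by omega)]
      have : fk J (j + 2) = cyc 2 (fk w j) := by
        show X5 (J (j + 2)) (J (j + 2 + 1)) (cyc 1 (J (j + 2))) (cyc 2 (J (j + 2)))
          = cyc 2 (X5 (w j) (w (j + 1)) (cyc 1 (w j)) (cyc 2 (w j)))
        have e : j + 2 + 1 = (j + 1) + 2 := by ring
        rw [e, JL j (by omega) (by omega), JL (j + 1) (by omega) (by omega), ← hX, hcc, hcc, hcc]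
        congr 2
      rw [this]; exact PEr _
  intro k
  have hN : (0 : ℤ) < n + 2 := by omega
  have e : k = k % (n + 2) + (n + 2) * (k / (n + 2)) := (Int.emod_add_mul_ediv k (n + 2)).symm
  rw [e, insFAux.qp h1 _ _ L Lp, insFAux.qp h1 _ _ (fk J) hfJ]
  exact PEc _ _ _ (small _ (Int.emod_nonneg _ hN.ne') (Int.emod_lt_of_pos _ hN))

end Pool.Agent.MP62a5ad.RI
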