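import Pool.Agent.Lib.MP_62a5ad_mp.RI.Spec3
import Pool.Agent.Lib.MP_62a5ad_mp.RI.SeqA

/-!
# MP_62a5ad: insertion of one link (module InsZ)
-/

set_option autoImplicit false

namespace Pool.Agent.MP62a5ad.RI

open Matrix

namespace insZAux

/-- The inserted sequence. -/
def Jz (n : ℕ) (t : ZMod 5) (w : ℤ → V5 (ZMod 9)) : ℤ → V5 (ZMod 9) := fun k =>
  cyc (t * ((k / (n + 1) : ℤ) : ZMod 5))
    (if k % (n + 1) ≤ 2 then w (k % (n + 1)) else cyc (-1) (w (k % (n + 1) - 1)))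

theorem small (n : ℕ) (t : ZMod 5) (w : ℤ → V5 (ZMod 9)) (k : ℤ)
    (hc0 : ∀ x : V5 (ZMod 9), cyc 0 x = x) (h0 : 0 ≤ k) (h1 : k < n + 1) :
    Jz n t w k = if k ≤ 2 then w k else cyc (-1) (w (k - 1)) := by
  unfold Jz
  rw [Int.emod_eq_of_lt h0 h1, Int.ediv_eq_zero_of_lt h0 h1]
  simp [hc0]

theorem JZ (h1 : S_Cyc) (n : ℕ) (s : ZMod 5) (w : ℤ → V5 (ZMod 9)) (hn : 3 ≤ n)
    (hw : ∀ k, w (k + n) = cyc s (w k)) :
    (∀ k, Jz n (s + 4) w (k + (n + 1)) = cyc (s + 4) (Jz n (s + 4) w k)) ∧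
    Jz n (s + 4) w (-1) = w (-1) ∧ Jz n (s + 4) w 0 = w 0 ∧ Jz n (s + 4) w 1 = w 1 ∧
    Jz n (s + 4) w 2 = w 2 ∧
    ∀ k : ℤ, 2 ≤ k → k ≤ n → Jz n (s + 4) w (k + 1) = cyc (-1) (w k) := by
  obtain ⟨hcc, hc0, -⟩ := h1 (ZMod 9)
  have hN : (n : ℤ) + 1 ≠ 0 := by omega
  have per : ∀ k, Jz n (s + 4) w (k + (n + 1)) = cyc (s + 4) (Jz n (s + 4) w k) := by
    intro k
    unfold Jz
    have e1 : (k + ((n : ℤ) + 1)) / ((n : ℤ) + 1) = k / ((n : ℤ) + 1) + 1 := by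
      have := Int.add_mul_ediv_right k 1 hN
      rwa [one_mul] at this
    have e2 : (k + ((n : ℤ) + 1)) % ((n : ℤ) + 1) = k % ((n : ℤ) + 1) := Int.add_emod_right ..
    rw [e1, e2, hcc]
    congr 1
    push_cast
    ring
  have s0 : ∀ k : ℤ, 0 ≤ k → k < n + 1 → Jz n (s + 4) w k =
      if k ≤ 2 then w k else cyc (-1) (w (k - 1)) :=
    fun k h0 h2 => small n (s + 4) w k hc0 h0 h2
  have J0 : Jz n (s + 4) w 0 = w 0 := by rw [s0 0 (by omega) (by omega), if_pos (by omega)]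
  refine ⟨per, ?_, J0, ?_, ?_, ?_⟩
  · have h := per (-1)
    have e : (-1 : ℤ) + ((n : ℤ) + 1) = (n : ℤ) := by ring
    rw [e, s0 n (by omega) (by omega), if_neg (by omega)] at h
    have e2 : (n : ℤ) - 1 = -1 + n := by ring
    rw [e2, hw (-1), hcc] at h
    have h2 := congrArg (cyc (-(s + 4))) h
    rw [hcc, hcc] at h2
    have e3 : -(s + 4) + (-1 + s) = (0 : ZMod 5) := by
      have : -(s + 4) + (-1 + s) = (-5 : ZMod 5) := by ring
      rw [this]; decide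
    have e4 : -(s + 4) + (s + 4) = (0 : ZMod 5) := by ring
    rw [e3, e4, hc0, hc0] at h2
    exact h2.symm
  · rw [s0 1 (by omega) (by omega), if_pos (by omega)]
  · rw [s0 2 (by omega) (by omega), if_pos (by omega)]
  · intro k hk1 hk2
    rcases lt_or_eq_of_le hk2 with h | h
    · rw [s0 (k + 1) (by omega) (by omega), if_neg (by omega)]
      congr 2
      ring
    · subst h
      have h := per 0
      rw [zero_add] at h
      rw [h, J0]
      have h2 := hw 0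
      rw [zero_add] at h2
      rw [h2, hcc]
      congr 1
      have : (4 : ZMod 5) = -1 := by decide
      rw [this]
      ring

end insZAux

open insZAux in
theorem insZ (h1 : S_Cyc) : S_InsZ := by
  rintro n s hn ⟨u, x, hu, hx, hd, hxb, ⟨η, hη⟩, hx1, hfx, hm1, hm2⟩
  obtain ⟨hcc, hc0, hcz, hcl, hX, -⟩ := h1 (ZMod 9)
  obtain ⟨up, um, u0, u1, u2, uL⟩ := JZ h1 n (s : ZMod 5) u hn hu
  obtain ⟨xp, xm, x0, x1, x2, xL⟩ := JZ h1 n (s : ZMod 5) x hn hx
  set u' := Jz n ((s : ZMod 5) + 4) u with hu'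
  set x' := Jz n ((s : ZMod 5) + 4) x with hx'
  have hN : (0 : ℤ) < n + 1 := by omega
  have ec : (((s + 4 : ℕ) : ℕ) : ZMod 5) = (s : ZMod 5) + 4 := by push_cast; ring
  have eN : (((n + 1 : ℕ) : ℕ) : ℤ) = (n : ℤ) + 1 := by push_cast; ring
  have nd : ∀ j : ℤ, j ≠ 0 → -(n : ℤ) < j → j < n → ¬ (n : ℤ) ∣ j := by
    intro j hj0 hj1 hj2 hdv
    obtain ⟨c, rfl⟩ := hdv
    have hn' : (0 : ℤ) < n := by omega
    have : c < 1 := by nlinarith
    have : -1 < c := by nlinarith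
    have : c = 0 := by omega
    subst this
    exact hj0 (mul_zero _)
  -- the inverse half step of `u'`
  have bsmall : ∀ k : ℤ, 0 ≤ k → k < n + 1 → k ≠ 1 → x' k = bk u' k := by
    intro k hk0 hk1 hk
    by_cases c0 : k = 0
    · subst c0
      rw [x0, hxb 0 (nd _ (by omega) (by omega) (by omega))]
      show X5 (u 0) (u (0 - 1)) _ _ = X5 (u' 0) (u' (0 - 1)) (cyc (-1) (u' 0)) (cyc (-2) (u' 0))
      rw [zero_sub, u0, um]
    by_cases c2 : k = 2
    · subst c2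
      rw [x2, hxb 2 (nd _ (by omega) (by omega) (by omega))]
      show X5 (u 2) (u (2 - 1)) _ _ = X5 (u' 2) (u' (2 - 1)) (cyc (-1) (u' 2)) (cyc (-2) (u' 2))
      have e : (2 : ℤ) - 1 = 1 := by norm_num
      rw [e, u2, u1]
    by_cases c3 : k = 3
    · subst c3
      have a1 := xL 2 (by norm_num) (by omega)
      have a2 := uL 2 (by norm_num) (by omega)
      have e : (2 : ℤ) + 1 = 3 := by norm_num
      rw [e] at a1 a2
      rw [a1, hxb 2 (nd _ (by omega) (by omega) (by omega))]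
      show cyc (-1) (X5 (u 2) (u (2 - 1)) (cyc (-1) (u 2)) (cyc (-2) (u 2)))
        = X5 (u' 3) (u' (3 - 1)) (cyc (-1) (u' 3)) (cyc (-2) (u' 3))
      have e2 : (2 : ℤ) - 1 = 1 := by norm_num
      have e3 : (3 : ℤ) - 1 = 2 := by norm_num
      have e4 : u 1 = cyc 1 (u 2) := by
        rw [hm1, hcc]
        have : (1 : ZMod 5) + -1 = 0 := by decide
        rw [this, hc0]
      rw [e2, e3, a2, u2, e4, ← hX, hcc, hcc, hcc, hcc]
      have e5 : (-1 : ZMod 5) + 1 = 0 := by decide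
      rw [e5, hc0]
      congr 2
    · obtain ⟨j, rfl⟩ : ∃ j, k = j + 1 := ⟨k - 1, by ring⟩
      rw [xL j (by omega) (by omega), hxb j (nd _ (by omega) (by omega) (by omega))]
      show cyc (-1) (X5 (u j) (u (j - 1)) (cyc (-1) (u j)) (cyc (-2) (u j)))
        = X5 (u' (j + 1)) (u' (j + 1 - 1)) (cyc (-1) (u' (j + 1))) (cyc (-2) (u' (j + 1)))
      have e : j + 1 - 1 = (j - 1) + 1 := by ring
      rw [e, uL j (by omega) (by omega), uL (j - 1) (by omega) (by omega), ← hX, hcc, hcc, hcc]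
      congr 2
  have fsmall : ∀ k : ℤ, 0 ≤ k → k < n + 1 → fk x' k ≠ 0 := by
    intro k hk0 hk1
    by_cases c0 : k = 0
    · subst c0
      have : fk x' 0 = fk x 0 := by
        show X5 (x' 0) (x' (0 + 1)) (cyc 1 (x' 0)) (cyc 2 (x' 0)) = X5 (x 0) (x (0 + 1)) _ _
        rw [zero_add, x0, x1]
      rw [this]; exact hfx 0
    by_cases c1 : k = 1
    · subst c1
      have : fk x' 1 = fk x 1 := by
        show X5 (x' 1) (x' (1 + 1)) (cyc 1 (x' 1)) (cyc 2 (x' 1)) = X5 (x 1) (x (1 + 1)) _ _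
        have e : (1 : ℤ) + 1 = 2 := by norm_num
        rw [e, x1, x2]
      rw [this]; exact hfx 1
    by_cases c2 : k = 2
    · subst c2
      have : fk x' 2 = X5 (x 2) (cyc (-1) (x 2)) (cyc 1 (x 2)) (cyc 2 (x 2)) := by
        show X5 (x' 2) (x' (2 + 1)) (cyc 1 (x' 2)) (cyc 2 (x' 2)) = _
        rw [xL 2 (by norm_num) (by omega), x2]
      rw [this]; exact hm2
    · obtain ⟨j, rfl⟩ : ∃ j, k = j + 1 := ⟨k - 1, by ring⟩
      have : fk x' (j + 1) = cyc (-1) (fk x j) := by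
        show X5 (x' (j + 1)) (x' (j + 1 + 1)) (cyc 1 (x' (j + 1))) (cyc 2 (x' (j + 1)))
          = cyc (-1) (X5 (x j) (x (j + 1)) (cyc 1 (x j)) (cyc 2 (x j)))
        rw [xL j (by omega) (by omega), xL (j + 1) (by omega) (by omega), ← hX, hcc, hcc, hcc, hcc]
        congr 2
      rw [this]
      intro h
      exact hfx j ((hcz _ _).1 h)
  have hbu := seqA.bk_qp h1 (n + 1) _ u' up
  have hfx' := seqA.fk_qp h1 (n + 1) _ x' xp
  refine ⟨u', x', ?_, ?_, ?_, ?_, ?_, ?_, ?_, ?_, ?_⟩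
  · intro k; rw [ec, eN]; exact up k
  · intro k; rw [ec, eN]; exact xp k
  · rw [u0, u1]; exact hd
  · intro k hk
    have e : k = k % (n + 1) + (n + 1) * (k / (n + 1)) := (Int.emod_add_mul_ediv k (n + 1)).symm
    have hne : k % (n + 1) ≠ 1 := by
      intro h
      apply hk
      rw [eN]
      exact ⟨k / (n + 1), by rw [h] at e; linarith⟩
    rw [e, seqA.qp h1 _ _ x' xp, seqA.qp h1 _ _ (bk u') hbu,
      bsmall _ (Int.emod_nonneg _ hN.ne') (Int.emod_lt_of_pos _ hN) hne]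
  · exact ⟨η, by rw [x1, u1]; exact hη⟩
  · rw [x1]; exact hx1
  · intro k
    have e : k = k % (n + 1) + (n + 1) * (k / (n + 1)) := (Int.emod_add_mul_ediv k (n + 1)).symm
    rw [e, seqA.qp h1 _ _ (fk x') hfx']
    intro h
    exact fsmall _ (Int.emod_nonneg _ hN.ne') (Int.emod_lt_of_pos _ hN) ((hcz _ _).1 h)
  · rw [u2, u1]; exact hm1
  · rw [x2]; exact hm2

end Pool.Agent.MP62a5ad.RI
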