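import Pool.Agent.Lib.MP_62a5ad_mp.RI.Spec

/-!
# MP_62a5ad: the factor of the inverse half step is irreducible for a diagonal matrix
-/

set_option autoImplicit false

namespace Pool.Agent.MP62a5ad.RI

open Matrix

namespace irr1Aux

theorem fin_one_one {n : ℕ} [NeZero n] (hn : 3 ≤ n) : (1 : Fin n) + 1 ≠ 0 := by
  intro h
  have h1 := congrArg Fin.val h
  rw [Fin.val_add, Fin.val_one', Nat.mod_eq_of_lt (by omega : 1 < n),
    Nat.mod_eq_of_lt (by omega : 1 + 1 < n)] at h1
  have h2 : ((0 : Fin n) : ℕ) = 0 := Fin.val_zero _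
  omega

theorem fin_one {n : ℕ} [NeZero n] (hn : 3 ≤ n) : (1 : Fin n) ≠ 0 := by
  intro h
  exact fin_one_one hn (by rw [h, add_zero])

theorem ne1 {n : ℕ} [NeZero n] (hn : 3 ≤ n) (k : Fin n) : k ≠ k - 1 := by
  intro h
  have h1 : k + 1 = k := (congrArg (· + 1) h).trans (sub_add_cancel k 1)
  exact fin_one hn (add_eq_left.mp h1)

theorem ne2 {n : ℕ} [NeZero n] (hn : 3 ≤ n) (k : Fin n) : k + 1 ≠ k - 1 := by
  intro h
  have h1 : k + (1 + 1) = k := by rw [← add_assoc, h, sub_add_cancel]
  exact fin_one_one hn (add_eq_left.mp h1)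

theorem ne3 {n : ℕ} [NeZero n] (hn : 3 ≤ n) (k : Fin n) : k ≠ k + 1 := by
  intro h
  exact fin_one hn (add_eq_left.mp h.symm)

theorem diag_mulVec {R : Type} [CommRing R] (β v : V5 R) :
    Matrix.diagonal β *ᵥ v = fun i => β i * v i := by
  funext i
  exact Matrix.mulVec_diagonal _ _ _

theorem diag_pow_map {L R : Type} [CommRing L] [CommRing R] (φ : L →+* R) (lam : V5 L) (m : ℕ) :
    (Matrix.diagonal lam ^ m).map φ = Matrix.diagonal fun i => φ (lam i ^ m) := by
  rw [Matrix.diagonal_pow, Matrix.diagonal_map (map_zero φ)]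
  rfl

theorem diag_X5 {R : Type} [CommRing R] (β a b c d : V5 R) :
    (fun i => β i * X5 (fun i => β i * a i) (fun i => β i * b i) (fun i => β i * c i)
      (fun i => β i * d i) i) = (∏ i, β i) • X5 a b c d := by
  have h := X5_mulVec (Matrix.diagonal β) a b c d
  simp only [diag_mulVec] at h
  rw [h, ← diag_mulVec, Matrix.mulVec_mulVec]
  have h1 : Matrix.diagonal β * (Matrix.diagonal β).adjugateᵀ = (∏ i, β i) • 1 := by
    have h2 : ((Matrix.diagonal β).adjugate * Matrix.diagonal β)ᵀ = (∏ i, β i) • 1 := by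
      rw [Matrix.adjugate_mul, Matrix.det_diagonal, Matrix.transpose_smul, Matrix.transpose_one]
    rwa [Matrix.transpose_mul, Matrix.diagonal_transpose] at h2
  rw [h1, Matrix.smul_mulVec, Matrix.one_mulVec]

end irr1Aux

open irr1Aux in
theorem irr1 (h1 : S_Pco) (h2 : S_Pfo) (h3 : S_Hfo) (h4 : S_Tra) : S_Irr1 := by
  intro n _ L _ lam c Λ hn hlam hlam0 hΛ k
  obtain ⟨κ, hκ, hP⟩ := h2 L lam hlam
  set β : V5 L := fun i => lam i ^ c (k - 1) with hβ
  set β' : V5 L := fun i => lam i ^ c k with hβ'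
  have hβ0 : ∀ i, β i ≠ 0 := fun i => pow_ne_zero _ (hlam0 i)
  have hβ'0 : ∀ i, β' i ≠ 0 := fun i => pow_ne_zero _ (hlam0 i)
  set al := algebraMap L (PR n L) with hal
  set d := pw (Matrix.diagonal lam) c with hd
  have hM : (d.up (PR n L)).M = Matrix.diagonal fun i => al (lam i) := by
    have := diag_pow_map al lam 1
    simp only [pow_one] at this
    exact this
  have hB : ∀ j, (d.up (PR n L)).B j = Matrix.diagonal fun i => al (lam i ^ c j) := fun j =>
    diag_pow_map al lam (c j)
  -- the polygon of hyperplanes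
  set P : V5 (PR n L) := Fg d k with hPdef
  have hFg : ∀ j, Fg d j = X5 (gen n L j) (fun i => al (lam i ^ c j) * gen n L (j + 1) i)
      (fun i => al (lam i) * gen n L j i) (fun i => al (lam i ^ 2) * gen n L j i) := by
    intro j
    show X5 _ _ _ _ = _
    rw [hM, hB, diag_mulVec, diag_mulVec, diag_mulVec]
    congr 1
    funext i
    rw [map_pow]
    ring
  let x : Fin 5 → {x : Fin n × Fin 5 // x.1 ≠ k - 1} := fun i => ⟨(k, i), ne1 hn k⟩
  let y : Fin 5 → {x : Fin n × Fin 5 // x.1 ≠ k - 1} := fun i => ⟨(k + 1, i), ne2 hn k⟩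
  have hx : Function.Injective x := fun i j h => (Prod.ext_iff.mp (Subtype.ext_iff.mp h)).2
  have hy : Function.Injective y := fun i j h => (Prod.ext_iff.mp (Subtype.ext_iff.mp h)).2
  have hxy : ∀ i j, x i ≠ y j := fun i j h =>
    ne3 hn k (Prod.ext_iff.mp (Subtype.ext_iff.mp h)).1
  set κ' : Fin 5 → Fin 5 → L := fun a l => κ a l * β' l with hκ'
  obtain ⟨hp0, hpc⟩ := h1 L _ κ' x y hx hy hxy fun a l _ => mul_ne_zero (hκ a l) (hβ'0 l)
  have hPp : ∀ a, P a = MvPolynomial.rename Subtype.val (bil κ' x y a) := by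
    intro a
    rw [hPdef, hFg, hP, bil, map_sum]
    refine Finset.sum_congr rfl fun l _ => ?_
    rw [apply_ite (MvPolynomial.rename Subtype.val), map_zero]
    refine if_congr Iff.rfl rfl ?_
    rw [map_mul, map_mul, MvPolynomial.rename_C, MvPolynomial.rename_X, map_prod, hκ']
    congr 1
    · show al (κ a l) * (al (β' l) * gen n L (k + 1) l) = _
      rw [map_mul, ← mul_assoc]
      rfl
    · refine Finset.prod_congr rfl fun i _ => ?_
      rw [apply_ite (MvPolynomial.rename Subtype.val), map_one, MvPolynomial.rename_X]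
      rfl
  -- the inverse half step
  set u : V5 (PR n L) := fun i => al (β i)⁻¹ * gen n L (k - 1) i with hu
  have hal1 : ∀ i, al (β i) * al (β i)⁻¹ = 1 := fun i => by
    rw [← map_mul, mul_inv_cancel₀ (hβ0 i), map_one]
  have hfwd : Fg d (k - 1) = X5 (fun i => al (β i) * u i) (fun i => al (β i) * gen n L k i)
      (fun i => al (β i) * (al (lam i) * u i)) (fun i => al (β i) * (al (lam i) ^ 2 * u i)) := by
    rw [hFg, sub_add_cancel]
    have e1 : ∀ i, gen n L (k - 1) i = al (β i) * u i := fun i => by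
      show _ = al (β i) * (al (β i)⁻¹ * gen n L (k - 1) i)
      rw [← mul_assoc, hal1, one_mul]
    have e2 : gen n L (k - 1) = fun i => al (β i) * u i := funext e1
    congr 1
    · funext i
      rw [e1 i]
      ring
    · funext i
      rw [e1 i, map_pow]
      ring
  have hbwd : bwd (d.up (PR n L)) (Fg d) k = (∏ i, al (β i)) •
      (-(H3 P (fun i => al (lam i) * P i) (fun i => al (lam i) ^ 2 * P i)
        u (fun i => al (lam i) * u i) (fun i => al (lam i) ^ 2 * u i)) • gen n L k) := by
    have hd1 : P ⬝ᵥ gen n L k = 0 := by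
      rw [hPdef, hFg]
      exact X5_dot1 _ _ _ _
    have hd2 : (fun i => al (lam i) * P i) ⬝ᵥ gen n L k = 0 := by
      have h := X5_dot3 (gen n L k) (fun i => al (lam i ^ c k) * gen n L (k + 1) i)
        (fun i => al (lam i) * gen n L k i) (fun i => al (lam i ^ 2) * gen n L k i)
      rw [← hFg, ← hPdef] at h
      rw [← h]
      simp only [dotProduct]
      exact Finset.sum_congr rfl fun i _ => by ring
    have hd3 : (fun i => al (lam i) ^ 2 * P i) ⬝ᵥ gen n L k = 0 := by
      have h := X5_dot4 (gen n L k) (fun i => al (lam i ^ c k) * gen n L (k + 1) i)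
        (fun i => al (lam i) * gen n L k i) (fun i => al (lam i ^ 2) * gen n L k i)
      rw [← hFg, ← hPdef] at h
      rw [← h]
      simp only [dotProduct, map_pow]
      exact Finset.sum_congr rfl fun i _ => by ring
    rw [← X5_contr P _ _ u (gen n L k) _ _ hd1 hd2 hd3]
    show X5 (Fg d k) _ _ _ = _
    rw [← hPdef, hM, hB, Matrix.diagonal_transpose, Matrix.diagonal_transpose, diag_mulVec,
      diag_mulVec, diag_mulVec, hfwd]
    rw [show (fun i => al (lam i ^ c (k - 1)) * X5 (fun i => al (β i) * u i)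
      (fun i => al (β i) * gen n L k i) (fun i => al (β i) * (al (lam i) * u i))
      (fun i => al (β i) * (al (lam i) ^ 2 * u i)) i) = _ from
        diag_X5 (fun i => al (β i)) u (gen n L k) (fun i => al (lam i) * u i)
          (fun i => al (lam i) ^ 2 * u i)]
    have e := X5_smul 1 (∏ i, al (β i)) 1 1 P (X5 u (gen n L k) (fun i => al (lam i) * u i)
      (fun i => al (lam i) ^ 2 * u i)) (fun i => al (lam i) * P i)
      (fun i => al (lam i) * (al (lam i) * P i))
    rw [one_smul, one_smul, one_smul, one_mul, mul_one, mul_one] at e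
    rw [e]
    congr 2
    funext i
    ring
  have hΛ1 : Λ k = -((∏ i, al (β i)) *
      (H3 P (fun i => al (lam i) * P i) (fun i => al (lam i) ^ 2 * P i)
        u (fun i => al (lam i) * u i) (fun i => al (lam i) ^ 2 * u i))) := by
    have h := hΛ k
    rw [hbwd] at h
    have h' := congrFun h 0
    simp only [Pi.smul_apply, smul_eq_mul] at h'
    have hX : gen n L k 0 ≠ 0 := MvPolynomial.X_ne_zero _
    refine mul_right_cancel₀ hX ?_
    rw [← h']
    ring
  rw [h3 (PR n L) (fun i => al (lam i)) P u] at hΛ1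
  have hfin := h4 n L (k - 1) (bil κ' x y) (fun a b c' => if a < b ∧ b < c' then
    -((∏ i, β i) * ((lam b - lam a) * (lam c' - lam a) * (lam c' - lam b)) ^ 2 *
      ((β a)⁻¹ * (β b)⁻¹ * (β c')⁻¹)) else 1) ?_ hp0 hpc
  · rw [hΛ1]
    have e : -((∏ i, al (β i)) * (∑ a, ∑ b, ∑ c, if a < b ∧ b < c then
        (((al (lam b) - al (lam a)) * (al (lam c) - al (lam a)) * (al (lam c) - al (lam b))) ^ 2 *
          (P a * P b * P c)) * (u a * u b * u c) else 0)) = ∑ a, ∑ b, ∑ c', if a < b ∧ b < c' then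
        (MvPolynomial.C (if a < b ∧ b < c' then
          -((∏ i, β i) * ((lam b - lam a) * (lam c' - lam a) * (lam c' - lam b)) ^ 2 *
          ((β a)⁻¹ * (β b)⁻¹ * (β c')⁻¹)) else 1) * (MvPolynomial.rename Subtype.val (bil κ' x y a) *
          MvPolynomial.rename Subtype.val (bil κ' x y b) *
          MvPolynomial.rename Subtype.val (bil κ' x y c'))) *
          (gen n L (k - 1) a * gen n L (k - 1) b * gen n L (k - 1) c') else 0 := by
      rw [Finset.mul_sum, ← Finset.sum_neg_distrib]
      refine Finset.sum_congr rfl fun a _ => ?_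
      rw [Finset.mul_sum, ← Finset.sum_neg_distrib]
      refine Finset.sum_congr rfl fun b _ => ?_
      rw [Finset.mul_sum, ← Finset.sum_neg_distrib]
      refine Finset.sum_congr rfl fun c' _ => ?_
      by_cases hab : a < b ∧ b < c'
      · rw [if_pos hab, if_pos hab, if_pos hab, ← hPp, ← hPp, ← hPp]
        have hC : ∀ z : L, MvPolynomial.C z = al z := fun z => rfl
        rw [hC]
        simp only [map_neg, map_mul, map_prod, map_pow, map_sub]
        have hua : ∀ i, u i = al (β i)⁻¹ * gen n L (k - 1) i := fun i => rfl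
        rw [hua, hua, hua]
        ring
      · rw [if_neg hab, if_neg hab]
        ring
    rw [e]
    exact hfin
  · intro a b c'
    split_ifs with hab
    · refine neg_ne_zero.mpr (mul_ne_zero (mul_ne_zero (Finset.prod_ne_zero_iff.mpr fun i _ => hβ0 i)
        (pow_ne_zero _ (mul_ne_zero (mul_ne_zero ?_ ?_) ?_))) (mul_ne_zero (mul_ne_zero
          (inv_ne_zero (hβ0 a)) (inv_ne_zero (hβ0 b))) (inv_ne_zero (hβ0 c'))))
      · exact sub_ne_zero.mpr fun h => (ne_of_gt hab.1) (hlam h)
      · exact sub_ne_zero.mpr fun h => (ne_of_gt (hab.1.trans hab.2)) (hlam h)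
      · exact sub_ne_zero.mpr fun h => (ne_of_gt hab.2) (hlam h)
    · exact one_ne_zero

end Pool.Agent.MP62a5ad.RI
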