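import Pool.Agent.Lib.MP_62a5ad_mp.RI.Spec

/-!
# MP_62a5ad: RI/Irr2, `Λ k` is irreducible for a diagonalizable matrix
-/

set_option autoImplicit false

namespace Pool.Agent.MP62a5ad.RI

open Matrix

namespace irr2Aux

/-- an intertwiner of two half steps -/
structure Itw {n : ℕ} {R : Type} [CommRing R] (G : Matrix (Fin 5) (Fin 5) R) (d e : Dat n R) : Prop where
  M : d.M * G = G * e.M
  B : ∀ k, d.B k * G = G * e.B k

theorem adj_swap {R : Type} [CommRing R] {G A D : Matrix (Fin 5) (Fin 5) R} (hG : IsUnit G.det)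
    (h : A * G = G * D) : Aᵀ * G.adjugateᵀ = G.adjugateᵀ * Dᵀ := by
  rw [← Matrix.transpose_mul, ← Matrix.transpose_mul]
  congr 1
  obtain ⟨u, hu⟩ := hG
  have h1 : G.adjugate * (A * G) * G.adjugate = G.adjugate * (G * D) * G.adjugate := by rw [h]
  have h2 : G.adjugate * (A * G) * G.adjugate = G.det • (G.adjugate * A) := by
    rw [Matrix.mul_assoc, Matrix.mul_assoc, Matrix.mul_adjugate, Matrix.mul_smul, Matrix.mul_one,
      Matrix.mul_smul]
  have h3 : G.adjugate * (G * D) * G.adjugate = G.det • (D * G.adjugate) := by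
    rw [← Matrix.mul_assoc, Matrix.adjugate_mul, Matrix.smul_mul, Matrix.one_mul, Matrix.smul_mul]
  rw [h2, h3, ← hu] at h1
  have h4 := congrArg (fun X => (↑u⁻¹ : R) • X) h1
  simpa [smul_smul] using h4

variable {n : ℕ} [NeZero n] {R : Type} [CommRing R]

theorem fwd_itw {G : Matrix (Fin 5) (Fin 5) R} {d e : Dat n R} (h : Itw G d e) (x : Pg n R) :
    fwd d (fun k => G *ᵥ x k) = fun k => G.adjugateᵀ *ᵥ fwd e x k := by
  funext k
  unfold fwd
  rw [← X5_mulVec]
  simp only [Matrix.mulVec_mulVec, h.M, h.B k]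
  rw [← Matrix.mul_assoc d.M, h.M, Matrix.mul_assoc]

theorem bwd_itw {G : Matrix (Fin 5) (Fin 5) R} {d e : Dat n R} (h : Itw G d e) (hG : IsUnit G.det)
    (y : Pg n R) :
    bwd d (fun k => G.adjugateᵀ *ᵥ y k) = fun k => (G.det ^ 3 • G) *ᵥ bwd e y k := by
  have h0 : (G.adjugateᵀ).adjugateᵀ = G.det ^ 3 • G := by
    rw [← Matrix.adjugate_transpose, Matrix.transpose_transpose,
      Matrix.adjugate_adjugate _ (by decide)]
    rfl
  funext k
  unfold bwd
  rw [← h0, ← X5_mulVec]
  have hM := adj_swap hG h.M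
  have hB := adj_swap hG (h.B (k - 1))
  simp only [Matrix.mulVec_mulVec, hM, hB]
  rw [← Matrix.mul_assoc d.Mᵀ, hM, Matrix.mul_assoc]

theorem bf_itw {G : Matrix (Fin 5) (Fin 5) R} {d e : Dat n R} (h : Itw G d e) (hG : IsUnit G.det)
    (x : Pg n R) (k : Fin n) :
    bwd d (fwd d (fun k => G *ᵥ x k)) k = G.det ^ 3 • (G *ᵥ bwd e (fwd e x) k) := by
  rw [fwd_itw h, bwd_itw h hG]
  exact Matrix.smul_mulVec _ _ _

theorem pow_itw {G A D : Matrix (Fin 5) (Fin 5) R} (h : A * G = G * D) (m : ℕ) :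
    A ^ m * G = G * D ^ m := by
  induction m with
  | zero => rw [pow_zero, pow_zero, Matrix.one_mul, Matrix.mul_one]
  | succ m ih =>
    rw [pow_succ, pow_succ, Matrix.mul_assoc, h, ← Matrix.mul_assoc, ih, Matrix.mul_assoc]

omit [NeZero n] in
theorem itw_pw {G A D : Matrix (Fin 5) (Fin 5) R} (h : A * G = G * D) (c : Fin n → ℕ) :
    Itw G (pw A c) (pw D c) := ⟨h, fun k => pow_itw h (c k)⟩

omit [NeZero n] in
theorem pw_map {S : Type} [CommRing S] (φ : R →+* S) (A : Matrix (Fin 5) (Fin 5) R)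
    (c : Fin n → ℕ) : (pw A c).map φ = pw (A.map φ) c := by
  unfold pw Dat.map
  congr 1
  funext k
  exact map_pow (RingHom.mapMatrix φ) A (c k)

section field

variable {F : Type} [Field F]

/-- the linear change of the coordinates -/
noncomputable def lin (n : ℕ) (g : Matrix (Fin 5) (Fin 5) F) : Pg n (PR n F) := fun k =>
  g.map (algebraMap F (PR n F)) *ᵥ gen n F k

/-- the endomorphism -/
noncomputable def endo (n : ℕ) (g : Matrix (Fin 5) (Fin 5) F) : PR n F →ₐ[F] PR n F :=
  MvPolynomial.aeval (fun x : Fin n × Fin 5 => lin n g x.1 x.2)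

omit [NeZero n] in
theorem endo_comp (g h : Matrix (Fin 5) (Fin 5) F) (hgh : g * h = 1) :
    (endo n h).comp (endo n g) = AlgHom.id F (PR n F) := by
  refine MvPolynomial.algHom_ext fun x => ?_
  obtain ⟨k, i⟩ := x
  rw [AlgHom.comp_apply]
  have h1 : endo n g (MvPolynomial.X (k, i)) = lin n g k i := by
    unfold endo
    rw [MvPolynomial.aeval_X]
  rw [h1]
  have h2 : (fun i => (endo n h : PR n F →+* PR n F) ((g.map (algebraMap F (PR n F)) *ᵥ gen n F k) i)) =
      ((g.map (algebraMap F (PR n F))).map (endo n h : PR n F →+* PR n F)) *ᵥ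
        (fun i => (endo n h : PR n F →+* PR n F) (gen n F k i)) := map_mulVec' _ _ _
  have h3 : ((g.map (algebraMap F (PR n F))).map (endo n h : PR n F →+* PR n F)) =
      g.map (algebraMap F (PR n F)) := by
    rw [Matrix.map_map]
    congr 1
    funext a
    exact AlgHom.commutes (endo n h) a
  have h4 : (fun i => (endo n h : PR n F →+* PR n F) (gen n F k i)) = lin n h k := by
    funext i
    change endo n h (MvPolynomial.X (k, i)) = _
    unfold endo
    rw [MvPolynomial.aeval_X]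
  rw [h3, h4] at h2
  have h5 := congrFun h2 i
  change endo n h (lin n g k i) = _
  rw [AlgHom.id_apply]
  refine h5.trans ?_
  unfold lin
  rw [Matrix.mulVec_mulVec, ← Matrix.map_mul, hgh,
    Matrix.map_one _ (map_zero _) (map_one _), Matrix.one_mulVec]
  rfl

omit [NeZero n] in
theorem endo_irr (g : Matrix (Fin 5) (Fin 5) F) (hg : IsUnit g.det) (f : PR n F) :
    Irreducible (ev f (lin n g)) ↔ Irreducible f := by
  have h1 : g * g⁻¹ = 1 := Matrix.mul_nonsing_inv g hg
  have h2 : g⁻¹ * g = 1 := Matrix.nonsing_inv_mul g hg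
  let Φ : PR n F ≃ₐ[F] PR n F :=
    AlgEquiv.ofAlgHom (endo n g) (endo n g⁻¹) (endo_comp _ _ h2) (endo_comp _ _ h1)
  exact MulEquiv.irreducible_iff (Φ : PR n F ≃ₐ[F] PR n F)

end field

section descend

variable {K F : Type} [Field K] [Field F]

theorem unit_desc {σ : Type} (φ : K →+* F) (f : MvPolynomial σ K)
    (h : IsUnit (MvPolynomial.map φ f)) : IsUnit f := by
  rw [MvPolynomial.isUnit_iff] at h ⊢
  obtain ⟨h1, h2⟩ := h
  rw [MvPolynomial.coeff_map] at h1
  refine ⟨?_, fun i hi => ?_⟩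
  · refine isUnit_iff_ne_zero.2 fun h3 => ?_
    rw [h3, map_zero] at h1
    exact not_isUnit_zero h1
  · have h3 := (h2 i hi).eq_zero
    rw [MvPolynomial.coeff_map] at h3
    rw [(map_eq_zero φ).1 h3]
    exact IsNilpotent.zero

theorem irr_desc {σ : Type} (φ : K →+* F) (f : MvPolynomial σ K)
    (h : Irreducible (MvPolynomial.map φ f)) : Irreducible f := by
  refine ⟨fun hu => h.1 (hu.map (MvPolynomial.map φ)), fun a b hab => ?_⟩
  have h1 := h.2 (show MvPolynomial.map φ f = MvPolynomial.map φ a * MvPolynomial.map φ b by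
    rw [hab, map_mul])
  exact h1.imp (unit_desc φ a) (unit_desc φ b)

end descend

/-- base change of `Λ` -/
theorem lam_base {K F : Type} [Field K] [Field F] (φ : K →+* F) (M : Matrix (Fin 5) (Fin 5) K)
    (c : Fin n → ℕ) (Λ : Fin n → PR n K) (h : IsLam (pw M c) Λ) :
    IsLam (pw (M.map φ) c) fun k => MvPolynomial.map φ (Λ k) := by
  intro k
  have hgen : (fun k i => MvPolynomial.map φ (gen n K k i)) = gen n F := by
    funext k i
    exact MvPolynomial.map_X φ (k, i)
  have hd : ((pw M c).up (PR n K)).map (MvPolynomial.map φ) = (pw (M.map φ) c).up (PR n F) := by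
    unfold Dat.up
    rw [pw_map, pw_map, pw_map, Matrix.map_map, Matrix.map_map]
    congr 2
    funext a
    exact MvPolynomial.map_C φ a
  have h1 := bwd_map (MvPolynomial.map φ) ((pw M c).up (PR n K)) (Fg (pw M c))
  have h2 := fwd_map (MvPolynomial.map φ) ((pw M c).up (PR n K)) (gen n K)
  rw [hgen, hd] at h2
  rw [hd] at h1
  have h3 : (fun k i => MvPolynomial.map φ (Fg (pw M c) k i)) = Fg (pw (M.map φ) c) := h2
  rw [h3] at h1
  rw [← h1]
  funext i
  change MvPolynomial.map φ (bwd ((pw M c).up (PR n K)) (Fg (pw M c)) k i) = _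
  rw [h k]
  change MvPolynomial.map φ (Λ k * gen n K k i) = MvPolynomial.map φ (Λ k) * gen n F k i
  rw [map_mul]
  congr 1
  exact congrFun (congrFun hgen k) i

/-- the identity between the polynomials of the two data -/
theorem key {F : Type} [Field F] (A D g : Matrix (Fin 5) (Fin 5) F) (hg : IsUnit g.det)
    (h : A * g = g * D) (c : Fin n → ℕ) (Λ' ΛD : Fin n → PR n F) (h' : IsLam (pw A c) Λ')
    (hD : IsLam (pw D c) ΛD) (k : Fin n) :
    ev (Λ' k) (lin n g) = MvPolynomial.C (g.det ^ 3) * ΛD k := by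
  set G : Matrix (Fin 5) (Fin 5) (PR n F) := g.map (algebraMap F (PR n F)) with hGdef
  have hGdet : G.det = algebraMap F (PR n F) g.det := by
    rw [hGdef]
    exact (RingHom.map_det (algebraMap F (PR n F)) g).symm
  have hG : IsUnit G.det := by
    rw [hGdet]
    exact hg.map _
  have hAG : A.map (algebraMap F (PR n F)) * G = G * D.map (algebraMap F (PR n F)) := by
    rw [hGdef, ← Matrix.map_mul, h, Matrix.map_mul]
  have hitw : Itw G ((pw A c).up (PR n F)) ((pw D c).up (PR n F)) := by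
    unfold Dat.up
    rw [pw_map, pw_map]
    exact itw_pw hAG c
  have h1 := bf_itw hitw hG (gen n F) k
  have h2 := lam_pt (pw A c) Λ' h' (lin n g) k
  have h3 := lam_pt (pw D c) ΛD hD (gen n F) k
  rw [ev_gen] at h3
  rw [h3] at h1
  have h4 : ev (Λ' k) (lin n g) • lin n g k = (G.det ^ 3 * ΛD k) • lin n g k := by
    rw [← h2]
    refine h1.trans ?_
    rw [Matrix.mulVec_smul, smul_smul]
    rfl
  have hne : lin n g k ≠ 0 := by
    intro h5
    have h6 : G⁻¹ *ᵥ (G *ᵥ gen n F k) = 0 := by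
      have : G *ᵥ gen n F k = 0 := h5
      rw [this, Matrix.mulVec_zero]
    rw [Matrix.mulVec_mulVec, Matrix.nonsing_inv_mul G hG, Matrix.one_mulVec] at h6
    have h7 := congrFun h6 0
    exact MvPolynomial.X_ne_zero _ h7
  obtain ⟨i, hi⟩ := Function.ne_iff.1 hne
  have h5 := congrFun h4 i
  change ev (Λ' k) (lin n g) * lin n g k i = (G.det ^ 3 * ΛD k) * lin n g k i at h5
  have h6 := mul_right_cancel₀ hi h5
  rw [h6, hGdet, ← map_pow]
  rfl

end irr2Aux

open irr2Aux in
theorem irr2 (h1 : S_Lam) (h2 : S_Irr1) : S_Irr2 := by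
  intro n _ K _ M c Λ hn hM hΛ k
  obtain ⟨g, lam, hg, hinj, hne, hMg⟩ := hM
  obtain ⟨ΛD, -, hD, -⟩ := h1 n (AlgebraicClosure K) (pw (Matrix.diagonal lam) c)
  have h3 := h2 n (AlgebraicClosure K) lam c ΛD hn hinj hne hD k
  have h4 := lam_base (algebraMap K (AlgebraicClosure K)) M c Λ hΛ
  have h5 := key _ _ g hg hMg c _ ΛD h4 hD k
  refine irr_desc (algebraMap K (AlgebraicClosure K)) (Λ k) ?_
  rw [← endo_irr g hg, h5]
  have h6 : IsUnit (MvPolynomial.C (g.det ^ 3) : PR n (AlgebraicClosure K)) := (hg.pow 3).map _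
  exact (irreducible_isUnit_mul h6).2 h3

end Pool.Agent.MP62a5ad.RI
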