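import Pool.Agent.Lib.MP_62a5ad_mp.RI.Spec3

/-!
# MP_62a5ad: the inserted sequence (module JQ)
-/

set_option autoImplicit false

namespace Pool.Agent.MP62a5ad.RI

open Matrix

namespace jQAux

theorem small (n : ℕ) (s : ZMod 5) (Y : V5 (ZMod 9)) (w : ℤ → V5 (ZMod 9)) (k : ℤ)
    (hc0 : ∀ x : V5 (ZMod 9), cyc 0 x = x) (h0 : 0 ≤ k) (h1 : k < n + 2) :
    Jn n s Y w k = if k ≤ 2 then w k else if k = 3 then cv Y (w 2) else cyc 2 (w (k - 2)) := by
  unfold Jn
  rw [Int.emod_eq_of_lt h0 h1, Int.ediv_eq_zero_of_lt h0 h1]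
  simp [hc0]

end jQAux

theorem jQ (h1 : S_Cyc) : S_JQ := by
  intro n s Y w hn hw
  obtain ⟨hcc, hc0, -⟩ := h1 (ZMod 9)
  have hN : (n : ℤ) + 2 ≠ 0 := by omega
  have per : ∀ k, Jn n s Y w (k + (n + 2)) = cyc (s + 2) (Jn n s Y w k) := by
    intro k
    unfold Jn
    have e1 : (k + ((n : ℤ) + 2)) / ((n : ℤ) + 2) = k / ((n : ℤ) + 2) + 1 := by
      have := Int.add_mul_ediv_right k 1 hN
      rwa [one_mul] at this
    have e2 : (k + ((n : ℤ) + 2)) % ((n : ℤ) + 2) = k % ((n : ℤ) + 2) := Int.add_emod_right ..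
    rw [e1, e2, hcc]
    congr 1
    push_cast
    ring
  have s0 : ∀ k : ℤ, 0 ≤ k → k < n + 2 → Jn n s Y w k =
      if k ≤ 2 then w k else if k = 3 then cv Y (w 2) else cyc 2 (w (k - 2)) :=
    fun k h0 h1 => jQAux.small n s Y w k hc0 h0 h1
  have J0 : Jn n s Y w 0 = w 0 := by rw [s0 0 (by omega) (by omega), if_pos (by omega)]
  refine ⟨per, ?_, J0, ?_, ?_, ?_, ?_⟩
  · have h := per (-1)
    have e : (-1 : ℤ) + ((n : ℤ) + 2) = (n : ℤ) + 1 := by ring
    rw [e, s0 (n + 1) (by omega) (by omega), if_neg (by omega), if_neg (by omega)] at h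
    have e2 : (n : ℤ) + 1 - 2 = -1 + n := by ring
    rw [e2, hw (-1), hcc] at h
    have h2 := congrArg (cyc (-(s + 2))) h
    rw [hcc, hcc] at h2
    have e3 : -(s + 2) + (2 + s) = (0 : ZMod 5) := by ring
    have e4 : -(s + 2) + (s + 2) = (0 : ZMod 5) := by ring
    rw [e3, e4, hc0, hc0] at h2
    exact h2.symm
  · rw [s0 1 (by omega) (by omega), if_pos (by omega)]
  · rw [s0 2 (by omega) (by omega), if_pos (by omega)]
  · rw [s0 3 (by omega) (by omega), if_neg (by omega), if_pos rfl]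
  · intro k hk1 hk2
    rcases lt_or_eq_of_le hk2 with h | h
    · rw [s0 (k + 2) (by omega) (by omega), if_neg (by omega)]
      by_cases h3 : k + 2 = 3
      · omega
      · rw [if_neg h3]
        congr 2
        ring
    · subst h
      have h := per 0
      rw [zero_add] at h
      rw [h, J0]
      have h2 := hw 0
      rw [zero_add] at h2
      rw [h2, hcc]
      congr 1
      ring

end Pool.Agent.MP62a5ad.RI
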