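import Pool.Agent.Lib.MP_62a5ad_mp.RI.Spec2

/-!
# MP_62a5ad: Krylov matrices (module Kry)
-/

set_option autoImplicit false

namespace Pool.Agent.MP62a5ad.RI

open Matrix

theorem kry_thm : S_Kry := by
  constructor
  · intro R _ _ M
    have hL : ∀ i j : Fin 5, (M * kry M) i j = (M ^ ((j : ℕ) + 1)) i 0 := by
      intro i j
      rw [Matrix.mul_apply, pow_succ', Matrix.mul_apply]
      rfl
    have hCH : (M ^ 5) = -∑ l ∈ Finset.range 5, M.charpoly.coeff l • M ^ l := by
      have h := Matrix.aeval_self_charpoly M
      have hd : M.charpoly.natDegree = 5 := by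
        rw [Matrix.charpoly_natDegree_eq_dim]; simp
      rw [Polynomial.aeval_eq_sum_range' (n := 6) (by omega), Finset.sum_range_succ] at h
      have h5 : M.charpoly.coeff 5 = 1 := by
        have := (Matrix.charpoly_monic M).leadingCoeff
        unfold Polynomial.leadingCoeff at this
        rwa [hd] at this
      rw [h5, one_smul] at h
      rw [← sub_eq_zero, sub_neg_eq_add, add_comm]
      exact h
    ext i j
    rw [hL, Matrix.mul_apply]
    by_cases hj : j = 4
    · subst hj
      show (M ^ 5) i 0 = _
      rw [hCH, Matrix.neg_apply, Matrix.sum_apply, Finset.sum_range, ← Finset.sum_neg_distrib]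
      refine Finset.sum_congr rfl fun l _ => ?_
      show -(M.charpoly.coeff (l : ℕ) • M ^ (l : ℕ)) i 0
        = (M ^ (l : ℕ)) i 0 * (if (4 : Fin 5) = 4 then -M.charpoly.coeff (l : ℕ) else _)
      rw [if_pos rfl, Matrix.smul_apply, smul_eq_mul]
      ring
    · have hj4 : (j : ℕ) < 4 := by
        have := j.2
        have h2 : (j : ℕ) ≠ 4 := fun h => hj (Fin.ext h)
        omega
      rw [Finset.sum_eq_single (⟨(j : ℕ) + 1, by omega⟩ : Fin 5)]
      · show _ = (M ^ ((j : ℕ) + 1)) i 0 * (if j = 4 then _ else if (j : ℕ) + 1 = (j : ℕ) + 1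
          then (1 : R) else 0)
        rw [if_neg hj, if_pos rfl, mul_one]
      · intro l _ hl
        show (M ^ (l : ℕ)) i 0 * (if j = 4 then _ else if (l : ℕ) = (j : ℕ) + 1
          then (1 : R) else 0) = 0
        rw [if_neg hj, if_neg, mul_zero]
        intro h
        exact hl (Fin.ext h)
      · intro h; exact absurd (Finset.mem_univ _) h
  · intro R _
    have h : ∀ (m : ℕ) (i : Fin 5), (Cm R ^ m) i 0 = if (i : ℕ) = m % 5 then 1 else 0 := by
      intro m
      induction m with
      | zero =>
        intro i
        rw [pow_zero, Matrix.one_apply]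
        by_cases hi : i = 0
        · subst hi; simp
        · rw [if_neg hi, if_neg]
          intro h
          exact hi (Fin.ext (by simpa using h))
      | succ m ih =>
        intro i
        rw [pow_succ', Matrix.mul_apply]
        have e : ∀ l : Fin 5, Cm R i l * (Cm R ^ m) l 0
            = if l = i - 1 then (Cm R ^ m) (i - 1) 0 else 0 := by
          intro l
          have hl : (i = l + 1) ↔ l = i - 1 := by
            revert i l; decide
          unfold Cm
          by_cases hl2 : l = i - 1
          · rw [if_pos (hl.2 hl2), if_pos hl2, one_mul, hl2]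
          · rw [if_neg (fun h => hl2 (hl.1 h)), if_neg hl2, zero_mul]
        rw [Finset.sum_congr rfl fun l _ => e l, Finset.sum_ite_eq' Finset.univ (i - 1)]
        rw [if_pos (Finset.mem_univ _), ih]
        have hm : m % 5 < 5 := Nat.mod_lt _ (by norm_num)
        have h3 : (m + 1) % 5 = (m % 5 + 1) % 5 := by omega
        rw [h3]
        generalize m % 5 = r at hm
        have h4 : (((i - 1 : Fin 5) : ℕ) = r) ↔ ((i : ℕ) = (r + 1) % 5) := by
          clear e
          interval_cases r <;> revert i <;> decide
        by_cases h5 : ((i - 1 : Fin 5) : ℕ) = r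
        · rw [if_pos h5, if_pos (h4.1 h5)]
        · rw [if_neg h5, if_neg (fun h => h5 (h4.2 h))]
    ext i j
    show (Cm R ^ (j : ℕ)) i 0 = _
    rw [h, Matrix.one_apply, Nat.mod_eq_of_lt j.2]
    by_cases hij : i = j
    · rw [if_pos (by rw [hij]), if_pos hij]
    · rw [if_neg (fun h => hij (Fin.ext h)), if_neg hij]

end Pool.Agent.MP62a5ad.RI
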