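import Pool.Agent.Lib.MP_62a5ad_mp.RI.Spec

set_option autoImplicit false

namespace Pool.Agent.MP62a5ad.RI

open Matrix

namespace lMHAux

variable {n : ℕ} [NeZero n] {L : Type} [Field L]

/-- The generic polygon over the ring with the scaling variables. -/
noncomputable def vg (n : ℕ) (L : Type) [CommRing L] : Pg n (MvPolynomial (Fin n) (PR n L)) :=
  fun k i => MvPolynomial.C (gen n L k i)

omit [NeZero n] in
lemma ev_vg (f : PR n L) : ev f (vg n L) = MvPolynomial.C f := by
  have h := ev_map (IsScalarTower.toAlgHom L (PR n L) (MvPolynomial (Fin n) (PR n L))) f (gen n L)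
  rw [ev_gen] at h
  exact h.symm

omit [NeZero n] in
lemma vg_ne (k : Fin n) : vg n L k 0 ≠ 0 := by
  unfold vg gen
  rw [Ne, MvPolynomial.C_eq_zero]
  exact MvPolynomial.X_ne_zero _

lemma prod_ex (k : Fin n) :
    (∏ j, (MvPolynomial.X j : MvPolynomial (Fin n) (PR n L)) ^ ex3 k j) =
      MvPolynomial.X k ^ 9 * MvPolynomial.X (k + 1) ^ 3 * MvPolynomial.X (k - 1) ^ 3 := by
  unfold ex3
  simp only [pow_add, Finset.prod_mul_distrib, pow_ite, pow_zero, Finset.prod_ite_eq',
    Finset.mem_univ, if_true]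

end lMHAux

open lMHAux in
theorem lMH (h1 : S_MHg) : S_LMH := by
  intro n _ L _ d Λ Λ' hL hL' k
  have hc : (MvPolynomial.X k : MvPolynomial (Fin n) (PR n L)) ≠ 0 := MvPolynomial.X_ne_zero _
  have hv := vg_ne (n := n) (L := L) k
  have ek : k - 1 + 1 = k := sub_add_cancel k 1
  have ek2 : k + 1 - 1 = k := add_sub_cancel_right k 1
  constructor
  · apply h1
    rw [prod_ex]
    show ev (Λ k) (sc (fun k => MvPolynomial.X k) (vg n L)) = _
    have h2 := lam_pt d Λ hL (sc (fun k => MvPolynomial.X k) (vg n L)) k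
    rw [fwd_sc, bwd_sc] at h2
    have h3 := congrFun h2 0
    have h4 := congrFun (lam_pt d Λ hL (vg n L) k) 0
    change _ * bwd _ _ k 0 = _ * (_ * vg n L k 0) at h3
    change bwd _ _ k 0 = _ * vg n L k 0 at h4
    beta_reduce at h3
    rw [h4, ev_vg, ek] at h3
    have h5 : (MvPolynomial.X k : MvPolynomial (Fin n) (PR n L)) * vg n L k 0 ≠ 0 :=
      mul_ne_zero hc hv
    apply mul_right_cancel₀ h5
    linear_combination -h3
  · apply h1
    rw [prod_ex]
    show ev (Λ' k) (sc (fun k => MvPolynomial.X k) (vg n L)) = _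
    have h2 := lam_pt' d Λ' hL' (sc (fun k => MvPolynomial.X k) (vg n L)) k
    rw [bwd_sc, fwd_sc] at h2
    have h3 := congrFun h2 0
    have h4 := congrFun (lam_pt' d Λ' hL' (vg n L) k) 0
    change _ * fwd _ _ k 0 = _ * (_ * vg n L k 0) at h3
    change fwd _ _ k 0 = _ * vg n L k 0 at h4
    beta_reduce at h3
    rw [h4, ev_vg, ek2] at h3
    have h5 : (MvPolynomial.X k : MvPolynomial (Fin n) (PR n L)) * vg n L k 0 ≠ 0 :=
      mul_ne_zero hc hv
    apply mul_right_cancel₀ h5
    linear_combination -h3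

end Pool.Agent.MP62a5ad.RI
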