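import Pool.Agent.Lib.MP_62a5ad_mp.RI.Spec

/-!
# MP_62a5ad: existence of the polynomials `Λ` and `Λ'`
-/

set_option autoImplicit false

namespace Pool.Agent.MP62a5ad.RI

open Matrix

namespace lamAux

/-- A vector of polynomials which is parallel to a generic vector is a multiple of it. -/
theorem core {n : ℕ} {L : Type} [Field L] (k : Fin n) (s : V5 (PR n L))
    (h : ∀ i j, s i * gen n L k j = s j * gen n L k i) : ∃ l : PR n L, s = l • gen n L k := by
  have h0 : (MvPolynomial.X (k, 0) : PR n L) ∣ s 0 * MvPolynomial.X (k, 1) := by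
    refine ⟨s 1, ?_⟩
    have h1 := h 0 1
    unfold gen at h1
    rw [h1, mul_comm]
  rw [MvPolynomial.X_dvd_mul_iff] at h0
  have h2 : (MvPolynomial.X (k, 0) : PR n L) ∣ s 0 := by
    rcases h0 with h0 | h0
    · exact h0
    · rw [MvPolynomial.X_dvd_X] at h0
      have h3 := (Prod.mk.inj h0).2
      exact absurd h3 (by decide)
  obtain ⟨l, hl⟩ := h2
  refine ⟨l, ?_⟩
  funext j
  have h3 := h 0 j
  unfold gen at h3
  rw [hl] at h3
  have h4 : (MvPolynomial.X (k, 0) : PR n L) ≠ 0 := MvPolynomial.X_ne_zero _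
  refine mul_right_cancel₀ h4 ?_
  rw [← h3]
  change _ = (l * MvPolynomial.X (k, j)) * MvPolynomial.X (k, 0)
  ring

end lamAux

/-- **Lam.**  Existence of `Λ` and `Λ'`. -/
theorem lam : S_Lam := by
  intro n _ L _ d
  have h1 : ∀ k, ∃ l : PR n L, bwd (d.up (PR n L)) (Fg d) k = l • gen n L k := fun k =>
    lamAux.core k _ fun i j => bwd_fwd_par (d.up (PR n L)) (gen n L) k i j
  have h2 : ∀ k, ∃ l : PR n L, fwd (d.up (PR n L)) (Gg d) k = l • gen n L k := fun k =>
    lamAux.core k _ fun i j => fwd_bwd_par (d.up (PR n L)) (gen n L) k i j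
  choose l hl using h1
  choose l' hl' using h2
  exact ⟨l, l', hl, hl'⟩

end Pool.Agent.MP62a5ad.RI
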