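import Pool.Agent.Lib.MP_62a5ad_mp.RI.Spec

set_option autoImplicit false

namespace Pool.Agent.MP62a5ad.RI

namespace mHfAux

open Polynomial

variable {n : ℕ} {L : Type} [Field L]

/-- A factor of a monomial is a monomial. -/
lemma mono_factor {A : Type} [CommRing A] [IsDomain A] (F G : A[X]) (u : A) (m : ℕ) (hu : u ≠ 0)
    (h : F * G = C u * X ^ m) : ∃ r b, F = C r * X ^ b := by
  have hne : F * G ≠ 0 := by
    rw [h]
    exact mul_ne_zero (by rwa [Ne, C_eq_zero]) (pow_ne_zero _ X_ne_zero)
  have hF : F ≠ 0 := left_ne_zero_of_mul hne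
  have hG : G ≠ 0 := right_ne_zero_of_mul hne
  have h1 : F.natDegree + G.natDegree = m := by
    rw [← natDegree_mul hF hG, h, natDegree_C_mul_X_pow _ _ hu]
  have h2 : F.natTrailingDegree + G.natTrailingDegree = m := by
    rw [← natTrailingDegree_mul hF hG, h, C_mul_X_pow_eq_monomial, natTrailingDegree_monomial hu]
  have h3 := natTrailingDegree_le_natDegree F
  have h4 := natTrailingDegree_le_natDegree G
  have h5 : F.natTrailingDegree = F.natDegree := by omega
  refine ⟨F.coeff F.natDegree, F.natDegree, ?_⟩
  ext i
  rw [coeff_C_mul_X_pow]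
  split_ifs with hi
  · rw [hi]
  · rcases Nat.lt_or_gt_of_ne hi with h6 | h6
    · exact coeff_eq_zero_of_lt_natTrailingDegree (by omega)
    · exact coeff_eq_zero_of_natDegree_lt h6

/-- The scaling of one vertex by the variable. -/
noncomputable def w1 (n : ℕ) (L : Type) [Field L] (k : Fin n) : Pg n (Polynomial (PR n L)) :=
  sc (fun j => if j = k then X else 1) (fun j i => C (gen n L j i))

/-- Specialisation. -/
noncomputable def spe {R : Type} [CommRing R] [Algebra L R] (v : Pg n R) (t : R) :
    Polynomial (PR n L) →ₐ[L] R :=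
  { Polynomial.eval₂RingHom
      ((MvPolynomial.aeval (R := L) (fun x : Fin n × Fin 5 => v x.1 x.2) : PR n L →ₐ[L] R) :
        PR n L →+* R) t with
    commutes' := by
      intro r
      show Polynomial.eval₂ _ t (algebraMap L (Polynomial (PR n L)) r) = _
      rw [Polynomial.algebraMap_apply, Polynomial.eval₂_C]
      show (MvPolynomial.aeval (R := L) (fun x : Fin n × Fin 5 => v x.1 x.2))
        (algebraMap L (PR n L) r) = _
      rw [AlgHom.commutes] }

lemma spe_C {R : Type} [CommRing R] [Algebra L R] (v : Pg n R) (t : R) (f : PR n L) :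
    spe v t (C f) = ev f v := by
  show Polynomial.eval₂ _ t (C f) = _
  rw [Polynomial.eval₂_C]
  rfl

lemma spe_X {R : Type} [CommRing R] [Algebra L R] (v : Pg n R) (t : R) :
    spe (L := L) v t X = t := by
  show Polynomial.eval₂ _ t X = _
  rw [Polynomial.eval₂_X]

lemma spe_w1 {R : Type} [CommRing R] [Algebra L R] (v : Pg n R) (t : R) (k : Fin n) :
    (fun j i => spe v t (w1 n L k j i)) = sc (fun j => if j = k then t else 1) v := by
  funext j i
  show spe v t ((if j = k then X else 1) * C (gen n L j i)) = (if j = k then t else 1) * v j i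
  rw [map_mul, spe_C, ev_X]
  congr 1
  split_ifs
  · exact spe_X v t
  · exact map_one _

lemma step (a : Fin n → ℕ) (f g : PR n L) (h : MH a (f * g)) (hne : f * g ≠ 0) (k : Fin n) :
    ∃ b : ℕ, ∀ (R : Type) [CommRing R] [Algebra L R] (t : R) (v : Pg n R),
      ev f (sc (fun j => if j = k then t else 1) v) = t ^ b * ev f v := by
  have h1 := h (Polynomial (PR n L)) (fun j => if j = k then X else 1)
    (fun j i => C (gen n L j i))
  change ev (f * g) (w1 n L k) = _ at h1
  have h2 : (∏ j, (if j = k then (X : Polynomial (PR n L)) else 1) ^ a j) = X ^ a k := by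
    rw [Finset.prod_eq_single k]
    · rw [if_pos rfl]
    · intro j _ hj
      rw [if_neg hj, one_pow]
    · intro hk
      exact absurd (Finset.mem_univ k) hk
  have h3 : ev (f * g) (fun j i => (C (gen n L j i) : Polynomial (PR n L))) = C (f * g) := by
    have h4 := ev_map (IsScalarTower.toAlgHom L (PR n L) (Polynomial (PR n L))) (f * g) (gen n L)
    rw [ev_gen] at h4
    exact h4.symm
  rw [h2, h3, ev_mul, mul_comm (X ^ a k)] at h1
  obtain ⟨r, b, h5⟩ := mono_factor (ev f (w1 n L k)) (ev g (w1 n L k)) (f * g) (a k) hne h1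
  have key : ∀ (R : Type) [CommRing R] [Algebra L R] (t : R) (v : Pg n R),
      ev f (sc (fun j => if j = k then t else 1) v) = t ^ b * ev r v := by
    intro R _ _ t v
    have h6 := ev_map (spe v t) f (w1 n L k)
    rw [spe_w1] at h6
    rw [← h6, h5, map_mul, map_pow, spe_C, spe_X, mul_comm]
  refine ⟨b, fun R _ _ t v => ?_⟩
  rw [key]
  congr 1
  have h7 := key (PR n L) 1 (gen n L)
  have h8 : sc (fun j => if j = k then (1 : PR n L) else 1) (gen n L) = gen n L := by
    funext j i
    show (if j = k then (1 : PR n L) else 1) * _ = _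
    rw [ite_self, one_mul]
  rw [h8, ev_gen, ev_gen, one_pow, one_mul] at h7
  rw [h7]

end mHfAux

open mHfAux in
theorem mHf : S_MHf := by
  intro n L _ a f g h hne
  choose b hb using step a f g h hne
  refine ⟨b, ?_⟩
  intro R _ _ c v
  have key : ∀ S : Finset (Fin n), ev f (sc (fun j => if j ∈ S then c j else 1) v) =
      (∏ j ∈ S, c j ^ b j) * ev f v := by
    intro S
    induction S using Finset.induction_on with
    | empty =>
      have h1 : sc (fun j => if j ∈ (∅ : Finset (Fin n)) then c j else 1) v = v := by
        funext j i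
        show (if j ∈ (∅ : Finset (Fin n)) then c j else 1) * _ = _
        rw [if_neg (Finset.notMem_empty j), one_mul]
      rw [h1, Finset.prod_empty, one_mul]
    | insert k S hk ih =>
      have h1 : sc (fun j => if j ∈ insert k S then c j else 1) v =
          sc (fun j => if j = k then c k else 1) (sc (fun j => if j ∈ S then c j else 1) v) := by
        funext j i
        show (if j ∈ insert k S then c j else 1) * _ =
          (if j = k then c k else 1) * ((if j ∈ S then c j else 1) * _)
        by_cases hj : j = k
        · subst hj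
          rw [if_pos (Finset.mem_insert_self _ _), if_pos rfl, if_neg hk, one_mul]
        · rw [if_neg hj, one_mul]
          by_cases hj2 : j ∈ S
          · rw [if_pos hj2, if_pos (Finset.mem_insert_of_mem hj2)]
          · rw [if_neg hj2, if_neg (by rw [Finset.mem_insert, not_or]; exact ⟨hj, hj2⟩)]
      rw [h1, hb k R, ih, Finset.prod_insert hk, mul_assoc]
  have h2 := key Finset.univ
  have h3 : (fun j => if j ∈ (Finset.univ : Finset (Fin n)) then c j else 1) = c := by
    funext j
    rw [if_pos (Finset.mem_univ j)]
  rw [h3] at h2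
  exact h2

end Pool.Agent.MP62a5ad.RI
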