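import Pool.Agent.Lib.MP_62a5ad_mp.RI.Spec

/-!
# MP_62a5ad: specialisation of a scaling identity (module MHg)
-/

set_option autoImplicit false

namespace Pool.Agent.MP62a5ad.RI

open Matrix

theorem mHg : S_MHg := by
  intro n L _ a f h R _ _ c v
  let Φ₀ : PR n L →ₐ[L] R := MvPolynomial.aeval (fun y : Fin n × Fin 5 => v y.1 y.2)
  let Φ : MvPolynomial (Fin n) (PR n L) →ₐ[L] R :=
    { MvPolynomial.eval₂Hom (Φ₀ : PR n L →+* R) c with
      commutes' := by
        intro r
        show MvPolynomial.eval₂Hom (Φ₀ : PR n L →+* R) c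
          (MvPolynomial.C (algebraMap L (PR n L) r)) = algebraMap L R r
        rw [MvPolynomial.coe_eval₂Hom, MvPolynomial.eval₂_C]
        exact Φ₀.commutes r }
  have hX : ∀ k, Φ (MvPolynomial.X k) = c k := by
    intro k
    show MvPolynomial.eval₂Hom (Φ₀ : PR n L →+* R) c (MvPolynomial.X k) = c k
    rw [MvPolynomial.coe_eval₂Hom, MvPolynomial.eval₂_X]
  have hC : ∀ g, Φ (MvPolynomial.C g) = ev g v := by
    intro g
    show MvPolynomial.eval₂Hom (Φ₀ : PR n L →+* R) c (MvPolynomial.C g) = _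
    rw [MvPolynomial.coe_eval₂Hom, MvPolynomial.eval₂_C]
    rfl
  have h2 := congrArg Φ h
  rw [ev_map, map_mul, map_prod, hC] at h2
  have e1 : (fun k i => Φ (sgen n L k i)) = sc c v := by
    funext k i
    show Φ (MvPolynomial.X k * MvPolynomial.C (gen n L k i)) = c k * v k i
    rw [map_mul, hX, hC, ev_X]
  rw [e1] at h2
  rw [h2]
  congr 1
  refine Finset.prod_congr rfl fun k _ => ?_
  rw [map_pow, hX]

end Pool.Agent.MP62a5ad.RI
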