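import Pool.Agent.Lib.MP_62a5ad_mp.RI.Spec

/-!
# MP_62a5ad, RI: a projectively invariant reduced fraction is multihomogeneous
-/

set_option autoImplicit false

namespace Pool.Agent.MP62a5ad.RI

open Matrix

namespace mhrAux

variable {n : ℕ} {L : Type} [Field L]

/-- the weight of a monomial -/
def w {R : Type} [CommRing R] (m : (Fin n × Fin 5) →₀ ℕ) (c : Fin n → R) : R :=
  ∏ x : Fin n × Fin 5, c x.1 ^ m x

/-- scaling as a homomorphism -/
noncomputable def fscH (c : Fin n → L) : PR n L →ₐ[L] PR n L :=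
  MvPolynomial.aeval (fun x : Fin n × Fin 5 => MvPolynomial.C (c x.1) * MvPolynomial.X x)

theorem fscH_apply (c : Fin n → L) (f : PR n L) : fscH c f = fsc f c := rfl

theorem fscH_monomial (c : Fin n → L) (m : (Fin n × Fin 5) →₀ ℕ) (r : L) :
    fscH c (MvPolynomial.monomial m r) = MvPolynomial.monomial m (w m c * r) := by
  rw [fscH, MvPolynomial.aeval_monomial, MvPolynomial.monomial_eq,
    Finsupp.prod_fintype _ _ (fun x => pow_zero _), Finsupp.prod_fintype _ _ (fun x => pow_zero _)]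
  simp only [mul_pow]
  rw [Finset.prod_mul_distrib, w, map_mul, map_prod]
  simp only [map_pow]
  rw [MvPolynomial.algebraMap_eq]
  ring

theorem coeff_fscH (c : Fin n → L) (m : (Fin n × Fin 5) →₀ ℕ) (f : PR n L) :
    MvPolynomial.coeff m (fscH c f) = w m c * MvPolynomial.coeff m f := by
  classical
  induction f using MvPolynomial.induction_on' with
  | monomial u a =>
    rw [fscH_monomial, MvPolynomial.coeff_monomial, MvPolynomial.coeff_monomial]
    split_ifs with h
    · rw [h]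
    · rw [mul_zero]
  | add p q hp hq => rw [map_add, MvPolynomial.coeff_add, MvPolynomial.coeff_add, hp, hq, mul_add]

theorem w_eq {R : Type} [CommRing R] (m : (Fin n × Fin 5) →₀ ℕ) (c : Fin n → R) :
    w m c = ∏ k, c k ^ ∑ i, m (k, i) := by
  rw [w, Fintype.prod_prod_type]
  refine Finset.prod_congr rfl fun k _ => ?_
  show ∏ i, c k ^ m (k, i) = _
  exact Finset.prod_pow_eq_pow_sum _ _ _

theorem w_mul {R : Type} [CommRing R] (m : (Fin n × Fin 5) →₀ ℕ) (c c' : Fin n → R) :
    w m (fun k => c k * c' k) = w m c * w m c' := by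
  unfold w
  rw [← Finset.prod_mul_distrib]
  exact Finset.prod_congr rfl fun x _ => mul_pow _ _ _

theorem fscH_inv (c : Fin n → L) (hc : ∀ k, c k ≠ 0) (f : PR n L) :
    fscH c (fscH (fun k => (c k)⁻¹) f) = f := by
  ext m
  rw [coeff_fscH, coeff_fscH, ← mul_assoc, ← w_mul]
  have h : w m (fun k => c k * (c k)⁻¹) = 1 := by
    unfold w
    refine Finset.prod_eq_one fun x _ => ?_
    show (c x.1 * (c x.1)⁻¹) ^ m x = 1
    rw [mul_inv_cancel₀ (hc x.1), one_pow]
  rw [h, one_mul]

theorem MH_of_deg (a : Fin n → ℕ) (f : PR n L)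
    (h : ∀ m ∈ f.support, ∀ k, ∑ i, m (k, i) = a k) : MH a f := by
  intro R _ _ c v
  simp only [ev, MvPolynomial.aeval_def, MvPolynomial.eval₂_eq']
  rw [Finset.mul_sum]
  refine Finset.sum_congr rfl fun m hm => ?_
  have h1 : ∏ x : Fin n × Fin 5, sc c v x.1 x.2 ^ m x = (∏ k, c k ^ a k) *
      ∏ x : Fin n × Fin 5, v x.1 x.2 ^ m x := by
    have h2 : ∏ x : Fin n × Fin 5, sc c v x.1 x.2 ^ m x =
        w m c * ∏ x : Fin n × Fin 5, v x.1 x.2 ^ m x := by
      unfold w
      rw [← Finset.prod_mul_distrib]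
      exact Finset.prod_congr rfl fun x _ => mul_pow _ _ _
    rw [h2, w_eq]
    congr 1
    exact Finset.prod_congr rfl fun k _ => by rw [h m hm k]
  rw [h1]
  ring

theorem deg_eq [Infinite L] (i j : ℕ) (h : ∀ t : L, t ≠ 0 → t ^ i = t ^ j) : i = j := by
  have h1 : (Polynomial.X ^ (i + 1) : Polynomial L) = Polynomial.X ^ (j + 1) := by
    apply Polynomial.funext
    intro t
    rw [Polynomial.eval_pow, Polynomial.eval_pow, Polynomial.eval_X]
    by_cases ht : t = 0
    · rw [ht, zero_pow (by omega), zero_pow (by omega)]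
    · rw [pow_succ, pow_succ, h t ht]
  have h2 := congrArg Polynomial.natDegree h1
  rw [Polynomial.natDegree_X_pow, Polynomial.natDegree_X_pow] at h2
  omega

theorem w_deg [Infinite L] (m m' : (Fin n × Fin 5) →₀ ℕ)
    (h : ∀ c : Fin n → L, (∀ k, c k ≠ 0) → w m c = w m' c) (k : Fin n) :
    ∑ i, m (k, i) = ∑ i, m' (k, i) := by
  classical
  refine deg_eq (L := L) _ _ fun t ht => ?_
  have h1 := h (fun j => if j = k then t else 1) (fun j => by
    show (if j = k then t else 1) ≠ 0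
    split_ifs
    · exact ht
    · exact one_ne_zero)
  rw [w_eq, w_eq] at h1
  have key : ∀ m : (Fin n × Fin 5) →₀ ℕ,
      ∏ j, (if j = k then t else 1) ^ ∑ i, m (j, i) = t ^ ∑ i, m (k, i) := by
    intro m
    rw [Finset.prod_eq_single k]
    · rw [if_pos rfl]
    · intro j _ hj
      rw [if_neg hj, one_pow]
    · intro hk
      exact absurd (Finset.mem_univ k) hk
  rw [key, key] at h1
  exact h1

end mhrAux

open mhrAux in
theorem mHr : S_MHr := by
  classical
  intro n L _ _ P Q hP hQ hPQ hinv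
  have hdvd : ∀ c : Fin n → L, (∀ k, c k ≠ 0) → P ∣ fscH c P := by
    intro c hc
    have h1 : P ∣ fscH c P * Q := ⟨fsc Q c, (hinv c hc).symm⟩
    exact hPQ.dvd_of_dvd_mul_right h1
  have hchi : ∀ c : Fin n → L, (∀ k, c k ≠ 0) → ∃ χ : L, fscH c P = MvPolynomial.C χ * P := by
    intro c hc
    obtain ⟨u, hu⟩ := hdvd c hc
    obtain ⟨u', hu'⟩ := hdvd (fun k => (c k)⁻¹) fun k => inv_ne_zero (hc k)
    have h1 : P = fscH c P * fscH c u' := by
      have h2 := congrArg (fscH c) hu'
      rwa [fscH_inv c hc, map_mul] at h2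
    rw [hu, mul_assoc] at h1
    have h2 : u * fscH c u' = 1 := by
      have h3 : P * (u * fscH c u') = P * 1 := by rw [mul_one]; exact h1.symm
      exact mul_left_cancel₀ hP h3
    have h4 : IsUnit u := IsUnit.of_mul_eq_one _ h2
    obtain ⟨χ, _, hχ⟩ := MvPolynomial.isUnit_iff_eq_C_of_isReduced.mp h4
    exact ⟨χ, by rw [hu, hχ, mul_comm]⟩
  obtain ⟨m₀, hm₀⟩ : P.support.Nonempty := by
    rw [Finset.nonempty_iff_ne_empty, Ne, MvPolynomial.support_eq_empty]
    exact hP
  have hwP : ∀ c : Fin n → L, (∀ k, c k ≠ 0) → ∀ χ : L, fscH c P = MvPolynomial.C χ * P →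
      ∀ m ∈ P.support, w m c = χ := by
    intro c hc χ hχ m hm
    have h1 := congrArg (MvPolynomial.coeff m) hχ
    rw [coeff_fscH, MvPolynomial.coeff_C_mul] at h1
    exact mul_right_cancel₀ (MvPolynomial.mem_support_iff.mp hm) h1
  refine ⟨fun k => ∑ i, m₀ (k, i), MH_of_deg _ _ fun m hm k => ?_, MH_of_deg _ _ fun m hm k => ?_⟩
  · refine w_deg (L := L) m m₀ (fun c hc => ?_) k
    obtain ⟨χ, hχ⟩ := hchi c hc
    rw [hwP c hc χ hχ m hm, hwP c hc χ hχ m₀ hm₀]
  · refine w_deg (L := L) m m₀ (fun c hc => ?_) k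
    obtain ⟨χ, hχ⟩ := hchi c hc
    rw [hwP c hc χ hχ m₀ hm₀]
    have h1 : fscH c Q = MvPolynomial.C χ * Q := by
      have h2 := hinv c hc
      rw [← fscH_apply, ← fscH_apply, hχ] at h2
      have h3 : P * fscH c Q = P * (MvPolynomial.C χ * Q) := by rw [h2]; ring
      exact mul_left_cancel₀ hP h3
    have h2 := congrArg (MvPolynomial.coeff m) h1
    rw [coeff_fscH, MvPolynomial.coeff_C_mul] at h2
    exact mul_right_cancel₀ (MvPolynomial.mem_support_iff.mp hm) h2

end Pool.Agent.MP62a5ad.RI
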