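import Pool.Agent.Lib.MP_62a5ad_mp.RI.EvA
import Pool.Agent.Lib.MP_62a5ad_mp.RI.Basic

/-!
# MP_62a5ad: admissibility (module MainA)
-/

set_option autoImplicit false

namespace Pool.Agent.MP62a5ad.RI

open Matrix

namespace mainAaux

variable {n : ℕ} [NeZero n]

omit [NeZero n] in
theorem pw_map {R S : Type} [CommRing R] [CommRing S] (φ : R →+* S)
    (M : Matrix (Fin 5) (Fin 5) R) (c : Fin n → ℕ) : (pw M c).map φ = pw (M.map φ) c := by
  unfold Dat.map pw
  have e : (fun k => (M ^ c k).map φ) = fun k => (M.map φ) ^ c k := by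
    funext k
    rw [evA.map_pow']
  simp only [e]

theorem Cm_map {R S : Type} [CommRing R] [CommRing S] (φ : R →+* S) :
    (Cm R).map φ = Cm S := by
  ext i j
  show φ (if i = j + 1 then 1 else 0) = if i = j + 1 then 1 else 0
  split_ifs
  · rw [map_one]
  · rw [map_zero]

theorem lift_ne {R S : Type} [CommRing R] [CommRing S] (φ : R →+* S)
    (c : Fin n → ℕ) (x : Pg n R)
    (h1 : ∀ j, fwd (pw (Cm S) c) (fun k i => φ (x k i)) j ≠ 0)
    (h2 : ∀ j, fwd (pw (Cm S) c) (fwd (pw (Cm S) c) (fun k i => φ (x k i))) j ≠ 0) :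
    (∀ j, fwd (pw (Cm R) c) x j ≠ 0) ∧
    ∀ j, fwd (pw (Cm R) c) (fwd (pw (Cm R) c) x) j ≠ 0 := by
  have e1 := fwd_map φ (pw (Cm R) c) x
  rw [pw_map, Cm_map] at e1
  have e2 := fwd_map φ (pw (Cm R) c) (fwd (pw (Cm R) c) x)
  rw [pw_map, Cm_map, e1] at e2
  constructor
  · intro j h
    apply h1 j
    rw [← e1]
    funext i
    show φ (fwd (pw (Cm R) c) x j i) = 0
    rw [h]
    exact map_zero φ
  · intro j h
    apply h2 j
    rw [← e2]
    funext i
    show φ (fwd (pw (Cm R) c) (fwd (pw (Cm R) c) x) j i) = 0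
    rw [h]
    exact map_zero φ

theorem push_ne {R S : Type} [CommRing R] [CommRing S] (φ : R →+* S) (hφ : Function.Injective φ)
    (c : Fin n → ℕ) (x : Pg n R)
    (h1 : ∀ j, fwd (pw (Cm R) c) x j ≠ 0)
    (h2 : ∀ j, fwd (pw (Cm R) c) (fwd (pw (Cm R) c) x) j ≠ 0) :
    (∀ j, fwd (pw (Cm S) c) (fun k i => φ (x k i)) j ≠ 0) ∧
    ∀ j, fwd (pw (Cm S) c) (fwd (pw (Cm S) c) (fun k i => φ (x k i))) j ≠ 0 := by
  have e1 := fwd_map φ (pw (Cm R) c) x
  rw [pw_map, Cm_map] at e1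
  have e2 := fwd_map φ (pw (Cm R) c) (fwd (pw (Cm R) c) x)
  rw [pw_map, Cm_map, e1] at e2
  constructor
  · intro j h
    apply h1 j
    rw [← e1] at h
    funext i
    exact hφ ((congrFun h i).trans (map_zero φ).symm)
  · intro j h
    apply h2 j
    rw [← e2] at h
    funext i
    exact hφ ((congrFun h i).trans (map_zero φ).symm)

/-- The generic matrix. -/
noncomputable def G (n : ℕ) (K : Type) [Field K] :
    Matrix (Fin 5) (Fin 5) (MvPolynomial (Co n) K) := fun i j => MvPolynomial.X (Sum.inr (i, j))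

/-- The generic polygon. -/
noncomputable def X (n : ℕ) (K : Type) [Field K] : Pg n (MvPolynomial (Co n) K) :=
  fun k i => MvPolynomial.X (Sum.inl (k, i))

/-- The guard polynomial. -/
noncomputable def gd (K : Type) [Field K] (c : Fin n → ℕ) (i i' : Fin n → Fin 5) :
    MvPolynomial (Co n) K :=
  (G n K).det * ∏ j, (fwd (pw (G n K) c) (X n K) j (i j) *
    fwd (pw (G n K).adjugateᵀ c) (fwd (pw (G n K) c) (X n K)) j (i' j))

theorem gd_eval (K : Type) [Field K] (c : Fin n → ℕ) (i i' : Fin n → Fin 5)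
    (x : Fin n → V5 K) (M : Matrix (Fin 5) (Fin 5) K) :
    vl (gd K c i i') x M = M.det * ∏ j, (fwd (pw M c) x j (i j) *
      fwd (pw M.adjugateᵀ c) (fwd (pw M c) x) j (i' j)) := by
  set φ : MvPolynomial (Co n) K →+* K :=
    MvPolynomial.eval (Sum.elim (fun z => x z.1 z.2) (fun z => M z.1 z.2)) with hφ
  have hG : (G n K).map φ = M := by
    ext i j
    show φ (MvPolynomial.X (Sum.inr (i, j))) = M i j
    rw [hφ, MvPolynomial.eval_X]
    rfl
  have hX : (fun k i => φ (X n K k i)) = x := by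
    funext k i
    show φ (MvPolynomial.X (Sum.inl (k, i))) = x k i
    rw [hφ, MvPolynomial.eval_X]
    rfl
  have e1 := fwd_map φ (pw (G n K) c) (X n K)
  rw [pw_map, hG, hX] at e1
  have e2 := fwd_map φ (pw (G n K).adjugateᵀ c) (fwd (pw (G n K) c) (X n K))
  rw [pw_map, evA.adj_map, hG, e1] at e2
  show φ (gd K c i i') = _
  unfold gd
  rw [map_mul, RingHom.map_det, map_prod]
  have e3 : φ.mapMatrix (G n K) = M := hG
  rw [e3]
  congr 1
  refine Finset.prod_congr rfl fun j _ => ?_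
  rw [map_mul]
  have f1 : φ (fwd (pw (G n K) c) (X n K) j (i j)) = fwd (pw M c) x j (i j) :=
    congrFun (congrFun e1 j) (i j)
  have f2 : φ (fwd (pw (G n K).adjugateᵀ c) (fwd (pw (G n K) c) (X n K)) j (i' j))
      = fwd (pw M.adjugateᵀ c) (fwd (pw M c) x) j (i' j) := congrFun (congrFun e2 j) (i' j)
  rw [f1, f2]

end mainAaux

open mainAaux in
theorem mainA (h1 : S_Cyc) (hG : S_Gau) (h8 : S_Geo) (n : ℕ) [NeZero n] (c : ℕ) (K : Type)
    [Field K] [CharZero K] (hn : 3 ≤ n) (hC : Cert n (c * n + 1)) :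
    Admissible K n (tup n c) := by
  obtain ⟨u, hu, -, hreg⟩ := hC
  obtain ⟨hcc, hc0, hcz, -⟩ := h1 (ZMod 9)
  have hadj : (Cm K).adjugateᵀ = Cm K := (h1 K).2.2.2.2.2.2.2.2.1
  have hdet : (Cm K).det = 1 := (h1 K).2.2.2.2.2.2.2.2.2
  have hfne : ∀ m k, fk^[m + 1] u k ≠ 0 := by
    intro m k h
    apply hreg m k
    unfold bk
    rw [h, X5_zero1]
  set W : Pg n (ZMod 9) := gau c 0 u with hW
  have g1 := hG n c 0 u hu
  have g2 := hG n c 0 (fk u) g1.2.2.1
  have w1 : ∀ j, fwd (pw (Cm (ZMod 9)) (lst n c)) W j ≠ 0 := by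
    intro j h
    rw [hW, g1.1] at h
    unfold gau at h
    exact hfne 0 _ ((hcz _ _).1 h)
  have w2 : ∀ j, fwd (pw (Cm (ZMod 9)) (lst n c)) (fwd (pw (Cm (ZMod 9)) (lst n c)) W) j ≠ 0 := by
    intro j h
    rw [hW, g1.1, g2.1] at h
    unfold gau at h
    exact hfne 1 _ ((hcz _ _).1 h)
  -- integral lift
  let xZ : Pg n ℤ := fun k i => ((W k i).val : ℤ)
  have hxZ : (fun k i => (Int.castRingHom (ZMod 9)) (xZ k i)) = W := by
    funext k i
    show (((W k i).val : ℤ) : ZMod 9) = W k i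
    rw [Int.cast_natCast, ZMod.natCast_zmod_val]
  obtain ⟨z1, z2⟩ := lift_ne (Int.castRingHom (ZMod 9)) (lst n c) xZ
    (by rw [hxZ]; exact w1) (by rw [hxZ]; exact w2)
  obtain ⟨k1, k2⟩ := push_ne (Int.castRingHom K) Int.cast_injective (lst n c) xZ z1 z2
  set x : Pg n K := fun k i => (Int.castRingHom K) (xZ k i) with hx
  have c1 : ∀ j, ∃ i, fwd (pw (Cm K) (lst n c)) x j i ≠ 0 := by
    intro j
    by_contra hcon
    push Not at hcon
    exact k1 j (funext hcon)
  have c2 : ∀ j, ∃ i, fwd (pw (Cm K) (lst n c)) (fwd (pw (Cm K) (lst n c)) x) j i ≠ 0 := by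
    intro j
    by_contra hcon
    push Not at hcon
    exact k2 j (funext hcon)
  choose i hi using c1
  choose i' hi' using c2
  refine ⟨gd K (lst n c) i i', ?_, ?_⟩
  · intro h
    have h2 := gd_eval K (lst n c) i i' x (Cm K)
    rw [h, hdet, one_mul, hadj] at h2
    have h3 : vl (0 : MvPolynomial (Co n) K) x (Cm K) = 0 := by
      unfold vl
      rw [map_zero]
    rw [h3] at h2
    exact Finset.prod_ne_zero_iff.2 (fun j _ => mul_ne_zero (hi j) (hi' j)) h2.symm
  · intro M v hv hne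
    rw [gd_eval] at hne
    have hM : M.det ≠ 0 := left_ne_zero_of_mul hne
    have hp := Finset.prod_ne_zero_iff.1 (right_ne_zero_of_mul hne)
    refine ⟨hM, (h8 n c K M v (by omega) hM hv ?_ ?_).1⟩
    · intro j h
      apply left_ne_zero_of_mul (hp j (Finset.mem_univ _))
      rw [h]
      rfl
    · intro j h
      apply right_ne_zero_of_mul (hp j (Finset.mem_univ _))
      rw [h]
      rfl

end Pool.Agent.MP62a5ad.RI
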