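import Pool.Agent.Lib.MP_62a5ad_mp.RI.Spec2

/-!
# MP_62a5ad: rational invariants depend only on the monodromy (module MainB)
-/

set_option autoImplicit false

namespace Pool.Agent.MP62a5ad.RI

open Matrix

namespace mainBAux

theorem ev_spec {n : ℕ} {K : Type} [Field K] (M : Matrix (Fin 5) (Fin 5) K)
    (f : MvPolynomial (Co n) K) (x : Fin n → V5 K) : ev (spec M f) x = vl f x M := by
  unfold ev spec vl
  rw [MvPolynomial.aeval_def, MvPolynomial.aeval_def]
  have h := MvPolynomial.eval₂_comp_left (MvPolynomial.eval₂Hom (algebraMap K K)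
    (fun z : Fin n × Fin 5 => x z.1 z.2)) (algebraMap K (PR n K))
    (Sum.elim (fun z => MvPolynomial.X z) (fun z => MvPolynomial.C (M z.1 z.2)) : Co n → PR n K) f
  rw [MvPolynomial.coe_eval₂Hom] at h
  rw [h]
  unfold MvPolynomial.eval
  rw [MvPolynomial.coe_eval₂Hom]
  congr 1
  · ext a; simp
  · funext z
    rcases z with z | z <;> simp

/-- The specialization of the vertices. -/
noncomputable def sv {n : ℕ} {K : Type} [Field K] (x : Fin n → V5 K)
    (f : MvPolynomial (Co n) K) : MvPolynomial (Fin 5 × Fin 5) K :=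
  MvPolynomial.aeval (Sum.elim (fun z => MvPolynomial.C (x z.1 z.2))
    (fun z => MvPolynomial.X z) : Co n → MvPolynomial (Fin 5 × Fin 5) K) f

theorem ev_sv {n : ℕ} {K : Type} [Field K] (M : Matrix (Fin 5) (Fin 5) K)
    (f : MvPolynomial (Co n) K) (x : Fin n → V5 K) :
    MvPolynomial.eval (fun z => M z.1 z.2) (sv x f) = vl f x M := by
  unfold sv vl
  rw [MvPolynomial.aeval_def]
  have h := MvPolynomial.eval₂_comp_left (MvPolynomial.eval (fun z : Fin 5 × Fin 5 => M z.1 z.2))
    (algebraMap K (MvPolynomial (Fin 5 × Fin 5) K))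
    (Sum.elim (fun z => MvPolynomial.C (x z.1 z.2))
    (fun z => MvPolynomial.X z) : Co n → MvPolynomial (Fin 5 × Fin 5) K) f
  rw [h]
  unfold MvPolynomial.eval
  rw [MvPolynomial.coe_eval₂Hom]
  congr 1
  · ext a; simp
  · funext z
    rcases z with z | z <;> simp

theorem adj_map {R S : Type} [CommRing R] [CommRing S] (φ : R →+* S)
    (M : Matrix (Fin 5) (Fin 5) R) : (M.adjugateᵀ).map φ = (M.map φ).adjugateᵀ := by
  have := RingHom.map_adjugate φ M
  rw [Matrix.transpose_map]
  rw [RingHom.mapMatrix_apply, RingHom.mapMatrix_apply] at this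
  rw [this]

end mainBAux

open mainBAux in
theorem mainB (h1 : S_Cyc) (h2 : S_Sep) (h3 : S_Wrap) (h4 : S_C9) (h5 : S_Den) : S_MainB := by
  intro n _ c K _ _ hn hC hZ p q hI x y M
  have key : sv x p * sv y q - sv y p * sv x q = 0 := by
    refine h5 K _ fun A hA => ?_
    set AK := A.map (Int.cast : ℤ → K) with hAK
    have e : (fun z : Fin 5 × Fin 5 => ((A z.1 z.2 : ℤ) : K)) = fun z => AK z.1 z.2 := rfl
    rw [e, map_sub, map_mul, map_mul, ev_sv, ev_sv, ev_sv, ev_sv]
    have hN9 : IsC9 A.adjugateᵀ := by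
      unfold IsC9
      have h6 := adj_map (Int.castRingHom (ZMod 9)) A
      have h7 : A.map (Int.castRingHom (ZMod 9)) = Cm (ZMod 9) := hA
      rw [h7, (h1 (ZMod 9)).2.2.2.2.2.2.2.2.1] at h6
      exact h6
    have hNK : (A.adjugateᵀ).map (Int.cast : ℤ → K) = AK.adjugateᵀ :=
      adj_map (Int.castRingHom K) A
    have hd := (h2 K A hA).2
    have hInv := h3 n c K AK p q (by omega) hd hI
    rw [← hNK] at hInv
    have h8 := h4 n c K A A.adjugateᵀ hn hC hZ hA hN9 _ _ hInv x y
    rw [ev_spec, ev_spec, ev_spec, ev_spec] at h8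
    rw [h8, sub_self]
  have h9 := congrArg (MvPolynomial.eval (fun z => M z.1 z.2)) key
  rw [map_sub, map_mul, map_mul, ev_sv, ev_sv, ev_sv, ev_sv, map_zero] at h9
  exact sub_eq_zero.1 h9

end Pool.Agent.MP62a5ad.RI
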