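import Pool.Agent.Lib.MP_62a5ad_mp.RI.EvA

/-!
# MP_62a5ad: a non-degenerate preimage (module NzZ)
-/

set_option autoImplicit false

namespace Pool.Agent.MP62a5ad.RI

open Matrix

theorem nzZ (h1 : S_Cyc) (h2 : S_Gau) : S_NzZ := by
  intro n _ c M hn hM hC k
  obtain ⟨u, x, hu, hx, ⟨α, β, γ, hd⟩, hxb, ⟨η, hη⟩, hx1, hfx⟩ := hC
  obtain ⟨hcc, hc0, hcz, hcl, hX, hp, hpT, hpA, hA, hdet⟩ := h1 (ZMod 9)
  have hC1T : ∀ x : V5 (ZMod 9), (Cm (ZMod 9))ᵀ *ᵥ x = cyc (-1) x := by
    intro x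
    have := hpT 1 x
    rwa [pow_one, Nat.cast_one] at this
  set P := evA.pt c k u α β γ with hP
  set E := evA.E P with hE
  have hpsi := evA.psi_E h1 hn c k u α β γ M hM hu hd
  rw [← hP, ← hE] at hpsi
  have hgk := evA.E_gen_k hn c k u α β γ
  rw [← hP, ← hE] at hgk
  -- the lift of `η`
  have hlift : ∀ i, ∃ a : ℤ, (a : ZMod 9) = cyc (-((c * (k : ℕ) : ℕ) : ZMod 5)) η i :=
    fun i => ZMod.intCast_surjective _
  choose η0 hη0 using hlift
  have hT : (((pw M (lst n c)).up (PR n ℤ)).Mᵀ).map E = (Cm (ZMod 9))ᵀ := by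
    rw [Matrix.transpose_map]
    exact congrArg Matrix.transpose (evA.up_map_E P M hM)
  have hxE : (fun j i => E (xpt (pw M (lst n c)) k η0 j i)) = gau c k x := by
    have hb := bwd_map E ((pw M (lst n c)).up (PR n ℤ)) (psi (pw M (lst n c)) k)
    rw [evA.up_E P M hM, hpsi, (h2 n c k u hu).2.1] at hb
    funext j
    by_cases hj : j = k
    · subst hj
      unfold xpt
      simp only [if_true]
      rw [X5_map, evA.gau_k, hη]
      have w1 : (fun i => E ((((pw M (lst n c)).up (PR n ℤ)).Mᵀ *ᵥ gen n ℤ j) i))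
          = cyc (-1) (gau c j u j) := by
        rw [map_mulVec', hT, hgk, hC1T]
      have w2 : (fun i => E ((((pw M (lst n c)).up (PR n ℤ)).Mᵀ *ᵥ
            (((pw M (lst n c)).up (PR n ℤ)).Mᵀ *ᵥ gen n ℤ j)) i))
          = cyc (-2) (gau c j u j) := by
        rw [map_mulVec', hT, w1, hC1T, hcc]
        congr 1
      have w3 : (fun i => E ((fun i => MvPolynomial.C (η0 i) : V5 (PR n ℤ)) i))
          = cyc (-((c * (j : ℕ) : ℕ) : ZMod 5)) η := by
        funext i
        rw [← hη0 i]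
        exact evA.E_C P (η0 i)
      rw [hgk, w1, w2, w3, evA.gau_k, ← hX, hcc, hcc, hcc, hcc]
      have q1 : (-1 : ZMod 5) + -((c * (j : ℕ) : ℕ) : ZMod 5)
          = -((c * (j : ℕ) : ℕ) : ZMod 5) + -1 := by ring
      have q2 : (-2 : ZMod 5) + -((c * (j : ℕ) : ℕ) : ZMod 5)
          = -((c * (j : ℕ) : ℕ) : ZMod 5) + -2 := by ring
      rw [q1, q2]
    · have hb2 := congrFun hb j
      unfold xpt
      simp only [hj, if_false]
      rw [hb2]
      unfold gau
      have hnd : ¬ (n : ℤ) ∣ (((j : ℕ) : ℤ) - (k : ℕ) + 1 - 1) := by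
        rw [add_sub_cancel_right]
        rintro ⟨t, ht⟩
        have hj2 := j.2
        have hk2 := k.2
        have hn' : (0 : ℤ) < n := by omega
        have b1 : (n : ℤ) * t < n * 1 := by rw [← ht, mul_one]; omega
        have b2 : (n : ℤ) * (-1) < n * t := by rw [← ht]; omega
        have a1 : t < 1 := lt_of_mul_lt_mul_left b1 hn'.le
        have a2 : -1 < t := lt_of_mul_lt_mul_left b2 hn'.le
        have a3 : t = 0 := by omega
        subst a3
        rw [mul_zero] at ht
        exact hj (Fin.ext (by omega))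
      rw [hxb _ hnd]
  refine ⟨η0, ?_, ?_⟩
  · intro h
    have e := congrFun hxE k
    have e3 : gau c k x k = 0 := by
      rw [← e]
      funext i
      rw [h]
      simp
    rw [evA.gau_k] at e3
    exact hx1 ((hcz _ _).1 e3)
  · intro j h
    have e := fwd_map E ((pw M (lst n c)).up (PR n ℤ)) (xpt (pw M (lst n c)) k η0)
    rw [evA.up_E P M hM, hxE, (h2 n c k x hx).1] at e
    have e2 := congrFun e j
    have e3 : gau c k (fk x) j = 0 := by
      rw [← e2]
      funext i
      rw [h]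
      simp
    unfold gau at e3
    exact hfx _ ((hcz _ _).1 e3)

end Pool.Agent.MP62a5ad.RI
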