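import Pool.Agent.Lib.MP_62a5ad_mp.RI.Spec2

/-!
# MP_62a5ad: offsets (module Off)
-/

set_option autoImplicit false

namespace Pool.Agent.MP62a5ad.RI

open Matrix

theorem off_thm : S_Off := by
  intro n c hn
  have key : ∀ a b d : ℕ, Set.range (off ![a, b, d]) = {0, a, a + b, a + b + d} := by
    intro a b d
    have h0 : off ![a, b, d] 0 = 0 := by simp [off]
    have h1 : off ![a, b, d] 1 = a := by simp [off, Fin.sum_univ_three]
    have h2 : off ![a, b, d] 2 = a + b := by simp [off, Fin.sum_univ_three]
    have h3 : off ![a, b, d] 3 = a + b + d := by simp [off, Fin.sum_univ_three]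
    ext x
    simp only [Set.mem_range, Set.mem_insert_iff, Set.mem_singleton_iff]
    constructor
    · rintro ⟨m, rfl⟩
      fin_cases m
      · left; exact h0
      · right; left; exact h1
      · right; right; left; exact h2
      · right; right; right; exact h3
    · rintro (rfl | rfl | rfl | rfl)
      · exact ⟨0, h0⟩
      · exact ⟨1, h1⟩
      · exact ⟨2, h2⟩
      · exact ⟨3, h3⟩
  match c with
  | 0 =>
    refine ⟨?_, ?_⟩
    · intro j
      show 0 < (![1, n - 1, n] : Fin 3 → ℕ) j
      fin_cases j
      · show 0 < 1; omega
      · show 0 < n - 1; omega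
      · show 0 < n; omega
    · show Set.range (off ![1, n - 1, n]) = _
      rw [key]
      ext x
      simp only [Set.mem_insert_iff, Set.mem_singleton_iff]
      omega
  | 1 =>
    refine ⟨?_, ?_⟩
    · intro j
      show 0 < (![n, 1, n - 1] : Fin 3 → ℕ) j
      fin_cases j
      · show 0 < n; omega
      · show 0 < 1; omega
      · show 0 < n - 1; omega
    · show Set.range (off ![n, 1, n - 1]) = _
      rw [key]
      ext x
      simp only [Set.mem_insert_iff, Set.mem_singleton_iff]
      omega
  | c + 2 =>
    refine ⟨?_, ?_⟩
    · intro j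
      show 0 < (![n, n, c * n + 1] : Fin 3 → ℕ) j
      fin_cases j
      · show 0 < n; omega
      · show 0 < n; omega
      · show 0 < c * n + 1; omega
    · show Set.range (off ![n, n, c * n + 1]) = _
      rw [key]
      have e : n + n + (c * n + 1) = (c + 2) * n + 1 := by ring
      rw [e]
      ext x
      simp only [Set.mem_insert_iff, Set.mem_singleton_iff]
      have e2 : n + n = 2 * n := by ring
      rw [e2]
      tauto

end Pool.Agent.MP62a5ad.RI
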