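import Pool.Agent.Lib.MP_62a5ad_mp.RI.Spec

/-!
# MP_62a5ad, RI: the free variables are in the field of psi (helper18)
-/

set_option autoImplicit false

namespace Pool.Agent.MP62a5ad.RI

open Matrix

namespace oriAux

section

variable {R : Type} [CommRing R]

theorem X5_lin1 (r s t : R) (g a b c : V5 R) :
    X5 (r • g + s • a + t • b) a b c = r • X5 g a b c := by
  refine V5_ext ?_ ?_ ?_ ?_ ?_ <;>
    simp only [X5_0, X5_1, X5_2, X5_3, X5_4, lap, mn, Pi.smul_apply, Pi.add_apply, smul_eq_mul] <;>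
    ring

theorem X5_lin2 (r s t : R) (g a b c : V5 R) :
    X5 g (r • g + s • a + t • b) b c = s • X5 g a b c := by
  refine V5_ext ?_ ?_ ?_ ?_ ?_ <;>
    simp only [X5_0, X5_1, X5_2, X5_3, X5_4, lap, mn, Pi.smul_apply, Pi.add_apply, smul_eq_mul] <;>
    ring

theorem X5_lin3 (r s t : R) (g a b c : V5 R) :
    X5 g a (r • g + s • a + t • b) c = t • X5 g a b c := by
  refine V5_ext ?_ ?_ ?_ ?_ ?_ <;>
    simp only [X5_0, X5_1, X5_2, X5_3, X5_4, lap, mn, Pi.smul_apply, Pi.add_apply, smul_eq_mul] <;>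
    ring

theorem X5_mem (S : Subring R) {a b c d : V5 R} (ha : ∀ i, a i ∈ S) (hb : ∀ i, b i ∈ S)
    (hc : ∀ i, c i ∈ S) (hd : ∀ i, d i ∈ S) (i : Fin 5) : X5 a b c d i ∈ S := by
  have h := X5_map S.subtype (fun i => ⟨a i, ha i⟩) (fun i => ⟨b i, hb i⟩) (fun i => ⟨c i, hc i⟩)
    (fun i => ⟨d i, hd i⟩)
  have h2 := congrFun h i
  have h3 : X5 a b c d i = S.subtype (X5 (fun i => (⟨a i, ha i⟩ : S)) (fun i => ⟨b i, hb i⟩)
      (fun i => ⟨c i, hc i⟩) (fun i => ⟨d i, hd i⟩) i) := h2.symm
  rw [h3]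
  exact Subtype.prop _

theorem mulVec_mem (S : Subring R) {M : Matrix (Fin 5) (Fin 5) R} {v : V5 R}
    (hM : ∀ i j, M i j ∈ S) (hv : ∀ i, v i ∈ S) (i : Fin 5) : (M *ᵥ v) i ∈ S := by
  show ∑ j, M i j * v j ∈ S
  exact S.sum_mem fun j _ => S.mul_mem (hM i j) (hv j)

end

end oriAux

open oriAux

theorem ori : S_Ori := by
  intro n _ L _ d k hn hdet hNZ x
  classical
  set φ := algebraMap (PR n L) (FractionRing (PR n L)) with hφ
  have hφi : Function.Injective φ := IsFractionRing.injective (PR n L) (FractionRing (PR n L))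
  set E := fld L (im (psi d k)) with hE
  have hgen : ∀ j i, φ (psi d k j i) ∈ E := by
    intro j i
    exact IntermediateField.subset_adjoin L _ ⟨(j, i), rfl⟩
  let S : Subring (PR n L) := E.toSubfield.toSubring.comap φ
  have hS : ∀ a, a ∈ S ↔ φ a ∈ E := fun a => Iff.rfl
  have hC : ∀ l : L, algebraMap L (PR n L) l ∈ S := by
    intro l
    rw [hS]
    have h1 : φ (algebraMap L (PR n L) l) = algebraMap L (FractionRing (PR n L)) l :=
      (IsScalarTower.algebraMap_apply L (PR n L) (FractionRing (PR n L)) l).symm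
    rw [h1]
    exact E.algebraMap_mem l
  have hk : k ≠ k - 1 := by
    intro h
    have h1 : (1 : Fin n) = 0 := by
      have h2 : k - 1 = k := h.symm
      rwa [sub_eq_self] at h2
    have h2 := congrArg Fin.val h1
    rw [Fin.val_one', Fin.val_zero, Nat.mod_eq_of_lt (by omega)] at h2
    omega
  have hfree : ∀ j, j ≠ k - 1 → ∀ i, gen n L j i ∈ S := by
    intro j hj i
    have h1 : psi d k j = gen n L j := by
      show (if j = k - 1 then _ else gen n L j) = gen n L j
      rw [if_neg hj]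
    rw [hS, ← h1]
    exact hgen j i
  rcases x.2 with hx | hx
  · exact (hS _).1 (hfree _ hx x.1.2)
  · by_cases hx1 : x.1.1 = k - 1
    swap
    · exact (hS _).1 (hfree _ hx1 x.1.2)
    set g := gen n L k with hg
    set At := ((d.up (PR n L)).M)ᵀ with hAt
    set a := At *ᵥ g with ha
    set b := At *ᵥ (At *ᵥ g) with hb
    set z := gen n L (k - 1) 0 • g + gen n L (k - 1) 1 • a + gen n L (k - 1) 2 • b with hz
    have hgS : ∀ i, g i ∈ S := hfree k hk
    have hAtS : ∀ i j, At i j ∈ S := by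
      intro i j
      exact hC (d.M j i)
    have haS : ∀ i, a i ∈ S := mulVec_mem S hAtS hgS
    have hbS : ∀ i, b i ∈ S := mulVec_mem S hAtS haS
    -- the coordinates of `z`
    set B := (d.up (PR n L)).B (k - 1) with hB
    have hBm : B = (d.B (k - 1)).map (algebraMap L (PR n L)) := rfl
    have hpsi : psi d k (k - 1) = B.adjugateᵀ *ᵥ z := by
      show (if k - 1 = k - 1 then _ else gen n L (k - 1)) = _
      rw [if_pos rfl]
    have hBz : Bᵀ *ᵥ psi d k (k - 1) = B.det • z := by
      rw [hpsi, Matrix.mulVec_mulVec, ← Matrix.transpose_mul, Matrix.adjugate_mul,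
        Matrix.transpose_smul, Matrix.transpose_one, Matrix.smul_mulVec, Matrix.one_mulVec]
    have hBdet : B.det = algebraMap L (PR n L) (d.B (k - 1)).det := by
      rw [hBm]
      exact (RingHom.map_det (algebraMap L (PR n L)) (d.B (k - 1))).symm
    have hzS : ∀ i, z i ∈ S := by
      intro i
      have h1 : B.det * z i ∈ S := by
        have h2 : (Bᵀ *ᵥ psi d k (k - 1)) i ∈ S :=
          mulVec_mem S (fun i j => hC (d.B (k - 1) j i)) (fun i => hgen (k - 1) i) i
        rw [hBz] at h2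
        exact h2
      have h3 := S.mul_mem (hC ((d.B (k - 1)).det)⁻¹) h1
      rw [hBdet, ← mul_assoc, ← map_mul, inv_mul_cancel₀ hdet.ne_zero, map_one, one_mul] at h3
      exact h3
    obtain ⟨η, hη, -⟩ := hNZ
    set c : V5 (PR n L) := fun i => MvPolynomial.C (η i) with hc
    have hcS : ∀ i, c i ∈ S := fun i => hC (η i)
    have hN : X5 g a b c ≠ 0 := by
      have h1 : xpt d k η k = X5 g a b c := by
        show (if k = k then _ else _) = _
        rw [if_pos rfl]
      rwa [h1] at hη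
    obtain ⟨i0, hi0⟩ := Function.ne_iff.1 hN
    have hi0' : X5 g a b c i0 ≠ 0 := hi0
    have hNS : X5 g a b c i0 ∈ S := X5_mem S hgS haS hbS hcS i0
    -- division
    have hdiv : ∀ r : PR n L, r * X5 g a b c i0 ∈ S → φ r ∈ E := by
      intro r hr
      have h1 : φ (r * X5 g a b c i0) ∈ E := hr
      rw [map_mul] at h1
      have h2 : φ (X5 g a b c i0) ≠ 0 := by
        intro h3
        exact hi0' (hφi (by rw [h3, map_zero]))
      have h3 := E.div_mem h1 hNS
      rwa [mul_div_cancel_right₀ _ h2] at h3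
    have k0 : gen n L (k - 1) 0 * X5 g a b c i0 ∈ S := by
      have h1 := X5_mem S hzS haS hbS hcS i0
      rw [hz, X5_lin1] at h1
      exact h1
    have k1 : gen n L (k - 1) 1 * X5 g a b c i0 ∈ S := by
      have h1 := X5_mem S hgS hzS hbS hcS i0
      rw [hz, X5_lin2] at h1
      exact h1
    have k2 : gen n L (k - 1) 2 * X5 g a b c i0 ∈ S := by
      have h1 := X5_mem S hgS haS hzS hcS i0
      rw [hz, X5_lin3] at h1
      exact h1
    have hfin : ∀ i : Fin 5, i < 3 → φ (gen n L (k - 1) i) ∈ E := by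
      intro i hi
      fin_cases i
      · exact hdiv _ k0
      · exact hdiv _ k1
      · exact hdiv _ k2
      · exact absurd hi (by decide)
      · exact absurd hi (by decide)
    have h1 := hfin x.1.2 hx
    have h2 : gen n L (k - 1) x.1.2 = MvPolynomial.X x.1 :=
      congrArg MvPolynomial.X (Prod.ext hx1.symm rfl : (k - 1, x.1.2) = x.1)
    rwa [h2] at h1

end Pool.Agent.MP62a5ad.RI
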