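import Pool.Agent.Lib.MP_62a5ad_mp.RI.Spec3

/-!
# MP_62a5ad: equality up to a unit (module PEk)
-/

set_option autoImplicit false

namespace Pool.Agent.MP62a5ad.RI

open Matrix

theorem pEk (h1 : S_Cyc) (h2 : S_Cv) : S_PEk := by
  obtain ⟨cvc, cva, cve, cvy, cvs, cvd, cvX, ajm, aje, ajs, ajc⟩ := h2 (ZMod 9)
  have hcs : ∀ (t : ZMod 5) (c : ZMod 9) (x : V5 (ZMod 9)), cyc t (c • x) = c • cyc t x :=
    fun t c x => rfl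
  have hmul : ∀ a b : ZMod 9, UN a → UN b → UN (a * b) := by
    rintro a b ⟨x, hx⟩ ⟨y, hy⟩
    exact ⟨x * y, by linear_combination (b * y) * hx + hy⟩
  have PEX : ∀ a a' b b' c c' d d' : V5 (ZMod 9), PE a a' → PE b b' → PE c c' → PE d d' →
      PE (X5 a b c d) (X5 a' b' c' d') := by
    rintro a a' b b' c c' d d' ⟨x, hx, rfl⟩ ⟨y, hy, rfl⟩ ⟨z, hz, rfl⟩ ⟨w, hw, rfl⟩
    exact ⟨x * y * z * w, hmul _ _ (hmul _ _ (hmul _ _ hx hy) hz) hw, X5_smul x y z w a b c d⟩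
  have PEc : ∀ (t : ZMod 5) (a b : V5 (ZMod 9)), PE a b → PE (cyc t a) (cyc t b) := by
    rintro t a b ⟨x, hx, rfl⟩
    exact ⟨x, hx, hcs t x a⟩
  refine ⟨?_, ?_, ?_, ?_, PEc, ?_, ?_, PEX⟩
  · intro a
    exact ⟨1, ⟨1, by norm_num⟩, (one_smul _ a).symm⟩
  · rintro a b ⟨x, ⟨y, hy⟩, rfl⟩
    refine ⟨y, ⟨x, by rw [mul_comm]; exact hy⟩, ?_⟩
    rw [smul_smul, mul_comm, hy, one_smul]
  · rintro a b c ⟨x, hx, rfl⟩ ⟨y, hy, rfl⟩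
    exact ⟨y * x, hmul _ _ hy hx, smul_smul y x a⟩
  · rintro a b ⟨x, ⟨y, hy⟩, rfl⟩ ha h
    apply ha
    have h3 := congrArg (fun v : V5 (ZMod 9) => y • v) h
    simp only [smul_smul, smul_zero] at h3
    rwa [mul_comm, hy, one_smul] at h3
  · rintro v a b ⟨x, hx, rfl⟩
    exact ⟨x, hx, by rw [cvc, cvs, cvc v]⟩
  · intro a b h
    exact ⟨fun k => PEX _ _ _ _ _ _ _ _ (h k) (h (k + 1)) (PEc _ _ _ (h k)) (PEc _ _ _ (h k)),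
      fun k => PEX _ _ _ _ _ _ _ _ (h k) (h (k - 1)) (PEc _ _ _ (h k)) (PEc _ _ _ (h k))⟩

end Pool.Agent.MP62a5ad.RI
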