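import Pool.Agent.Lib.MP_62a5ad_mp.RI.Spec

/-!
# MP_62a5ad: coprime polynomials (module Pco)
-/

set_option autoImplicit false

namespace Pool.Agent.MP62a5ad.RI

open Matrix

namespace pcoAux

variable {L σ : Type} [Field L]

theorem deg_prod (x : Fin 5 → σ) (s : σ) (h : ∀ i, x i ≠ s) (P : Fin 5 → Prop) [DecidablePred P] :
    MvPolynomial.degreeOf s (∏ i, if P i then 1 else (MvPolynomial.X (x i) : MvPolynomial σ L))
      = 0 := by
  refine Nat.le_zero.1 ((MvPolynomial.degreeOf_prod_le _ _ _).trans ?_)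
  refine (Finset.sum_eq_zero fun i _ => ?_).le
  split_ifs
  · exact MvPolynomial.degreeOf_one _
  · exact MvPolynomial.degreeOf_X_of_ne (h i).symm

theorem deg_y (κ : Fin 5 → Fin 5 → L) (x y : Fin 5 → σ) (hy : Function.Injective y)
    (hxy : ∀ i j, x i ≠ y j) (a : Fin 5) :
    MvPolynomial.degreeOf (y a) (bil κ x y a) = 0 := by
  unfold bil
  refine Nat.le_zero.1 ((MvPolynomial.degreeOf_sum_le _ _ _).trans (Finset.sup_le fun l _ => ?_))
  split_ifs with hl
  · exact (MvPolynomial.degreeOf_zero _).le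
  · refine (MvPolynomial.degreeOf_mul_le _ _ _).trans ?_
    rw [deg_prod x (y a) (fun i => hxy i a), add_zero]
    refine (MvPolynomial.degreeOf_mul_le _ _ _).trans ?_
    rw [MvPolynomial.degreeOf_C, MvPolynomial.degreeOf_X_of_ne (fun h => hl (hy h).symm)]

theorem pder (κ : Fin 5 → Fin 5 → L) (x y : Fin 5 → σ) (hy : Function.Injective y)
    (hxy : ∀ i j, x i ≠ y j) (a b : Fin 5) (hab : a ≠ b) :
    MvPolynomial.pderiv (y b) (bil κ x y a) = MvPolynomial.C (κ a b) *
      ∏ i, if i = a ∨ i = b then 1 else MvPolynomial.X (x i) := by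
  unfold bil
  rw [map_sum, Finset.sum_eq_single b]
  · rw [if_neg (Ne.symm hab), Derivation.leibniz, Derivation.leibniz,
      MvPolynomial.pderiv_C, MvPolynomial.pderiv_X_self,
      MvPolynomial.pderiv_eq_zero_of_notMem_vars (f := ∏ i, if i = a ∨ i = b then 1
        else (MvPolynomial.X (x i) : MvPolynomial σ L))]
    · simp only [smul_eq_mul]
      ring
    · rw [MvPolynomial.mem_vars_iff_degreeOf_ne_zero, not_not]
      exact deg_prod x (y b) (fun i => hxy i b) _
  · intro l _ hl
    split_ifs with hla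
    · exact map_zero _
    · rw [Derivation.leibniz, Derivation.leibniz, MvPolynomial.pderiv_C,
        MvPolynomial.pderiv_X_of_ne (fun h => hl (hy h)),
        MvPolynomial.pderiv_eq_zero_of_notMem_vars (f := ∏ i, if i = a ∨ i = l then 1
          else (MvPolynomial.X (x i) : MvPolynomial σ L))]
      · simp only [smul_eq_mul]
        ring
      · rw [MvPolynomial.mem_vars_iff_degreeOf_ne_zero, not_not]
        exact deg_prod x (y b) (fun i => hxy i b) _
  · intro h
    exact absurd (Finset.mem_univ _) h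

open Classical in
/-- The test point. -/
noncomputable def pt (L : Type) [Field L] (x y : Fin 5 → σ) (i : Fin 5) : σ → L := fun s =>
  if s = y i then 1 else if s = x i then 0 else if ∃ j, s = x j then 1 else 0

theorem pt_val (κ : Fin 5 → Fin 5 → L) (x y : Fin 5 → σ) (hx : Function.Injective x)
    (hy : Function.Injective y) (hxy : ∀ i j, x i ≠ y j) (a i : Fin 5) (hia : i ≠ a) :
    MvPolynomial.eval (pt L x y i) (bil κ x y a) = κ a i := by
  have h1 : ∀ l, pt L x y i (y l) = if l = i then 1 else 0 := by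
    intro l
    unfold pt
    by_cases h : l = i
    · rw [if_pos (by rw [h]), if_pos h]
    · rw [if_neg (fun e => h (hy e)), if_neg (fun e => hxy _ _ e.symm),
        if_neg (fun ⟨j, e⟩ => hxy _ _ e.symm), if_neg h]
  have h2 : ∀ m, m ≠ i → pt L x y i (x m) = 1 := by
    intro m hm
    unfold pt
    rw [if_neg (hxy _ _), if_neg (fun e => hm (hx e)), if_pos ⟨m, rfl⟩]
  unfold bil
  rw [map_sum, Finset.sum_eq_single i]
  · rw [if_neg hia, map_mul, map_mul, MvPolynomial.eval_C, MvPolynomial.eval_X, h1, if_pos rfl,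
      map_prod, Finset.prod_eq_one, mul_one, mul_one]
    intro m _
    split_ifs with h
    · exact map_one _
    · rw [MvPolynomial.eval_X]
      exact h2 m (fun e => h (Or.inr e))
  · intro l _ hl
    split_ifs
    · exact map_zero _
    · rw [map_mul, map_mul, MvPolynomial.eval_X, h1, if_neg hl, mul_zero, zero_mul]
  · intro h
    exact absurd (Finset.mem_univ _) h

theorem pt_x (x y : Fin 5 → σ) (hxy : ∀ i j, x i ≠ y j) (i : Fin 5) :
    pt L x y i (x i) = 0 := by
  unfold pt
  rw [if_neg (hxy _ _), if_pos rfl]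

end pcoAux

open pcoAux in
theorem pco : S_Pco := by
  intro L _ σ κ x y hx hy hxy hκ
  have hne : ∀ a, bil κ x y a ≠ 0 := by
    intro a h
    obtain ⟨i, hi⟩ : ∃ i : Fin 5, i ≠ a := exists_ne a
    have := pt_val κ x y hx hy hxy a i hi
    rw [h, map_zero] at this
    exact hκ a i (Ne.symm hi) this.symm
  refine ⟨hne, ?_⟩
  intro a b π hab hπ ha hb
  obtain ⟨h, hh⟩ := ha
  obtain ⟨h', hh'⟩ := hb
  have hπ0 : π ≠ 0 := hπ.ne_zero
  have h'0 : h' ≠ 0 := by
    intro e
    rw [e, mul_zero] at hh'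
    exact hne b hh'
  have d1 : MvPolynomial.degreeOf (y b) π = 0 := by
    have e1 := deg_y κ x y hy hxy b
    rw [hh', MvPolynomial.degreeOf_mul_eq hπ0 h'0] at e1
    omega
  have d2 : MvPolynomial.pderiv (y b) π = 0 := by
    apply MvPolynomial.pderiv_eq_zero_of_notMem_vars
    rw [MvPolynomial.mem_vars_iff_degreeOf_ne_zero, not_not]
    exact d1
  have e2 := pder κ x y hy hxy a b hab
  rw [hh, Derivation.leibniz, d2, smul_zero, add_zero, smul_eq_mul] at e2
  have hp : Prime π := hπ.prime
  have hdvd : π ∣ MvPolynomial.C (κ a b) *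
      ∏ i, if i = a ∨ i = b then 1 else MvPolynomial.X (x i) := ⟨_, e2.symm⟩
  have hu : IsUnit (MvPolynomial.C (κ a b) : MvPolynomial σ L) :=
    (IsUnit.mk0 _ (hκ a b hab)).map MvPolynomial.C
  rw [hu.dvd_mul_left] at hdvd
  obtain ⟨i, -, hi⟩ := hp.exists_mem_finset_dvd hdvd
  split_ifs at hi with hc
  · exact hπ.not_isUnit (isUnit_of_dvd_one hi)
  · have hXp : Irreducible (MvPolynomial.X (x i) : MvPolynomial σ L) :=
      (MvPolynomial.X_prime (i := x i)).irreducible
    have hX : MvPolynomial.X (x i) ∣ bil κ x y a := (hπ.dvd_symm hXp hi).trans ⟨h, hh⟩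
    obtain ⟨g, hg⟩ := hX
    have e3 := pt_val κ x y hx hy hxy a i (fun e => hc (Or.inl e))
    rw [hg, map_mul, MvPolynomial.eval_X, pt_x x y hxy, zero_mul] at e3
    exact hκ a i (fun e => hc (Or.inl e.symm)) e3.symm

end Pool.Agent.MP62a5ad.RI
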