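import Pool.Agent.Lib.MP_62a5ad_mp.RI.Spec2

/-!
# MP_62a5ad: the planes of a twisted polygon (module Pl)
-/

set_option autoImplicit false

namespace Pool.Agent.MP62a5ad.RI

open Matrix

theorem pl_thm : S_Pl := by
  intro n _ c K _ M v hv
  have hn0 : n ≠ 0 := NeZero.ne n
  have hpow : ∀ (t : ℕ) (k : ℤ), v (k + t * n) = (M ^ t) *ᵥ v k := by
    intro t
    induction t with
    | zero => intro k; simp
    | succ t ih =>
      intro k
      have e : k + ((t + 1 : ℕ) : ℤ) * n = (k + t * n) + n := by push_cast; ring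
      rw [e, hv, ih, Matrix.mulVec_mulVec, ← pow_succ']
  constructor
  · intro k
    show X5 (v (k + n)) (v (k + n + (c * n + 1 : ℕ))) (v (k + n + n)) (v (k + n + (2 * n : ℕ)))
      = M.adjugateᵀ *ᵥ X5 (v k) (v (k + (c * n + 1 : ℕ))) (v (k + n)) (v (k + (2 * n : ℕ)))
    rw [← X5_mulVec]
    have e1 : k + n + ((c * n + 1 : ℕ) : ℤ) = k + ((c * n + 1 : ℕ) : ℤ) + n := by ring
    have e2 : k + n + ((2 * n : ℕ) : ℤ) = k + ((2 * n : ℕ) : ℤ) + n := by ring
    rw [e1, e2, hv (k + ((c * n + 1 : ℕ) : ℤ)), hv (k + n), hv (k + ((2 * n : ℕ) : ℤ)), hv k]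
  · funext j
    have hj := j.2
    show X5 (v ((j : ℕ) : ℤ)) (v (((j : ℕ) : ℤ) + (c * n + 1 : ℕ))) (v (((j : ℕ) : ℤ) + n))
        (v (((j : ℕ) : ℤ) + (2 * n : ℕ)))
      = X5 (v ((j : ℕ) : ℤ)) ((M ^ lst n c j) *ᵥ v (((j + 1 : Fin n) : ℕ) : ℤ))
        (M *ᵥ v ((j : ℕ) : ℤ)) (M *ᵥ (M *ᵥ v ((j : ℕ) : ℤ)))
    have e3 : v (((j : ℕ) : ℤ) + n) = M *ᵥ v ((j : ℕ) : ℤ) := hv _
    have e4 : v (((j : ℕ) : ℤ) + (2 * n : ℕ)) = M *ᵥ (M *ᵥ v ((j : ℕ) : ℤ)) := by
      have e : ((j : ℕ) : ℤ) + ((2 * n : ℕ) : ℤ) = ((j : ℕ) : ℤ) + n + n := by push_cast; ring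
      rw [e, hv, hv]
    have e2 : v (((j : ℕ) : ℤ) + (c * n + 1 : ℕ))
        = (M ^ lst n c j) *ᵥ v (((j + 1 : Fin n) : ℕ) : ℤ) := by
      rcases Nat.lt_or_ge ((j : ℕ) + 1) n with h | h
      · have e1 : ((1 : Fin n) : ℕ) = 1 := by
          rw [Fin.val_one']
          exact Nat.mod_eq_of_lt (by omega)
        have e : ((j + 1 : Fin n) : ℕ) = (j : ℕ) + 1 := by
          rw [Fin.val_add, e1, Nat.mod_eq_of_lt h]
        have el : lst n c j = c := by
          unfold lst; rw [if_neg (by omega)]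
        rw [el, e, ← hpow]
        congr 1
        push_cast; ring
      · have hjn : (j : ℕ) + 1 = n := by omega
        have e : j + 1 = 0 := by
          ext
          rw [Fin.val_add, Fin.val_one', Fin.val_zero]
          rcases Nat.lt_or_ge 1 n with h | h
          · rw [Nat.mod_eq_of_lt h, hjn, Nat.mod_self]
          · have : n = 1 := by omega
            subst this
            omega
        have el : lst n c j = c + 1 := by
          unfold lst; rw [if_pos hjn]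
        rw [el, e, ← hpow]
        congr 1
        have h5 : ((n : ℕ) : ℤ) = (j : ℕ) + 1 := by exact_mod_cast hjn.symm
        rw [Fin.val_zero]
        push_cast
        rw [h5]
        ring
    rw [e2, e3, e4]

end Pool.Agent.MP62a5ad.RI
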