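import Pool.Agent.Lib.MP_62a5ad_mp.RI.Red

/-!
# MP_62a5ad: invariance under scaling (module RedA)
-/

set_option autoImplicit false

namespace Pool.Agent.MP62a5ad.RI

open Matrix

theorem ev_fsc {n : ℕ} {L : Type} [Field L] (f : PR n L) (c : Fin n → L) (w : Pg n L) :
    ev (fsc f c) w = ev f (sc c w) := by
  unfold fsc
  rw [ev_comp]
  have h2 : (fun k i => ev (sc (fun k => MvPolynomial.C (c k)) (gen n L) k i) w) = sc c w := by
    funext k i
    show ev (MvPolynomial.C (c k) * gen n L k i) w = c k * w k i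
    rw [ev_mul, ev_X]
    congr 1
    unfold ev
    rw [MvPolynomial.aeval_C]
    rfl
  rw [h2]

open redAux in
theorem redA (h1 : S_Dom) (h2 : S_Gua) : S_RedA := by
  intro n _ L _ _ d d' Λ Λ' Ξ Ξ' hL hL' hX hX' nL nL' nX nX' p q hp hI c hc
  by_cases hq : q = 0
  · subst hq
    have : fsc (0 : PR n L) c = 0 := map_zero _
    rw [this, mul_zero, mul_zero]
  obtain ⟨e, he, hf1⟩ := h1 n L d d' Λ Λ' Ξ Ξ' hL hL' hX hX' nL nL' nX nX' (p * q)
    (mul_ne_zero hp hq)
  obtain ⟨N, hN0, hN⟩ := h2 n L d d' Λ Λ' Ξ Ξ' hL hL' hX hX' nL nL' nX nX'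
  by_contra hcon
  have hD0 : p * fsc q c - fsc p c * q ≠ 0 := sub_ne_zero.2 hcon
  obtain ⟨w, hw⟩ := exists_pt _ (mul_ne_zero (mul_ne_zero (mul_ne_zero (mul_ne_zero hD0 hf1) hq)
    (fsc_ne q c hc hq)) hN0)
  rw [ev_mul, ev_mul, ev_mul, ev_mul] at hw
  have hN1 := right_ne_zero_of_mul hw
  have hw1 := left_ne_zero_of_mul hw
  have hqc := right_ne_zero_of_mul hw1
  have hw2 := left_ne_zero_of_mul hw1
  have hqw := right_ne_zero_of_mul hw2
  have hw3 := left_ne_zero_of_mul hw2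
  have hf := right_ne_zero_of_mul hw3
  have hD := left_ne_zero_of_mul hw3
  obtain ⟨g1, g2, t, ht, g3⟩ := hN w e hN1 he
  set v := sc e (bwd d (bwd d' w)) with hv
  have hpt : (fun k i => ev (sc (fun k => MvPolynomial.C (e k))
      (bwd (d.up (PR n L)) (Gg d')) k i) w) = v := by
    have e1 := bwd_up (MvPolynomial.aeval (R := L) (fun x : Fin n × Fin 5 => w x.1 x.2)) d (Gg d')
    have e2 : (fun k i => (MvPolynomial.aeval (R := L) (fun x : Fin n × Fin 5 => w x.1 x.2))
        (Gg d' k i)) = bwd (d'.up L) w := Gg_pt d' w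
    rw [e2, up_self, up_self] at e1
    funext k i
    show ev (MvPolynomial.C (e k) * bwd (d.up (PR n L)) (Gg d') k i) w = e k * _
    rw [ev_mul]
    congr 1
    · unfold ev
      rw [MvPolynomial.aeval_C]
      rfl
    · rw [← e1]
      rfl
  rw [ev_comp, hpt, ev_mul] at hf
  have hpv := left_ne_zero_of_mul hf
  have hqv := right_ne_zero_of_mul hf
  rw [ev_fsc] at hqc
  have e4 : sc (fun k => (t k)⁻¹) (fwd d' (fwd d v)) = w := by
    rw [g3]
    funext k i
    show (t k)⁻¹ * (t k * w k i) = w k i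
    rw [← mul_assoc, inv_mul_cancel₀ (ht k), one_mul]
  have e5 : sc (fun k => c k * (t k)⁻¹) (fwd d' (fwd d v)) = sc c w := by
    rw [g3]
    funext k i
    show c k * (t k)⁻¹ * (t k * w k i) = c k * w k i
    rw [mul_assoc, inv_mul_cancel_left₀ (ht k)]
  have a1 := hI v (fun k => (t k)⁻¹) g1 g2 (fun k => inv_ne_zero (ht k)) hqv (by rw [e4]; exact hqw)
  have a2 := hI v (fun k => c k * (t k)⁻¹) g1 g2 (fun k => mul_ne_zero (hc k) (inv_ne_zero (ht k)))
    hqv (by rw [e5]; exact hqc)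
  rw [e4] at a1
  rw [e5] at a2
  apply hD
  rw [ev_sub', ev_mul, ev_mul, ev_fsc, ev_fsc]
  have a3 : ev p v * (ev p w * ev q (sc c w) - ev p (sc c w) * ev q w) = 0 := by
    linear_combination ev p w * a2 - ev p (sc c w) * a1
  exact (mul_eq_zero.1 a3).resolve_left hpv

end Pool.Agent.MP62a5ad.RI
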