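import Pool.Agent.Lib.MP_62a5ad_mp.RI.EvA

/-!
# MP_62a5ad: regularity over the integers (module RegZ)
-/

set_option autoImplicit false

namespace Pool.Agent.MP62a5ad.RI

open Matrix

theorem regZ (h1 : S_Cyc) (h2 : S_Gau) : S_RegZ := by
  intro n _ c M N hn hM hN hC k m j
  obtain ⟨u, hu, ⟨α, β, γ, hd⟩, hreg⟩ := hC
  obtain ⟨hcc, hc0, hcz, -⟩ := h1 (ZMod 9)
  set E := evA.E (evA.pt c k u α β γ) with hE
  have hq : ∀ m, ∀ j : ℤ, fk^[m] u (j + n) = cyc ((c * n + 1 : ℕ) : ZMod 5) (fk^[m] u j) := by
    intro m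
    induction m with
    | zero => exact hu
    | succ m ih =>
      rw [Function.iterate_succ_apply']
      exact (h2 n c k _ ih).2.2.1
  have hup : ∀ b : Prop, ∀ [Decidable b],
      (((if b then pw N (lst n c) else pw M (lst n c)).up (PR n ℤ)).map E)
        = pw (Cm (ZMod 9)) (lst n c) := by
    intro b _
    split_ifs
    · exact evA.up_E _ N hN _
    · exact evA.up_E _ M hM _
  have horb : ∀ m, (fun j i => E (orb (pw M (lst n c)) (pw N (lst n c)) k m j i))
      = gau c k (fk^[m] u) := by
    intro m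
    induction m with
    | zero => exact evA.psi_E h1 hn c k u α β γ M hM hu hd
    | succ m ih =>
      have e := fwd_map E ((if m % 2 = 0 then pw N (lst n c) else pw M (lst n c)).up (PR n ℤ))
        (orb (pw M (lst n c)) (pw N (lst n c)) k m)
      rw [hup, ih, (h2 n c k _ (hq m)).1] at e
      rw [Function.iterate_succ_apply']
      exact e
  have e := bwd_map E ((if m % 2 = 0 then pw N (lst n c) else pw M (lst n c)).up (PR n ℤ))
    (orb (pw M (lst n c)) (pw N (lst n c)) k (m + 1))
  rw [hup, horb, (h2 n c k _ (hq (m + 1))).2.1] at e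
  intro h
  have e2 := congrFun e j
  have e3 : gau c k (bk (fk^[m + 1] u)) j = 0 := by
    rw [← e2]
    funext i
    rw [h]
    simp
  unfold gau at e3
  exact hreg m _ ((hcz _ _).1 e3)

end Pool.Agent.MP62a5ad.RI
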