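import Pool.Agent.Lib.MP_62a5ad_mp.RI.Spec

/-!
# MP_62a5ad: the relation between `Λ` and `Λ'` (helper91)
-/

set_option autoImplicit false

namespace Pool.Agent.MP62a5ad.RI

open Matrix

/-- **Rel.** -/
theorem rel : S_Rel := by
  intro n _ L _ d Λ Λ' h h' hΛ
  have h1 : ∀ k, Fg d k ≠ 0 := by
    intro k hk
    have h2 := h k
    have h3 : bwd (d.up (PR n L)) (Fg d) k = 0 := by
      show X5 (Fg d k) _ _ _ = 0
      rw [hk]
      exact X5_zero1 ..
    rw [h3] at h2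
    have h4 : (0 : PR n L) = Λ k * gen n L k 0 := congrFun h2 0
    have h5 : gen n L k 0 ≠ 0 := MvPolynomial.X_ne_zero _
    exact mul_ne_zero (hΛ k) h5 h4.symm
  have h2 : ∀ k, ev (Λ' k) (Fg d) = Λ k ^ 3 * Λ (k + 1) := by
    intro k
    have e1 := lam_pt' (R := PR n L) d Λ' h' (Fg d) k
    have e2 : bwd (d.up (PR n L)) (Fg d) = sc Λ (gen n L) := by
      funext k
      rw [h k]
      rfl
    rw [e2, fwd_sc] at e1
    obtain ⟨i, hi⟩ := Function.ne_iff.1 (h1 k)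
    have e3 : Λ k ^ 3 * Λ (k + 1) * Fg d k i = ev (Λ' k) (Fg d) * Fg d k i := congrFun e1 i
    exact (mul_right_cancel₀ hi e3).symm
  refine ⟨h1, h2, fun k hk => ?_⟩
  have h3 := h2 k
  rw [hk] at h3
  have h4 : ev (0 : PR n L) (Fg d) = 0 := by
    unfold ev
    exact map_zero _
  rw [h4] at h3
  exact mul_ne_zero (pow_ne_zero 3 (hΛ k)) (hΛ (k + 1)) h3.symm

end Pool.Agent.MP62a5ad.RI
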