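import Pool.Agent.Lib.MP_62a5ad_mp.RI.Spec

/-!
# MP_62a5ad: choice of coordinates (module Sel)
-/

set_option autoImplicit false

namespace Pool.Agent.MP62a5ad.RI

open Matrix

open IntermediateField.algebraAdjoinAdjoin in
theorem sel : S_Sel := by
  intro n L K _ _ _ x r θ hθ hx
  set S : Set K := Set.range (fun y : Fin n × Fin 5 => x y.1 y.2) with hS
  let M := AlgebraicIndependent.matroid L K
  have hΘ : M.Indep (Set.range θ) := by
    rw [AlgebraicIndependent.matroid_indep_iff]
    exact hθ.coe_range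
  have hcl : Set.range θ ⊆ M.closure S := by
    rintro _ ⟨i, rfl⟩
    rw [AlgebraicIndependent.matroid_closure_eq]
    have h1 : IsAlgebraic (IntermediateField.adjoin L S) (θ i) := hx i
    have h2 : IsAlgebraic (Algebra.adjoin L S) (θ i) := h1.restrictScalars (Algebra.adjoin L S)
    exact h2
  obtain ⟨B, hB⟩ := M.exists_isBasis S
  have h1 := hΘ.cardinalMk_le_cRk_of_subset hcl
  rw [Matroid.cRk_closure, ← hB.cardinalMk_eq_cRk] at h1
  have h2 : Cardinal.mk (Fin r) ≤ Cardinal.mk B := by
    rw [Cardinal.mk_range_eq θ hθ.injective] at h1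
    exact h1
  obtain ⟨ι⟩ := Cardinal.le_def _ _ |>.1 h2
  have hsub : ∀ i, ∃ y : Fin n × Fin 5, x y.1 y.2 = (ι i : K) := fun i => hB.subset (ι i).2
  choose y hy using hsub
  refine ⟨fun i => gen n L (y i).1 (y i).2, ?_⟩
  have h3 : (fun i => ev (gen n L (y i).1 (y i).2) x) = fun i => ((ι i : B) : K) := by
    funext i
    rw [ev_X, hy]
  rw [h3]
  have h4 : AlgebraicIndependent L ((↑) : B → K) := by
    have := hB.indep
    rw [AlgebraicIndependent.matroid_indep_iff] at this
    exact this
  exact h4.comp ι ι.injective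

end Pool.Agent.MP62a5ad.RI
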