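import Pool.Agent.Lib.MP_62a5ad_mp.RI.Kry
import Pool.Agent.Lib.MP_62a5ad_mp.RI.Cyc

/-!
# MP_62a5ad: separable characteristic polynomial (module Sep)
-/

set_option autoImplicit false

namespace Pool.Agent.MP62a5ad.RI

open Matrix

namespace sepAux

theorem coeffs : ∀ i : Fin 5, (Cm (ZMod 9)).charpoly.coeff (i : ℕ) = if i = 0 then -1 else 0 := by
  have : Fact (1 < 9) := ⟨by norm_num⟩
  have h := kry_thm.1 (ZMod 9) (Cm (ZMod 9))
  rw [kry_thm.2, Matrix.mul_one, Matrix.one_mul] at h
  intro i
  have h2 := congrFun (congrFun h i) 4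
  change (if i = 4 + 1 then (1 : ZMod 9) else 0)
    = if (4 : Fin 5) = 4 then -(Cm (ZMod 9)).charpoly.coeff (i : ℕ) else _ at h2
  rw [if_pos rfl] at h2
  have h3 : (Cm (ZMod 9)).charpoly.coeff (i : ℕ) = -(if i = 4 + 1 then (1 : ZMod 9) else 0) := by
    rw [h2, neg_neg]
  rw [h3]
  have e : (4 + 1 : Fin 5) = 0 := by decide
  rw [e]
  split_ifs
  · rfl
  · exact neg_zero

theorem exists_h (M : Matrix (Fin 5) (Fin 5) ℤ) (hM : IsC9 M) : ∃ h : Polynomial ℤ,
    M.charpoly = Polynomial.X ^ 5 - 1 + Polynomial.C 9 * h := by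
  have hdvd : Polynomial.C (9 : ℤ) ∣ M.charpoly - (Polynomial.X ^ 5 - 1) := by
    rw [Polynomial.C_dvd_iff_dvd_coeff]
    intro i
    rw [Polynomial.coeff_sub, Polynomial.coeff_sub, Polynomial.coeff_X_pow, Polynomial.coeff_one]
    have hmap : ∀ j : ℕ, ((M.charpoly.coeff j : ℤ) : ZMod 9) = (Cm (ZMod 9)).charpoly.coeff j := by
      intro j
      have e1 := Matrix.charpoly_map M (Int.castRingHom (ZMod 9))
      have e2 : M.map (Int.castRingHom (ZMod 9)) = Cm (ZMod 9) := hM
      rw [e2] at e1
      rw [e1, Polynomial.coeff_map]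
      rfl
    rcases lt_trichotomy i 5 with hi | hi | hi
    · have h1 := hmap i
      rw [coeffs ⟨i, hi⟩] at h1
      rw [if_neg (by omega)]
      rw [show (9 : ℤ) = ((9 : ℕ) : ℤ) by rfl, ← ZMod.intCast_zmod_eq_zero_iff_dvd]
      push_cast
      rw [h1]
      by_cases hi0 : i = 0
      · subst hi0
        simp
      · rw [if_neg (fun h => hi0 (by simpa using congrArg Fin.val h)), if_neg hi0]
        simp
    · subst hi
      have hm := (Matrix.charpoly_monic M).leadingCoeff
      have hd : M.charpoly.natDegree = 5 := by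
        rw [Matrix.charpoly_natDegree_eq_dim]; simp
      unfold Polynomial.leadingCoeff at hm
      rw [hd] at hm
      rw [hm]
      simp
    · have hd : M.charpoly.natDegree = 5 := by
        rw [Matrix.charpoly_natDegree_eq_dim]; simp
      rw [Polynomial.coeff_eq_zero_of_natDegree_lt (by omega), if_neg (by omega),
        if_neg (by omega)]
      simp
  obtain ⟨h, hh⟩ := hdvd
  exact ⟨h, by rw [← hh]; ring⟩

theorem no_frac (F : Type) [Field F] [CharZero F] (r : F) (hr : IsIntegral ℤ r)
    (h : 5 + 9 * r = 0) : False := by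
  have h1 : r = algebraMap ℚ F (-5 / 9) := by
    rw [map_div₀, map_neg, map_ofNat, map_ofNat]
    have h9 : (9 : F) ≠ 0 := by norm_num
    rw [eq_div_iff h9]
    linear_combination h
  rw [h1, isIntegral_algebraMap_iff (algebraMap ℚ F).injective] at hr
  obtain ⟨z, hz⟩ := IsIntegrallyClosed.isIntegral_iff.1 hr
  have h2 : ((z : ℤ) : ℚ) = -5 / 9 := by simpa using hz
  have h3 : (9 * z : ℤ) = -5 := by
    have : ((9 * z : ℤ) : ℚ) = ((-5 : ℤ) : ℚ) := by
      push_cast
      rw [h2]
      norm_num
    exact_mod_cast this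
  omega

end sepAux

open sepAux in
theorem sep : S_Sep := by
  intro K _ _ M hM
  constructor
  · have hcp : (M.map (Int.cast : ℤ → K)).charpoly = M.charpoly.map (Int.castRingHom K) :=
      Matrix.charpoly_map M (Int.castRingHom K)
    rw [hcp]
    obtain ⟨h, hh⟩ := exists_h M hM
    refine (Polynomial.isCoprime_iff_aeval_ne_zero_of_isAlgClosed K (AlgebraicClosure K) _ _).2 ?_
    intro α
    by_contra hcon
    push Not at hcon
    obtain ⟨a1, a2⟩ := hcon
    have : CharZero (AlgebraicClosure K) :=
      charZero_of_injective_algebraMap (algebraMap K (AlgebraicClosure K)).injective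
    rw [Polynomial.derivative_map] at a2
    have tr : ∀ g : Polynomial ℤ, Polynomial.aeval α (g.map (Int.castRingHom K))
        = Polynomial.aeval α g := fun g => by
      rw [Polynomial.aeval_def, Polynomial.eval₂_map, Polynomial.aeval_def]
      congr 1
    rw [tr] at a1 a2
    have hint : IsIntegral ℤ α := ⟨M.charpoly, Matrix.charpoly_monic M, a1⟩
    rw [hh] at a1 a2
    set r : Polynomial ℤ := Polynomial.X * h.derivative - 5 * h with hr
    have hri : IsIntegral ℤ (Polynomial.aeval α r) := by
      exact IsIntegral.of_mem_of_fg _ (hint.fg_adjoin_singleton) _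
        (Polynomial.aeval_mem_adjoin_singleton _ _)
    refine no_frac (AlgebraicClosure K) _ hri ?_
    rw [hr]
    simp only [map_sub, map_add, map_mul, map_pow, Polynomial.aeval_X, map_one, map_ofNat,
      Polynomial.derivative_sub, Polynomial.derivative_add, Polynomial.derivative_mul,
      Polynomial.derivative_X_pow, Polynomial.derivative_one, Polynomial.derivative_C,
      zero_mul, zero_add, sub_zero, Polynomial.aeval_C] at a1 a2 ⊢
    simp at a1 a2 ⊢
    linear_combination α * a2 - 5 * a1
  · have h1 : (M.map (Int.cast : ℤ → K)).det = ((M.det : ℤ) : K) :=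
      (RingHom.map_det (Int.castRingHom K) M).symm
    rw [h1]
    have h2 : ((M.det : ℤ) : ZMod 9) = (Cm (ZMod 9)).det := by
      have := RingHom.map_det (Int.castRingHom (ZMod 9)) M
      have e2 : (Int.castRingHom (ZMod 9)).mapMatrix M = Cm (ZMod 9) := hM
      rw [e2] at this
      exact this
    rw [(cyc_thm (ZMod 9)).2.2.2.2.2.2.2.2.2] at h2
    intro h3
    have h4 : M.det = 0 := by exact_mod_cast h3
    rw [h4, Int.cast_zero] at h2
    exact absurd h2 (by decide)

end Pool.Agent.MP62a5ad.RI
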