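import Pool.Agent.Lib.MP_62a5ad_mp.RI.Spec

/-!
# MP_62a5ad, RI/Sys: the system of functional equations
-/

set_option autoImplicit false

namespace Pool.Agent.MP62a5ad.RI

theorem sys (h1 : S_MHf) (h2 : S_Cmp) : S_Sys := by
  intro n _ L _ d d' Λ Λ' Ξ Ξ' hΛ hΛ' hΞ hΞ' nΛ nΛ' nΞ nΞ' P Q a hP hQ hPQ mP mQ hE
  obtain ⟨mP', nP', -⟩ := h2 n L d' Ξ Ξ' hΞ hΞ' nΞ nΞ' a P mP
  obtain ⟨mQ', nQ', -⟩ := h2 n L d' Ξ Ξ' hΞ hΞ' nΞ nΞ' a Q mQ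
  have hP' := nP' hP
  have hQ' := nQ' hQ
  obtain ⟨P1, Q1, G, hr, eP, eQ⟩ :=
    UniqueFactorizationMonoid.exists_reduced_factors (ev P (Fg d')) hP' (ev Q (Fg d'))
  have hG : G ≠ 0 := by
    intro h
    apply hP'
    rw [← eP, h, zero_mul]
  have hP1 : P1 ≠ 0 := by
    intro h
    apply hP'
    rw [← eP, h, mul_zero]
  have hQ1 : Q1 ≠ 0 := by
    intro h
    apply hQ'
    rw [← eQ, h, mul_zero]
  obtain ⟨g, mG⟩ := h1 n L _ G P1 (by rw [eP]; exact mP') (by rw [eP]; exact hP')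
  obtain ⟨b, mP1⟩ := h1 n L _ P1 G (by rw [mul_comm, eP]; exact mP')
    (by rw [mul_comm, eP]; exact hP')
  obtain ⟨b', mQ1⟩ := h1 n L _ Q1 G (by rw [mul_comm, eQ]; exact mQ')
    (by rw [mul_comm, eQ]; exact hQ')
  have hGD : ev G (Fg d) ≠ 0 := (h2 n L d Λ Λ' hΛ hΛ' nΛ nΛ' g G mG).2.1 hG
  have hPD : ev P (fwd (d'.up (PR n L)) (Fg d)) = ev G (Fg d) * ev P1 (Fg d) := by
    rw [← ev_Fg, ← eP, ev_mul]
  have hQD : ev Q (fwd (d'.up (PR n L)) (Fg d)) = ev G (Fg d) * ev Q1 (Fg d) := by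
    rw [← ev_Fg, ← eQ, ev_mul]
  rw [hPD, hQD] at hE
  have hE2 : P * ev Q1 (Fg d) = ev P1 (Fg d) * Q := by
    apply mul_left_cancel₀ hGD
    linear_combination hE
  have hdvd : P ∣ ev P1 (Fg d) := by
    apply hPQ.dvd_of_dvd_mul_right
    exact ⟨ev Q1 (Fg d), hE2.symm⟩
  obtain ⟨H, hH⟩ := hdvd
  have hQH : ev Q1 (Fg d) = H * Q := by
    apply mul_left_cancel₀ hP
    rw [hE2, hH]
    ring
  exact ⟨P1, Q1, G, H, b, b', hP1, hQ1, hr, mP1, mQ1, eP.symm, eQ.symm,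
    by rw [hH, mul_comm], hQH⟩

end Pool.Agent.MP62a5ad.RI
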