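import Pool.Agent.Lib.MP_62a5ad_mp.RI.Spec

/-!
# MP_62a5ad: transitivity of algebraicity (module Tow)
-/

set_option autoImplicit false

namespace Pool.Agent.MP62a5ad.RI

open Matrix

theorem tow : S_Tow := by
  intro n L K _ _ _ v w θ h hθ
  let F : IntermediateField (fld L w) K := algebraicClosure (fld L w) K
  have hF' : fld L v ≤ F.restrictScalars L := by
    refine IntermediateField.adjoin_le_iff.2 ?_
    rintro _ ⟨x, rfl⟩
    exact mem_algebraicClosure_iff.2 (h x.1 x.2)
  have hm : ∀ x : fld L v, (x : K) ∈ F := fun x => hF' x.2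
  let ι : fld L v →+* F :=
    { toFun := fun x => ⟨(x : K), hm x⟩
      map_one' := rfl
      map_mul' := fun _ _ => rfl
      map_zero' := rfl
      map_add' := fun _ _ => rfl }
  have hι : (algebraMap F K).comp ι = algebraMap (fld L v) K := rfl
  obtain ⟨p, hp, hpθ⟩ := hθ
  have h2 : IsAlgebraic F θ := by
    refine ⟨p.map ι, (Polynomial.map_ne_zero_iff (RingHom.injective _)).2 hp, ?_⟩
    rw [Polynomial.aeval_def, Polynomial.eval₂_map, hι]
    rw [Polynomial.aeval_def] at hpθ
    exact hpθ
  exact h2.restrictScalars (fld L w)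

end Pool.Agent.MP62a5ad.RI
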