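import Pool.Agent.Lib.MP_62a5ad_mp.RI.Spec2

/-!
# MP_62a5ad: six elements of a field generated by five elements (module Tr5)
-/

set_option autoImplicit false

namespace Pool.Agent.MP62a5ad.RI

open Matrix

theorem tr5 : S_Tr5 := by
  intro K Ω _ _ _ b F hF hI
  set E := IntermediateField.adjoin K (Set.range b) with hE
  let F' : Fin 6 → E := fun i => ⟨F i, hF i⟩
  have hF' : AlgebraicIndependent K F' := by
    rw [algebraicIndependent_iff] at hI ⊢
    intro p hp
    apply hI p
    have e : MvPolynomial.aeval F p = E.val (MvPolynomial.aeval F' p) := by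
      rw [← AlgHom.comp_apply, MvPolynomial.comp_aeval]
      rfl
    rw [e, hp, map_zero]
  let b' : Fin 5 → E := fun j => ⟨b j, IntermediateField.subset_adjoin K _ ⟨j, rfl⟩⟩
  have hval : ∀ r : MvPolynomial (Fin 5) K,
      ((MvPolynomial.aeval b' r : E) : Ω) = MvPolynomial.aeval b r := by
    intro r
    have : E.val (MvPolynomial.aeval b' r) = MvPolynomial.aeval b r := by
      rw [← AlgHom.comp_apply, MvPolynomial.comp_aeval]
      rfl
    exact this
  have hmem : ∀ r : MvPolynomial (Fin 5) K,
      MvPolynomial.aeval b' r ∈ Algebra.adjoin K (Set.range b') := by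
    intro r
    rw [Algebra.adjoin_range_eq_range_aeval]
    exact ⟨r, rfl⟩
  haveI halg : Algebra.IsAlgebraic (Algebra.adjoin K (Set.range b')) E := by
    constructor
    intro x
    obtain ⟨r, s, hrs⟩ := (IntermediateField.mem_adjoin_range_iff K b (x : Ω)).1 x.2
    have hx : x = MvPolynomial.aeval b' r / MvPolynomial.aeval b' s := by
      apply Subtype.ext
      rw [hrs]
      push_cast
      rw [hval, hval]
    rw [hx, div_eq_mul_inv]
    have a1 : IsAlgebraic (Algebra.adjoin K (Set.range b')) (MvPolynomial.aeval b' r : E) :=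
      isAlgebraic_algebraMap (⟨_, hmem r⟩ : Algebra.adjoin K (Set.range b'))
    have a2 : IsAlgebraic (Algebra.adjoin K (Set.range b')) (MvPolynomial.aeval b' s : E) :=
      isAlgebraic_algebraMap (⟨_, hmem s⟩ : Algebra.adjoin K (Set.range b'))
    exact a1.mul a2.inv
  have h1 : Algebra.trdeg K E ≤ Cardinal.mk (Set.range b') := Algebra.IsAlgebraic.trdeg_le_cardinalMk K _
  have h2 := hF'.cardinalMk_le_trdeg
  have h3 : Cardinal.mk (Set.range b') ≤ Cardinal.mk (Fin 5) := Cardinal.mk_range_le
  have h4 := h2.trans (h1.trans h3)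
  rw [Cardinal.mk_fin, Cardinal.mk_fin] at h4
  have h5 : (6 : ℕ) ≤ 5 := by exact_mod_cast h4
  omega

end Pool.Agent.MP62a5ad.RI
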