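import Pool.Agent.Lib.MP_62a5ad_mp.RI.Spec

/-!
# MP_62a5ad: transfer of an irreducible polynomial (module Tra)
-/

set_option autoImplicit false

namespace Pool.Agent.MP62a5ad.RI

open Matrix

namespace traAux

variable {n : ℕ}

open Classical in
/-- The equivalence of the index sets. -/
noncomputable def eqv (j : Fin n) : Fin n × Fin 5 ≃ Fin 5 ⊕ {x : Fin n × Fin 5 // x.1 ≠ j} where
  toFun := fun x => if h : x.1 = j then Sum.inl x.2 else Sum.inr ⟨x, h⟩
  invFun := Sum.elim (fun a => (j, a)) (fun y => y.1)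
  left_inv := by
    intro x
    by_cases h : x.1 = j
    · simp only [dif_pos h, Sum.elim_inl]
      exact Prod.ext h.symm rfl
    · simp only [dif_neg h, Sum.elim_inr]
  right_inv := by
    rintro (a | y)
    · simp
    · simp [y.2]

/-- The equivalence of the polynomial rings. -/
noncomputable def Φ (L : Type) [Field L] (j : Fin n) :
    PR n L ≃ₐ[L] MvPolynomial (Fin 5) (MvPolynomial {x : Fin n × Fin 5 // x.1 ≠ j} L) :=
  (MvPolynomial.renameEquiv L (eqv j)).trans (MvPolynomial.sumAlgEquiv L (Fin 5) _)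

theorem eqv_j (j : Fin n) (a : Fin 5) : eqv j (j, a) = Sum.inl a := by
  unfold eqv
  simp

theorem eqv_o (j : Fin n) (y : {x : Fin n × Fin 5 // x.1 ≠ j}) : eqv j y.1 = Sum.inr y := by
  unfold eqv
  simp [y.2]

theorem Φ_gen (L : Type) [Field L] (j : Fin n) (a : Fin 5) :
    Φ L j (gen n L j a) = MvPolynomial.X a := by
  show MvPolynomial.sumAlgEquiv L (Fin 5) _ (MvPolynomial.rename (eqv j) (MvPolynomial.X (j, a))) = _
  rw [MvPolynomial.rename_X, eqv_j, MvPolynomial.sumAlgEquiv_X_inl]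

theorem Φ_C (L : Type) [Field L] (j : Fin n) (c : L) :
    Φ L j (MvPolynomial.C c) = MvPolynomial.C (MvPolynomial.C c) := by
  show MvPolynomial.sumAlgEquiv L (Fin 5) _ (MvPolynomial.rename (eqv j) (MvPolynomial.C c)) = _
  rw [MvPolynomial.rename_C, MvPolynomial.sumAlgEquiv_C_inl]

theorem Φ_rename (L : Type) [Field L] (j : Fin n)
    (f : MvPolynomial {x : Fin n × Fin 5 // x.1 ≠ j} L) :
    Φ L j (MvPolynomial.rename Subtype.val f) = MvPolynomial.C f := by
  have h : ((Φ L j : PR n L →ₐ[L] _).comp (MvPolynomial.rename Subtype.val))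
      = IsScalarTower.toAlgHom L (MvPolynomial {x : Fin n × Fin 5 // x.1 ≠ j} L)
        (MvPolynomial (Fin 5) (MvPolynomial {x : Fin n × Fin 5 // x.1 ≠ j} L)) := by
    apply MvPolynomial.algHom_ext
    intro y
    show Φ L j (MvPolynomial.rename Subtype.val (MvPolynomial.X y)) = MvPolynomial.C (MvPolynomial.X y)
    rw [MvPolynomial.rename_X]
    show MvPolynomial.sumAlgEquiv L (Fin 5) _ (MvPolynomial.rename (eqv j) (MvPolynomial.X y.1)) = _
    rw [MvPolynomial.rename_X, eqv_o, MvPolynomial.sumAlgEquiv_X_inr]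
  exact DFunLike.congr_fun h f

end traAux

open traAux in
theorem tra (h1 : S_Cub) : S_Tra := by
  intro n L _ j p κ hκ hp hcop
  rw [← MulEquiv.irreducible_iff (Φ L j)]
  have h := h1 (MvPolynomial {x : Fin n × Fin 5 // x.1 ≠ j} L) p
    (fun a b c => MvPolynomial.C (κ a b c))
    (fun a b c => (IsUnit.mk0 _ (hκ a b c)).map MvPolynomial.C) hp hcop
  convert h using 1
  rw [map_sum]
  refine Finset.sum_congr rfl fun a _ => ?_
  rw [map_sum]
  refine Finset.sum_congr rfl fun b _ => ?_
  rw [map_sum]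
  refine Finset.sum_congr rfl fun c _ => ?_
  split_ifs
  · simp only [map_mul, Φ_gen, Φ_C, Φ_rename]
  · exact map_zero _

end Pool.Agent.MP62a5ad.RI
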