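import Pool.Agent.Lib.MP_62a5ad_mp.RI.Spec

/-!
# MP_62a5ad, RI: common prime factors of two compositions with the half step
-/

set_option autoImplicit false

namespace Pool.Agent.MP62a5ad.RI

open Matrix

namespace u1Aux

variable {n : ℕ} {L : Type} [CommRing L]

/-- evaluation as a homomorphism -/
noncomputable def evh {R : Type} [CommRing R] [Algebra L R] (v : Pg n R) : PR n L →ₐ[L] R :=
  MvPolynomial.aeval (fun x : Fin n × Fin 5 => v x.1 x.2)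

theorem evh_apply {R : Type} [CommRing R] [Algebra L R] (v : Pg n R) (f : PR n L) :
    evh v f = ev f v := rfl

/-- an element all of whose irreducible factors divide `y` divides a power of `y` -/
theorem dvd_pow' {A : Type} [CommRing A] [IsDomain A] [UniqueFactorizationMonoid A] (y : A) :
    ∀ x : A, x ≠ 0 → (∀ ρ, Irreducible ρ → ρ ∣ x → ρ ∣ y) → ∃ N : ℕ, x ∣ y ^ N := by
  intro x
  induction x using UniqueFactorizationMonoid.induction_on_prime with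
  | h₁ => intro h; exact absurd rfl h
  | h₂ x hx => intro _ _; exact ⟨0, hx.dvd⟩
  | h₃ x p hx hp ih =>
    intro hpx h
    obtain ⟨N, hN⟩ := ih hx fun ρ hρ hd => h ρ hρ (hd.mul_left p)
    refine ⟨N + 1, ?_⟩
    rw [pow_succ, mul_comm p x]
    exact mul_dvd_mul hN (h p hp.irreducible (dvd_mul_right p x))

end u1Aux

open u1Aux in
theorem u1 (h1 : S_Rel) (h2 : S_MHf) (h3 : S_Cmp) : S_U1 := by
  intro n _ L _ d Λ Λ' hΛ hΛ' hn P Q a b hP hQ hPQ hPa hQb π hπ hπP hπQ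
  obtain ⟨_, hrel, hn'⟩ := h1 n L d Λ Λ' hΛ hΛ' hn
  obtain ⟨hP1, hP2, _⟩ := h3 n L d Λ Λ' hΛ hΛ' hn hn' a P hPa
  obtain ⟨b', hb'⟩ : ∃ b', MH b' π := by
    obtain ⟨h, hh⟩ := hπP
    rw [hh] at hP1 hP2
    exact h2 n L _ π h hP1 (hP2 hP)
  obtain ⟨_, _, hπG⟩ := h3 n L d Λ Λ' hΛ hΛ' hn hn' b' π hb'
  have hx : ev π (Gg d) ≠ 0 := hπG hπ.ne_zero
  have hG : fwd (d.up (PR n L)) (Gg d) = sc Λ' (gen n L) := funext fun k => hΛ' k
  have hF : bwd (d.up (PR n L)) (Fg d) = sc Λ (gen n L) := funext fun k => hΛ k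
  have hdiv : ∀ (f : PR n L) (e : Fin n → ℕ), MH e f → π ∣ ev f (Fg d) →
      ev π (Gg d) ∣ (∏ k, Λ' k ^ e k) * f := by
    intro f e hf hd
    have h4 := map_dvd (evh (Gg d)) hd
    rw [evh_apply, evh_apply, ev_Fg, hG, hf (PR n L), ev_gen] at h4
    exact h4
  have hprod : ∀ (ρ : PR n L) (e : Fin n → ℕ), Prime ρ → ρ ∣ ∏ k, Λ' k ^ e k → ρ ∣ ∏ k, Λ' k := by
    intro ρ e hρ hd
    obtain ⟨k, _, hk⟩ := hρ.exists_mem_finset_dvd hd
    exact (hρ.dvd_of_dvd_pow hk).trans (Finset.dvd_prod_of_mem _ (Finset.mem_univ k))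
  obtain ⟨N, hN⟩ := dvd_pow' (∏ k, Λ' k) (ev π (Gg d)) hx (by
    intro ρ hρ hd
    have hρ' : Prime ρ := hρ.prime
    rcases hρ'.dvd_or_dvd (hd.trans (hdiv P a hPa hπP)) with h4 | h4
    · exact hprod ρ a hρ' h4
    · rcases hρ'.dvd_or_dvd (hd.trans (hdiv Q b hQb hπQ)) with h5 | h5
      · exact hprod ρ b hρ' h5
      · exact absurd (hPQ h4 h5) hρ.not_isUnit)
  have h4 := map_dvd (evh (Fg d)) hN
  rw [map_pow, map_prod, evh_apply, ev_Gg, hF, hb' (PR n L), ev_gen] at h4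
  have h5 : π ∣ (∏ k, (evh (Fg d)) (Λ' k)) ^ N := (dvd_mul_left _ _).trans h4
  have hπ' : Prime π := hπ.prime
  obtain ⟨k, _, hk⟩ := hπ'.exists_mem_finset_dvd (hπ'.dvd_of_dvd_pow h5)
  rw [evh_apply, hrel k] at hk
  rcases hπ'.dvd_or_dvd hk with h6 | h6
  · exact ⟨k, hπ'.dvd_of_dvd_pow h6⟩
  · exact ⟨k + 1, h6⟩

end Pool.Agent.MP62a5ad.RI
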