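import Pool.Agent.Lib.MP_62a5ad_mp.RI.Spec2

/-!
# MP_62a5ad: base change from the integers (module UpK)
-/

set_option autoImplicit false

namespace Pool.Agent.MP62a5ad.RI

open Matrix

namespace upKAux

theorem map_pow' {R S : Type} [CommRing R] [CommRing S] (φ : R →+* S)
    (M : Matrix (Fin 5) (Fin 5) R) (c : ℕ) : (M ^ c).map φ = (M.map φ) ^ c := by
  have := map_pow (RingHom.mapMatrix (m := Fin 5) φ) M c
  simpa using this

theorem adj_map {R S : Type} [CommRing R] [CommRing S] (φ : R →+* S)
    (M : Matrix (Fin 5) (Fin 5) R) : (M.adjugateᵀ).map φ = (M.map φ).adjugateᵀ := by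
  have := RingHom.map_adjugate φ M
  rw [Matrix.transpose_map]
  rw [RingHom.mapMatrix_apply, RingHom.mapMatrix_apply] at this
  rw [this]

variable {n : ℕ} [NeZero n] (K : Type) [Field K]

/-- The base change of polynomials. -/
noncomputable def io : PR n ℤ →+* PR n K := MvPolynomial.map (Int.castRingHom K)

omit [NeZero n] in
theorem io_gen (j : Fin n) (i : Fin 5) : io (n := n) K (gen n ℤ j i) = gen n K j i := by
  simp [io, gen]

omit [NeZero n] in
theorem up_M (M : Matrix (Fin 5) (Fin 5) ℤ) :
    (M.map (algebraMap ℤ (PR n ℤ))).map (io (n := n) K)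
      = (M.map (Int.cast : ℤ → K)).map (algebraMap K (PR n K)) := by
  ext i j : 2
  simp only [Matrix.map_apply]
  simp [io]

omit [NeZero n] in
theorem up_io (M : Matrix (Fin 5) (Fin 5) ℤ) (c : Fin n → ℕ) :
    ((pw M c).up (PR n ℤ)).map (io (n := n) K)
      = (pw (M.map (Int.cast : ℤ → K)) c).up (PR n K) := by
  unfold Dat.up Dat.map pw
  have e1 := up_M (n := n) K M
  have e2 : (fun k => ((M ^ c k).map (algebraMap ℤ (PR n ℤ))).map (io (n := n) K))
      = fun k => ((M.map (Int.cast : ℤ → K)) ^ c k).map (algebraMap K (PR n K)) := by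
    funext k
    rw [up_M]
    congr 1
    exact map_pow' (Int.castRingHom K) M (c k)
  simp only [e1, e2]

theorem psi_io (M : Matrix (Fin 5) (Fin 5) ℤ) (c : Fin n → ℕ) (k : Fin n) :
    (fun j i => io (n := n) K (psi (pw M c) k j i)) = psi (pw (M.map (Int.cast : ℤ → K)) c) k := by
  have hg : ∀ j, (fun i => io (n := n) K (gen n ℤ j i)) = gen n K j := by
    intro j; funext i; exact io_gen K j i
  have hM : (((pw M c).up (PR n ℤ)).Mᵀ).map (io (n := n) K)
      = ((pw (M.map (Int.cast : ℤ → K)) c).up (PR n K)).Mᵀ := by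
    rw [Matrix.transpose_map]
    exact congrArg Matrix.transpose (up_M (n := n) K M)
  have hB : ((((pw M c).up (PR n ℤ)).B (k - 1)).adjugateᵀ).map (io (n := n) K)
      = (((pw (M.map (Int.cast : ℤ → K)) c).up (PR n K)).B (k - 1)).adjugateᵀ := by
    rw [adj_map]
    have := congrArg (fun d : Dat n (PR n K) => d.B (k - 1)) (up_io (n := n) K M c)
    exact congrArg (fun B : Matrix (Fin 5) (Fin 5) (PR n K) => B.adjugateᵀ) this
  funext j
  by_cases hj : j = k - 1
  · unfold psi
    simp only [hj, if_true]
    rw [map_mulVec', hB]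
    congr 1
    have w1 : (fun i => io (n := n) K ((((pw M c).up (PR n ℤ)).Mᵀ *ᵥ gen n ℤ k) i))
        = ((pw (M.map (Int.cast : ℤ → K)) c).up (PR n K)).Mᵀ *ᵥ gen n K k := by
      rw [map_mulVec', hM, hg]
    have w2 : (fun i => io (n := n) K ((((pw M c).up (PR n ℤ)).Mᵀ *ᵥ
          (((pw M c).up (PR n ℤ)).Mᵀ *ᵥ gen n ℤ k)) i))
        = ((pw (M.map (Int.cast : ℤ → K)) c).up (PR n K)).Mᵀ *ᵥ
          (((pw (M.map (Int.cast : ℤ → K)) c).up (PR n K)).Mᵀ *ᵥ gen n K k) := by
      rw [map_mulVec', hM, w1]
    funext i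
    simp only [Pi.add_apply, Pi.smul_apply, smul_eq_mul, map_add, map_mul, io_gen]
    have g1 := congrFun w1 i
    have g2 := congrFun w2 i
    rw [g1, g2]
  · funext i
    unfold psi
    simp only [hj, if_false]
    exact io_gen K j i

theorem io_inj [CharZero K] : Function.Injective (io (n := n) K) :=
  MvPolynomial.map_injective _ Int.cast_injective

end upKAux

open upKAux in
theorem upK : S_UpK := by
  intro n _ K _ _ M N c k
  have hz : ∀ v : V5 (PR n ℤ), v ≠ 0 → (fun i => io (n := n) K (v i)) ≠ 0 := by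
    intro v hv h
    apply hv
    funext i
    have := congrFun h i
    exact io_inj (n := n) K (by rw [this]; simp)
  constructor
  · intro hR m j
    have hup : ∀ b : Prop, ∀ [Decidable b],
        (((if b then pw N c else pw M c).up (PR n ℤ)).map (io (n := n) K))
          = (if b then pw (N.map (Int.cast : ℤ → K)) c
            else pw (M.map (Int.cast : ℤ → K)) c).up (PR n K) := by
      intro b _
      split_ifs
      · exact up_io K N c
      · exact up_io K M c
    have horb : ∀ m, (fun j i => io (n := n) K (orb (pw M c) (pw N c) k m j i))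
        = orb (pw (M.map (Int.cast : ℤ → K)) c) (pw (N.map (Int.cast : ℤ → K)) c) k m := by
      intro m
      induction m with
      | zero => exact psi_io K M c k
      | succ m ih =>
        have e := fwd_map (io (n := n) K) ((if m % 2 = 0 then pw N c else pw M c).up (PR n ℤ))
          (orb (pw M c) (pw N c) k m)
        rw [hup, ih] at e
        exact e
    have e := bwd_map (io (n := n) K) ((if m % 2 = 0 then pw N c else pw M c).up (PR n ℤ))
      (orb (pw M c) (pw N c) k (m + 1))
    rw [hup, horb] at e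
    rw [← e]
    exact hz _ (hR m j)
  · rintro ⟨η, h1, h2⟩
    have hx : (fun j i => io (n := n) K (xpt (pw M c) k η j i))
        = xpt (pw (M.map (Int.cast : ℤ → K)) c) k (fun i => (η i : K)) := by
      have hb := bwd_map (io (n := n) K) ((pw M c).up (PR n ℤ)) (psi (pw M c) k)
      rw [up_io, psi_io] at hb
      have hg : ∀ j, (fun i => io (n := n) K (gen n ℤ j i)) = gen n K j := by
        intro j; funext i; exact io_gen K j i
      have hM : (((pw M c).up (PR n ℤ)).Mᵀ).map (io (n := n) K)
          = ((pw (M.map (Int.cast : ℤ → K)) c).up (PR n K)).Mᵀ := by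
        rw [Matrix.transpose_map]
        exact congrArg Matrix.transpose (up_M (n := n) K M)
      funext j
      by_cases hj : j = k
      · unfold xpt
        simp only [hj, if_true]
        rw [X5_map, hg]
        have w1 : (fun i => io (n := n) K ((((pw M c).up (PR n ℤ)).Mᵀ *ᵥ gen n ℤ k) i))
            = ((pw (M.map (Int.cast : ℤ → K)) c).up (PR n K)).Mᵀ *ᵥ gen n K k := by
          rw [map_mulVec', hM, hg]
        have w2 : (fun i => io (n := n) K ((((pw M c).up (PR n ℤ)).Mᵀ *ᵥ
              (((pw M c).up (PR n ℤ)).Mᵀ *ᵥ gen n ℤ k)) i))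
            = ((pw (M.map (Int.cast : ℤ → K)) c).up (PR n K)).Mᵀ *ᵥ
              (((pw (M.map (Int.cast : ℤ → K)) c).up (PR n K)).Mᵀ *ᵥ gen n K k) := by
          rw [map_mulVec', hM, w1]
        rw [w1, w2]
        congr 1
        funext i
        simp [io]
      · unfold xpt
        simp only [hj, if_false]
        exact congrFun hb j
    refine ⟨fun i => (η i : K), ?_, ?_⟩
    · rw [← hx]
      exact hz _ h1
    · intro j
      have e := fwd_map (io (n := n) K) ((pw M c).up (PR n ℤ)) (xpt (pw M c) k η)
      rw [up_io, hx] at e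
      rw [← e]
      exact hz _ (h2 j)

end Pool.Agent.MP62a5ad.RI
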