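import Pool.Agent.Lib.MP_62a5ad_mp.RI.Spec2

/-!
# MP_62a5ad: from twisted polygons to vertices (module Wrap)
-/

set_option autoImplicit false

namespace Pool.Agent.MP62a5ad.RI

open Matrix

namespace wrapAux

theorem ev_spec {n : ℕ} {K : Type} [Field K] (M : Matrix (Fin 5) (Fin 5) K)
    (f : MvPolynomial (Co n) K) (x : Fin n → V5 K) : ev (spec M f) x = vl f x M := by
  unfold ev spec vl
  rw [MvPolynomial.aeval_def, MvPolynomial.aeval_def]
  have h := MvPolynomial.eval₂_comp_left (MvPolynomial.eval₂Hom (algebraMap K K)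
    (fun z : Fin n × Fin 5 => x z.1 z.2)) (algebraMap K (PR n K))
    (Sum.elim (fun z => MvPolynomial.X z) (fun z => MvPolynomial.C (M z.1 z.2)) : Co n → PR n K) f
  rw [MvPolynomial.coe_eval₂Hom] at h
  rw [h]
  unfold MvPolynomial.eval
  rw [MvPolynomial.coe_eval₂Hom]
  congr 1
  · ext a; simp
  · funext z
    rcases z with z | z <;> simp

end wrapAux

open wrapAux in
theorem wrap (h1 : S_Ext) (h2 : S_Geo) : S_Wrap := by
  intro n _ c K _ M p q hn hM hI x c' hF hG hc hq1 hq2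
  obtain ⟨v, hv, hvx⟩ := (h1 n K M hM).1 x
  obtain ⟨w, hw, hwx⟩ := (h1 n K M hM).1
    (sc c' (fwd (pw M.adjugateᵀ (lst n c)) (fwd (pw M (lst n c)) x)))
  have hF' : ∀ k, fwd (pw M (lst n c)) (fst n v) k ≠ 0 := by rw [hvx]; exact hF
  have hG' : ∀ k, fwd (pw M.adjugateᵀ (lst n c)) (fwd (pw M (lst n c)) (fst n v)) k ≠ 0 := by
    rw [hvx]; exact hG
  obtain ⟨g1, g2⟩ := h2 n c K M v hn hM hv hF' hG'
  have g3 := g2 w hw (by
    intro k
    refine ⟨c' k, hc k, ?_⟩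
    rw [hwx, hvx]
    rfl)
  have h := hI M v w hM hv hw g1 g3
  rw [hvx, hwx] at h
  rw [ev_spec] at hq1 hq2 ⊢
  rw [ev_spec, ev_spec, ev_spec]
  have h5 := h hq1 hq2
  rw [div_eq_div_iff hq2 hq1] at h5
  rw [h5]

end Pool.Agent.MP62a5ad.RI
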