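import Pool.Agent.Lib.MP_62a5ad_mp.RI.Spec

/-!
# MP_62a5ad: RI/Y, vanishing on the contracted divisor
-/

set_option autoImplicit false

namespace Pool.Agent.MP62a5ad.RI

open Matrix

namespace yAux

section lin

variable {R : Type} [CommRing R]

/-- the combination `x₀ v + x₁ A v + x₂ A A v` -/
def comb (A : Matrix (Fin 5) (Fin 5) R) (x0 x1 x2 : R) (v : V5 R) : V5 R :=
  x0 • v + x1 • (A *ᵥ v) + x2 • (A *ᵥ (A *ᵥ v))

theorem comb_dot (A : Matrix (Fin 5) (Fin 5) R) (x0 x1 x2 : R) (v η : V5 R) :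
    comb A x0 x1 x2 v ⬝ᵥ X5 v (A *ᵥ v) (A *ᵥ (A *ᵥ v)) η = 0 := by
  unfold comb
  rw [add_dotProduct, add_dotProduct, smul_dotProduct, smul_dotProduct, smul_dotProduct,
    dotProduct_comm v, X5_dot1, dotProduct_comm (A *ᵥ v), X5_dot2, dotProduct_comm (A *ᵥ (A *ᵥ v)),
    X5_dot3, smul_zero, smul_zero, smul_zero, add_zero, add_zero]

theorem comb_dep (A : Matrix (Fin 5) (Fin 5) R) (r x0 x1 x2 : R) (v : V5 R) :
    X5 v (r • comb A x0 x1 x2 v) (A *ᵥ v) (A *ᵥ (A *ᵥ v)) = 0 := by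
  have h : r • comb A x0 x1 x2 v =
      (r * x0) • v + (r * x1) • (A *ᵥ v) + (r * x2) • (A *ᵥ (A *ᵥ v)) := by
    unfold comb
    rw [smul_add, smul_add, smul_smul, smul_smul, smul_smul]
  rw [h, X5_dep2]

theorem B_adj (B : Matrix (Fin 5) (Fin 5) R) (z : V5 R) :
    Bᵀ *ᵥ (B.adjugateᵀ *ᵥ z) = B.det • z := by
  rw [Matrix.mulVec_mulVec, ← Matrix.transpose_mul, Matrix.adjugate_mul, Matrix.transpose_smul,
    Matrix.transpose_one, Matrix.smul_mulVec, Matrix.one_mulVec]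

end lin

variable {n : ℕ} [NeZero n] {L : Type} [Field L]

/-- the combination at the vertex `k` -/
noncomputable def zv (d : Dat n L) (k : Fin n) : V5 (PR n L) :=
  comb (d.up (PR n L)).Mᵀ (gen n L (k - 1) 0) (gen n L (k - 1) 1) (gen n L (k - 1) 2) (gen n L k)

theorem psi_pred (d : Dat n L) (k : Fin n) :
    psi d k (k - 1) = ((d.up (PR n L)).B (k - 1)).adjugateᵀ *ᵥ zv d k := by
  unfold psi
  rw [if_pos rfl]
  rfl

theorem psi_ne (d : Dat n L) (k j : Fin n) (h : j ≠ k - 1) : psi d k j = gen n L j := by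
  unfold psi
  rw [if_neg h]

theorem B_psi (d : Dat n L) (k : Fin n) :
    ((d.up (PR n L)).B (k - 1))ᵀ *ᵥ psi d k (k - 1) = ((d.up (PR n L)).B (k - 1)).det • zv d k := by
  rw [psi_pred, B_adj]

theorem pred_ne (hn : 2 ≤ n) (k : Fin n) : k ≠ k - 1 := by
  intro h
  have h1 : (1 : Fin n) = 0 := by
    have := congrArg (fun t => k - t) h
    simpa using this.symm
  have h2 : ((1 : Fin n) : ℕ) = ((0 : Fin n) : ℕ) := congrArg Fin.val h1
  rw [show ((0 : Fin n) : ℕ) = 0 % n from rfl, show ((1 : Fin n) : ℕ) = 1 % n from rfl,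
    Nat.mod_eq_of_lt hn, Nat.zero_mod] at h2
  omega

theorem zv_ne (hn : 2 ≤ n) (d : Dat n L) (k : Fin n) : zv d k ≠ 0 := by
  classical
  intro h
  let φ : PR n L →ₐ[L] PR n L := MvPolynomial.aeval (fun x : Fin n × Fin 5 =>
    if x.1 = k - 1 then (if x.2 = 0 then 1 else 0) else MvPolynomial.X x)
  have e0 : φ (gen n L (k - 1) 0) = 1 := by
    change φ (MvPolynomial.X (k - 1, 0)) = 1
    rw [MvPolynomial.aeval_X]
    simp
  have e1 : φ (gen n L (k - 1) 1) = 0 := by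
    change φ (MvPolynomial.X (k - 1, 1)) = 0
    rw [MvPolynomial.aeval_X]
    simp
  have e2 : φ (gen n L (k - 1) 2) = 0 := by
    change φ (MvPolynomial.X (k - 1, 2)) = 0
    rw [MvPolynomial.aeval_X]
    simp
  have e3 : φ (gen n L k 0) = MvPolynomial.X (k, 0) := by
    change φ (MvPolynomial.X (k, 0)) = _
    rw [MvPolynomial.aeval_X, if_neg (pred_ne hn k)]
  have h1 : φ (zv d k 0) = φ 0 := by rw [h]; rfl
  have h2 : zv d k 0 = gen n L (k - 1) 0 * gen n L k 0 +
      gen n L (k - 1) 1 * ((d.up (PR n L)).Mᵀ *ᵥ gen n L k) 0 +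
      gen n L (k - 1) 2 * ((d.up (PR n L)).Mᵀ *ᵥ ((d.up (PR n L)).Mᵀ *ᵥ gen n L k)) 0 := rfl
  rw [h2, map_add, map_add, map_mul, map_mul, map_mul, e0, e1, e2, e3, one_mul, zero_mul, zero_mul,
    add_zero, add_zero, map_zero] at h1
  exact MvPolynomial.X_ne_zero _ h1

theorem psi_nz (hn : 2 ≤ n) (d : Dat n L) (k : Fin n) (hB : IsUnit (d.B (k - 1)).det) (j : Fin n) :
    psi d k j ≠ 0 := by
  by_cases hj : j = k - 1
  · intro h
    rw [hj] at h
    have h1 := B_psi d k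
    rw [h, Matrix.mulVec_zero] at h1
    have h2 : ((d.up (PR n L)).B (k - 1)).det = algebraMap L (PR n L) (d.B (k - 1)).det :=
      (RingHom.map_det (algebraMap L (PR n L)) (d.B (k - 1))).symm
    have h3 : IsUnit ((d.up (PR n L)).B (k - 1)).det := by
      rw [h2]
      exact hB.map _
    exact zv_ne hn d k ((smul_eq_zero.1 h1.symm).resolve_left h3.ne_zero)
  · rw [psi_ne d k j hj]
    intro h
    exact MvPolynomial.X_ne_zero _ (congrFun h 0)

theorem x_eq (d : Dat n L) (k : Fin n) (η : V5 L) : xpt d k η k =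
    X5 (gen n L k) ((d.up (PR n L)).Mᵀ *ᵥ gen n L k)
      ((d.up (PR n L)).Mᵀ *ᵥ ((d.up (PR n L)).Mᵀ *ᵥ gen n L k)) (fun i => MvPolynomial.C (η i)) := by
  unfold xpt
  rw [if_pos rfl]

theorem x_ne (d : Dat n L) (k j : Fin n) (η : V5 L) (h : j ≠ k) : xpt d k η j =
    X5 (psi d k j) (((d.up (PR n L)).B (j - 1))ᵀ *ᵥ psi d k (j - 1))
      ((d.up (PR n L)).Mᵀ *ᵥ psi d k j)
      ((d.up (PR n L)).Mᵀ *ᵥ ((d.up (PR n L)).Mᵀ *ᵥ psi d k j)) := by
  unfold xpt
  rw [if_neg h]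
  rfl

/-- the vertices of the preimage are orthogonal to `ψ` -/
theorem par (hn : 2 ≤ n) (d : Dat n L) (k : Fin n) (η : V5 L) (j : Fin n) (i l : Fin 5) :
    fwd (d.up (PR n L)) (xpt d k η) j i * psi d k j l =
      fwd (d.up (PR n L)) (xpt d k η) j l * psi d k j i := by
  refine X5_par _ _ _ _ _ ?_ ?_ ?_ ?_ i l
  · by_cases hj : j = k
    · rw [hj, psi_ne d k k (pred_ne hn k), x_eq, dotProduct_comm]
      exact X5_dot1 ..
    · rw [x_ne d k j η hj, dotProduct_comm]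
      exact X5_dot1 ..
  · rw [dot_mulVec']
    by_cases hj : j + 1 = k
    · have h1 : j = k - 1 := eq_sub_of_add_eq hj
      rw [hj, h1, B_psi, smul_dotProduct, x_eq]
      have h2 : zv d k ⬝ᵥ X5 (gen n L k) ((d.up (PR n L)).Mᵀ *ᵥ gen n L k)
        ((d.up (PR n L)).Mᵀ *ᵥ ((d.up (PR n L)).Mᵀ *ᵥ gen n L k)) (fun i => MvPolynomial.C (η i)) = 0 :=
        comb_dot _ _ _ _ _ _
      rw [h2, smul_zero]
    · rw [x_ne d k (j + 1) η hj, add_sub_cancel_right, dotProduct_comm]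
      exact X5_dot2 ..
  · rw [dot_mulVec', dotProduct_comm]
    by_cases hj : j = k
    · rw [hj, psi_ne d k k (pred_ne hn k), x_eq]
      exact X5_dot2 ..
    · rw [x_ne d k j η hj]
      exact X5_dot3 ..
  · rw [dot_mulVec', dot_mulVec', dotProduct_comm]
    by_cases hj : j = k
    · rw [hj, psi_ne d k k (pred_ne hn k), x_eq]
      exact X5_dot3 ..
    · rw [x_ne d k j η hj]
      exact X5_dot4 ..

/-- the inverse half step vanishes at `ψ` -/
theorem bwd_psi (hn : 2 ≤ n) (d : Dat n L) (k : Fin n) : bwd (d.up (PR n L)) (psi d k) k = 0 := by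
  unfold bwd
  rw [B_psi, psi_ne d k k (pred_ne hn k)]
  exact comb_dep _ _ _ _ _ _

end yAux

open yAux in
theorem y : S_Y := by
  classical
  intro n _ L _ d Λ k hn hΛ hB hNZ P a hP hdvd
  obtain ⟨η, hx, hy⟩ := hNZ
  set D := d.up (PR n L) with hD
  set x := xpt d k η with hxdef
  set w := fwd D x with hw
  have hψ := psi_nz hn d k hB
  have hex : ∀ j, ∃ l, psi d k j l ≠ 0 := fun j => Function.ne_iff.1 (hψ j)
  choose l hl using hex
  set s : Fin n → PR n L := fun j => psi d k j (l j) with hs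
  set t : Fin n → PR n L := fun j => w j (l j) with ht
  have hsne : ∀ j, s j ≠ 0 := hl
  have hsc : sc s w = sc t (psi d k) := by
    funext j i
    change psi d k j (l j) * w j i = w j (l j) * psi d k j i
    rw [mul_comm]
    exact par hn d k η j i (l j)
  have htne : ∀ j, t j ≠ 0 := by
    intro j h
    apply hy j
    funext i
    have h1 : w j i * s j = w j (l j) * psi d k j i := par hn d k η j i (l j)
    have h2 : w j (l j) = 0 := h
    rw [h2, zero_mul] at h1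
    exact (mul_eq_zero.1 h1).resolve_right (hsne j)
  have h1 : bwd D w k = 0 := by
    have h2 := congrFun (bwd_sc D s w) k
    have h3 := congrFun (bwd_sc D t (psi d k)) k
    rw [hsc, h3] at h2
    have h4 : (sc (fun k => t k ^ 3 * t (k - 1)) (bwd D (psi d k))) k = 0 := by
      change (t k ^ 3 * t (k - 1)) • bwd D (psi d k) k = 0
      rw [bwd_psi hn d k, smul_zero]
    rw [h4] at h2
    have h5 : (s k ^ 3 * s (k - 1)) • bwd D w k = 0 := h2.symm
    exact (smul_eq_zero.1 h5).resolve_left (mul_ne_zero (pow_ne_zero _ (hsne _)) (hsne _))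
  have h2 : ev (Λ k) x = 0 := by
    have h3 := lam_pt d Λ hΛ x k
    have h4 : bwd (d.up (PR n L)) (fwd (d.up (PR n L)) x) k = 0 := h1
    rw [h4] at h3
    exact (smul_eq_zero.1 h3.symm).resolve_right hx
  have h3 : ev P w = 0 := by
    obtain ⟨Q, hQ⟩ := hdvd
    have h4 := ev_Fg d P x
    rw [hQ, ev_mul, h2, zero_mul] at h4
    exact h4.symm
  have h4 := hP (PR n L) s w
  rw [h3, mul_zero, hsc, hP (PR n L) t (psi d k)] at h4
  exact (mul_eq_zero.1 h4).resolve_left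
    (Finset.prod_ne_zero_iff.2 fun j _ => pow_ne_zero _ (htne j))

end Pool.Agent.MP62a5ad.RI
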