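import Pool.Agent.Lib.MP_62a5ad_mp.RI.AllC
import Pool.Agent.Lib.MP_62a5ad_mp.RI.Lam
import Pool.Agent.Lib.MP_62a5ad_mp.RI.Rel
import Pool.Agent.Lib.MP_62a5ad_mp.RI.MHg
import Pool.Agent.Lib.MP_62a5ad_mp.RI.LMH
import Pool.Agent.Lib.MP_62a5ad_mp.RI.MHf
import Pool.Agent.Lib.MP_62a5ad_mp.RI.Cmp
import Pool.Agent.Lib.MP_62a5ad_mp.RI.U1
import Pool.Agent.Lib.MP_62a5ad_mp.RI.Cub
import Pool.Agent.Lib.MP_62a5ad_mp.RI.Pco
import Pool.Agent.Lib.MP_62a5ad_mp.RI.Pfo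
import Pool.Agent.Lib.MP_62a5ad_mp.RI.Hfo
import Pool.Agent.Lib.MP_62a5ad_mp.RI.Tra
import Pool.Agent.Lib.MP_62a5ad_mp.RI.Irr1
import Pool.Agent.Lib.MP_62a5ad_mp.RI.Irr2
import Pool.Agent.Lib.MP_62a5ad_mp.RI.Dia
import Pool.Agent.Lib.MP_62a5ad_mp.RI.Sep
import Pool.Agent.Lib.MP_62a5ad_mp.RI.Y
import Pool.Agent.Lib.MP_62a5ad_mp.RI.Alg
import Pool.Agent.Lib.MP_62a5ad_mp.RI.Tow
import Pool.Agent.Lib.MP_62a5ad_mp.RI.Ori
import Pool.Agent.Lib.MP_62a5ad_mp.RI.Trb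
import Pool.Agent.Lib.MP_62a5ad_mp.RI.Add
import Pool.Agent.Lib.MP_62a5ad_mp.RI.Sel
import Pool.Agent.Lib.MP_62a5ad_mp.RI.Fin
import Pool.Agent.Lib.MP_62a5ad_mp.RI.Dis
import Pool.Agent.Lib.MP_62a5ad_mp.RI.Hun
import Pool.Agent.Lib.MP_62a5ad_mp.RI.Deg
import Pool.Agent.Lib.MP_62a5ad_mp.RI.Dom
import Pool.Agent.Lib.MP_62a5ad_mp.RI.Gua
import Pool.Agent.Lib.MP_62a5ad_mp.RI.RedA
import Pool.Agent.Lib.MP_62a5ad_mp.RI.MHr
import Pool.Agent.Lib.MP_62a5ad_mp.RI.Red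
import Pool.Agent.Lib.MP_62a5ad_mp.RI.Sys
import Pool.Agent.Lib.MP_62a5ad_mp.RI.Fix
import Pool.Agent.Lib.MP_62a5ad_mp.RI.Cyc
import Pool.Agent.Lib.MP_62a5ad_mp.RI.Gau
import Pool.Agent.Lib.MP_62a5ad_mp.RI.RegZ
import Pool.Agent.Lib.MP_62a5ad_mp.RI.NzZ
import Pool.Agent.Lib.MP_62a5ad_mp.RI.UpK
import Pool.Agent.Lib.MP_62a5ad_mp.RI.FinC
import Pool.Agent.Lib.MP_62a5ad_mp.RI.C9
import Pool.Agent.Lib.MP_62a5ad_mp.RI.Off
import Pool.Agent.Lib.MP_62a5ad_mp.RI.Lin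
import Pool.Agent.Lib.MP_62a5ad_mp.RI.Ext
import Pool.Agent.Lib.MP_62a5ad_mp.RI.Pl
import Pool.Agent.Lib.MP_62a5ad_mp.RI.Geo
import Pool.Agent.Lib.MP_62a5ad_mp.RI.Wrap
import Pool.Agent.Lib.MP_62a5ad_mp.RI.Den
import Pool.Agent.Lib.MP_62a5ad_mp.RI.MainB
import Pool.Agent.Lib.MP_62a5ad_mp.RI.MainA
import Pool.Agent.Lib.MP_62a5ad_mp.RI.Kry
import Pool.Agent.Lib.MP_62a5ad_mp.RI.Dp1
import Pool.Agent.Lib.MP_62a5ad_mp.RI.Tr5
import Pool.Agent.Lib.MP_62a5ad_mp.RI.Dep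
import Pool.Agent.Lib.MP_62a5ad_mp.RI.Cv
import Pool.Agent.Lib.MP_62a5ad_mp.RI.PEk
import Pool.Agent.Lib.MP_62a5ad_mp.RI.JQ
import Pool.Agent.Lib.MP_62a5ad_mp.RI.InsF
import Pool.Agent.Lib.MP_62a5ad_mp.RI.InsB
import Pool.Agent.Lib.MP_62a5ad_mp.RI.Ins
import Pool.Agent.Lib.MP_62a5ad_mp.RI.InsZ
import Pool.Agent.Lib.MP_62a5ad_mp.RI.FinM

/-!
# MP_62a5ad: assembly
-/

set_option autoImplicit false

namespace Pool.Agent.MP62a5ad.RI

open Matrix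

namespace finalAux

theorem tMHg : S_MHg := mHg
theorem tLMH : S_LMH := lMH tMHg
theorem tU1 : S_U1 := u1 rel mHf cmp
theorem tTra : S_Tra := tra cub
theorem tIrr1 : S_Irr1 := irr1 pco pfo hfo tTra
theorem tIrr2 : S_Irr2 := irr2 lam tIrr1
theorem tTrb : S_Trb := trb alg tow ori
theorem tFin : S_Fin := fin add
theorem tHun : S_Hun := hun rel cmp tU1 y tTrb sel tFin dis
theorem tDeg : S_Deg := deg cmp
theorem tDom : S_Dom := dom tLMH cmp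
theorem tGua : S_Gua := gua tLMH cmp
theorem tRedA : S_RedA := redA tDom tGua
theorem tRed : S_Red := red tRedA mHr tDom tGua
theorem tSys : S_Sys := sys mHf cmp
theorem tFix : S_Fix := fix rel tRed tSys tHun tDeg
theorem tGau : S_Gau := gau_thm cyc_thm
theorem tRegZ : S_RegZ := regZ cyc_thm tGau
theorem tNzZ : S_NzZ := nzZ cyc_thm tGau
theorem tFinC : S_FinC := finC cyc_thm
theorem tFinZ : S_FinZ := finZ cyc_thm
theorem tC9 : S_C9 := c9 lam tIrr2 dia sep tRegZ tNzZ upK tFix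
theorem tGeo : S_Geo := geo off_thm lin ext pl_thm
theorem tWrap : S_Wrap := wrap ext tGeo
theorem tMainB : S_MainB := mainB cyc_thm sep tWrap tC9 den
theorem tDp1 : S_Dp1 := dp1 kry_thm
theorem tDep : S_Dep := dep tDp1 tr5
theorem tCv : S_Cv := cv_thm cyc_thm
theorem tPEk : S_PEk := pEk cyc_thm tCv
theorem tJQ : S_JQ := jQ cyc_thm
theorem tInsF : S_InsF := insF cyc_thm tCv tPEk tJQ dat
theorem tInsB : S_InsB := insB cyc_thm tCv tPEk tJQ dat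
theorem tIns : S_Ins := ins cyc_thm tCv tPEk tJQ tInsF tInsB dat
theorem tInsZ : S_InsZ := insZ cyc_thm
theorem tFinM : S_FinM := finM cyc_thm
theorem tFinZM : S_FinZM := finZM cyc_thm

end finalAux

open finalAux

/-- The tuples are positive and admissible. -/
theorem final_adm (K : Type) [Field K] [CharZero K] (n c : ℕ) (hn : 3 ≤ n) :
    (∀ j, 0 < tup n c j) ∧ Admissible K n (tup n c) := by
  haveI : NeZero n := ⟨by omega⟩
  have hc := allC tFinC tFinZ tFinM tFinZM tIns tInsZ n (c * n + 1) hn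
  exact ⟨(off_thm n c (by omega)).1, mainA cyc_thm tGau tGeo n c K hn hc.1⟩

/-- Rational invariants depend only on the monodromy. -/
theorem final_inv (K : Type) [Field K] [CharZero K] (n c : ℕ) (hn : 3 ≤ n)
    (p q : MvPolynomial (Co n) K) (h : Invariant n (tup n c) p q) (x y : Fin n → V5 K)
    (M : Matrix (Fin 5) (Fin 5) K) : vl p x M * vl q y M = vl p y M * vl q x M := by
  haveI : NeZero n := ⟨by omega⟩
  have hc := allC tFinC tFinZ tFinM tFinZM tIns tInsZ n (c * n + 1) hn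
  exact tMainB n c K hn hc.1 hc.2 p q h x y M

/-- Six rational invariants are algebraically dependent. -/
theorem final_dep (K : Type) [Field K] [CharZero K] (n c : ℕ) (hn : 3 ≤ n)
    (p q : Fin 6 → MvPolynomial (Co n) K) (hq : ∀ i, q i ≠ 0)
    (h : ∀ i, Invariant n (tup n c) (p i) (q i)) (hP : ∀ i, ProjInv n (p i) (q i)) :
    ¬ AlgebraicIndependent K (fun i =>
      algebraMap (MvPolynomial (Co n) K) (FractionRing (MvPolynomial (Co n) K)) (p i) /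
        algebraMap (MvPolynomial (Co n) K) (FractionRing (MvPolynomial (Co n) K)) (q i)) :=
  tDep n K p q hq (fun i => final_inv K n c hn (p i) (q i) (h i)) hP

end Pool.Agent.MP62a5ad.RI
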