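import Pool.Agent.Lib.MP_62a5ad_mp.RI.Spec2

/-!
# MP_62a5ad: linear algebra of the cross product (module Lin)
-/

set_option autoImplicit false

namespace Pool.Agent.MP62a5ad.RI

open Matrix

theorem lin : S_Lin := by
  intro K _ a b c d hX
  -- a vector with non-zero product
  obtain ⟨i, hi⟩ : ∃ i, X5 a b c d i ≠ 0 := by
    by_contra h
    push Not at h
    exact hX (funext h)
  set w : V5 K := Pi.single i 1 with hw
  have hdet : (Matrix.of ![w, a, b, c, d]).det ≠ 0 := by
    rw [← X5_det, hw, single_one_dotProduct]
    exact hi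
  have hli : LinearIndependent K ![w, a, b, c, d] := by
    have := Matrix.linearIndependent_rows_of_det_ne_zero hdet
    exact this
  have hli4 : LinearIndependent K ![a, b, c, d] := by
    have h := hli.comp (fun j : Fin 4 => j.succ) (Fin.succ_injective 4)
    have e : (![w, a, b, c, d] : Fin 5 → V5 K) ∘ (fun j : Fin 4 => j.succ) = ![a, b, c, d] := by
      funext j; fin_cases j <;> rfl
    rwa [e] at h
  have hr : Set.range ![a, b, c, d] = ({a, b, c, d} : Set (V5 K)) := by
    ext x
    simp only [Set.mem_range, Set.mem_insert_iff, Set.mem_singleton_iff]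
    constructor
    · rintro ⟨j, rfl⟩
      fin_cases j <;> simp
    · rintro (rfl | rfl | rfl | rfl)
      · exact ⟨0, rfl⟩
      · exact ⟨1, rfl⟩
      · exact ⟨2, rfl⟩
      · exact ⟨3, rfl⟩
  have hfr : Module.finrank K (Submodule.span K ({a, b, c, d} : Set (V5 K))) = 4 := by
    rw [← hr, finrank_span_eq_card hli4]
    simp
  -- the form
  let φ : V5 K →ₗ[K] K :=
    { toFun := fun x => X5 a b c d ⬝ᵥ x
      map_add' := fun x y => dotProduct_add _ _ _
      map_smul' := fun r x => dotProduct_smul _ _ _ }
  have hφ : φ ≠ 0 := by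
    intro h
    have := congrArg (fun f : V5 K →ₗ[K] K => f w) h
    simp only [LinearMap.zero_apply] at this
    have h2 : X5 a b c d ⬝ᵥ w = X5 a b c d i := by
      rw [dotProduct_comm, hw, single_one_dotProduct]
    exact hi (h2 ▸ this)
  have hker : Module.finrank K (LinearMap.ker φ) = 4 := by
    have h1 := LinearMap.finrank_range_add_finrank_ker φ
    have h2 : Module.finrank K (LinearMap.range φ) = 1 := by
      have : LinearMap.range φ = ⊤ := LinearMap.range_eq_top.2 (LinearMap.surjective hφ)
      rw [this]; simp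
    rw [h2] at h1
    simp at h1
    omega
  have hle : Submodule.span K ({a, b, c, d} : Set (V5 K)) ≤ LinearMap.ker φ := by
    rw [Submodule.span_le]
    rintro x (rfl | rfl | rfl | rfl)
    · exact X5_dot1 _ _ _ _
    · exact X5_dot2 _ _ _ _
    · exact X5_dot3 _ _ _ _
    · exact X5_dot4 _ _ _ _
  have heq : Submodule.span K ({a, b, c, d} : Set (V5 K)) = LinearMap.ker φ :=
    Submodule.eq_of_le_of_finrank_eq hle (by rw [hfr, hker])
  refine ⟨hfr, ?_, ?_⟩
  · intro x
    rw [heq]
    exact LinearMap.mem_ker
  · intro x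
    constructor
    · rintro ⟨ha, hb, hc, hd⟩
      have hp := fun j => X5_par a b c d x (by rwa [dotProduct_comm]) (by rwa [dotProduct_comm])
        (by rwa [dotProduct_comm]) (by rwa [dotProduct_comm]) i j
      refine ⟨x i / X5 a b c d i, ?_⟩
      funext j
      have h2 := hp j
      show x j = x i / X5 a b c d i * X5 a b c d j
      field_simp
      linear_combination h2
    · rintro ⟨t, rfl⟩
      refine ⟨?_, ?_, ?_, ?_⟩
      · rw [dotProduct_smul, dotProduct_comm, X5_dot1, smul_zero]
      · rw [dotProduct_smul, dotProduct_comm, X5_dot2, smul_zero]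
      · rw [dotProduct_smul, dotProduct_comm, X5_dot3, smul_zero]
      · rw [dotProduct_smul, dotProduct_comm, X5_dot4, smul_zero]

end Pool.Agent.MP62a5ad.RI
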