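import Pool.Agent.Lib.MP_62a5ad_mp.RI.Spec

/-!
# MP_62a5ad: the half step for a diagonal matrix (module Pfo)
-/

set_option autoImplicit false

namespace Pool.Agent.MP62a5ad.RI

open Matrix

namespace pfoAux

/-- The coefficients. -/
def kap {L : Type} [CommRing L] (lam : Fin 5 → L) : Fin 5 → Fin 5 → L :=
  ![ ![1, -((lam 3 - lam 2) * (lam 4 - lam 2) * (lam 4 - lam 3)), ((lam 3 - lam 1) * (lam 4 - lam 1) * (lam 4 - lam 3)), -((lam 2 - lam 1) * (lam 4 - lam 1) * (lam 4 - lam 2)), ((lam 2 - lam 1) * (lam 3 - lam 1) * (lam 3 - lam 2))],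
  ![((lam 3 - lam 2) * (lam 4 - lam 2) * (lam 4 - lam 3)), 1, -((lam 3 - lam 0) * (lam 4 - lam 0) * (lam 4 - lam 3)), ((lam 2 - lam 0) * (lam 4 - lam 0) * (lam 4 - lam 2)), -((lam 2 - lam 0) * (lam 3 - lam 0) * (lam 3 - lam 2))],
  ![-((lam 3 - lam 1) * (lam 4 - lam 1) * (lam 4 - lam 3)), ((lam 3 - lam 0) * (lam 4 - lam 0) * (lam 4 - lam 3)), 1, -((lam 1 - lam 0) * (lam 4 - lam 0) * (lam 4 - lam 1)), ((lam 1 - lam 0) * (lam 3 - lam 0) * (lam 3 - lam 1))],
  ![((lam 2 - lam 1) * (lam 4 - lam 1) * (lam 4 - lam 2)), -((lam 2 - lam 0) * (lam 4 - lam 0) * (lam 4 - lam 2)), ((lam 1 - lam 0) * (lam 4 - lam 0) * (lam 4 - lam 1)), 1, -((lam 1 - lam 0) * (lam 2 - lam 0) * (lam 2 - lam 1))],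
  ![-((lam 2 - lam 1) * (lam 3 - lam 1) * (lam 3 - lam 2)), ((lam 2 - lam 0) * (lam 3 - lam 0) * (lam 3 - lam 2)), -((lam 1 - lam 0) * (lam 3 - lam 0) * (lam 3 - lam 1)), ((lam 1 - lam 0) * (lam 2 - lam 0) * (lam 2 - lam 1)), 1]]

theorem kap_ne {L : Type} [Field L] (lam : Fin 5 → L) (h : Function.Injective lam)
    (a l : Fin 5) : kap lam a l ≠ 0 := by
  have e : ∀ i j : Fin 5, i ≠ j → lam i - lam j ≠ 0 := fun i j hij => sub_ne_zero.2 (h.ne hij)
  fin_cases a <;> fin_cases l <;>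
    first
    | exact one_ne_zero
    | exact mul_ne_zero (mul_ne_zero (e _ _ (by decide)) (e _ _ (by decide))) (e _ _ (by decide))
    | exact neg_ne_zero.2 (mul_ne_zero (mul_ne_zero (e _ _ (by decide)) (e _ _ (by decide)))
        (e _ _ (by decide)))

theorem kap_map {L R : Type} [CommRing L] [CommRing R] [Algebra L R] (lam : Fin 5 → L)
    (a l : Fin 5) : algebraMap L R (kap lam a l) = kap (fun i => algebraMap L R (lam i)) a l := by
  fin_cases a <;> fin_cases l <;> simp [kap]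

theorem main {R : Type} [CommRing R] (lam v w : V5 R) (a : Fin 5) :
    X5 v w (fun i => lam i * v i) (fun i => lam i ^ 2 * v i) a
      = ∑ l, if l = a then 0 else kap lam a l * w l * ∏ i, if i = a ∨ i = l then 1 else v i := by
  rw [Fin.sum_univ_five]
  simp only [Fin.prod_univ_five]
  fin_cases a
  · show X5 _ _ _ _ 0 = _
    rw [X5_0]; simp [kap, lap, mn]; ring
  · show X5 _ _ _ _ 1 = _
    rw [X5_1]; simp [kap, lap, mn]; ring
  · show X5 _ _ _ _ 2 = _
    rw [X5_2]; simp [kap, lap, mn]; ring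
  · show X5 _ _ _ _ 3 = _
    rw [X5_3]; simp [kap, lap, mn]; ring
  · show X5 _ _ _ _ 4 = _
    rw [X5_4]; simp [kap, lap, mn]; ring

end pfoAux

theorem pfo : S_Pfo := by
  intro L _ lam h
  refine ⟨pfoAux.kap lam, pfoAux.kap_ne lam h, ?_⟩
  intro R _ _ v w a
  have := pfoAux.main (fun i => algebraMap L R (lam i)) v w a
  simp only [pfoAux.kap_map, map_pow]
  exact this

end Pool.Agent.MP62a5ad.RI
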