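import Pool.Agent.Lib.MP_62a5ad_mp.RI.Spec

set_option autoImplicit false

namespace Pool.Agent.MP62a5ad.RI

open Matrix

namespace redAux

variable {n : ℕ} {L : Type} [Field L]

lemma exists_pt [Infinite L] (f : PR n L) (hf : f ≠ 0) : ∃ w : Pg n L, ev f w ≠ 0 := by
  by_contra h
  push Not at h
  apply hf
  apply MvPolynomial.funext
  intro x
  rw [map_zero]
  have h1 := h (fun k i => x (k, i))
  have h2 : (fun y : Fin n × Fin 5 => x (y.1, y.2)) = x := by
    funext y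
    rfl
  unfold ev at h1
  rw [h2] at h1
  rw [← h1]
  exact (MvPolynomial.aeval_eq_eval x ▸ rfl)

lemma up_self (d : Dat n L) : d.up L = d := by
  unfold Dat.up Dat.map
  simp

lemma fsc_mul (f g : PR n L) (c : Fin n → L) : fsc (f * g) c = fsc f c * fsc g c := ev_mul f g _

lemma fsc_ne (g : PR n L) (c : Fin n → L) (hc : ∀ k, c k ≠ 0) (hg : g ≠ 0) : fsc g c ≠ 0 := by
  intro h
  apply hg
  have h1 : ev (fsc g c) (sc (fun k => MvPolynomial.C (c k)⁻¹) (gen n L)) = g := by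
    unfold fsc
    rw [ev_comp]
    have h2 : (fun k i => ev (sc (fun k => MvPolynomial.C (c k)) (gen n L) k i)
        (sc (fun k => MvPolynomial.C (c k)⁻¹) (gen n L))) = gen n L := by
      funext k i
      show ev (MvPolynomial.C (c k) * gen n L k i) _ = _
      rw [ev_mul, ev_X]
      have h3 : ev (MvPolynomial.C (c k) : PR n L)
          (sc (fun k => MvPolynomial.C (c k)⁻¹) (gen n L)) = MvPolynomial.C (c k) := by
        unfold ev
        rw [MvPolynomial.aeval_C]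
        rfl
      rw [h3]
      show MvPolynomial.C (c k) * (MvPolynomial.C (c k)⁻¹ * gen n L k i) = _
      rw [← mul_assoc, ← MvPolynomial.C_mul, mul_inv_cancel₀ (hc k), MvPolynomial.C_1, one_mul]
    rw [h2, ev_gen]
  rw [← h1, h]
  exact map_zero _

lemma ev_sub' {R : Type} [CommRing R] [Algebra L R] (f g : PR n L) (v : Pg n R) :
    ev (f - g) v = ev f v - ev g v := map_sub _ _ _

end redAux

open redAux in
theorem red (h1 : S_RedA) (h2 : S_MHr) (h3 : S_Dom) (h4 : S_Gua) : S_Red := by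
  intro n _ L _ _ d d' Λ Λ' Ξ Ξ' hL hL' hX hX' nL nL' nX nX' p q hp hq hI
  obtain ⟨P, Q, g, hrel, hP, hQ⟩ := UniqueFactorizationMonoid.exists_reduced_factors p hp q
  have hg0 : g ≠ 0 := by
    intro h
    rw [h, zero_mul] at hP
    exact hp hP.symm
  have hP0 : P ≠ 0 := by
    intro h
    rw [h, mul_zero] at hP
    exact hp hP.symm
  have hQ0 : Q ≠ 0 := by
    intro h
    rw [h, mul_zero] at hQ
    exact hq hQ.symm
  have hred := h1 n L d d' Λ Λ' Ξ Ξ' hL hL' hX hX' nL nL' nX nX' p q hp hI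
  have hred2 : ∀ c : Fin n → L, (∀ k, c k ≠ 0) → P * fsc Q c = fsc P c * Q := by
    intro c hc
    have e1 := hred c hc
    rw [← hP, ← hQ, fsc_mul, fsc_mul] at e1
    have e2 : g * fsc g c ≠ 0 := mul_ne_zero hg0 (fsc_ne g c hc hg0)
    apply mul_left_cancel₀ e2
    linear_combination e1
  obtain ⟨a, haP, haQ⟩ := h2 n L P Q hP0 hQ0 hrel hred2
  refine ⟨g, P, Q, a, hP.symm, hQ.symm, hrel, haP, haQ, ?_⟩
  by_contra hcon
  have hD0 : P * ev Q (fwd (d'.up (PR n L)) (Fg d)) - ev P (fwd (d'.up (PR n L)) (Fg d)) * Q ≠ 0 :=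
    sub_ne_zero.2 hcon
  set Δ := P * ev Q (fwd (d'.up (PR n L)) (Fg d)) - ev P (fwd (d'.up (PR n L)) (Fg d)) * Q with hΔ
  obtain ⟨e, he, hf1⟩ := h3 n L d d' Λ Λ' Ξ Ξ' hL hL' hX hX' nL nL' nX nX' (Δ * q)
    (mul_ne_zero hD0 hq)
  obtain ⟨N, hN0, hN⟩ := h4 n L d d' Λ Λ' Ξ Ξ' hL hL' hX hX' nL nL' nX nX'
  obtain ⟨w, hw⟩ := exists_pt _ (mul_ne_zero (mul_ne_zero hf1 hq) hN0)
  rw [ev_mul, ev_mul] at hw
  have hw1 := left_ne_zero_of_mul (left_ne_zero_of_mul hw)
  have hqw := right_ne_zero_of_mul (left_ne_zero_of_mul hw)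
  have hw3 := right_ne_zero_of_mul hw
  have hw2 : ev g w ≠ 0 := by
    rw [← hQ, ev_mul] at hqw
    exact left_ne_zero_of_mul hqw
  obtain ⟨g1, g2, t, ht, g3⟩ := hN w e hw3 he
  set v := sc e (bwd d (bwd d' w)) with hv
  have hpt : (fun k i => ev (sc (fun k => MvPolynomial.C (e k))
      (bwd (d.up (PR n L)) (Gg d')) k i) w) = v := by
    have e1 := bwd_up (MvPolynomial.aeval (R := L) (fun x : Fin n × Fin 5 => w x.1 x.2)) d (Gg d')
    have e2 : (fun k i => (MvPolynomial.aeval (R := L) (fun x : Fin n × Fin 5 => w x.1 x.2))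
        (Gg d' k i)) = bwd (d'.up L) w := Gg_pt d' w
    rw [e2, up_self, up_self] at e1
    funext k i
    show ev (MvPolynomial.C (e k) * bwd (d.up (PR n L)) (Gg d') k i) w = e k * _
    rw [ev_mul]
    congr 1
    · unfold ev
      rw [MvPolynomial.aeval_C]
      rfl
    · rw [← e1]
      rfl
  rw [ev_comp, hpt, ev_mul] at hw1
  have hqv := right_ne_zero_of_mul hw1
  have hDv := left_ne_zero_of_mul hw1
  have hgv : ev g v ≠ 0 := by
    rw [← hQ, ev_mul] at hqv
    exact left_ne_zero_of_mul hqv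
  -- the invariance
  have e4 : sc (fun k => (t k)⁻¹) (fwd d' (fwd d v)) = w := by
    rw [g3]
    funext k i
    show (t k)⁻¹ * (t k * w k i) = w k i
    rw [← mul_assoc, inv_mul_cancel₀ (ht k), one_mul]
  have e5 := haP L (fun k => (t k)⁻¹) (fwd d' (fwd d v))
  have e6 := haQ L (fun k => (t k)⁻¹) (fwd d' (fwd d v))
  have e3 := hI v (fun k => (t k)⁻¹) g1 g2 (fun k => inv_ne_zero (ht k)) hqv
    (by rw [e4]; exact hqw)
  rw [e4] at e3 e5 e6
  have hprod : (∏ k, (t k)⁻¹ ^ a k) ≠ 0 :=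
    Finset.prod_ne_zero_iff.2 fun k _ => pow_ne_zero _ (inv_ne_zero (ht k))
  rw [← hP, ← hQ, ev_mul, ev_mul, ev_mul, ev_mul, e5, e6] at e3
  have e7 : ev P v * ev Q (fwd d' (fwd d v)) = ev P (fwd d' (fwd d v)) * ev Q v := by
    have e8 : ev g v * ev g w * (∏ k, (t k)⁻¹ ^ a k) ≠ 0 :=
      mul_ne_zero (mul_ne_zero hgv hw2) hprod
    apply mul_left_cancel₀ e8
    linear_combination e3
  -- the value of Δ
  have e9 : (fun k i => ev (fwd (d'.up (PR n L)) (Fg d) k i) v) = fwd d' (fwd d v) := by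
    have e1 := fwd_up (MvPolynomial.aeval (R := L) (fun x : Fin n × Fin 5 => v x.1 x.2)) d' (Fg d)
    have e2 : (fun k i => (MvPolynomial.aeval (R := L) (fun x : Fin n × Fin 5 => v x.1 x.2))
        (Fg d k i)) = fwd (d.up L) v := Fg_pt d v
    rw [e2, up_self, up_self] at e1
    rw [← e1]
    rfl
  apply hDv
  rw [hΔ, ev_sub', ev_mul, ev_mul, ev_comp, ev_comp, e9, e7, sub_self]

end Pool.Agent.MP62a5ad.RI
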