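import Pool.Agent.Lib.MP_62a5ad_mp.RI.Contr

/-!
# MP_62a5ad: rational first integrals of `T_{I,I}`; statements with complete proofs in the docstrings

Notation.  `A = PR n L`; `gen` is the generic polygon; `D = Fg d` is the half step of the generic
polygon, `f ∘ D = ev f (Fg d)`, `G = Gg d`.  Proved toolkit (Basic.lean, Contr.lean): `X5_dot1..4`,
`X5_par`, `X5_smul`, `X5_dep2`, `X5_mulVec`, `X5_contr`, `fwd_up`, `bwd_up`, `ev_map`, `ev_gen`,
`ev_comp`, `ev_Fg`, `ev_Gg`, `lam_pt`, `lam_pt'`, `fwd_sc`, `bwd_sc`, `bwd_fwd_par`, `fwd_bwd_par`,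
`dot_mulVec'`.  The indices live in `Fin n`, cyclically.  All points have values in `L`-algebras `R`.
-/

set_option autoImplicit false

namespace Pool.Agent.MP62a5ad.RI

open Matrix

/-! ## Part 1: the polynomials `Λ` -/

/-- **Lam.**  Existence of `Λ` and `Λ'`.  Proof.  Let `s = bwd (Fg d) k` in the domain `A` (a unique
factorization domain).  `bwd_fwd_par` with `v = gen` gives `s i * X(k,j) = s j * X(k,i)`.  `X(k,0)` is
prime and does not divide `X(k,1)` (evaluate at `X(k,0) = 0`, `X(k,1) = 1`), and `s 0 X(k,1) = s 1 X(k,0)`,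
so `s 0 = l X(k,0)`.  For all `j`: `l X(k,0) X(k,j) = s j X(k,0)`, so `s j = l X(k,j)`.  The same for
`fwd (Gg d) k` with `fwd_bwd_par`. -/
def S_Lam : Prop := ∀ (n : ℕ) [NeZero n] (L : Type) [Field L] (d : Dat n L),
  ∃ Λ Λ' : Fin n → PR n L, IsLam d Λ ∧ IsLam' d Λ'

/-- **Rel.**  Proof.  Let `Λ k ≠ 0` for all `k`.  (1) If `Fg d k = 0` then `bwd (Fg d) k = X5 0 … = 0`
(`X5_zero1`), but it is `Λ k • gen k ≠ 0`.  (2) Compute `fwd (bwd (Fg d)) k` in two ways (`Fg d` means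
`fwd (d.up A) gen`): by `lam_pt'` at `w = Fg d` it is `ev (Λ' k) (Fg d) • Fg d k`; by `IsLam`
`bwd (Fg d) = sc Λ gen`, so by `fwd_sc` it is `(Λ k ^ 3 * Λ (k+1)) • Fg d k`.  As `Fg d k ≠ 0` in a domain
the factors are equal.  (3) `ev (Λ' k) (Fg d) = Λ k ^ 3 Λ (k+1) ≠ 0`, so `Λ' k ≠ 0`. -/
def S_Rel : Prop := ∀ (n : ℕ) [NeZero n] (L : Type) [Field L] (d : Dat n L)
  (Λ Λ' : Fin n → PR n L), IsLam d Λ → IsLam' d Λ' → (∀ k, Λ k ≠ 0) →
  (∀ k, Fg d k ≠ 0) ∧ (∀ k, ev (Λ' k) (Fg d) = Λ k ^ 3 * Λ (k + 1)) ∧ ∀ k, Λ' k ≠ 0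

/-- The generic scaling of the generic polygon. -/
noncomputable def sgen (n : ℕ) (L : Type) [CommRing L] : Pg n (MvPolynomial (Fin n) (PR n L)) :=
  sc (fun k => MvPolynomial.X k) (fun k i => MvPolynomial.C (gen n L k i))

/-- **MHg.**  It is enough to check multihomogeneity for the generic scaling.  Proof.  Given `R`, `c`,
`v`, let `Φ : MvPolynomial (Fin n) A → R` be the `L`-algebra homomorphism which is
`aeval v : A → R` on the coefficients and sends `X k` to `c k` (`MvPolynomial.eval₂Hom`, commutes with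
`algebraMap L`).  Apply `Φ` to the identity; `Φ (ev f sgen) = ev f (Φ ∘ sgen)` by `ev_map`, and
`Φ (sgen k i) = c k * v k i`, `Φ (C f) = ev f v`. -/
def S_MHg : Prop := ∀ (n : ℕ) (L : Type) [Field L] (a : Fin n → ℕ) (f : PR n L),
  ev f (sgen n L) = (∏ k, MvPolynomial.X k ^ a k) * MvPolynomial.C f → MH a f

/-- The multidegree of `Λ k`. -/
def ex3 {n : ℕ} [NeZero n] (k : Fin n) : Fin n → ℕ := fun j =>
  (if j = k then 9 else 0) + (if j = k + 1 then 3 else 0) + (if j = k - 1 then 3 else 0)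

/-- **LMH.**  Proof.  With `MHg` it suffices to work in `E = MvPolynomial (Fin n) A` (a domain and an
`L`-algebra) with `c k = X k` and `v = (C gen)`.  By `lam_pt` at `sc c v`:
`bwd (fwd (sc c v)) k = ev (Λ k) (sc c v) • (c k • v k)`; by `fwd_sc`, `bwd_sc` and `lam_pt` at `v` it is
`(e k ^ 3 * e (k-1)) • (ev (Λ k) v • v k)` with `e k = c k ^ 3 * c (k+1)`, and
`e k ^ 3 e (k-1) = c k ^ 10 c (k+1) ^ 3 c (k-1) ^ 3` (as `k - 1 + 1 = k`).  Cancel `c k * v k 0 ≠ 0`.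
The product `∏ j, c j ^ ex3 k j` is `c k ^ 9 c (k+1) ^ 3 c (k-1) ^ 3` (`pow_add`, `Finset.prod_mul_distrib`,
`Finset.prod_ite_eq`).  `ev (Λ k) v = C (Λ k)` for `v = C ∘ gen` by `ev_map` and `ev_gen`.  The same
for `Λ'` (`fwd (bwd (sc c v)) k`, `e k = c k ^ 3 c (k-1)`, `e k ^ 3 e (k+1)`). -/
def S_LMH : Prop := ∀ (n : ℕ) [NeZero n] (L : Type) [Field L] (d : Dat n L)
  (Λ Λ' : Fin n → PR n L), IsLam d Λ → IsLam' d Λ' →
  ∀ k, MH (ex3 k) (Λ k) ∧ MH (ex3 k) (Λ' k)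

/-- **MHf.**  Factors of multihomogeneous polynomials are multihomogeneous.  Proof.  Fix `k` and work in
`Polynomial A`: `F = ev f (sc (fun j => if j = k then X else 1) (C gen))`, `G` the same for `g`.  Then
`F * G = X ^ a k * C (f g)` (by `MH` with `R = Polynomial A`), so `natDegree F + natDegree G = a k =
natTrailingDegree F + natTrailingDegree G` (domain, `f g ≠ 0`; `Polynomial.natDegree_mul`,
`Polynomial.natTrailingDegree_mul`), and as `natTrailingDegree ≤ natDegree` both are equal for `F`: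
`F = C r * X ^ b` with `b = b k`.  Evaluate at `X = 1` (the algebra homomorphism `Polynomial A → A`, `ev_map`):
`r = f`.  So (*) `ev f (sc (fun j => if j = k then X else 1) (C gen)) = C f * X ^ b k`, and by
specialisation (as in `MHg`) for all `R`, `t : R`, `v`:
`ev f (sc (fun j => if j = k then t else 1) v) = t ^ b k * ev f v`.  Now for `R`, `c`, `v`: by induction
on the finite set `S` of indices `ev f (sc (fun j => if j ∈ S then c j else 1) v) = (∏ j ∈ S, c j ^ b j) * ev f v`,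
because `sc` for `insert k S` is `sc` for `{k}` of `sc` for `S`.  Take `S = univ`. -/
def S_MHf : Prop := ∀ (n : ℕ) (L : Type) [Field L] (a : Fin n → ℕ) (f g : PR n L),
  MH a (f * g) → f * g ≠ 0 → ∃ b, MH b f

/-- **Cmp.**  Proof.  (1) `ev (f ∘ Fg d) (sc c v) = ev f (fwd (sc c v)) = ev f (sc e (fwd v))` with
`e k = c k ^ 3 c (k+1)` (`ev_Fg`, `fwd_sc`) `= (∏ e k ^ a k) ev f (fwd v)`, and
`∏ (c k ^ 3 c (k+1)) ^ a k = ∏ c k ^ (3 a k + a (k-1))` (shift the index in the second product, e.g.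
`Equiv.addRight`).  (2) If `f ≠ 0`: evaluate `f ∘ Fg d` at `Gg d` (`R = A`): by `ev_Fg` it is `ev f (fwd (Gg d)) =
ev f (sc Λ' gen) = (∏ Λ' k ^ a k) * f ≠ 0` (`IsLam'`, `ev_gen`).  So `f ∘ Fg d ≠ 0`.  (3) The same with
`Gg d`: `ev (f ∘ Gg d) (Fg d) = ev f (bwd (Fg d)) = (∏ Λ k ^ a k) f ≠ 0`. -/
def S_Cmp : Prop := ∀ (n : ℕ) [NeZero n] (L : Type) [Field L] (d : Dat n L)
  (Λ Λ' : Fin n → PR n L), IsLam d Λ → IsLam' d Λ' → (∀ k, Λ k ≠ 0) → (∀ k, Λ' k ≠ 0) →
  ∀ (a : Fin n → ℕ) (f : PR n L), MH a f →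
    MH (fun k => 3 * a k + a (k - 1)) (ev f (Fg d)) ∧ (f ≠ 0 → ev f (Fg d) ≠ 0) ∧
      (f ≠ 0 → ev f (Gg d) ≠ 0)

/-- **U1.**  A common prime factor of `P ∘ D` and `Q ∘ D` divides some `Λ k`.  Proof.  `A` is a unique
factorization domain.  (1) `P ∘ D` is multihomogeneous and not zero (Cmp), so `π` is multihomogeneous of
some multidegree `b'` (MHf).  (2) `π ∘ G := ev π (Gg d) ≠ 0` (Cmp).  `π ∣ P ∘ D` gives (evaluate at `Gg d`,
`ev_mul`) `π ∘ G ∣ ev (P ∘ D) (Gg d) = ev P (fwd (Gg d)) = ev P (sc Λ' gen) = (∏ Λ' k ^ a k) P`, and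
`π ∘ G ∣ (∏ Λ' k ^ b k) Q`.  So every irreducible factor `ρ` of `π ∘ G` divides `∏ Λ' k`: otherwise
`ρ` (prime) divides `P` and `Q`, against `IsRelPrime`.  Hence `π ∘ G ∣ (∏ Λ' k) ^ N` for some `N` (induction
on the factorization: `UniqueFactorizationMonoid.induction_on_prime` or `normalizedFactors`).  (3) Evaluate at `Fg d`:
`ev (π ∘ G) (Fg d) = ev π (bwd (Fg d)) = ev π (sc Λ gen) = (∏ Λ k ^ b' k) π` divides
`(∏ ev (Λ' k) (Fg d)) ^ N = (∏ Λ k ^ 3 Λ (k+1)) ^ N` (Rel).  So the prime `π` divides some `Λ k`. -/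
def S_U1 : Prop := ∀ (n : ℕ) [NeZero n] (L : Type) [Field L] (d : Dat n L)
  (Λ Λ' : Fin n → PR n L), IsLam d Λ → IsLam' d Λ' → (∀ k, Λ k ≠ 0) →
  ∀ (P Q : PR n L) (a b : Fin n → ℕ), P ≠ 0 → Q ≠ 0 → IsRelPrime P Q → MH a P → MH b Q →
    ∀ π : PR n L, Irreducible π → π ∣ ev P (Fg d) → π ∣ ev Q (Fg d) → ∃ k, π ∣ Λ k

/-! ## Part 2: `Λ k` is irreducible -/

/-- **Cub.**  Proof.  Let `f` be the cubic form and `f = g h`.  For every variable `e`:
`degreeOf e f = 1` (the coefficient of a monomial which contains `e` is a unit times `p a p b p c ≠ 0`, and every variable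
has exponent at most one), and `degreeOf e f = degreeOf e g + degreeOf e h`
(`MvPolynomial.degreeOf_mul_eq`).  So every variable occurs in exactly one of `g`, `h`; let `I` be the set for `g`, `J` for
`h`.  (1) `I = ∅`: `g = C r`.  `r` divides all coefficients `κ (p a p b p c)`, hence all `p a p b p c`.
If `r` is not a unit, take an irreducible `π ∣ r`; the set of `a` with `π ∤ p a` has at most two elements
(if `a < b < c` are three such, `π` prime does not divide `p a p b p c`), so `π` divides at least three, in particular two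
different `p a`, `p b`: contradiction.  So `g` is a unit.  `J = ∅` is the same.  (2) `I`, `J` not empty:
one of them has at least three elements, say `J ∋ b, c, e` (three different ones) and `I ∋ a`.  Evaluate in `MvPolynomial (Fin 5) R` itself:
`ρ_S` sets all variables outside `S` equal to zero.  `ρ_{b,c,e} f = κ p b p c p e X b X c X e` (for the ordered triple) is not
zero and equals `g(0) * ρ_{b,c,e} h` (no variable of `g` survives), so `g(0) ≠ 0`.  `ρ_{b,c} f = 0` (no cubic monomial in two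
variables) `= g(0) * ρ_{b,c} h`, so `ρ_{b,c} h = 0`.  `ρ_{a,b,c} f = κ p a p b p c X a X b X c ≠ 0` is
`ρ_{a,b,c} g * ρ_{a,b,c} h`, and `ρ_{a,b,c} h = ρ_{b,c} h = 0` as `X a` does not occur in `h`: contradiction.
`f` is not zero and not a unit (no constant term: `ρ_∅ f = 0`). -/
def S_Cub : Prop := ∀ (R : Type) [CommRing R] [IsDomain R] [UniqueFactorizationMonoid R]
  (p : Fin 5 → R) (κ : Fin 5 → Fin 5 → Fin 5 → R), (∀ a b c, IsUnit (κ a b c)) →
  (∀ a, p a ≠ 0) → (∀ a b π, a ≠ b → Irreducible π → π ∣ p a → π ∣ p b → False) →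
  Irreducible (∑ a, ∑ b, ∑ c, if a < b ∧ b < c then
    MvPolynomial.C (κ a b c * (p a * p b * p c)) *
      (MvPolynomial.X a * MvPolynomial.X b * MvPolynomial.X c) else 0 : MvPolynomial (Fin 5) R)

/-- The bilinear form of `Pco`. -/
noncomputable def bil {σ L : Type} [CommRing L] (κ : Fin 5 → Fin 5 → L) (x y : Fin 5 → σ) (a : Fin 5) :
    MvPolynomial σ L :=
  ∑ l, if l = a then 0 else MvPolynomial.C (κ a l) * MvPolynomial.X (y l) *
    ∏ i, if i = a ∨ i = l then 1 else MvPolynomial.X (x i)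

/-- **Pco.**  Write `P a = bil κ x y a = ∑_{l ≠ a} κ a l y_l ∏_{i ≠ a, l} x_i`.  Proof.  `P a ≠ 0`: the coefficient of
`y_l ∏ x_i` is `κ a l ≠ 0`.  Let `π` be irreducible, `π ∣ P a`, `π ∣ P b`, `a ≠ b`.  The variable `y a` does not
occur in `P a`, so not in its divisor `π` (`degreeOf_mul_eq`); `y b` does not occur in `P b`, so not in `π`.
Let `P a = π h`.  Apply `MvPolynomial.pderiv (y b)`: `pderiv π = 0` (`y b` does not occur in `π`), so `π` divides
`pderiv (y b) (P a) = κ a b ∏_{i ≠ a, b} x_i`.  `π` is prime and each `x_i` is irreducible, so `π` is associated with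
`x_i` for some `i ≠ a, b`, and `x_i ∣ P a`.  But `P a` at `x_i = 0` is `κ a i y_i ∏_{j ≠ a, i} x_j ≠ 0` (only the summand `l = i`
has no factor `x_i`): contradiction. -/
def S_Pco : Prop := ∀ (L : Type) [Field L] (σ : Type) (κ : Fin 5 → Fin 5 → L) (x y : Fin 5 → σ),
  Function.Injective x → Function.Injective y → (∀ i j, x i ≠ y j) →
  (∀ a l, a ≠ l → κ a l ≠ 0) →
  (∀ a, bil κ x y a ≠ 0) ∧ ∀ a b (π : MvPolynomial σ L), a ≠ b → Irreducible π →
    π ∣ bil κ x y a → π ∣ bil κ x y b → False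

/-- **Pfo.**  Proof.  For `a ≠ l` with the complement `p < q < r` put
`κ a l = ε(a,l) (lam q - lam p) (lam r - lam p) (lam r - lam q)` with the right sign `ε(a,l) ∈ {1, -1}`
(`ε = -sign of (a,l,p,q,r)`), and `κ a a = 1`.  It is not zero as `lam` is injective.  For each `a` the identity
is checked by `ring` after expanding (`X5_0` to `X5_4`, `lap`, `mn`; e.g. for `a = 0`: coefficient of `w 1` is
`-(…) v 2 v 3 v 4`). -/
def S_Pfo : Prop := ∀ (L : Type) [Field L] (lam : Fin 5 → L), Function.Injective lam →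
  ∃ κ : Fin 5 → Fin 5 → L, (∀ a l, κ a l ≠ 0) ∧
    ∀ (R : Type) [CommRing R] [Algebra L R] (v w : V5 R) (a : Fin 5),
      X5 v w (fun i => algebraMap L R (lam i) * v i) (fun i => algebraMap L R (lam i ^ 2) * v i) a
        = ∑ l, if l = a then 0 else algebraMap L R (κ a l) * w l *
          ∏ i, if i = a ∨ i = l then 1 else v i

/-- **Hfo.**  The Hankel determinant.  Proof: `ring` after expanding `H3`, `dot5` and the sums
(`Fin.sum_univ_succ`): a polynomial identity (Cauchy-Binet). -/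
def S_Hfo : Prop := ∀ (R : Type) [CommRing R] (lam p u : V5 R),
  H3 p (fun i => lam i * p i) (fun i => lam i ^ 2 * p i)
      u (fun i => lam i * u i) (fun i => lam i ^ 2 * u i)
    = ∑ a, ∑ b, ∑ c, if a < b ∧ b < c then
        (((lam b - lam a) * (lam c - lam a) * (lam c - lam b)) ^ 2 *
          (p a * p b * p c)) * (u a * u b * u c) else 0

/-- **Tra.**  Transfer of `Cub` to the polynomial ring `A`.  Let `τ = {x : Fin n × Fin 5 // x.1 ≠ j}`,
`A₀ = MvPolynomial τ L` (a unique factorization domain), `ι = rename Subtype.val : A₀ → A`.  Proof.  The equivalence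
`Fin n × Fin 5 ≃ Fin 5 ⊕ τ` (`(j, a) ↦ inl a`) gives `A ≃ₐ[L] MvPolynomial (Fin 5) A₀`
(`MvPolynomial.renameEquiv`, `MvPolynomial.sumAlgEquiv`) which sends `X (j, a)` to `X a` and `ι f` to `C f`.
The image of the given polynomial is the cubic form of `Cub`.  Irreducibility is invariant under ring isomorphisms
(`MulEquiv.irreducible_iff`). -/
def S_Tra : Prop := ∀ (n : ℕ) (L : Type) [Field L] (j : Fin n)
  (p : Fin 5 → MvPolynomial {x : Fin n × Fin 5 // x.1 ≠ j} L) (κ : Fin 5 → Fin 5 → Fin 5 → L),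
  (∀ a b c, κ a b c ≠ 0) → (∀ a, p a ≠ 0) →
  (∀ a b π, a ≠ b → Irreducible π → π ∣ p a → π ∣ p b → False) →
  Irreducible (∑ a, ∑ b, ∑ c, if a < b ∧ b < c then
    (MvPolynomial.C (κ a b c) * (MvPolynomial.rename Subtype.val (p a) *
      MvPolynomial.rename Subtype.val (p b) * MvPolynomial.rename Subtype.val (p c))) *
      (gen n L j a * gen n L j b * gen n L j c) else 0 : PR n L)

/-- **Irr1.**  `Λ k` is irreducible for a diagonal matrix.  Proof.  `n ≥ 3`, so `k - 1`, `k`, `k + 1` are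
different.  Put `u = gen (k-1)`, `v = gen k`, `v' = gen (k+1)`, `β i = lam i ^ c (k-1)`, `β' i = lam i ^ c k` (all not zero;
`Matrix.diagonal_pow`, `Matrix.mulVec_diagonal`).  (1) `P := Fg d k = X5 v (β' v') (lam v) (lam² v)`, so by
Pfo `P a = ∑_{l ≠ a} κ a l β'_l v'_l ∏_{i ≠ a, l} v_i`, i.e. `P a = rename Subtype.val (p a)` with
`p a = bil (fun a l => κ a l * β' l) x y a`, `x i = ⟨(k, i), _⟩`, `y i = ⟨(k+1, i), _⟩` in `τ = {x // x.1 ≠ k - 1}`.
(2) `Fg d (k-1) = X5 u (β v) (lam u) (lam² u)` and `B (k-1)ᵀ = diagonal β`; coordinatewise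
`β i * X5 u (β v) (lam u) (lam² u) i = (∏ β) * X5 (β⁻¹ u) v (lam β⁻¹ u) (lam² β⁻¹ u) i` (`X5_mulVec` for `diagonal β`, or the
formulas `X5_0` to `X5_4` and `field_simp`, `ring`).  So `bwd (Fg d) k = (∏ β) • X5 P (X5 (β⁻¹ u) v …) (lam P) (lam² P)`.
(3) `P ⬝ v = 0`, `(lam P) ⬝ v = P ⬝ (lam v) = 0`, `(lam² P) ⬝ v = 0` (`X5_dot1`, `X5_dot3`, `X5_dot4`), so
`X5_contr` gives `bwd (Fg d) k = -(∏ β) H3(P, lam P, lam² P; β⁻¹ u, …) • v`, hence `Λ k = -(∏ β) H3(…)` (compare the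
coordinate `0`).  (4) By Hfo `Λ k = ∑_{a<b<c} (-(∏ β) V_{abc}² (β a β b β c)⁻¹) P a P b P c u a u b u c`.
(5) Tra with Pco, where `κ a b c` is this coefficient for `a < b < c` and `κ a b c = 1` otherwise. -/
def S_Irr1 : Prop := ∀ (n : ℕ) [NeZero n] (L : Type) [Field L] (lam : Fin 5 → L) (c : Fin n → ℕ)
  (Λ : Fin n → PR n L), 3 ≤ n → Function.Injective lam → (∀ i, lam i ≠ 0) →
  IsLam (pw (Matrix.diagonal lam) c) Λ → ∀ k, Irreducible (Λ k)

/-- `M` is diagonalizable over the algebraic closure with distinct eigenvalues which are not zero. -/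
def DiagC {K : Type} [Field K] (M : Matrix (Fin 5) (Fin 5) K) : Prop :=
  ∃ (g : Matrix (Fin 5) (Fin 5) (AlgebraicClosure K)) (lam : Fin 5 → AlgebraicClosure K),
    IsUnit g.det ∧ Function.Injective lam ∧ (∀ i, lam i ≠ 0) ∧
      M.map (algebraMap K (AlgebraicClosure K)) * g = g * Matrix.diagonal lam

/-- **Irr2.**  Proof.  Let `F = AlgebraicClosure K`, `M' = M.map`, `Δ = diagonal lam`, `M' g = g Δ`, `Δ`-datum
`e = pw Δ c`, `M'`-datum `d' = pw M' c`.  The map `A_K → A_F` (`MvPolynomial.map`) sends `Λ` to `Λ'` with `IsLam d' Λ'`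
(functoriality: the datum `d'` is the image of `d`; `fwd_map`, `bwd_map` for the ring homomorphism `A_K → A_F`).  Let `Λ^Δ` be the one of `e` (Lam).
For every polygon `x`: with `g x = (g *ᵥ x k)_k`, `g' = g.adjugateᵀ`: `M'^j g = g Δ^j`, so by `X5_mulVec`
`fwd d' (g x) = g' (fwd e x)`.  From `M' g = g Δ`: `gᵀ M'ᵀ = Δ gᵀ` and `gᵀ g' = det g • 1`, so
`M'ᵀ g' = g' Δ` (multiply `Δ gᵀ g' = gᵀ M'ᵀ g'` by `g'` and cancel `det g`), `(M'^j)ᵀ g' = g' Δ^j`, so
`bwd d' (g' y) = g'' (bwd e y)` with `g'' = (g'.adjugate)ᵀ = (det g)^3 • g`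
(`Matrix.adjugate_adjugate` for `Fin 5`).  Hence
`bwd d' (fwd d' (g x)) k = (det g)^3 • g (Λ^Δ_k(x) x k)`, and it is `Λ'_k(g x) • g x k`; for `x = gen`
this gives `ev (Λ' k) (g gen) = C (det g)^3 * Λ^Δ k`, irreducible by Irr1.  The algebra endomorphism `X(k,i) ↦ (g gen k) i` of
`A_F` is an automorphism (inverse: `g⁻¹`), so `Λ' k` is irreducible.  If `Λ k = f h` in `A_K` then one of the images is a unit of
`A_F`, i.e. a non-zero constant, so `f` or `h` is a non-zero constant (`MvPolynomial.map` is injective and preserves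
the total degree); `Λ k` is not a unit for the same reason. -/
def S_Irr2 : Prop := ∀ (n : ℕ) [NeZero n] (K : Type) [Field K] (M : Matrix (Fin 5) (Fin 5) K)
  (c : Fin n → ℕ) (Λ : Fin n → PR n K), 3 ≤ n → DiagC M → IsLam (pw M c) Λ →
  ∀ k, Irreducible (Λ k)

/-- **Dia.**  Proof.  Over the algebraic closure `F` the characteristic polynomial has degree 5, splits, and is separable, so it has
five distinct roots `lam i`, `i : Fin 5`; none is zero as `det M ≠ 0`.  For each `i` there is an eigenvector `g_i ≠ 0`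
(`Matrix.exists_mulVec_eq_zero_iff` for `M' - lam i`, the determinant is the value of the characteristic polynomial).
Eigenvectors for distinct eigenvalues are linearly independent (`Module.End.eigenvectors_linearIndependent'`), so the
matrix `g` with these columns is invertible, and `M' g = g diagonal lam`. -/
def S_Dia : Prop := ∀ (K : Type) [Field K] (M : Matrix (Fin 5) (Fin 5) K),
  M.charpoly.Separable → M.det ≠ 0 → DiagC M

/-- **Sep.**  Proof.  `det M ≡ det Cm = 1` modulo 9, so `det M ≠ 0` in `ℤ` and in `K` (characteristic 0).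
Let `f = M.charpoly : ℤ[X]` (monic).  Modulo 3 it is the characteristic polynomial of the cyclic shift, `X^5 - 1` (over `ZMod 9`
already; direct computation or `decide`), so `f = X^5 - 1 + 3 h`, `f' = 5 X^4 + 3 h'`, and
`X f' - 5 f = 5 + 3 r` with `r ∈ ℤ[X]`.  Let `α` in an algebraically closed field of characteristic zero `F ⊇ K` be a common
root of `f` and `f'`.  Then `5 + 3 r(α) = 0` and `α` is integral over `ℤ`, so `5/3 = -r(α) ∈ ℚ` is integral
over `ℤ`, hence in `ℤ`: contradiction.  So `f` and `f'` have no common root in `F`, i.e. the image of `f` in `K[X]` is separable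
(`Polynomial.isCoprime_iff_aeval_ne_zero_of_isAlgClosed` or similar).  `charpoly` commutes with `Matrix.map`. -/
def S_Sep : Prop := ∀ (K : Type) [Field K] [CharZero K] (M : Matrix (Fin 5) (Fin 5) ℤ), IsC9 M →
  (M.map (Int.cast : ℤ → K)).charpoly.Separable ∧ (M.map (Int.cast : ℤ → K)).det ≠ 0

/-! ## Part 3: the contracted divisor and its image -/

/-- **Y.**  Proof.  Put `R = A`, `g = gen k`, `At = Mᵀ`, `ψ = psi d k` (`ψ k = g` as `k ≠ k - 1`), `x = xpt d k η`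
from `NZ`, `y = fwd x`.  By the choice of `ψ (k-1)`: `(B (k-1))ᵀ ψ (k-1) = det B (k-1) • (X₀ g + X₁ At g + X₂ At At g)`
(`(B)ᵀ (adj B)ᵀ = det B`).  (1) `ψ j` is orthogonal to `x j`, `M x j`, `M M x j` and `B j x (j+1)` for all `j`: for `j ≠ k`,
`x j = X5 (ψ j) (…) (At ψ j) (At At ψ j)`, use `X5_dot1`, `X5_dot3`, `X5_dot4` and `dot_mulVec'`; for `j = k`,
`x k = X5 g (At g) (At At g) η`, the same with `X5_dot1`, `X5_dot2`, `X5_dot3`.  `ψ j ⬝ B j x (j+1) = (B jᵀ ψ j) ⬝ x (j+1)`: if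
`j + 1 ≠ k` it is `0` by `X5_dot2`; if `j + 1 = k` then `B jᵀ ψ j` is a combination of `g`, `At g`, `At At g`, all orthogonal
to `x k`.  So `X5_par`: `y j i * ψ j l = y j l * ψ j i`.  (2) Work in the fraction field `F` of `A`: `ψ j ≠ 0` for all `j`
(for `j = k - 1`: `(adj B)ᵀ` is invertible and `z = X₀ g + X₁ At g + X₂ At At g ≠ 0`, because the evaluation `X₀ = 1`, `X₁ = X₂ = 0`,
`g = (1, 0, 0, 0, 0)` gives `z = g ≠ 0`), so `y j = e j • ψ j` with `e j ∈ F`, and `e j ≠ 0` as `y j ≠ 0` (NZ).  (3) `bwd y k = X5 (y k) (Bᵀ y (k-1)) (At y k)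
(At At y k) = e_k³ e_{k-1} X5 g (det B • (X₀ g + X₁ At g + X₂ At At g)) (At g) (At At g) = 0` (`X5_smul`, `X5_dep2`).  By `lam_pt` at
`x`: `ev (Λ k) x • x k = 0`, and `x k ≠ 0`, so `ev (Λ k) x = 0`.  (4) `Λ k ∣ ev P (Fg d)`, so
`0 = ev (ev P (Fg d)) x = ev P (fwd x) = ev P y = ev P (sc e ψ) = (∏ e j ^ a j) ev P ψ` in `F`.  So `ev P ψ = 0`
(in `F`, hence in `A`). -/
def S_Y : Prop := ∀ (n : ℕ) [NeZero n] (L : Type) [Field L] (d : Dat n L)
  (Λ : Fin n → PR n L) (k : Fin n), 2 ≤ n → IsLam d Λ → IsUnit (d.B (k - 1)).det → NZ d k →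
  ∀ (P : PR n L) (a : Fin n → ℕ), MH a P → Λ k ∣ ev P (Fg d) → ev P (psi d k) = 0

/-- **Alg.**  The coordinates of `v` are algebraic over the field generated by the coordinates of `y = fwd v` if `v`
is regular.  Proof.  `E = fld L y`, `s = bwd y`: all coordinates of `s` are in `E` (they are polynomials in the
coordinates of `y` over `L`).  `y k ≠ 0` (otherwise `s k = X5 0 … = 0`) and `v k ≠ 0` (otherwise `y k = 0`).  Choose
`b k` with `s k (b k) ≠ 0`.  By `bwd_fwd_par` `s k (b k) * v k j = s k j * v k (b k)`, so `x k := v k (b k) ≠ 0` and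
`v k j = x k * r k j` with `r k j = s k j / s k (b k) ∈ E`.  So `v = sc x r`, and by `fwd_sc`
`y k i = x k ^ 3 x (k+1) * (fwd r k i)`, `fwd r k i ∈ E`; for an `i` with `y k i ≠ 0` we get
`t k := x k ^ 3 * x (k+1) ∈ E`, `t k ≠ 0`.  So `x (k+1) = t k * x k ^ (-3)`, and by induction on `j`
`x (k+j) = τ * x k ^ ((-3)^j)` (integer exponent) with `τ ∈ E`, `τ ≠ 0`.  For `j = n`: `k + n = k`, so
`x k ^ ((-3)^n - 1) ∈ E` with a non-zero exponent (`n ≥ 1`), hence `x k` is algebraic over `E`, and so is `v k j = x k r k j`. -/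
def S_Alg : Prop := ∀ (n : ℕ) [NeZero n] (L K : Type) [Field L] [Field K] [Algebra L K]
  (d : Dat n L) (v : Pg n K), (∀ k, bwd (d.up K) (fwd (d.up K) v) k ≠ 0) →
  ∀ k i, IsAlgebraic (fld L (fwd (d.up K) v)) (v k i)

/-- **Tow.**  Proof.  Let `F` be the algebraic closure of `fld L w` in `K` (an intermediate field of
`K / fld L w`).  It contains `L` and all `v k i`, hence (restricting scalars) `fld L v`.  `θ` is algebraic over `fld L v`, so over
`F`, so over `fld L w` (`F` is algebraic over it). -/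
def S_Tow : Prop := ∀ (n : ℕ) (L K : Type) [Field L] [Field K] [Algebra L K] (v w : Pg n K)
  (θ : K), (∀ k i, IsAlgebraic (fld L w) (v k i)) → IsAlgebraic (fld L v) θ →
  IsAlgebraic (fld L w) θ

/-- The index set of the free variables of `psi d k`. -/
def FreeIx (n : ℕ) [NeZero n] (k : Fin n) : Type := {x : Fin n × Fin 5 // x.1 ≠ k - 1 ∨ x.2 < 3}

/-- The image of a polygon over `A` in the fraction field. -/
noncomputable def im {n : ℕ} {L : Type} [Field L] (v : Pg n (PR n L)) : Pg n (FractionRing (PR n L)) :=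
  fun k i => algebraMap (PR n L) (FractionRing (PR n L)) (v k i)

/-- **Ori.**  The free variables are in the field generated by the coordinates of `psi d k`.  Proof.  `E = fld L (im (psi d k))`.
For `x.1 ≠ k - 1` the variable is a coordinate of `psi d k`.  Let `x = (k-1, i)`, `i < 3`, `B = B (k-1)`, `g = gen k`, `At = Mᵀ`,
`z = X₀ g + X₁ At g + X₂ At At g` (with `X_i = gen (k-1) i`).  `Bᵀ psi(k-1) = det B • z`, so the coordinates of `z` are in
`E` (`det B` is a unit of `L`); so are the coordinates of `g`, `At g`, `At At g` (as `k ≠ k - 1`).  Let `η` be as in `NZ`: `N = X5 g (At g) (At At g) η ≠ 0`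
(`xpt d k η k ≠ 0`).  Then `X5 z (At g) (At At g) η = X₀ • N`, `X5 g z (At At g) η = X₁ • N`, `X5 g (At g) z η = X₂ • N`
(linearity, equal arguments give zero: unfold and `ring` coordinatewise), so `X_i` is a quotient of elements of `E`. -/
def S_Ori : Prop := ∀ (n : ℕ) [NeZero n] (L : Type) [Field L] (d : Dat n L) (k : Fin n), 2 ≤ n →
  IsUnit (d.B (k - 1)).det → NZ d k → ∀ x : FreeIx n k,
    algebraMap (PR n L) (FractionRing (PR n L)) (MvPolynomial.X x.1) ∈ fld L (im (psi d k))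

/-- **Trb.**  Proof.  The number of elements of `FreeIx n k` is `5 (n - 1) + 3 = 5 n - 2`; the variables `X x`, `x ∈ FreeIx`,
are algebraically independent over `L` in `A` and in the fraction field (`MvPolynomial.algebraicIndependent_X`, injective
reindexing, injective algebra map).  By induction on `m` they are algebraic over `fld L (im (orb m))`: for `m = 0` by Ori; step:
`im (orb (m+1)) = fwd (d_m.up F) (im (orb m))` (functoriality `fwd_up` for `A → F`, `d_m = d'` for even `m` and `d` for odd `m`) and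
`bwd (fwd (im (orb m))) j ≠ 0` by `REG`, so by Alg all coordinates of `im (orb m)` are algebraic over
`fld L (im (orb (m+1)))`, and Tow applies.  Reindex by `Fin (5 n - 2)`. -/
def S_Trb : Prop := ∀ (n : ℕ) [NeZero n] (L : Type) [Field L] (d d' : Dat n L) (k : Fin n), 2 ≤ n →
  IsUnit (d.B (k - 1)).det → NZ d k → REG d d' k → ∀ m,
    ∃ θ : Fin (5 * n - 2) → FractionRing (PR n L), AlgebraicIndependent L θ ∧
      ∀ i, IsAlgebraic (fld L (im (orb d d' k m))) (θ i)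

/-! ## Part 4: finitely many components -/

/-- **Add.**  Proof.  Suppose `f ∈ MvPolynomial (Fin (r+1)) L` is not zero and `f(b, y) = 0`.  View `f` as a
polynomial in the variable `0` over `MvPolynomial (Fin r) L` (`MvPolynomial.finSuccEquiv`), `f = ∑ f_i X₀^i`, and let `i₀` be the
smallest index with `f_{i₀} ≠ 0` (natTrailingDegree): `f = X₀^{i₀} h`.  `b^{i₀} h(b, y) = 0` and `b ≠ 0` in the domain `R`, so
`h(b, y) = 0`.  Apply `φ`: `0 = h(0, φ y) = f_{i₀}(φ y)`, against the algebraic independence of `φ ∘ y`. -/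
def S_Add : Prop := ∀ (L R S : Type) [Field L] [CommRing R] [IsDomain R] [CommRing S]
  [Algebra L R] [Algebra L S] (φ : R →ₐ[L] S) (r : ℕ) (y : Fin r → R) (b : R),
  AlgebraicIndependent L (fun i => φ (y i)) → b ≠ 0 → φ b = 0 →
  AlgebraicIndependent L (Fin.cons b y : Fin (r + 1) → R)

/-- **Sel.**  Proof.  `s` = set of the coordinates of `x`, `E = fld L x`, `F` = algebraic closure of `E` in `K`, which
contains all `θ i`.  `F` is algebraic over `L(s)`, so there is a transcendence basis `J ⊆ s` of `F` over `L`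
(`exists_isTranscendenceBasis_subset`; `F` is algebraic over `Algebra.adjoin L s` because it is so over its field of
fractions `E`).  Its cardinality is the transcendence degree, which is at least `r` (`θ` is algebraically independent in `F`).
Choose `r` different elements of `J`; each is `x k i` for some `(k, i)`: take `f = X (k, i)` (`ev_X`).  (It is also possible to
avoid `F` and to use the matroid of algebraic independence.) -/
def S_Sel : Prop := ∀ (n : ℕ) (L K : Type) [Field L] [Field K] [Algebra L K] (x : Pg n K) (r : ℕ)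
  (θ : Fin r → K), AlgebraicIndependent L θ → (∀ i, IsAlgebraic (fld L x) (θ i)) →
  ∃ f : Fin r → PR n L, AlgebraicIndependent L (fun i => ev (f i) x)

/-- The kernel of the evaluation at `x`. -/
noncomputable def kerx {n : ℕ} {L K : Type} [Field L] [Field K] [Algebra L K] (x : Pg n K) :
    Ideal (PR n L) :=
  RingHom.ker (MvPolynomial.aeval (R := L) (fun y : Fin n × Fin 5 => x y.1 y.2) : PR n L →ₐ[L] K)

/-- **Fin.**  Proof.  `𝔭 = kerx x` is prime and contains `P`, `Q`.  Let `𝔮 ≤ 𝔭` be a prime which contains `P` and `Q`;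
we show `𝔮 = 𝔭`.  Suppose not, take `b ∈ 𝔭`, `b ∉ 𝔮`.  `f i` as in the hypothesis.  The images of `f i` in the domain
`A / 𝔮` have images in `A / 𝔭 ⊆ K` which are algebraically independent, so by Add (`R = A/𝔮`, `S = K`, the map `A/𝔮 → K`) the classes of
`b, f_1, …, f_r` are algebraically independent in `A / 𝔮`.  `P ∈ 𝔮`, `P ≠ 0` or `Q ≠ 0` (if both vanish they are not
relatively prime, `X` divides both; here `n ≥ 1`), so `𝔮 ≠ 0` contains an irreducible `g` (an irreducible factor of `P`, `𝔮` is prime).  `(g)` is a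
prime ideal, `(g) ≤ 𝔮`.  `(g) ≠ 𝔮`, since otherwise `g ∣ P` and `g ∣ Q`, against `IsRelPrime P Q`.  Take `e ∈ 𝔮`, `e ∉ (g)`: by Add
(`R = A/(g)`, `S = A/𝔮`) the classes of `e, b, f_1, …, f_r` are algebraically independent in `A/(g)`; again by Add (`R = A`,
`S = A/(g)`, element `g`) `g, e, b, f_1, …, f_r` are algebraically independent in `A`.  So `r + 3 ≤ trdeg A = 5 n`
(`MvPolynomial.trdeg_of_isDomain`, `AlgebraicIndependent.lift_cardinalMk_le_trdeg`): contradiction. -/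
def S_Fin : Prop := ∀ (n : ℕ) [NeZero n] (L K : Type) [Field L] [Field K] [Algebra L K] (x : Pg n K)
  (r : ℕ) (f : Fin r → PR n L), 5 * n < r + 3 → AlgebraicIndependent L (fun i => ev (f i) x) →
  ∀ P Q : PR n L, IsRelPrime P Q → ev P x = 0 → ev Q x = 0 →
    kerx x ∈ (Ideal.span {P, Q}).minimalPrimes

/-- **Dis.**  The kernels at different even times are different.  Proof.  Write `o m = orb d d' k m`, `R = A`,
`U : Pg n A → Pg n A`, `U w = bwd d' (bwd d w)` (with `.up A`), and let `f_i = (bwd d (U^[m] gen)) k i ∈ A`.  For a polygon `w` over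
an `L`-algebra, `ev f_i w = (bwd d (U^[m] w)) k i` (functoriality).  (1) For all `j`: `U (o (2j+2)) = sc c (o (2j))` with all
`c l ≠ 0`: `o (2j+2) = fwd d (o (2j+1))`, so `bwd d (o (2j+2)) = sc c' (o (2j+1))` with `c' l ≠ 0` (`bwd_fwd_par`, `REG` at `2j+1`, in the
fraction field; or with `Λ` of `d` from Lam and `lam_pt`: `c' l = ev (Λ l) (o (2j+1))`, not zero by `REG`); then
`bwd d' (sc c' (o (2j+1))) = sc e (bwd d' (o (2j+1)))` (`bwd_sc`) and `bwd d' (o (2j+1)) = sc c'' (o (2j))`.  By induction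
(`bwd_sc` twice) `U^[m] (sc c (o (2m + 2j))) = sc c''' (o (2j))` with non-zero `c'''`.  (2) `bwd d (psi d k) k = X5 g (Bᵀ psi (k-1)) (Mᵀ g)
(Mᵀ Mᵀ g) = 0` by `X5_dep2` (`g = psi k = gen k`, `Bᵀ psi(k-1) = det B • (…)`), so `ev f_i (o (2m)) = 0` for all `i`.  (3) For `m < m'`:
`ev f_i (o (2m')) = (bwd d (sc c (o (2(m'-m))))) k i = (non-zero) * (bwd d (o (2(m'-m)))) k i`, and `bwd d (o (2(m'-m))) k ≠ 0` by `REG` at the
odd time `2(m'-m) - 1`.  So some `f_i` works. -/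
def S_Dis : Prop := ∀ (n : ℕ) [NeZero n] (L : Type) [Field L] (d d' : Dat n L) (k : Fin n), 2 ≤ n →
  (∃ Λ Λ' : Fin n → PR n L, IsLam d Λ ∧ IsLam d' Λ') → REG d d' k → ∀ m m', m < m' →
    ∃ f : PR n L, ev f (orb d d' k (2 * m)) = 0 ∧ ev f (orb d d' k (2 * m')) ≠ 0

/-- **Hun.**  The key step.  Proof.  `H ≠ 0`, since `ev P1 (Fg d) ≠ 0` (Cmp).  Suppose `H` is not a unit and let `π` be an
irreducible factor.  `π` divides `ev P1 (Fg d)` and `ev Q1 (Fg d)`, so by U1 `π ∣ Λ k` for some `k`, and `Λ k` is irreducible, so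
`Λ k` divides both.  By Y `ev P1 (psi d k) = 0 = ev Q1 (psi d k)`.  Write `o m = orb d d' k m`.  By induction
`ev P1 (o (2m)) = 0`, `ev Q1 (o (2m)) = 0`: `ev P0 (o (2m+1)) = ev P0 (fwd d' (o (2m))) = ev (ev P0 (Fg d')) (o (2m)) =
ev G (…) * ev P1 (o (2m)) = 0` (`ev_Fg`), then `ev P1 (o (2m+2)) = ev (ev P1 (Fg d)) (o (2m+1)) = ev H (…) * ev P0 (o (2m+1)) = 0`; the same
for `Q`.  Let `x m = im (o (2m))` in the fraction field.  By Trb, Sel and Fin (`r = 5n - 2`, `r + 3 > 5n`) all `kerx (x m)` are minimal primes of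
`span {P1, Q1}`; by Dis they are pairwise different (`ev f (im v) = algebraMap (ev f v)`).  But there are only finitely many minimal primes
(`Ideal.finite_minimalPrimes_of_isNoetherianRing`): contradiction. -/
def S_Hun : Prop := ∀ (n : ℕ) [NeZero n] (L : Type) [Field L] (d d' : Dat n L)
  (Λ Λ' Ξ Ξ' : Fin n → PR n L), 3 ≤ n → HP d Λ Λ' → HP d' Ξ Ξ' → (∀ k, REG d d' k) →
  ∀ (P0 Q0 P1 Q1 G H : PR n L) (a b : Fin n → ℕ), IsRelPrime P1 Q1 → P1 ≠ 0 → Q1 ≠ 0 →
    MH a P1 → MH b Q1 → ev P1 (Fg d) = H * P0 → ev Q1 (Fg d) = H * Q0 →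
    ev P0 (Fg d') = G * P1 → ev Q0 (Fg d') = G * Q1 → IsUnit H

/-- **Deg.**  Proof.  `P0 ≠ 0`, since `H * P0 = ev P1 (Fg d) ≠ 0` (Cmp).  A unit of `A` is a non-zero constant, so `ev P1 (Fg d)` is a
constant multiple of `P0` and is multihomogeneous of multidegree `3 b k + b (k-1)` (Cmp); the multidegree of a non-zero polynomial
is unique (evaluate at `sgen`: compare the monomials in the scaling variables), so `a k = 3 b k + b (k-1)`, and in
the same way `b k = 3 a k + a (k-1)`.  Sum over `k`: `∑ a = 4 ∑ b`, `∑ b = 4 ∑ a`, so `∑ a = 0`, `a = 0`.  Then `MH` with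
`R = A`, `c = 0`, `v = gen` gives `ev P0 0 = P0`, and `ev P0 0 = C (constant coefficient)`. -/
def S_Deg : Prop := ∀ (n : ℕ) [NeZero n] (L : Type) [Field L] (d d' : Dat n L)
  (Λ Λ' Ξ Ξ' : Fin n → PR n L), IsLam d Λ → IsLam' d Λ' → IsLam d' Ξ → IsLam' d' Ξ' →
  (∀ k, Λ k ≠ 0) → (∀ k, Λ' k ≠ 0) → (∀ k, Ξ k ≠ 0) → (∀ k, Ξ' k ≠ 0) →
  ∀ (P0 P1 G H : PR n L) (a b : Fin n → ℕ), IsUnit G → IsUnit H → P1 ≠ 0 → MH a P0 → MH b P1 →
    ev P1 (Fg d) = H * P0 → ev P0 (Fg d') = G * P1 → ∃ c : L, P0 = MvPolynomial.C c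

/-! ## Part 5: reduction of an invariant fraction -/

/-- **Dom.**  Proof.  `L` infinite.  Put `y = fwd d x`, `w = fwd d' y` for a point `x ∈ Pg n L`.  `bwd d' w = sc (Ξ(y)) y`
(`lam_pt` for `d'`) and `bwd d (sc c y) = sc (c_k³ c_{k-1}) (bwd d y) = sc (c_k³ c_{k-1}) (sc (Λ(x)) x)`, so
`bwd d (bwd d' w) = sc θ x` with `θ k = Ξ_k(y)³ Ξ_{k-1}(y) Λ_k(x)`.  The polynomials `Ξ_k ∘ Fg d` are not zero (LMH and Cmp),
`Λ k ≠ 0`, `f ≠ 0`, so there is `x` with `f(x) ≠ 0` and all `θ k ≠ 0` (`MvPolynomial.funext`: a non-zero polynomial over an infinite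
field has a non-zero value).  Take `e k = (θ k)⁻¹`: the value of the polynomial `ev f (sc e (bwd d (bwd d' gen)))` at `w` is `f(x) ≠ 0`. -/
def S_Dom : Prop := ∀ (n : ℕ) [NeZero n] (L : Type) [Field L] [Infinite L] (d d' : Dat n L)
  (Λ Λ' Ξ Ξ' : Fin n → PR n L), IsLam d Λ → IsLam' d Λ' → IsLam d' Ξ → IsLam' d' Ξ' →
  (∀ k, Λ k ≠ 0) → (∀ k, Λ' k ≠ 0) → (∀ k, Ξ k ≠ 0) → (∀ k, Ξ' k ≠ 0) →
  ∀ f : PR n L, f ≠ 0 → ∃ e : Fin n → L, (∀ k, e k ≠ 0) ∧
    ev f (sc (fun k => MvPolynomial.C (e k)) (bwd (d.up (PR n L)) (Gg d'))) ≠ 0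

/-- **Gua.**  Proof.  `L` infinite.  The guard polynomial is `N = ∏_k gen k 0 * Ξ' k * ev (Λ' k) (Gg d')` (not zero by LMH, Cmp).  Let
`N(w) ≠ 0`, `y = bwd d' w`, `v = sc e (bwd d y)`, `e k ≠ 0`.  `fwd d (bwd d y) = sc (Λ'(y)) y` (`lam_pt'`), so
`fwd d v = sc (e_k³ e_{k+1} Λ'_k(y)) y`, and `fwd d' y = sc (Ξ'(w)) w`, so `fwd d' (fwd d v) = sc t w` with
`t k = s_k³ s_{k+1} Ξ'_k(w)`, `s k = e_k³ e_{k+1} Λ'_k(y)`; all `s k`, `t k ≠ 0`.  `w k ≠ 0`, and `y k ≠ 0` because `fwd d' y k = Ξ'_k(w) w k ≠ 0`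
(`X5_zero1`).  So `fwd d v k ≠ 0` and `fwd d' (fwd d v) k ≠ 0`. -/
def S_Gua : Prop := ∀ (n : ℕ) [NeZero n] (L : Type) [Field L] (d d' : Dat n L)
  (Λ Λ' Ξ Ξ' : Fin n → PR n L), IsLam d Λ → IsLam' d Λ' → IsLam d' Ξ → IsLam' d' Ξ' →
  (∀ k, Λ k ≠ 0) → (∀ k, Λ' k ≠ 0) → (∀ k, Ξ k ≠ 0) → (∀ k, Ξ' k ≠ 0) →
  ∃ N : PR n L, N ≠ 0 ∧ ∀ (w : Pg n L) (e : Fin n → L), ev N w ≠ 0 → (∀ k, e k ≠ 0) →
    (∀ k, fwd d (sc e (bwd d (bwd d' w))) k ≠ 0) ∧
    (∀ k, fwd d' (fwd d (sc e (bwd d (bwd d' w)))) k ≠ 0) ∧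
    ∃ t : Fin n → L, (∀ k, t k ≠ 0) ∧ fwd d' (fwd d (sc e (bwd d (bwd d' w)))) = sc t w

/-- The polynomial `f (c v)`. -/
noncomputable def fsc {n : ℕ} {L : Type} [CommRing L] (f : PR n L) (c : Fin n → L) : PR n L :=
  ev f (sc (fun k => MvPolynomial.C (c k)) (gen n L))

/-- **RedA.**  Proof.  If `q = 0` both sides are zero (`fsc 0 c = 0`).  Let `q ≠ 0`.  By Dom for `f = p * q` there is `e` with
`f₀ := ev (p * q) (sc e (bwd d (Gg d'))) ≠ 0`.  Let `N` be from Gua, `w ∈ Pg n L` with `N(w) ≠ 0`, `f₀(w) ≠ 0`, `q(w) ≠ 0`, `q(c w) ≠ 0`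
(`fsc q c ≠ 0`, as it becomes `q` under the scaling by `c⁻¹`); `v = sc e (bwd d (bwd d' w))`,
so `p(v) ≠ 0`, `q(v) ≠ 0`, and `fwd d' (fwd d v) = sc t w`.  `InvF` at `v` with the
scaling `c k / t k`: `p(v) q(c w) = p(c w) q(v)`; with the scaling `1 / t k`: `p(v) q(w) = p(w) q(v)`.  So
`p(v) p(w) q(c w) = p(w) p(c w) q(v) = p(c w) p(v) q(w)`, hence `p(w) q(c w) = p(c w) q(w)`.  This holds on the set where
`N f₀ q (fsc q c) ≠ 0`, so the polynomial `(p * fsc q c - fsc p c * q) * N * f₀ * q * fsc q c` vanishes at all points over the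
infinite field, hence it is zero (`MvPolynomial.funext`), and `A` is a domain. -/
def S_RedA : Prop := ∀ (n : ℕ) [NeZero n] (L : Type) [Field L] [Infinite L] (d d' : Dat n L)
  (Λ Λ' Ξ Ξ' : Fin n → PR n L), IsLam d Λ → IsLam' d Λ' → IsLam d' Ξ → IsLam' d' Ξ' →
  (∀ k, Λ k ≠ 0) → (∀ k, Λ' k ≠ 0) → (∀ k, Ξ k ≠ 0) → (∀ k, Ξ' k ≠ 0) →
  ∀ p q : PR n L, p ≠ 0 → InvF d d' p q → ∀ c : Fin n → L, (∀ k, c k ≠ 0) →
    p * fsc q c = fsc p c * q

/-- **MHr.**  Proof.  Let all `c k ≠ 0`.  `f ↦ fsc f c` is a ring automorphism of `A` (inverse: `c⁻¹`), so `fsc P c`,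
`fsc Q c` are relatively prime.  From `P * fsc Q c = fsc P c * Q`: `P ∣ fsc P c` and `fsc P c ∣ P`, so `fsc P c = C χ * P` with
`χ ≠ 0` in `L`, and then `fsc Q c = C χ * Q`.  The coefficient of `fsc P c` at a monomial `m` is
`(∏_k c k ^ (deg_k m)) * coeff m P`, `deg_k m = ∑_i m (k, i)`.  Fix a monomial `m₀` of `P` and put `a k = deg_k m₀`.  For every
monomial `m` of `P` and all `c`: `∏ c k ^ deg_k m = χ(c) = ∏ c k ^ a k`; with `c k = 1` except for one index and `L` infinite: `deg_k m = a k` (two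
different powers of `t` differ for some `t ≠ 0`, e.g. `t ^ |i-j| = 1` has finitely many solutions).  The same for `Q` (the same `χ`).  So `P` and `Q` are
combinations of monomials with `deg_k m = a k`, and each of these satisfies `MH a` (direct). -/
def S_MHr : Prop := ∀ (n : ℕ) (L : Type) [Field L] [Infinite L] (P Q : PR n L), P ≠ 0 → Q ≠ 0 →
  IsRelPrime P Q → (∀ c : Fin n → L, (∀ k, c k ≠ 0) → P * fsc Q c = fsc P c * Q) →
  ∃ a, MH a P ∧ MH a Q

/-- **Red.**  Proof.  `p = g P`, `q = g Q` with `IsRelPrime P Q` (`UniqueFactorizationMonoid.exists_reduced_factors`), all not zero.  RedA and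
`fsc (g P) c = fsc g c * fsc P c`, `fsc g c ≠ 0` (automorphism) give `P * fsc Q c = fsc P c * Q`, so MHr gives `a`.  Let
`T = fwd d' (Fg d)` (over `A`) and `Δ = P * ev Q T - ev P T * Q`.  Suppose `Δ ≠ 0`.  By Dom for `f = Δ * g * q` there is `e` with
`f₁ = ev (Δ g q) (sc e (bwd d (Gg d'))) ≠ 0`; choose `w` with `f₁(w) ≠ 0`, `g(w) ≠ 0`, `q(w) ≠ 0`, `N(w) ≠ 0` (`N` from Gua),
`v = sc e (bwd d (bwd d' w))`, `fwd d' (fwd d v) = sc t w`.  `InvF` at `v` with the scaling `1 / t` (`q(v) ≠ 0`, `q(w) ≠ 0`):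
`p(v) q(w) = p(w) q(v)`, and `g(v) ≠ 0`, `g(w) ≠ 0`, so
`P(v) Q(w) = P(w) Q(v)`.  `w = sc t⁻¹ T(v)`, so `P(w) = (∏ t⁻¹ ^ a) P(T v)`, `Q(w) = (∏ t⁻¹ ^ a) Q(T v)`, hence
`P(v) Q(T v) = P(T v) Q(v)`, `Δ(v) = 0`, against `f₁(w) = Δ(v) g(v) q(v) ≠ 0`. -/
def S_Red : Prop := ∀ (n : ℕ) [NeZero n] (L : Type) [Field L] [Infinite L] (d d' : Dat n L)
  (Λ Λ' Ξ Ξ' : Fin n → PR n L), IsLam d Λ → IsLam' d Λ' → IsLam d' Ξ → IsLam' d' Ξ' →
  (∀ k, Λ k ≠ 0) → (∀ k, Λ' k ≠ 0) → (∀ k, Ξ k ≠ 0) → (∀ k, Ξ' k ≠ 0) →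
  ∀ p q : PR n L, p ≠ 0 → q ≠ 0 → InvF d d' p q → ∃ (g P Q : PR n L) (a : Fin n → ℕ),
    p = g * P ∧ q = g * Q ∧ IsRelPrime P Q ∧ MH a P ∧ MH a Q ∧
      P * ev Q (fwd (d'.up (PR n L)) (Fg d)) = ev P (fwd (d'.up (PR n L)) (Fg d)) * Q

/-- **Sys.**  Proof.  `P' = ev P (Fg d')`, `Q' = ev Q (Fg d')` are not zero and multihomogeneous (Cmp).  Let `P' = G P1`, `Q' = G Q1`,
`IsRelPrime P1 Q1` (`exists_reduced_factors`); `G`, `P1`, `Q1` are multihomogeneous (MHf).  `ev P (fwd d' (Fg d)) = ev (ev P (Fg d')) (Fg d)`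
(`ev_Fg`) `= ev G (Fg d) * ev P1 (Fg d)`, the same for `Q`; `ev G (Fg d) ≠ 0` (Cmp).  So the hypothesis gives
`P * ev Q1 (Fg d) = ev P1 (Fg d) * Q`; as `P`, `Q` are relatively prime `ev P1 (Fg d) = H * P`, and then `ev Q1 (Fg d) = H * Q`. -/
def S_Sys : Prop := ∀ (n : ℕ) [NeZero n] (L : Type) [Field L] (d d' : Dat n L)
  (Λ Λ' Ξ Ξ' : Fin n → PR n L), IsLam d Λ → IsLam' d Λ' → IsLam d' Ξ → IsLam' d' Ξ' →
  (∀ k, Λ k ≠ 0) → (∀ k, Λ' k ≠ 0) → (∀ k, Ξ k ≠ 0) → (∀ k, Ξ' k ≠ 0) →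
  ∀ (P Q : PR n L) (a : Fin n → ℕ), P ≠ 0 → Q ≠ 0 → IsRelPrime P Q → MH a P → MH a Q →
    P * ev Q (fwd (d'.up (PR n L)) (Fg d)) = ev P (fwd (d'.up (PR n L)) (Fg d)) * Q →
    ∃ (P1 Q1 G H : PR n L) (b b' : Fin n → ℕ), P1 ≠ 0 ∧ Q1 ≠ 0 ∧ IsRelPrime P1 Q1 ∧ MH b P1 ∧
      MH b' Q1 ∧ ev P (Fg d') = G * P1 ∧ ev Q (Fg d') = G * Q1 ∧ ev P1 (Fg d) = H * P ∧
      ev Q1 (Fg d) = H * Q

/-- **Fix.**  The theorem for fixed matrices.  Proof.  If `p = 0` or `q = 0` both sides vanish.  `Λ k`, `Ξ k` are irreducible, so not zero, and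
`Λ' k`, `Ξ' k ≠ 0` by Rel.  Red gives `g`, `P`, `Q`, `a`; Sys gives `P1`, `Q1`, `G`, `H`.  Hun (for `d`, `d'`, `P0 = P`, `Q0 = Q`) gives that `H` is a
unit.  Hun with `d` and `d'` exchanged, `(P0, Q0) := (P1, Q1)`, `(P1, Q1) := (P, Q)`, `H := G`, `G := H` gives that `G` is a unit.  Deg (for `P`, `P1`, and for `Q`, `Q1`) gives
`P = C c`, `Q = C c'`.  So `ev p v * ev q w = ev g v * c * ev g w * c'` is symmetric. -/
def S_Fix : Prop := ∀ (n : ℕ) [NeZero n] (L : Type) [Field L] [Infinite L] (d d' : Dat n L)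
  (Λ Λ' Ξ Ξ' : Fin n → PR n L), 3 ≤ n → HP d Λ Λ' → HP d' Ξ Ξ' → (∀ k, REG d d' k) →
  (∀ k, REG d' d k) → ∀ p q : PR n L, InvF d d' p q →
    ∀ v w : Pg n L, ev p v * ev q w = ev p w * ev q v

end Pool.Agent.MP62a5ad.RI
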