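import Pool.Agent.Lib.MP_62a5ad_mp.RI.Spec
import Pool.Agent.Lib.MP_62a5ad_mp.RI.Defs2

/-!
# MP_62a5ad: certificates modulo nine, and the passage to twisted polygons; statements with
complete proofs in the docstrings

`Cm` is the matrix of the cyclic shift, `cyc t x i = x (i - t)`, `Cm ^ m *ᵥ x = cyc m x`.
-/

set_option autoImplicit false

namespace Pool.Agent.MP62a5ad.RI

open Matrix

/-! ## Part 6: certificates -/

/-- **Cyc.**  Proof.  Unfold: `cyc t x i = x (i - t)`.  For the cross product: `fin_cases t` (or `t = 1` and induction),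
`V5_ext`, and `ring` with `X5_0` to `X5_4`, `lap`, `mn` (the shift is an even permutation).  `Cm *ᵥ x = cyc 1 x` by definition of `Cm`,
`Cmᵀ *ᵥ x = cyc (-1) x`, powers by induction (`(Cm ^ m)ᵀ = (Cmᵀ) ^ m`).  `Cm * Cmᵀ = 1`, `det (Cm ^ m) = 1`, so the transpose of the
adjugate of `Cm ^ m` is `Cm ^ m`. -/
def S_Cyc : Prop := ∀ (R : Type) [CommRing R],
  (∀ (s t : ZMod 5) (x : V5 R), cyc s (cyc t x) = cyc (s + t) x) ∧
  (∀ x : V5 R, cyc 0 x = x) ∧
  (∀ (t : ZMod 5) (x : V5 R), cyc t x = 0 ↔ x = 0) ∧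
  (∀ (t : ZMod 5) (r : R) (x y : V5 R), cyc t (r • x + y) = r • cyc t x + cyc t y) ∧
  (∀ (t : ZMod 5) (a b c d : V5 R),
    X5 (cyc t a) (cyc t b) (cyc t c) (cyc t d) = cyc t (X5 a b c d)) ∧
  (∀ (m : ℕ) (x : V5 R), (Cm R ^ m) *ᵥ x = cyc (m : ZMod 5) x) ∧
  (∀ (m : ℕ) (x : V5 R), (Cm R ^ m)ᵀ *ᵥ x = cyc (-(m : ZMod 5)) x) ∧
  (∀ (m : ℕ) (x : V5 R), ((Cm R ^ m).adjugateᵀ) *ᵥ x = cyc (m : ZMod 5) x) ∧
  (Cm R).adjugateᵀ = Cm R ∧ (Cm R).det = 1

/-- The gauge: a quasi-periodic sequence as a polygon over `Z/9`, shifted so that the index `1` is at `k`. -/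
def gau {n : ℕ} (c : ℕ) (k : Fin n) (u : ℤ → V5 (ZMod 9)) : Pg n (ZMod 9) := fun j =>
  cyc (-((c * (j : ℕ) : ℕ) : ZMod 5)) (u ((j : ℕ) - (k : ℕ) + 1))

/-- **Gau.**  Proof.  Let `s = c n + 1` and `w = gau c k u`; by Cyc everything commutes with `cyc`.  `fwd` at `j`: if `j + 1 < n`
(as numbers) then the matrix `B j = Cm ^ c` and `cyc c (w (j+1)) = cyc (c - c (j+1)) (u (j+1-k+1)) = cyc (-c j) (u ((j-k+1)+1))`.  If
`j = n - 1` then `B j = Cm ^ (c+1)` and `cyc (c+1) (w 0) = cyc (c+1) (u (-k+1))`, and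
`cyc (-c (n-1)) (u (n-k+1)) = cyc (-c (n-1) + s) (u (-k+1))`, the same as `-c n + c + c n + 1 = c + 1`.  `bwd` at `j`: if `j ≥ 1` then
`(B (j-1))ᵀ = (Cm ^ c)ᵀ` and `cyc (-c) (w (j-1)) = cyc (-c j) (u ((j-k+1)-1))`; if `j = 0` then `j - 1` is `n - 1` and
`cyc (-(c+1)) (w (n-1)) = cyc (-c - 1 - c (n-1)) (u (n-k)) = cyc (-s) (cyc s (u (-k))) = u (-k)`.  The sequences `fk u` and `bk u` are
quasi-periodic as well (`bk u (j+n)` uses `u (j + n - 1) = cyc s (u (j-1))`). -/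
def S_Gau : Prop := ∀ (n : ℕ) [NeZero n] (c : ℕ) (k : Fin n) (u : ℤ → V5 (ZMod 9)),
  (∀ j : ℤ, u (j + n) = cyc ((c * n + 1 : ℕ) : ZMod 5) (u j)) →
  fwd (pw (Cm (ZMod 9)) (lst n c)) (gau c k u) = gau c k (fk u) ∧
  bwd (pw (Cm (ZMod 9)) (lst n c)) (gau c k u) = gau c k (bk u) ∧
  (∀ j : ℤ, fk u (j + n) = cyc ((c * n + 1 : ℕ) : ZMod 5) (fk u j)) ∧
  (∀ j : ℤ, bk u (j + n) = cyc ((c * n + 1 : ℕ) : ZMod 5) (bk u j))

/-- **RegZ.**  Regularity over the integers.  Proof.  `A = PR n ℤ`, `u`, `α`, `β`, `γ` from the certificate.  Let `E : A →+* ZMod 9` be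
the ring homomorphism (`MvPolynomial.eval₂Hom (Int.castRingHom _)`) with `X (j, i) ↦ gau c k u j i` for `j ≠ k - 1`, and
`X (k-1, 0) ↦ α`, `X (k-1, 1) ↦ β`, `X (k-1, 2) ↦ γ`, `X (k-1, 3), X (k-1, 4) ↦ 0`.  For a polygon `w` over `A` write `E w = (E (w j i))`.
(1) The datum `(pw M (lst n c)).up A` is mapped by `E` to `pw (Cm (ZMod 9)) (lst n c)` (`IsC9`, powers commute with `Matrix.map`); the same for `N`.
(2) `E (psi d k) = gau c k u`: at `j ≠ k - 1` by definition; at `k - 1` it is (Cyc) `cyc (e) (α g + β cyc (-1) g + γ cyc (-2) g)` with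
`e = lst n c (k-1)` and `g = gau c k u k = cyc (-c k) (u 1)`, i.e. `cyc (e - c k) (u 0)`; and `gau c k u (k-1)` is: if `k ≥ 1`:
`cyc (-c (k-1)) (u 0)`, `e = c`; if `k = 0`: `k - 1` is `n - 1`, `cyc (-c (n-1)) (u n) = cyc (-c (n-1) + c n + 1) (u 0) = cyc (c + 1) (u 0)`, `e = c + 1`
(here `2 ≤ n`, so `k ≠ k - 1`).  (3) By induction `E (orb d d' k m) = gau c k (fk^[m] u)` (`fwd_map`, Gau; quasi-periodicity of `fk^[m] u`).
(4) `E (bwd … (orb d d' k (m+1)) j) = gau c k (bk (fk^[m+1] u)) j = cyc _ (bk (fk^[m+1] u) _) ≠ 0`. -/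
def S_RegZ : Prop := ∀ (n : ℕ) [NeZero n] (c : ℕ) (M N : Matrix (Fin 5) (Fin 5) ℤ), 2 ≤ n →
  IsC9 M → IsC9 N → Cert n (c * n + 1) → ∀ k : Fin n, REG (pw M (lst n c)) (pw N (lst n c)) k

/-- **NzZ.**  Proof.  As for RegZ with the same ring homomorphism `E` (for the sequence `u` of `CertZ`).  Let `η' = cyc (-c k) η` and let
`η₀ : V5 ℤ` be a lift of `η'` (`ZMod.intCast_surjective`).  Then `E (xpt d k η₀) = gau c k x`: at `j = k` it is
`X5 g (cyc (-1) g) (cyc (-2) g) η'` with `g = cyc (-c k) (u 1)`, i.e. `cyc (-c k) (x 1)`; at `j ≠ k` it is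
`bwd (gau c k u) j = gau c k (bk u) j = cyc (-c j) (bk u (j-k+1)) = cyc (-c j) (x (j-k+1))`, since `n` does not divide `j - k`.  So
`E (xpt k) = cyc _ (x 1) ≠ 0` and `E (fwd (xpt) j) = gau c k (fk x) j ≠ 0`. -/
def S_NzZ : Prop := ∀ (n : ℕ) [NeZero n] (c : ℕ) (M : Matrix (Fin 5) (Fin 5) ℤ), 2 ≤ n →
  IsC9 M → CertZ n (c * n + 1) → ∀ k : Fin n, NZ (pw M (lst n c)) k

/-- **UpK.**  From the integers to a field of characteristic zero.  Proof.  `ι = MvPolynomial.map (Int.castRingHom K) : PR n ℤ →+* PR n K` is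
injective.  It maps `gen`, the datum `(pw M c).up`, `psi`, `orb`, `xpt` (with `η` mapped to `K`) and the half steps to the ones over `K`
(`fwd_map`, `bwd_map`, `Matrix.map` commutes with powers, products, transposes and adjugates: `RingHom.map_adjugate`,
`Matrix.map_pow`).  A vector over `PR n ℤ` which is not zero has an image which is not zero. -/
def S_UpK : Prop := ∀ (n : ℕ) [NeZero n] (K : Type) [Field K] [CharZero K]
  (M N : Matrix (Fin 5) (Fin 5) ℤ) (c : Fin n → ℕ) (k : Fin n),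
  (REG (pw M c) (pw N c) k →
    REG (pw (M.map (Int.cast : ℤ → K)) c) (pw (N.map (Int.cast : ℤ → K)) c) k) ∧
  (NZ (pw M c) k → NZ (pw (M.map (Int.cast : ℤ → K)) c) k)

/-- The half step for finite sequences with the twist `s`. -/
def fs {n : ℕ} [NeZero n] (s : ZMod 5) (a : Fin n → V5 (ZMod 9)) : Fin n → V5 (ZMod 9) := fun k =>
  X5 (a k) (if k + 1 = 0 then cyc s (a 0) else a (k + 1)) (cyc 1 (a k)) (cyc 2 (a k))

/-- The inverse half step for finite sequences with the twist `s`. -/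
def bs {n : ℕ} [NeZero n] (s : ZMod 5) (a : Fin n → V5 (ZMod 9)) : Fin n → V5 (ZMod 9) := fun k =>
  X5 (a k) (if k = 0 then cyc (-s) (a (k - 1)) else a (k - 1)) (cyc (-1) (a k)) (cyc (-2) (a k))

/-- **FinC.**  A finite certificate.  Proof.  For `a : Fin n → V5 (ZMod 9)` let `seq a : ℤ → V5 (ZMod 9)`,
`seq a k = cyc ((k / n) * s) (a (k % n))` (Euclidean division).  Then `seq a (k + n) = cyc s (seq a k)`, `fk (seq a) = seq (fs s a)`,
`bk (seq a) = seq (bs s a)` (Cyc; compare `k + 1`, `k - 1` with the block boundaries).  Take `u = seq (A 0)`.  Let `r m = m` for `m < T + P` and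
`r m = T + (m - T) % P` otherwise; by induction `fk^[m] u = seq (A (r m))`.  `bk (fk^[m+1] u) k = seq (bs s (A (r (m+1)))) k ≠ 0`, where
`A (r (m+1)) = A (j + 1)` for some `j < T + P` (if `r (m+1) = 0` then `T = 0` and `A 0 = A P`). -/
def S_FinC : Prop := ∀ (n : ℕ) [NeZero n] (s : ℕ) (A : ℕ → Fin n → V5 (ZMod 9)) (T P : ℕ), 2 ≤ n →
  0 < P → (∀ m, m < T + P → fs (s : ZMod 5) (A m) = A (m + 1)) → A (T + P) = A T →
  (∀ m, m < T + P → ∀ k, bs (s : ZMod 5) (A (m + 1)) k ≠ 0) →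
  (∃ α β γ : ZMod 9, A 0 0 = α • A 0 1 + β • cyc (-1) (A 0 1) + γ • cyc (-2) (A 0 1)) → Cert n s

/-- **FinZ.**  The same for `CertZ`.  Proof.  `u = seq a`, `x = seq b` (see FinC); for `k` with `n ∤ k - 1`, `k % n ≠ 1`. -/
def S_FinZ : Prop := ∀ (n : ℕ) [NeZero n] (s : ℕ) (a b : Fin n → V5 (ZMod 9)), 2 ≤ n →
  (∃ α β γ : ZMod 9, a 0 = α • a 1 + β • cyc (-1) (a 1) + γ • cyc (-2) (a 1)) →
  (∀ k, k ≠ 1 → b k = bs (s : ZMod 5) a k) →
  (∃ η, b 1 = X5 (a 1) (cyc (-1) (a 1)) (cyc (-2) (a 1)) η) → b 1 ≠ 0 →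
  (∀ k, fs (s : ZMod 5) b k ≠ 0) → CertZ n s

/-- **Per.**  The certificates depend only on the residue of `s` modulo five. -/
def S_Per : Prop := ∀ (n s t : ℕ), (s : ZMod 5) = (t : ZMod 5) →
  (Cert n s → Cert n t) ∧ (CertZ n s → CertZ n t)

/-- **C9.**  The theorem for integral matrices which are congruent to the cyclic shift modulo nine.  Proof.  `K` is infinite.  Let
`d = pw M_K (lst n c)`, `d' = pw N_K (lst n c)`.  Lam gives `Λ`, `Λ'`, `Ξ`, `Ξ'`.  Sep and Dia give `DiagC M_K`, `DiagC N_K`, so Irr2 gives the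
irreducibility.  `det (M_K ^ m) ≠ 0` (Sep).  NzZ, RegZ (also for `N`, `M`) and UpK give `NZ` and `REG`.  Apply Fix. -/
def S_C9 : Prop := ∀ (n : ℕ) [NeZero n] (c : ℕ) (K : Type) [Field K] [CharZero K]
  (M N : Matrix (Fin 5) (Fin 5) ℤ), 3 ≤ n → Cert n (c * n + 1) → CertZ n (c * n + 1) →
  IsC9 M → IsC9 N → ∀ p q : PR n K,
  InvF (pw (M.map (Int.cast : ℤ → K)) (lst n c)) (pw (N.map (Int.cast : ℤ → K)) (lst n c)) p q →
  ∀ v w : Pg n K, ev p v * ev q w = ev p w * ev q v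

/-! ## Part 7: twisted polygons -/

/-- **Off.**  Proof.  `c = 0`: the offsets are `0, 1, n, 2n`; `c = 1`: `0, n, n + 1, 2n`; `c + 2`: `0, n, 2n, (c + 2) n + 1`. -/
def S_Off : Prop := ∀ n c : ℕ, 2 ≤ n → (∀ j, 0 < tup n c j) ∧
  Set.range (off (tup n c)) = {0, c * n + 1, n, 2 * n}

/-- **Lin.**  Linear algebra of the cross product.  Proof.  If `X5 a b c d ≠ 0` then `a, b, c, d` are linearly independent (`X5_det`: for a `w` with
`w ⬝ X5 a b c d ≠ 0` the rows `w, a, b, c, d` are independent), so the span has dimension 4; it is contained in the kernel of the non-zero form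
`X5 a b c d ⬝ x` (`X5_dot1` to `X5_dot4`), which has dimension 4, so both are equal.  If `x` is orthogonal to `a, b, c, d` it is parallel to
`X5 a b c d ≠ 0` (`X5_par`), and conversely. -/
def S_Lin : Prop := ∀ (K : Type) [Field K] (a b c d : V5 K), X5 a b c d ≠ 0 →
  Module.finrank K (Submodule.span K ({a, b, c, d} : Set (V5 K))) = 4 ∧
  (∀ x, x ∈ Submodule.span K ({a, b, c, d} : Set (V5 K)) ↔ X5 a b c d ⬝ᵥ x = 0) ∧
  (∀ x, (a ⬝ᵥ x = 0 ∧ b ⬝ᵥ x = 0 ∧ c ⬝ᵥ x = 0 ∧ d ⬝ᵥ x = 0) ↔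
    ∃ t : K, x = t • X5 a b c d)

/-- **Ext.**  Proof.  `v k = (M ^ (k / n)) *ᵥ x (k % n)` with integral powers (`Matrix.zpow`, Euclidean division).  Second part: every integer is
`q n + r` with `0 ≤ r < n`; induction on `q` in both directions. -/
def S_Ext : Prop := ∀ (n : ℕ) [NeZero n] (K : Type) [Field K] (M : Matrix (Fin 5) (Fin 5) K),
  M.det ≠ 0 → (∀ x : Fin n → V5 K, ∃ v : ℤ → V5 K, Tw n M v ∧ fst n v = x) ∧
  ∀ Q : ℤ → Prop, (∀ k, Q k ↔ Q (k + n)) → (∀ j : Fin n, Q ((j : ℕ) : ℤ)) → ∀ k, Q k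

/-- The sequence of hyperplanes (covectors) of a sequence of points, for the offsets `0, c n + 1, n, 2 n`. -/
def pl {R : Type} [CommRing R] (n c : ℕ) (v : ℤ → V5 R) : ℤ → V5 R := fun k =>
  X5 (v k) (v (k + (c * n + 1 : ℕ))) (v (k + n)) (v (k + (2 * n : ℕ)))

/-- **Pl.**  Proof.  `v (k + 2n) = M (M v k)`.  `v (j + c n + 1)` is `M ^ c v (j+1)` for `j + 1 < n` and `M ^ (c+1) v 0` for `j = n - 1` (iterate `Tw`),
which is `(B j) v (j+1)` for the datum `pw M (lst n c)`; this is the second claim.  First claim: `X5_mulVec` for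
`v (k + n + s) = M v (k + s)`. -/
def S_Pl : Prop := ∀ (n : ℕ) [NeZero n] (c : ℕ) (K : Type) [Field K]
  (M : Matrix (Fin 5) (Fin 5) K) (v : ℤ → V5 K), Tw n M v →
  Tw n M.adjugateᵀ (pl n c v) ∧ fst n (pl n c v) = fwd (pw M (lst n c)) (fst n v)

/-- **Geo.**  Proof.  `d = pw M (lst n c)`, `d' = pw N (lst n c)`, `N = M.adjugateᵀ`, `P = pl n c v`, `W = pl n c P`.  By Pl: `Tw n N P`, `Tw n N.adjugateᵀ W`,
`fst P = fwd d (fst v)`, `fst W = fwd d' (fwd d (fst v))`.  `P k ≠ 0` and `W k ≠ 0` for all `k ∈ ℤ` (Ext, the determinants of `N` and `N.adjugateᵀ` are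
not zero: powers of `det M`).  (Off: the set of the vertices `v (k + off m)` is `{v k, v (k + c n + 1), v (k + n), v (k + 2n)}`, likewise for
the planes.)  Lin: `plane k` has dimension 4 and is `{x | P k ⬝ x = 0}`; so `meet k` is the set of all `x` orthogonal to
`P k, P (k + c n + 1), P (k + n), P (k + 2 n)`, i.e. (Lin, as `W k ≠ 0`) the line of `W k`: `Generic`.  For `w` as in the second claim: `w k = t • W k` with
`t ≠ 0` for all `k ∈ ℤ`: `N.adjugateᵀ = (det M) ^ 3 • M` (`Matrix.adjugate_adjugate`, `Fin 5`), so `W (k + n) = (det M) ^ 3 • M (W k)` and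
`w (k + n) = M (w k)`; use Ext for the property `∃ t ≠ 0, w k = t • W k`.  So `w k ≠ 0`, `w k ∈ meet k`. -/
def S_Geo : Prop := ∀ (n : ℕ) [NeZero n] (c : ℕ) (K : Type) [Field K]
  (M : Matrix (Fin 5) (Fin 5) K) (v : ℤ → V5 K), 2 ≤ n → M.det ≠ 0 → Tw n M v →
  (∀ k, fwd (pw M (lst n c)) (fst n v) k ≠ 0) →
  (∀ k, fwd (pw M.adjugateᵀ (lst n c)) (fwd (pw M (lst n c)) (fst n v)) k ≠ 0) →
  Generic (tup n c) v ∧ ∀ w : ℤ → V5 K, Tw n M w →
    (∀ k, ∃ t : K, t ≠ 0 ∧
      fst n w k = t • fwd (pw M.adjugateᵀ (lst n c)) (fwd (pw M (lst n c)) (fst n v)) k) →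
    IsImage (tup n c) v w

/-- The specialization of the matrix. -/
noncomputable def spec {n : ℕ} {K : Type} [Field K] (M : Matrix (Fin 5) (Fin 5) K)
    (f : MvPolynomial (Co n) K) : PR n K :=
  MvPolynomial.aeval (Sum.elim (fun z => MvPolynomial.X z)
    (fun z => MvPolynomial.C (M z.1 z.2)) : Co n → PR n K) f

/-- **Wrap.**  Proof.  `ev (spec M f) x = vl f x M` (composition of evaluations).  Given `x : Pg n K` with the two regularity conditions and `c'` with
`c' k ≠ 0`: by Ext choose `v` with `Tw n M v`, `fst v = x` and `w` with `Tw n M w`, `fst w = sc c' (fwd d' (fwd d x))`.  Geo: `Generic v`, `IsImage v w`.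
`Invariant` gives the equality of the quotients, i.e. (both denominators are not zero) the product identity. -/
def S_Wrap : Prop := ∀ (n : ℕ) [NeZero n] (c : ℕ) (K : Type) [Field K]
  (M : Matrix (Fin 5) (Fin 5) K) (p q : MvPolynomial (Co n) K), 2 ≤ n → M.det ≠ 0 →
  Invariant n (tup n c) p q →
  InvF (pw M (lst n c)) (pw M.adjugateᵀ (lst n c)) (spec M p) (spec M q)

/-- **Den.**  Density.  Proof.  `MvPolynomial.funext_set`: `F` vanishes on the product of the infinite sets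
`S (i,j) = {(Cm ℤ i j + 9 t : K) | t ∈ ℤ}` (infinite as `K` has characteristic zero), because the matrix with integral entries
`Cm ℤ i j + 9 t (i,j)` satisfies `IsC9`. -/
def S_Den : Prop := ∀ (K : Type) [Field K] [CharZero K] (F : MvPolynomial (Fin 5 × Fin 5) K),
  (∀ M : Matrix (Fin 5) (Fin 5) ℤ, IsC9 M →
    MvPolynomial.eval (fun z => ((M z.1 z.2 : ℤ) : K)) F = 0) → F = 0

/-- **MainB.**  Rational invariants depend only on the monodromy.  Proof.  Fix `x`, `y`.  Let `F ∈ K[M_ij]` be the polynomial with the values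
`vl p x M * vl q y M - vl p y M * vl q x M` (`aeval` of `p`, `q` at the constants `x`, `y` and the variables).  By Den it is enough that it vanishes at
the image `M_K` of every `M` with `IsC9 M`.  `N := M.adjugateᵀ` satisfies `IsC9 N` (Cyc: `(Cm).adjugateᵀ = Cm`; `RingHom.map_adjugate`), `N_K = (M_K).adjugateᵀ`,
`det M_K ≠ 0` (Sep).  Wrap gives `InvF` for `spec M_K p`, `spec M_K q`, and C9 gives the claim (`ev (spec M f) x = vl f x M`). -/
def S_MainB : Prop := ∀ (n : ℕ) [NeZero n] (c : ℕ) (K : Type) [Field K] [CharZero K], 3 ≤ n →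
  Cert n (c * n + 1) → CertZ n (c * n + 1) → ∀ p q : MvPolynomial (Co n) K,
  Invariant n (tup n c) p q → ∀ (x y : Fin n → V5 K) (M : Matrix (Fin 5) (Fin 5) K),
    vl p x M * vl q y M = vl p y M * vl q x M

/-- **MainA.**  Admissibility.  Proof.  Let `M₀ = Cm K` (`det = 1`), `N₀ = M₀.adjugateᵀ = Cm K` (Cyc), `d = d' = pw M₀ (lst n c)`.  As in C9 (for
`M = N = Cm ℤ`, `IsC9`), `Λ k` is irreducible, so not zero, `Λ' k ≠ 0` (Rel).  Gua gives `N ≠ 0`; choose `w` with `N(w) ≠ 0` (`K` infinite) and put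
`x₀ = bwd d (bwd d' w)` (`sc 1 = id`): all `fwd d x₀ k ≠ 0` and `fwd d' (fwd d x₀) k ≠ 0`; choose coordinates `i k`, `j k` which do not vanish.  Let
`G` be the generic matrix over `E = MvPolynomial (Co n) K` (`X (inr (i,j))`), `x` the generic polygon (`X (inl (k,i))`), and
`g = det G * ∏ k, (fwd (pw G (lst n c)) x k (i k)) * (fwd (pw G.adjugateᵀ (lst n c)) (fwd (pw G (lst n c)) x) k (j k))`.  The value of `g` at
`(x', M)` is the same expression for `x'`, `M` (`fwd_map` for the evaluation, `map_det`, `RingHom.map_adjugate`), so `g ≠ 0` (at `x₀`, `M₀`) and, if it does not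
vanish at `(fst n v, M)`, then `det M ≠ 0` and Geo gives `Generic`. -/
def S_MainA : Prop := ∀ (n : ℕ) [NeZero n] (c : ℕ) (K : Type) [Field K] [CharZero K], 3 ≤ n →
  Admissible K n (tup n c)

/-! ## Part 8: algebraic dependence -/

/-- The Krylov matrix with the columns `e₀, M e₀, …, M⁴ e₀`. -/
def kry {R : Type} [CommRing R] (M : Matrix (Fin 5) (Fin 5) R) : Matrix (Fin 5) (Fin 5) R :=
  fun i j => (M ^ (j : ℕ)) i 0

/-- The companion matrix. -/
def cpn {R : Type} [CommRing R] (b : Fin 5 → R) : Matrix (Fin 5) (Fin 5) R :=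
  fun i j => if j = 4 then -b i else if (i : ℕ) = j + 1 then 1 else 0

/-- **Kry.**  Proof.  Column `j < 4`: `M M^j e₀ = M^(j+1) e₀`.  Column `4`: `M^5 e₀ = -∑ b_i M^i e₀` by the Cayley-Hamilton theorem
(`Matrix.aeval_self_charpoly`; the characteristic polynomial is monic of degree 5: `Matrix.charpoly_monic`,
`Matrix.charpoly_natDegree_eq_dim`, `Polynomial.aeval_eq_sum_range`).  For `M = Cm` the Krylov matrix is `1` (decide on the entries, powers of the cyclic
shift; or `cyc`). -/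
def S_Kry : Prop := (∀ (R : Type) [CommRing R] [Nontrivial R] (M : Matrix (Fin 5) (Fin 5) R),
  M * kry M = kry M * cpn (fun i => M.charpoly.coeff i)) ∧
  ∀ (R : Type) [CommRing R], kry (Cm R) = 1

/-- The generic matrix. -/
noncomputable def gM (n : ℕ) (K : Type) [Field K] :
    Matrix (Fin 5) (Fin 5) (MvPolynomial (Co n) K) := fun i j => MvPolynomial.X (Sum.inr (i, j))

/-- Substitution of the coefficients of the characteristic polynomial of the generic matrix. -/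
noncomputable def Bs (n : ℕ) {K : Type} [Field K] (f : MvPolynomial (Fin 5) K) :
    MvPolynomial (Co n) K :=
  MvPolynomial.aeval (fun j : Fin 5 => (gM n K).charpoly.coeff (j : ℕ)) f

/-- **Dp1.**  An invariant function which depends only on the monodromy is a rational function of the coefficients of the characteristic
polynomial.  Proof.  `K` is infinite.  Write `b(M) j = M.charpoly.coeff j`; `vl (Bs f) x M = eval (b(M)) f` (`Matrix.charpoly_map`).  The polynomial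
`q * det (kry gM) * det gM` is not zero (`det (kry ·)` at `Cm` is `1` by Kry, `det Cm = 1`), so there are `x₀`, `M₀` with `vl q x₀ M₀ ≠ 0`, `h := kry M₀` invertible,
`det M₀ ≠ 0`.  For `b : Fin 5 → R` over a `K`-algebra put `M_b = h * cpn b * h⁻¹`; by Kry `M_{b(M₀)} = M₀`.  Let `r`, `s ∈ K[b]` be the polynomials
`r(b) = vl p x₀ M_b`, `s(b) = vl q x₀ M_b` (`aeval` of `p`, `q` at the constants `x₀` and the entries of `M_b` over `K[b]`).  `s(b(M₀)) = vl q x₀ M₀ ≠ 0`, so `Bs s ≠ 0`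
(its value at `(x₀, M₀)`).  Claim: `p * Bs s = Bs r * q`.  Let `U(x, M) = vl q (g x) M'` with `g = h * (kry M).adjugate`, `M' = M_{b(M)}`: a polynomial in
`(x, M)`, i.e. `U ∈ MvPolynomial (Co n) K` (`aeval`).  It is not zero: at `M = M₀` and `x = (det h)⁻¹ • x₀` one has `g = h * h.adjugate = det h • 1`,
so `U = vl q x₀ M₀ ≠ 0`.  Let `(x, M)` be a point with `det (kry M) ≠ 0`, `det M ≠ 0`, `U(x, M) ≠ 0`, `vl q x M ≠ 0`.  `g` is invertible and `g M g⁻¹ = M'` (Kry:
`(kry M)⁻¹ M (kry M) = cpn (b(M))`).  `ProjInv`: `vl p (g x) M' * vl q x M = vl p x M * vl q (g x) M'`.  The hypothesis (dependence on the monodromy only) at `M'`: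
`vl p (g x) M' * vl q x₀ M' = vl p x₀ M' * vl q (g x) M'`, i.e. `vl p (g x) M' * s(b(M)) = r(b(M)) * U`.  Multiply:
`vl p x M * s * U = vl p (g x) M' * vl q x M * s = r * U * vl q x M`, cancel `U`: `vl p x M * s(b(M)) = r(b(M)) * vl q x M`.  So
`(p * Bs s - Bs r * q) * det (kry gM) * det gM * U * q` vanishes at all points, hence is zero (`MvPolynomial.funext`), and the claim follows in the domain. -/
def S_Dp1 : Prop := ∀ (n : ℕ) (K : Type) [Field K] [CharZero K] (p q : MvPolynomial (Co n) K),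
  q ≠ 0 → (∀ (x y : Fin n → V5 K) (M : Matrix (Fin 5) (Fin 5) K),
    vl p x M * vl q y M = vl p y M * vl q x M) → ProjInv n p q →
  ∃ r s : MvPolynomial (Fin 5) K, Bs n s ≠ 0 ∧ p * Bs n s = Bs n r * q

/-- **Tr5.**  Proof.  `S = Set.range b`, `E = adjoin K S`.  `E` is algebraic over `Algebra.adjoin K S`' field of fractions, so `S` contains a transcendence
basis of `E` over `K` (`exists_isTranscendenceBasis_subset` or similar), of cardinality at most 5; six algebraically independent elements of `E` would give a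
transcendence degree at least 6. -/
def S_Tr5 : Prop := ∀ (K Ω : Type) [Field K] [Field Ω] [Algebra K Ω] (b : Fin 5 → Ω)
  (F : Fin 6 → Ω), (∀ i, F i ∈ IntermediateField.adjoin K (Set.range b)) →
  ¬ AlgebraicIndependent K F

/-- **Dep.**  Proof.  Dp1 for each `i`: `p i / q i = Bs (r i) / Bs (s i)` in the fraction field, an element of the field generated by the five images
of the coefficients `(gM).charpoly.coeff j` (`Bs f` is a polynomial in them).  Apply Tr5. -/
def S_Dep : Prop := ∀ (n : ℕ) (K : Type) [Field K] [CharZero K]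
  (p q : Fin 6 → MvPolynomial (Co n) K), (∀ i, q i ≠ 0) →
  (∀ i (x y : Fin n → V5 K) (M : Matrix (Fin 5) (Fin 5) K),
    vl (p i) x M * vl (q i) y M = vl (p i) y M * vl (q i) x M) → (∀ i, ProjInv n (p i) (q i)) →
  ¬ AlgebraicIndependent K (fun i =>
    algebraMap (MvPolynomial (Co n) K) (FractionRing (MvPolynomial (Co n) K)) (p i) /
      algebraMap (MvPolynomial (Co n) K) (FractionRing (MvPolynomial (Co n) K)) (q i))

end Pool.Agent.MP62a5ad.RI
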