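import Pool.Agent.Lib.MP_62a5ad_mp.RI.Spec2

/-!
# MP_62a5ad: certificates modulo nine for all `n ≥ 3`; statements with complete proofs in the docstrings

Vectors over `Z/9` with five coordinates are elements of the group ring of the cyclic group of order
five; `cv` is the product (cyclic convolution), `e0` the one, `cyc t` the multiplication by a group element.
-/

set_option autoImplicit false

namespace Pool.Agent.MP62a5ad.RI

open Matrix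

section Conv

variable {R : Type} [CommRing R]

/-- Cyclic convolution, `cv a b = ∑ j, a j • cyc j b`. -/
def cv (a b : V5 R) : V5 R :=
  ![a 0 * b 0 + a 1 * b 4 + a 2 * b 3 + a 3 * b 2 + a 4 * b 1,
    a 0 * b 1 + a 1 * b 0 + a 2 * b 4 + a 3 * b 3 + a 4 * b 2,
    a 0 * b 2 + a 1 * b 1 + a 2 * b 0 + a 3 * b 4 + a 4 * b 3,
    a 0 * b 3 + a 1 * b 2 + a 2 * b 1 + a 3 * b 0 + a 4 * b 4,
    a 0 * b 4 + a 1 * b 3 + a 2 * b 2 + a 3 * b 1 + a 4 * b 0]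

/-- The one of the group ring. -/
def e0 : V5 R := ![1, 0, 0, 0, 0]

/-- The adjugate (transposed) of the convolution with `u`. -/
def aj (u : V5 R) : V5 R := X5 (cyc 1 u) (cyc 2 u) (cyc 3 u) (cyc 4 u)

end Conv

/-- **Cv.**  Proof.  All identities except those with `aj` are checked coordinatewise with `ring` (`fin_cases t` for `cyc t`).  Let
`A u : Matrix (Fin 5) (Fin 5) R` be the circulant matrix with `A u *ᵥ x = cv u x` (`A u i j = u (i - j)`).  It commutes with `Cm`, so its adjugate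
commutes with the adjugate of `Cm` (`Matrix.adjugate_mul_distrib`), which is the transpose of `Cm`; so `B = (A u).adjugateᵀ` commutes with `Cm`, and
therefore `B *ᵥ x = cv (B *ᵥ e0) x` (`x = ∑ x_j Cm^j e0`).  `X5_mulVec` for `A u` gives `X5 (cv u a) (cv u b) (cv u c) (cv u d) = B *ᵥ X5 a b c d =
cv (B *ᵥ e0) (X5 a b c d)`; for `a, b, c, d = cyc 1 e0, …, cyc 4 e0` we have `X5 a b c d = e0` and `cv u (cyc j e0) = cyc j u`, so `B *ᵥ e0 = aj u`.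
The multiplicativity of `aj` follows from `A (cv a b) = A a * A b`; the last ones are `X5_smul` and the rule for `X5 (cyc t _) …` (S_Cyc, or directly). -/
def S_Cv : Prop := ∀ (R : Type) [CommRing R],
  (∀ a b : V5 R, cv a b = cv b a) ∧
  (∀ a b c : V5 R, cv (cv a b) c = cv a (cv b c)) ∧
  (∀ a : V5 R, cv e0 a = a) ∧
  (∀ (t : ZMod 5) (a b : V5 R), cv a (cyc t b) = cyc t (cv a b)) ∧
  (∀ (r : R) (a b : V5 R), cv (r • a) b = r • cv a b) ∧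
  (∀ a b c : V5 R, cv (a + b) c = cv a c + cv b c) ∧
  (∀ u a b c d : V5 R, X5 (cv u a) (cv u b) (cv u c) (cv u d) = cv (aj u) (X5 a b c d)) ∧
  (∀ a b : V5 R, aj (cv a b) = cv (aj a) (aj b)) ∧
  aj (e0 : V5 R) = e0 ∧
  (∀ (r : R) (a : V5 R), aj (r • a) = r ^ 4 • aj a) ∧
  (∀ (t : ZMod 5) (a : V5 R), aj (cyc t a) = cyc t (aj a))

/-- Units modulo nine. -/
abbrev UN (x : ZMod 9) : Prop := ∃ y : ZMod 9, x * y = 1

/-- Equality up to a unit. -/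
def PE (a b : V5 (ZMod 9)) : Prop := ∃ c : ZMod 9, UN c ∧ b = c • a

/-- The signals: `4` if `ε = i` and `3` otherwise. -/
def sgi (ε i : ZMod 2) : Fin 5 := if ε = i then 4 else 3

/-- The marker: `w' = t w` with `t ∈ λ C^σ + span (1, C, C²)`, `σ = sgi ε i`, and `w` is a unit. -/
def MK (ε i : ZMod 2) (w w' : V5 (ZMod 9)) : Prop :=
  (∃ t : V5 (ZMod 9), w' = cv t w ∧ UN (t (sgi ε i)) ∧ t (sgi (ε + 1) i) = 0) ∧
    ∃ v : V5 (ZMod 9), cv v w = e0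

/-- A certificate with a marker between the vertices `2` and `3`. -/
def CertM (ε : ZMod 2) (n s : ℕ) : Prop := ∃ u : ℤ → V5 (ZMod 9),
  (∀ k, u (k + n) = cyc s (u k)) ∧
  (∃ α β γ : ZMod 9, u 0 = α • u 1 + β • cyc (-1) (u 1) + γ • cyc (-2) (u 1)) ∧
  (∀ m k, bk (fk^[m + 1] u) k ≠ 0) ∧ ∀ m : ℕ, MK ε (m : ZMod 2) (fk^[m] u 2) (fk^[m] u 3)

/-- A certificate of the second kind with a marker. -/
def CertZM (n s : ℕ) : Prop := ∃ u x : ℤ → V5 (ZMod 9), (∀ k, u (k + n) = cyc s (u k)) ∧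
  (∀ k, x (k + n) = cyc s (x k)) ∧
  (∃ α β γ : ZMod 9, u 0 = α • u 1 + β • cyc (-1) (u 1) + γ • cyc (-2) (u 1)) ∧
  (∀ k : ℤ, ¬ (n : ℤ) ∣ (k - 1) → x k = bk u k) ∧
  (∃ η, x 1 = X5 (u 1) (cyc (-1) (u 1)) (cyc (-2) (u 1)) η) ∧ x 1 ≠ 0 ∧ (∀ k, fk x k ≠ 0) ∧
  u 2 = cyc (-1) (u 1) ∧ X5 (x 2) (cyc (-1) (x 2)) (cyc 1 (x 2)) (cyc 2 (x 2)) ≠ 0

/-- The first inserted link. -/
def YY (ε i : ZMod 2) : V5 (ZMod 9) :=
  if ε = 0 then (if i = 0 then ![0, 1, 0, 0, 1] else ![1, 1, 0, 8, 0])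
  else (if i = 0 then ![0, 1, 0, 1, 0] else ![0, 1, 1, 0, 8])

/-- The second inserted link. -/
def XX (ε i : ZMod 2) : V5 (ZMod 9) :=
  if ε = 0 then (if i = 0 then ![1, 8, 8, 8, 1] else ![1, 0, 0, 1, 8])
  else (if i = 0 then ![1, 1, 8, 8, 1] else ![0, 0, 1, 8, 1])

/-- The half step for a unit and its multiple by `t`. -/
def hh (t : V5 (ZMod 9)) : V5 (ZMod 9) := X5 e0 t (cyc 1 e0) (cyc 2 e0)

/-- **Dat.**  Proof: `decide` (all `ε`, `i`). -/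
def S_Dat : Prop := ∀ ε i : ZMod 2,
  UN (YY ε i (sgi ε i)) ∧ YY ε i (sgi (ε + 1) i) = 0 ∧
  PE (cyc 2 e0) (cv (XX ε i) (YY ε i)) ∧
  PE (cv (YY ε (i + 1)) (hh (YY ε i))) (cv (aj (YY ε i)) (hh (XX ε i))) ∧
  X5 (YY ε i) e0 (cyc (-1) (YY ε i)) (cyc (-2) (YY ε i)) ≠ 0 ∧
  X5 (cyc 2 e0) (YY ε i) (cyc 1 e0) e0 ≠ 0

/-- **PEk.**  Proof.  `X5_smul`, `cyc t (c • x) = c • cyc t x`; a unit has an inverse. -/
def S_PEk : Prop := (∀ a : V5 (ZMod 9), PE a a) ∧ (∀ a b : V5 (ZMod 9), PE a b → PE b a) ∧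
  (∀ a b c : V5 (ZMod 9), PE a b → PE b c → PE a c) ∧
  (∀ a b : V5 (ZMod 9), PE a b → a ≠ 0 → b ≠ 0) ∧
  (∀ (t : ZMod 5) (a b : V5 (ZMod 9)), PE a b → PE (cyc t a) (cyc t b)) ∧
  (∀ v a b : V5 (ZMod 9), PE a b → PE (cv v a) (cv v b)) ∧
  (∀ a b : ℤ → V5 (ZMod 9), (∀ k, PE (a k) (b k)) →
    (∀ k, PE (fk a k) (fk b k)) ∧ ∀ k, PE (bk a k) (bk b k)) ∧
  ∀ a a' b b' c c' d d' : V5 (ZMod 9), PE a a' → PE b b' → PE c c' → PE d d' →
    PE (X5 a b c d) (X5 a' b' c' d')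

/-- Insertion of two links (`Y` and `C² Y⁻¹`) at the vertex `2` of an `n`-periodic sequence with the twist `s`. -/
def Jn (n : ℕ) (s : ZMod 5) (Y : V5 (ZMod 9)) (w : ℤ → V5 (ZMod 9)) : ℤ → V5 (ZMod 9) := fun k =>
  cyc ((s + 2) * ((k / (n + 2) : ℤ) : ZMod 5))
    (if k % (n + 2) ≤ 2 then w (k % (n + 2)) else
      if k % (n + 2) = 3 then cv Y (w 2) else cyc 2 (w (k % (n + 2) - 2)))

/-- **JQ.**  Proof.  `(k + (n + 2)) / (n + 2) = k / (n + 2) + 1` and the same residue; small residues. For `k = n + 2`, `k - 2 = n` etc. use `w n = cyc s (w 0)`: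
`Jn (n + 2) = cyc (s + 2) (w 0)`, and `Jn (-1) = cyc (-(s+2)) (Jn (n + 1)) = cyc (-(s+2)) (cyc 2 (w (n-1))) = w (-1)` as `w (n - 1) = cyc s (w (-1))`. -/
def S_JQ : Prop := ∀ (n : ℕ) (s : ZMod 5) (Y : V5 (ZMod 9)) (w : ℤ → V5 (ZMod 9)), 3 ≤ n →
  (∀ k, w (k + n) = cyc s (w k)) →
  (∀ k, Jn n s Y w (k + (n + 2)) = cyc (s + 2) (Jn n s Y w k)) ∧
  Jn n s Y w (-1) = w (-1) ∧ Jn n s Y w 0 = w 0 ∧ Jn n s Y w 1 = w 1 ∧ Jn n s Y w 2 = w 2 ∧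
  Jn n s Y w 3 = cv Y (w 2) ∧ (∀ k : ℤ, 2 ≤ k → k ≤ n → Jn n s Y w (k + 2) = cyc 2 (w k))

/-- **InsF.**  Proof.  Both sides are quasi-periodic with the twist `s + 2` (JQ for `w` and for `fk w`, which is quasi-periodic with the twist `s`; `PE` is invariant
under `cyc`), so it is enough to consider `k = 0, …, n + 1` (induction on `k / (n + 2)` in both directions).  Write `Y = YY ε i`, `X = XX ε i`, `J = Jn n s Y w`.
`k = 0, 1`: `fk J k = X5 (w k) (w (k+1)) … = fk w k`.  `k = 2`: `fk J 2 = X5 (w 2) (cv Y (w 2)) (cyc 1 (w 2)) (cyc 2 (w 2)) = cv (aj (w 2)) (hh Y)` (Cv, with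
`w 2 = cv (w 2) e0`), and `fk w 2 = cv (aj (w 2)) (hh t)` with `w 3 = cv t (w 2)`; `hh t` depends only on the coordinates 3 and 4 of `t` and is linear in them,
so `hh t` and `hh Y` are both unit multiples of the same vector (`sgi ε i` coordinate a unit, the other one zero): `PE`.  `k = 3`: the next vertex is
`J 4 = cyc 2 (w 2)`, which is `PE` to `cv (cv X Y) (w 2)` (Dat), so `fk J 3` is `PE` to `X5 (cv Y (w 2)) (cv X (cv Y (w 2))) … = cv (aj (cv Y (w 2))) (hh X) =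
cv (aj (w 2)) (cv (aj Y) (hh X))`, which is `PE` to `cv (aj (w 2)) (cv (YY ε (i+1)) (hh Y)) = cv (YY ε (i+1)) (cv (aj (w 2)) (hh Y))`, and this is `PE` to
`cv (YY ε (i+1)) (fk w 2)`, the value of the left hand side at `3`.  `4 ≤ k ≤ n + 1`: `fk J k = X5 (cyc 2 (w (k-2))) (cyc 2 (w (k-1))) … = cyc 2 (fk w (k-2))`. -/
def S_InsF : Prop := ∀ (ε i : ZMod 2) (n : ℕ) (s : ZMod 5) (w : ℤ → V5 (ZMod 9)), 3 ≤ n →
  (∀ k, w (k + n) = cyc s (w k)) → MK ε i (w 2) (w 3) →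
  ∀ k, PE (Jn n s (YY ε (i + 1)) (fk w) k) (fk (Jn n s (YY ε i) w) k)

/-- **InsB.**  Proof.  By quasi-periodicity consider `k = 0, …, n + 1` (`J = Jn n s Y w`, `Y = YY ε i`).  `k = 0`: `J (-1) = w (-1)`, so `bk J 0 = bk w 0 ≠ 0`; `k = 1, 2`:
`bk w k ≠ 0`.  `k = 3`: `X5 (cv Y (w 2)) (w 2) (cyc (-1) _) (cyc (-2) _) = cv (aj (w 2)) (X5 Y e0 (cyc (-1) Y) (cyc (-2) Y))`; `w 2` is a unit (`cv v (w 2) = e0`), so
`aj (w 2)` is a unit (`cv (aj v) (aj (w 2)) = aj e0 = e0`) and the product with a vector which is not zero (Dat) is not zero.  `k = 4`: `X5 (cyc 2 (w 2)) (cv Y (w 2))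
(cyc 1 (w 2)) (w 2) = cv (aj (w 2)) (X5 (cyc 2 e0) Y (cyc 1 e0) e0) ≠ 0`.  `5 ≤ k ≤ n + 1`: `cyc 2 (bk w (k - 2)) ≠ 0`. -/
def S_InsB : Prop := ∀ (ε i : ZMod 2) (n : ℕ) (s : ZMod 5) (w : ℤ → V5 (ZMod 9)), 3 ≤ n →
  (∀ k, w (k + n) = cyc s (w k)) → MK ε i (w 2) (w 3) → (∀ k, bk w k ≠ 0) →
  ∀ k, bk (Jn n s (YY ε i) w) k ≠ 0

/-- **Ins.**  Insertion of two links.  Proof.  Let `u` be the certificate, `u' = Jn n s (YY ε 0) u`.  JQ: quasi-periodicity with `n + 2`, `s + 2`, and `u' 0 = u 0`, `u' 1 = u 1`.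
By induction on `m` (`Function.iterate_succ_apply'`, InsF for `fk^[m] u`, `i = m`, and PEk): for all `k`, `PE (Jn n s (YY ε m) (fk^[m] u) k) (fk^[m] u' k)`; here
`fk^[m] u` is quasi-periodic with the twist `s`.  `bk (fk^[m+1] u') k` is `PE` to `bk (Jn n s (YY ε (m+1)) (fk^[m+1] u)) k ≠ 0` (InsB).  Marker: with `w = fk^[m] u`:
`fk^[m] u' 2 = c • w 2`, `fk^[m] u' 3 = c' • cv (YY ε m) (w 2) = cv ((c' c⁻¹) • YY ε m) (c • w 2)`, and `cv (c⁻¹ • v) (c • w 2) = e0`. -/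
def S_Ins : Prop := ∀ (ε : ZMod 2) (n s : ℕ), 3 ≤ n → CertM ε n s → CertM ε (n + 2) (s + 2)

/-- **InsZ.**  Insertion of one link.  Proof.  Let `s' = s + 4` (so `s' = s - 1` modulo five).  For a sequence `w` which is quasi-periodic for `(n, s)` define
`w'` by `w' k = cyc (s' * (k / (n+1))) (if k % (n+1) ≤ 2 then w (k % (n+1)) else cyc (-1) (w (k % (n+1) - 1)))`; it is quasi-periodic for `(n + 1, s')`, and
`w' (-1) = w (-1)`, `w' k = w k` for `0 ≤ k ≤ 2`, `w' (k+1) = cyc (-1) (w k)` for `2 ≤ k ≤ n`.  Take `u'`, `x'`.  Note `u' 3 = cyc (-1) (u 2)`, `u' 2 = u 2 = cyc (-1) (u 1)`.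
`x' k = bk u' k` for `k = 0, …, n`, `k ≠ 1`: `k = 0, 2`: the neighbours are the old ones; `k = 3`: `bk u' 3 = X5 (cyc (-1) (u 2)) (u 2) … = cyc (-1) (X5 (u 2) (cyc 1 (u 2)) …)
= cyc (-1) (X5 (u 2) (u 1) …) = cyc (-1) (x 2) = x' 3` (for `n ≥ 3` the number `n` does not divide `2 - 1`); `k ≥ 4`: `cyc (-1) (bk u (k-1))` (for `k - 1 ≤ n - 1`, and
`k = n`: `k - 1 = n - 1`; `n ∤ (k-1) - 1` for `3 ≤ k - 1 ≤ n - 1`).  `fk x' k ≠ 0`: `k = 0, 1`: the old values; `k = 2`: `X5 (x 2) (cyc (-1) (x 2)) … ≠ 0` (marker);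
`k ≥ 3`: `cyc (-1) (fk x (k-1))`.  The marker at the new sequences is the old one (`u' 1 = u 1`, `u' 2 = u 2`, `x' 2 = x 2`). -/
def S_InsZ : Prop := ∀ n s : ℕ, 3 ≤ n → CertZM n s → CertZM (n + 1) (s + 4)

/-- **FinM.**  Finite certificates with a marker.  Proof as for FinC: with `seq a k = cyc ((k / n) * s) (a (k % n))`, `u = seq (A 0)` and `r m = m` for `m < T + P`,
`r m = T + (m - T) % P` otherwise, `fk^[m] u = seq (A (r m))`, and `r m` has the parity of `m` because `P` is even; the marker at time `m` is the one of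
`A (r m)` (`seq a 2 = a 2`, `seq a 3 = a 3` as `n ≥ 4`). -/
def S_FinM : Prop := ∀ (ε : ZMod 2) (n : ℕ) [NeZero n] (s : ℕ) (A : ℕ → Fin n → V5 (ZMod 9))
  (tt vv : ℕ → V5 (ZMod 9)) (T P : ℕ), 4 ≤ n →
  0 < P → P % 2 = 0 → (∀ m, m < T + P → fs (s : ZMod 5) (A m) = A (m + 1)) → A (T + P) = A T →
  (∀ m, m < T + P → ∀ k, bs (s : ZMod 5) (A (m + 1)) k ≠ 0) →
  (∃ α β γ : ZMod 9, A 0 0 = α • A 0 1 + β • cyc (-1) (A 0 1) + γ • cyc (-2) (A 0 1)) →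
  (∀ m, m < T + P → A m (Fin.ofNat n 3) = cv (tt m) (A m (Fin.ofNat n 2)) ∧
    UN (tt m (sgi ε (m : ZMod 2))) ∧ tt m (sgi (ε + 1) (m : ZMod 2)) = 0 ∧
    cv (vv m) (A m (Fin.ofNat n 2)) = e0) → CertM ε n s

/-- **FinZM.**  Proof.  As FinZ, `u = seq a`, `x = seq b`; `seq a 2 = a 2` as `n ≥ 3`. -/
def S_FinZM : Prop := ∀ (n : ℕ) [NeZero n] (s : ℕ) (a b : Fin n → V5 (ZMod 9)), 3 ≤ n →
  (∃ α β γ : ZMod 9, a 0 = α • a 1 + β • cyc (-1) (a 1) + γ • cyc (-2) (a 1)) →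
  (∀ k, k ≠ 1 → b k = bs (s : ZMod 5) a k) →
  (∃ η, b 1 = X5 (a 1) (cyc (-1) (a 1)) (cyc (-2) (a 1)) η) → b 1 ≠ 0 →
  (∀ k, fs (s : ZMod 5) b k ≠ 0) → a 2 = cyc (-1) (a 1) →
  X5 (b 2) (cyc (-1) (b 2)) (cyc 1 (b 2)) (cyc 2 (b 2)) ≠ 0 → CertZM n s

end Pool.Agent.MP62a5ad.RI
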