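import Pool.Agent.Lib.MP_62a5ad_mp.RI.Spec

/-!
# MP_62a5ad: `5 n - 2` algebraically independent elements along the orbit
-/

set_option autoImplicit false

namespace Pool.Agent.MP62a5ad.RI

open Matrix

namespace trbAux

noncomputable instance fixFintype (n : ℕ) [NeZero n] (k : Fin n) : Fintype (FreeIx n k) := by
  unfold FreeIx
  classical
  infer_instance

theorem card_free (n : ℕ) [NeZero n] (k : Fin n) (hn : 2 ≤ n) :
    Fintype.card (FreeIx n k) = 5 * n - 2 := by
  classical
  have h1 : Fintype.card (FreeIx n k)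
      = Fintype.card {x : Fin n × Fin 5 // x.1 ≠ k - 1 ∨ x.2 < 3} := by
    unfold FreeIx
    exact Fintype.card_congr (Equiv.refl _)
  rw [h1, Fintype.card_subtype]
  have h2 : (Finset.univ.filter fun x : Fin n × Fin 5 => x.1 ≠ k - 1 ∨ x.2 < 3)
      = Finset.univ \ (({k - 1} : Finset (Fin n)) ×ˢ ({3, 4} : Finset (Fin 5))) := by
    ext ⟨a, b⟩
    simp only [Finset.mem_filter, Finset.mem_univ, true_and, Finset.mem_sdiff, Finset.mem_product,
      Finset.mem_singleton, Finset.mem_insert, not_and_or]
    have h3 : (b < 3) ↔ ¬ (b = 3 ∨ b = 4) := by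
      revert b; decide
    rw [h3]
  rw [h2, Finset.card_sdiff_of_subset (Finset.subset_univ _), Finset.card_univ,
    Finset.card_product, Fintype.card_prod, Fintype.card_fin, Fintype.card_fin]
  simp
  omega

theorem ind (n : ℕ) [NeZero n] (L : Type) [Field L] (k : Fin n) :
    AlgebraicIndependent L (fun x : FreeIx n k =>
      algebraMap (PR n L) (FractionRing (PR n L)) (MvPolynomial.X x.1)) := by
  have h1 : AlgebraicIndependent L (MvPolynomial.X : Fin n × Fin 5 → PR n L) :=
    MvPolynomial.algebraicIndependent_X _ _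
  have h2 : AlgebraicIndependent L
      ((IsScalarTower.toAlgHom L (PR n L) (FractionRing (PR n L))) ∘
        (MvPolynomial.X : Fin n × Fin 5 → PR n L)) := by
    refine h1.map' ?_
    intro a b hab
    exact IsFractionRing.injective (PR n L) (FractionRing (PR n L)) hab
  exact h2.comp (fun x : FreeIx n k => x.1) (fun a b h => Subtype.ext h)

theorem im_up {n : ℕ} [NeZero n] {L : Type} [Field L] (d : Dat n L) (v : Pg n (PR n L)) :
    im (fwd (d.up (PR n L)) v) = fwd (d.up (FractionRing (PR n L))) (im v) :=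
  fwd_up (IsScalarTower.toAlgHom L (PR n L) (FractionRing (PR n L))) d v

theorem im_bup {n : ℕ} [NeZero n] {L : Type} [Field L] (d : Dat n L) (v : Pg n (PR n L)) :
    im (bwd (d.up (PR n L)) v) = bwd (d.up (FractionRing (PR n L))) (im v) :=
  bwd_up (IsScalarTower.toAlgHom L (PR n L) (FractionRing (PR n L))) d v

theorem im_ne {n : ℕ} {L : Type} [Field L] (v : Pg n (PR n L)) (j : Fin n) (h : v j ≠ 0) :
    im v j ≠ 0 := by
  intro h0
  apply h
  funext i
  have h1 := congrFun h0 i
  exact (IsFractionRing.injective (PR n L) (FractionRing (PR n L)))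
    (h1.trans (map_zero _).symm)

theorem main (h1 : S_Alg) (h2 : S_Tow) (h3 : S_Ori) (n : ℕ) [NeZero n] (L : Type) [Field L]
    (d d' : Dat n L) (k : Fin n) (hn : 2 ≤ n) (hB : IsUnit (d.B (k - 1)).det) (hz : NZ d k)
    (hr : REG d d' k) (m : ℕ) (x : FreeIx n k) :
    IsAlgebraic (fld L (im (orb d d' k m)))
      (algebraMap (PR n L) (FractionRing (PR n L)) (MvPolynomial.X x.1)) := by
  induction m with
  | zero =>
    have h := h3 n L d k hn hB hz x
    exact isAlgebraic_algebraMap (⟨_, h⟩ : fld L (im (psi d k)))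
  | succ m ih =>
    refine h2 n L (FractionRing (PR n L)) (im (orb d d' k m)) (im (orb d d' k (m + 1))) _ ?_ ih
    have e : im (orb d d' k (m + 1))
        = fwd ((if m % 2 = 0 then d' else d).up (FractionRing (PR n L)))
            (im (orb d d' k m)) := im_up _ _
    rw [e]
    refine h1 n L (FractionRing (PR n L)) (if m % 2 = 0 then d' else d) (im (orb d d' k m)) ?_
    intro j
    rw [← e, ← im_bup]
    exact im_ne _ _ (hr m j)

end trbAux

open trbAux in
theorem trb (h1 : S_Alg) (h2 : S_Tow) (h3 : S_Ori) : S_Trb := by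
  intro n _ L _ d d' k hn hB hz hr m
  have e : Fintype.card (FreeIx n k) = 5 * n - 2 := card_free n k hn
  let E : FreeIx n k ≃ Fin (5 * n - 2) := Fintype.equivFinOfCardEq e
  refine ⟨fun i => algebraMap (PR n L) (FractionRing (PR n L)) (MvPolynomial.X (E.symm i).1),
    ?_, ?_⟩
  · exact (ind n L k).comp E.symm E.symm.injective
  · intro i
    exact main h1 h2 h3 n L d d' k hn hB hz hr m (E.symm i)

end Pool.Agent.MP62a5ad.RI
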